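import Pool.Agent.U49.SD.Path
import Pool.Agent.Y258.SX.XCore5

set_option autoImplicit false
set_option linter.unusedSectionVars false

/-!
# One stage, parameters still free
-/

namespace Pool.Agent.U49

open Finset Pool.Agent.H470D4 Pool.Agent.Y258
open Pool.Agent.H935R2.PS (La uu nn dl mx Suit)
open Pool.Agent.R843.SX (SuitG St_Z6 St_Z9 St_Z10 St_Z11 St_Z12)
open Pool.Agent.Y290.SD (qpos two_pow_La)
open Pool.Agent.Y258.X (EQ SQ SQ_nonneg EE_SQ AlX_dep)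

/-- (N18) a random row process, parameters still free -/
def St_N18 : Prop := ∀ n κ : ℕ, ∃ C : ℕ, ∀ (q : ℕ) [Fact q.Prime], SuitG q → C ≤ q →
  ∀ (M B : ℕ) (c : Flg q M B n), IsFlags c → 0 < M → 0 < B → ∀ K0 K1 : ℕ,
  (n + 5) * uu q + C ≤ K0 → K0 ≤ La q → K0 + 1 ≤ κ * uu q → K1 + 1 ≤ κ * uu q →
  C * (B * (M * B + 1) ^ n * La q ^ (n + 3)) ≤ 2 ^ K0 →
  C * ((M * B + 1) ^ (n + 3) * La q ^ (n + 2)) ≤ 2 ^ K1 →
  C * (M * B + 1) ^ (2 * n + 6) ≤ q → ∀ θ : ℝ, 0 < θ →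
  ∃ ω : Pth q B, (∀ r ≤ M * B, Exc c ω r) ∧
    ∀ (X : Fin (n+2) → ℕ → ZMod q) (Y : ℕ → ZMod q), (∀ a j, M * B ≤ j → X a j = 0) →
      (∀ j, M * B ≤ j → Y j = 0) →
      |∑ r ∈ range (M * B), XX c (cD M B X Y) ω r| ≤
        C * (((M * B : ℕ) : ℝ) ^ (n + 2) * (La q : ℝ) ^ (n + 1) * (uu q : ℝ) ^ 2 +
          ((M * B : ℕ) : ℝ) ^ (n + 1) * M * (La q : ℝ) ^ (n + 2) * (uu q : ℝ) +
          ((M * B : ℕ) : ℝ) ^ (n + 1) * (La q : ℝ) ^ (n + 3) +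
          θ * (((M * B : ℕ) : ℝ) * M * ((La q : ℝ) ^ (2 * n + 4) * (uu q : ℝ) ^ 2 *
            ((B : ℝ) ^ 2 * ((M * B : ℕ) : ℝ) ^ (2 * n)) +
            (La q : ℝ) ^ (n + 2) * (B * ((M * B : ℕ) : ℝ) ^ n * 2 ^ K0)) + 1) +
          ((M * B : ℕ) : ℝ) * (La q : ℝ) / θ)

namespace Nu

lemma p2 {n : ℕ} {μ Mr Br L U κ C8 CS CR CO CT ab at' t1 t2 t5 eB : ℝ}
    (hμ : 1 ≤ μ) (hM : 1 ≤ Mr) (hμMB : μ = Mr * Br)
    (hCS : 0 ≤ CS)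
    (ht1 : t1 = μ ^ (n + 2) * L ^ (n + 1) * U ^ 2)
    (ht2 : t2 = μ ^ (n + 1) * Mr * L ^ (n + 2) * U)
    (ht5 : t5 = μ ^ (n + 1) * L ^ (n + 3))
    (hB : 0 ≤ Br)
    (hab : ab ≤ (1 + CR + CO) * κ * (L ^ (n + 2) * U))
    (hat : at' ≤ CT * κ ^ 2 * (L ^ (n + 1) * U ^ 2))
    (heB : eB = (((n:ℝ) + 3) * ((n + 2) * μ ^ (n + 1))) * (C8 * L ^ (n + 3)) +
      (μ * ((n + 2) * (Mr * (2 * n + 6) * μ ^ n))) * (CS * ab) +
      (μ * (Mr * ((n + 2) * (Br * μ ^ n)))) * (CS * at')) :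
    eB ≤ (((n:ℝ) + 3) * (n + 2) * C8) * t5 +
      (((n:ℝ) + 2) * (2 * n + 6) * CS * (1 + CR + CO) * κ) * t2 +
      (((n:ℝ) + 2) * CS * CT * κ ^ 2) * t1 := by
  have h0 : 0 < μ := by linarith
  have h0' : 0 < Mr := by linarith
  have hn : (0:ℝ) ≤ n := Nat.cast_nonneg n
  have e1 : (μ * (((n:ℝ) + 2) * (Mr * (2 * n + 6) * μ ^ n))) * (CS * ab) ≤
      (μ * ((n + 2) * (Mr * (2 * n + 6) * μ ^ n))) *
        (CS * ((1 + CR + CO) * κ * (L ^ (n + 2) * U))) := by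
    apply mul_le_mul_of_nonneg_left _ (by positivity)
    exact mul_le_mul_of_nonneg_left hab hCS
  have e2 : (μ * (Mr * (((n:ℝ) + 2) * (Br * μ ^ n)))) * (CS * at') ≤
      (μ * (Mr * ((n + 2) * (Br * μ ^ n)))) * (CS * (CT * κ ^ 2 * (L ^ (n + 1) * U ^ 2))) := by
    apply mul_le_mul_of_nonneg_left _ (by positivity)
    exact mul_le_mul_of_nonneg_left hat hCS
  have e3 : (μ * (((n:ℝ) + 2) * (Mr * (2 * n + 6) * μ ^ n))) *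
        (CS * ((1 + CR + CO) * κ * (L ^ (n + 2) * U))) =
        (((n:ℝ) + 2) * (2 * n + 6) * CS * (1 + CR + CO) * κ) * t2 := by
    rw [ht2]; ring
  have e4 : (μ * (Mr * (((n:ℝ) + 2) * (Br * μ ^ n)))) *
      (CS * (CT * κ ^ 2 * (L ^ (n + 1) * U ^ 2))) =
      (((n:ℝ) + 2) * CS * CT * κ ^ 2) * t1 := by
    rw [ht1]
    have : μ ^ (n + 2) = μ * (Mr * Br) * μ ^ n := by rw [← hμMB]; ring
    rw [this]; ring
  have e5 : (((n:ℝ) + 3) * ((n + 2) * μ ^ (n + 1))) * (C8 * L ^ (n + 3)) =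
      (((n:ℝ) + 3) * (n + 2) * C8) * t5 := by
    rw [ht5]; ring
  rw [heB]
  linarith

lemma p4 {n : ℕ} {μ Mr Br L U κ K kk C11 C12 C13 NB t1 : ℝ} (hμ : 1 ≤ μ) (hM : 1 ≤ Mr)
    (hB : 1 ≤ Br) (hL : 1 ≤ L) (hU : 1 ≤ U) (hK : 0 < K) (hκ : 0 ≤ κ)
    (hμMB : μ = Mr * Br) (hC13 : 0 ≤ C13)
    (ht1 : t1 = μ ^ (n + 2) * L ^ (n + 1) * U ^ 2)
    (hkk : kk ≤ κ * U)
    (hKd : Br * μ ^ n * L ^ (n + 3) ≤ K) :
    μ * (Mr * (((n:ℝ) + 2) * (Br * μ ^ n) *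
        (C11 * L ^ (n + 1) * U ^ 2 + NB * (C12 * L ^ (n + 1) * U ^ 2) +
        ((n:ℝ) + 2) * (Br * μ ^ n) * (C13 * (L ^ (2 * n + 4) * kk) / K)))) ≤
      ((n:ℝ) + 2) * (C11 + NB * C12 + ((n:ℝ) + 2) * C13 * κ) * t1 := by
  have h0 : 0 < μ := by linarith
  have h0' : 0 < Mr := by linarith
  have h0'' : 0 < Br := by linarith
  have h0L : 0 < L := by linarith
  have h0U : 0 < U := by linarith
  have hn : (0:ℝ) ≤ n := Nat.cast_nonneg n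
  have hm : μ ^ (n + 2) = μ * (Mr * Br) * μ ^ n := by rw [← hμMB]; ring
  have e1 : μ * (Mr * (((n:ℝ) + 2) * (Br * μ ^ n) *
      (C11 * L ^ (n + 1) * U ^ 2 + NB * (C12 * L ^ (n + 1) * U ^ 2) +
      ((n:ℝ) + 2) * (Br * μ ^ n) * (C13 * (L ^ (2 * n + 4) * kk) / K)))) =
      ((n:ℝ) + 2) * ((C11 + NB * C12) * t1) +
        ((n:ℝ) + 2) * (((n:ℝ) + 2) * C13) *
        (μ ^ (n + 2) * (Br * μ ^ n * L ^ (n + 3) / K) * (L ^ (n + 1) * kk)) := by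
    rw [ht1, hm]
    have : L ^ (2 * n + 4) = L ^ (n + 3) * L ^ (n + 1) := by rw [← pow_add]; congr 1; omega
    rw [this]; ring
  rw [e1]
  have e2 : Br * μ ^ n * L ^ (n + 3) / K ≤ 1 := by rw [div_le_one hK]; exact hKd
  have e3 : μ ^ (n + 2) * (Br * μ ^ n * L ^ (n + 3) / K) * (L ^ (n + 1) * kk) ≤ κ * t1 := by
    calc μ ^ (n + 2) * (Br * μ ^ n * L ^ (n + 3) / K) * (L ^ (n + 1) * kk)
        ≤ μ ^ (n + 2) * (Br * μ ^ n * L ^ (n + 3) / K) * (L ^ (n + 1) * (κ * U)) := by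
          apply mul_le_mul_of_nonneg_left _ (by positivity)
          exact mul_le_mul_of_nonneg_left hkk (by positivity)
      _ ≤ μ ^ (n + 2) * 1 * (L ^ (n + 1) * (κ * U)) := by
          apply mul_le_mul_of_nonneg_right _ (by positivity)
          exact mul_le_mul_of_nonneg_left e2 (by positivity)
      _ ≤ μ ^ (n + 2) * 1 * (L ^ (n + 1) * (κ * U ^ 2)) := by
          apply mul_le_mul_of_nonneg_left _ (by positivity)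
          apply mul_le_mul_of_nonneg_left _ (by positivity)
          apply mul_le_mul_of_nonneg_left _ hκ
          nlinarith
      _ = κ * t1 := by rw [ht1]; ring
  have e4 : ((n:ℝ) + 2) * (((n:ℝ) + 2) * C13) *
        (μ ^ (n + 2) * (Br * μ ^ n * L ^ (n + 3) / K) * (L ^ (n + 1) * kk)) ≤
        ((n:ℝ) + 2) * (((n:ℝ) + 2) * C13) * (κ * t1) :=
    mul_le_mul_of_nonneg_left e3 (by positivity)
  calc _ ≤ ((n:ℝ) + 2) * ((C11 + NB * C12) * t1) +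
        ((n:ℝ) + 2) * (((n:ℝ) + 2) * C13) * (κ * t1) := by linarith
    _ = _ := by ring

lemma p5 {n : ℕ} {μ Mr L U κ kk C11 t2 w : ℝ} (hμ : 1 ≤ μ) (hM : 1 ≤ Mr) (hL : 1 ≤ L)
    (hC : 0 ≤ C11) (hkk0 : 0 ≤ kk)
    (ht2 : t2 = μ ^ (n + 1) * Mr * L ^ (n + 2) * U) (hkk : kk ≤ κ * U)
    (hw : w ≤ 2 ^ (n + 1) * μ ^ (n + 1)) :
    ((n:ℝ) + 2) ^ 2 * (Mr * w) * (C11 * (L ^ (n + 2) * kk)) ≤
      ((n:ℝ) + 2) ^ 2 * 2 ^ (n + 1) * C11 * κ * t2 := by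
  have h0 : 0 < μ := by linarith
  calc ((n:ℝ) + 2) ^ 2 * (Mr * w) * (C11 * (L ^ (n + 2) * kk))
      ≤ ((n:ℝ) + 2) ^ 2 * (Mr * (2 ^ (n + 1) * μ ^ (n + 1))) * (C11 * (L ^ (n + 2) * kk)) := by
        gcongr
    _ ≤ ((n:ℝ) + 2) ^ 2 * (Mr * (2 ^ (n + 1) * μ ^ (n + 1))) *
        (C11 * (L ^ (n + 2) * (κ * U))) := by gcongr
    _ = _ := by rw [ht2]; ring

lemma p6a {n : ℕ} {μ Br L U K kk κ : ℝ} (hμ : 1 ≤ μ) (hB : 1 ≤ Br) (hL : 1 ≤ L) (hU : 1 ≤ U)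
    (hK : 0 < K) (hkk0 : 0 ≤ kk) (hkk : kk ≤ κ * U) (hκ : 1 ≤ κ) :
    (L ^ (n + 2) * kk) ^ 2 * (((n:ℝ) + 2) * (Br * μ ^ n)) ^ 2 +
      L ^ (n + 2) * K * (((n:ℝ) + 2) * (Br * μ ^ n)) ≤ (((n:ℝ) + 2) ^ 2 * κ ^ 2) *
        (L ^ (2 * n + 4) * U ^ 2 * (Br ^ 2 * μ ^ (2 * n)) + L ^ (n + 2) * (Br * μ ^ n * K)) := by
  have hn : (0:ℝ) ≤ n := Nat.cast_nonneg n
  have e2 : L ^ (n + 2) * K * (((n:ℝ) + 2) * (Br * μ ^ n)) ≤
      ((n:ℝ) + 2) ^ 2 * κ ^ 2 * (L ^ (n + 2) * (Br * μ ^ n * K)) := by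
    have h1 : ((n:ℝ) + 2) ≤ ((n:ℝ) + 2) ^ 2 * κ ^ 2 := by
      have h2 : 1 ≤ κ ^ 2 := one_le_pow₀ hκ
      have h3 : ((n:ℝ) + 2) ≤ ((n:ℝ) + 2) ^ 2 := by nlinarith
      have h4 : ((n:ℝ) + 2) ^ 2 ≤ ((n:ℝ) + 2) ^ 2 * κ ^ 2 :=
        le_mul_of_one_le_right (by positivity) h2
      linarith
    calc L ^ (n + 2) * K * (((n:ℝ) + 2) * (Br * μ ^ n)) =
        ((n:ℝ) + 2) * (L ^ (n + 2) * (Br * μ ^ n * K)) := by ring
      _ ≤ ((n:ℝ) + 2) ^ 2 * κ ^ 2 * (L ^ (n + 2) * (Br * μ ^ n * K)) :=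
          mul_le_mul_of_nonneg_right h1 (by positivity)
  have e3 : (L ^ (n + 2) * kk) ^ 2 * (((n:ℝ) + 2) * (Br * μ ^ n)) ^ 2 ≤
      ((n:ℝ) + 2) ^ 2 * κ ^ 2 * (L ^ (2 * n + 4) * U ^ 2 * (Br ^ 2 * μ ^ (2 * n))) := by
    have h1 : (μ ^ n) ^ 2 = μ ^ (2 * n) := by rw [← pow_mul]; congr 1; ring
    have h2 : (L ^ (n + 2)) ^ 2 = L ^ (2 * n + 4) := by rw [← pow_mul]; congr 1; ring
    calc (L ^ (n + 2) * kk) ^ 2 * (((n:ℝ) + 2) * (Br * μ ^ n)) ^ 2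
        ≤ (L ^ (n + 2) * (κ * U)) ^ 2 * (((n:ℝ) + 2) * (Br * μ ^ n)) ^ 2 := by gcongr
      _ = _ := by rw [← h1, ← h2]; ring
  rw [mul_add]
  linarith

lemma p6 {n : ℕ} {μ Mr Br L U K W V a C14 e5 Q θ : ℝ} (hμ : 1 ≤ μ) (hM : 1 ≤ Mr) (hB : 1 ≤ Br)
    (hL : 1 ≤ L) (hK : 0 < K) (hμMB : μ = Mr * Br) (hC : 0 ≤ C14) (he : 0 ≤ e5) (hθ : 0 < θ)
    (ha : 0 ≤ a)
    (hQ : Q = e5 * (μ ^ (n + 2) * L ^ (2 * n + 6)))
    (hKL : L ^ (n + 5) ≤ K)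
    (hW : W = L ^ (2 * n + 4) * U ^ 2 * (Br ^ 2 * μ ^ (2 * n)) + L ^ (n + 2) * (Br * μ ^ n * K))
    (hV : V ≤ a * W) :
    θ * (4 * (C14 * (μ * Mr * V + 48 * (Q + 1))) +
            48 * (2 * (C14 * (μ * Mr * V + Q)) + 1)) ≤
      (C14 * (100 * a + 288 * e5 + 192) + 48) * (θ * (μ * Mr * W + 1)) := by
  have h0 : 0 < μ := by linarith
  have h0' : 0 < Mr := by linarith
  have h0'' : 0 < Br := by linarith
  have h0L : 0 < L := by linarith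
  obtain ⟨x, hx⟩ : ∃ x : ℝ, x = μ * Mr * W := ⟨_, rfl⟩
  have hx0 : 0 ≤ x := by
    rw [hx, hW]
    have : 0 ≤ U ^ 2 := sq_nonneg _
    positivity
  have e1 : μ * Mr * V ≤ a * x := by
    calc μ * Mr * V ≤ μ * Mr * (a * W) :=
          mul_le_mul_of_nonneg_left hV (by positivity)
      _ = _ := by rw [hx]; ring
  have e2 : Q ≤ e5 * x := by
    rw [hQ, hx, hW]
    apply mul_le_mul_of_nonneg_left _ he
    have e3 : μ ^ (n + 2) = μ * Mr * (Br * μ ^ n) := by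
      have : μ ^ (n + 2) = μ * μ * μ ^ n := by ring
      rw [this]
      nth_rewrite 2 [hμMB]
      ring
    have e4 : L ^ (n + 4) ≤ K :=
      (pow_le_pow_right₀ hL (by omega)).trans hKL
    calc μ ^ (n + 2) * L ^ (2 * n + 6) = μ * Mr * (L ^ (n + 2) * (Br * μ ^ n * L ^ (n + 4))) := by
          rw [e3]
          have : L ^ (2 * n + 6) = L ^ (n + 2) * L ^ (n + 4) := by rw [← pow_add]; congr 1; omega
          rw [this]; ring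
      _ ≤ μ * Mr * (L ^ (n + 2) * (Br * μ ^ n * K)) := by gcongr
      _ ≤ μ * Mr * (L ^ (2 * n + 4) * U ^ 2 * (Br ^ 2 * μ ^ (2 * n)) +
            L ^ (n + 2) * (Br * μ ^ n * K)) := by
          apply mul_le_mul_of_nonneg_left _ (by positivity)
          have : 0 ≤ L ^ (2 * n + 4) * U ^ 2 * (Br ^ 2 * μ ^ (2 * n)) := by positivity
          linarith
  rw [← hx]
  have e6 : 4 * (C14 * (μ * Mr * V + 48 * (Q + 1))) +
            48 * (2 * (C14 * (μ * Mr * V + Q)) + 1) ≤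
      (C14 * (100 * a + 288 * e5 + 192) + 48) * (x + 1) := by
    have f1 := mul_le_mul_of_nonneg_left e1 hC
    have f2 := mul_le_mul_of_nonneg_left e2 hC
    have f3 : 0 ≤ C14 * a := by positivity
    have f4 : 0 ≤ C14 * e5 := by positivity
    have f5 : 0 ≤ C14 * x := by positivity
    nlinarith
  calc _ ≤ θ * ((C14 * (100 * a + 288 * e5 + 192) + 48) * (x + 1)) :=
        mul_le_mul_of_nonneg_left e6 hθ.le
    _ = _ := by ring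

end Nu

theorem n18_of (h1 : St_C1) (h2 : St_C2) (h3 : St_C3) (h5 : St_XQ) (h6 : St_Z10)
    (h8 : St_C8b) (h10 : St_C10) (h11 : St_Z11) (h12 : St_Z12) (hz6 : St_Z6) (hz9 : St_Z9)
    (h16 : St_C16) (h17 : St_C17) : St_N18 := by
  classical
  intro n κ
  obtain ⟨CS, hS⟩ := thmS n
  have hS : Sn n CS := hS
  obtain ⟨C5, h5⟩ := h5 n
  obtain ⟨C6, h6⟩ := h6 n
  obtain ⟨C8, h8⟩ := h8 n
  obtain ⟨CR, hR⟩ := eRD n
  obtain ⟨CO, hO⟩ := eOD n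
  obtain ⟨CT, hT⟩ := eOT n
  obtain ⟨CN, hN⟩ := eNS n
  obtain ⟨C11, h11⟩ := n11_of h10 h11 n CS hS
  obtain ⟨C12, h12⟩ := n12_of h12 n CS
  obtain ⟨C13, h13⟩ := n13_of hz6 n CS
  obtain ⟨C14, h14⟩ := n14_of hz9 n CS
  obtain ⟨NB, hNB⟩ : ∃ NB : ℕ, NB = (2 * (2 * (n + 1)) + 1) ^ (n + 2) := ⟨_, rfl⟩
  obtain ⟨e5, he5⟩ : ∃ e : ℕ, e = (n + 2) * NB * C5 := ⟨_, rfl⟩
  -- the constants
  obtain ⟨k1, hk1⟩ : ∃ k : ℕ, k = 2 ^ (n + 1) + 48 * ((n + 2) * CS * CT * κ ^ 2 + 1) +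
    2 * (48 * (C11 + C12) * (e5 + 1)) +
    2 * ((n + 2) * (C11 + NB * C12 + (n + 2) * C13 * κ)) := ⟨_, rfl⟩
  obtain ⟨k2, hk2⟩ : ∃ k : ℕ, k = 48 * ((n + 2) * (2 * n + 6) * CS * (1 + CR + CO) * κ) +
    2 * ((n + 2) ^ 2 * 2 ^ (n + 1) * C11 * κ) := ⟨_, rfl⟩
  obtain ⟨k5, hk5⟩ : ∃ k : ℕ, k = 48 * ((n + 3) * (n + 2) * C8) := ⟨_, rfl⟩
  obtain ⟨k3, hk3⟩ : ∃ k : ℕ, k = C14 * (100 * ((n + 2) ^ 2 * κ ^ 2) + 288 * e5 + 192) + 48 :=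
    ⟨_, rfl⟩
  obtain ⟨k4, hk4⟩ : ∃ k : ℕ, k = 2 * n + 11 := ⟨_, rfl⟩
  refine ⟨8 + 48 * 4 ^ (n + 4) + C5 + C6 + C8 + 48 * CN + C11 + C12 + C13 + C14 +
    k1 + k2 + k3 + k4 + k5, ?_⟩
  obtain ⟨C, hC⟩ : ∃ C : ℕ, C = 8 + 48 * 4 ^ (n + 4) + C5 + C6 + C8 + 48 * CN + C11 + C12 + C13 +
    C14 + k1 + k2 + k3 + k4 + k5 := ⟨_, rfl⟩
  rw [← hC]
  intro q hq hsuit hCq M B c hc hM hB K0 K1 hK0 hK0L hκ0 hκ1 hdens hdens1 hsm θ hθ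
  have hq8 : 8 ≤ q := by omega
  -- basic facts
  have hLa1 : 1 ≤ La q := by
    unfold La
    exact Nat.log_pos (by norm_num) (by omega)
  have huu1 : 1 ≤ uu q := by unfold uu; omega
  obtain ⟨m, hm⟩ : ∃ m : ℕ, m = M * B := ⟨_, rfl⟩
  have hm1 : 1 ≤ m := by rw [hm]; exact Nat.mul_pos hM hB
  have hK011 : (n + 5) * uu q ≤ K0 := by
    omega
  -- density
  have hAl : ∀ (j : ℕ) (ω : Pth q B), q ^ B ≤ 2 * (AlX c K0 (2*n+6) j ω).card := by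
    refine h6 q hsuit (by omega) M B c hc hM K0 (2*n+6) (by omega) hK011 hK0L (le_trans ?_ hdens)
    apply Nat.mul_le_mul (by omega)
    apply Nat.mul_le_mul_left
    exact Nat.pow_le_pow_right hLa1 (by omega)
  have hsm' : 48 * (4:ℝ) ^ (n + 4) * ((M * B + 1 : ℕ) : ℝ) ^ (2 * n + 6) ≤ q := by
    have h : 48 * 4 ^ (n + 4) * (M * B + 1) ^ (2 * n + 6) ≤ q :=
      le_trans (Nat.mul_le_mul_right _ (by omega)) hsm
    exact_mod_cast h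
  -- the costs
  obtain ⟨ab, hab⟩ : ∃ ab : ℝ, ab = (La q : ℝ) ^ (n + 2) + CR * ((La q : ℝ) ^ (n + 2) * (K1 + 1)) +
    CO * ((La q : ℝ) ^ (n + 1) * (K1 + 1)) := ⟨_, rfl⟩
  obtain ⟨at', hat⟩ : ∃ at' : ℝ, at' = CT * ((La q : ℝ) ^ (n + 1) * (K1 + 1) ^ 2) := ⟨_, rfl⟩
  obtain ⟨eB, heB⟩ : ∃ eB : ℝ, eB =
      (((n + 3) * ((n + 2) * (M * B) ^ (n+1)) : ℕ) : ℝ) * (C8 * (La q : ℝ) ^ (n + 3)) +
      (((M * B) * ((n + 2) * (M * (2*n+6) * (M * B) ^ n)) : ℕ) : ℝ) * (CS * ab) +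
      (((M * B) * (M * ((n + 2) * (B * (M * B) ^ n))) : ℕ) : ℝ) * (CS * at') := ⟨_, rfl⟩
  have hab0 : 0 ≤ ab := by rw [hab]; positivity
  have hat0 : 0 ≤ at' := by rw [hat]; positivity
  have heB0 : 0 ≤ eB := by rw [heB]; positivity
  have hSBE : ∀ (Al : ℕ → Pth q B → Finset (Blk q B)), (∀ j ω, q ^ B ≤ 2 * (Al j ω).card) →
      ∀ ω₀, EE Al 0 (M * B * M) (SBc CS c K1 (2*n+6)) ω₀ ≤ eB := by
    intro Al hd ω₀
    have hne := Al_ne (q := q) (B := B) (by omega) Al hd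
    rw [heB]
    refine EE_SBc Al (by omega) (fun l r a1 a2 ω₀ => h8 q hq8 M B c hc Al hd l r a1 a2 ω₀)
      (by positivity) (fun l r a1 a2 a3 a4 ω₀ => ?_) hab0
      (fun l r a1 a2 a3 a4 ω₀ => ?_) hat0 ω₀
    · rw [EE_add_fun, EE_add_fun, EE_cst Al hne, hab]
      have b1 := hR q hq8 M B c hc Al hd l r a1 a2 K1 (fun _ => 1) (fun _ _ _ => rfl)
        (fun _ => zero_le_one) ω₀
      simp only [one_mul] at b1
      rw [EE_cst Al hne, mul_one] at b1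
      have b2 := hO q hq8 M B c hc Al hd l r a1 a2 a3 a4 K1 ω₀
      linarith
    · rw [hat]
      exact hT q hq8 M B c hc Al hd l r a1 a2 a3 a4 K1 ω₀
  have hNSE : ∀ (Al : ℕ → Pth q B → Finset (Blk q B)), (∀ j ω, q ^ B ≤ 2 * (Al j ω).card) →
      ∀ ω₀, EE Al 0 (M * B * M) (NS c K1) ω₀ ≤ 1 / 48 := by
    intro Al hd ω₀
    refine (hN q hq8 M B c hc Al hd K1 ω₀).trans ?_
    rw [div_le_div_iff₀ (by positivity) (by norm_num)]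
    have h7 : 48 * CN * ((M * B + 1) ^ (n + 3) * La q ^ (n + 2)) ≤ 2 ^ K1 :=
      le_trans (Nat.mul_le_mul_right _ (by omega)) hdens1
    have h7' : 48 * (CN:ℝ) * (((M * B + 1 : ℕ) : ℝ) ^ (n + 3) * (La q : ℝ) ^ (n + 2)) ≤
        2 ^ K1 := by exact_mod_cast h7
    linarith
  obtain ⟨ω, hE, hNR, hNS, hAω, hGω, hSB, hSP, hmain⟩ := exists_gp (CS := CS) (C11 := C11)
    (C12 := C12) (C13 := C13) (C14 := C14) (K0 := K0) (K1 := K1) h1 h2 h3 h10 h17 hS hc hq8 hM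
    hAl hsm' (a5 := C5 * (La q : ℝ) ^ (2 * n + 6)) (eB := eB)
    (by positivity) heB0
    (fun Al hd r l l' a1 a2 a3 ω₀ => h5 q hq8 M B c hc Al hd r l l' a1 a2 a3 ω₀)
    hSBE hNSE
    (fun ω r b l a1 a2 X Y t => h11 q hsuit (by omega) M B c hc K0 (2*n+6) (by omega)
      (by omega) hK0L ω r b l a1 a2 X Y t)
    (fun ω r b l l' a1 a2 a3 a4 a5 => h12 q hsuit (by omega) M B c hc K0 (2*n+6) (by omega)
      (by omega) hK0L ω r b l l' a1 a2 a3 a4 a5)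
    (fun ω r b l l' a1 a2 a3 a4 a5 => h13 q hsuit (by omega) M B c hc K0 (2*n+6) (by omega)
      (by omega) hK0L ω r b l l' a1 a2 a3 a4 a5)
    (fun ω r b a1 a2 => h14 q hsuit (by omega) M B c hc K0 (2*n+6) (by omega) (by omega) hK0L
      ω r b a1 a2) hθ
  refine ⟨ω, hE, ?_⟩
  intro X Y hX hY
  -- the data
  let δ : Dlt q M B n := (fun a j => X a j, fun j => Y j, fun j => row M ω j (xX M B X))
  have hX' : (fun a => ex (δ.1 a)) = X := by funext a; exact ex_eq _ _ (hX a)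
  have hY' : ex δ.2.1 = Y := ex_eq _ _ hY
  have ht' : ∀ r < M * B, ex δ.2.2 r = row M ω r (xX M B X) := by
    intro r hr
    exact ex_lt δ.2.2 ⟨r, hr⟩
  have hmainδ := hmain δ
  rw [hX', hY'] at hmainδ
  obtain ⟨t, ht⟩ : ∃ t, t = ex δ.2.2 := ⟨_, rfl⟩
  rw [← ht] at hmainδ ht'
  have hbbs := sum_nb (C11 := C11) (C12 := C12) (C13 := C13) (K0 := K0) hc h16 hE X Y t ht'
  have hme := main_e (K0 := K0) (c := c) hAω hGω X Y t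
  rw [← hme] at hmainδ
  -- row decomposition
  have hrow : |∑ r ∈ range (M * B), XX c (cD M B X Y) ω r -
      ∑ r ∈ range (M * B), (if r < n + 3 then 0 else
      ∑ b ∈ range M, ∑ l ∈ IL M B n (2*n+6) r b,
        TT c (cD M B X Y) t ω r l * ii (OG c ω l r))| ≤
      (M * B : ℕ) * ((M * B + 1 : ℕ) : ℝ) ^ (n + 1) + SBc CS c K1 (2*n+6) ω := by
    rw [← sum_sub_distrib]
    refine (abs_sum_le_sum_abs _ _).trans ?_
    refine (sum_le_sum fun r hr => row_dec h10 hS hq8 c (K1 := K1) (K7 := 2*n+6) (by omega) ω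
      hE hNR hNS X Y t (mem_range.1 hr) (ht' r (mem_range.1 hr))).trans ?_
    rw [sum_add_distrib, sum_const, card_range, nsmul_eq_mul]
    exact le_rfl
  -- real numbers
  clear hAω hGω hNR hme h1 h2 h3 h5 h6 h8 h10 h11 h12 h13 h14 h16 h17 hmain hSBE hNSE hR hO hT hN
    hS hNS hz6 hz9
  obtain ⟨S, hS⟩ : ∃ S : ℝ, S = ∑ r ∈ range (M * B), XX c (cD M B X Y) ω r := ⟨_, rfl⟩
  obtain ⟨S', hS'⟩ : ∃ S' : ℝ, S' = ∑ r ∈ range (M * B), (if r < n + 3 then 0 else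
      ∑ b ∈ range M, ∑ l ∈ IL M B n (2*n+6) r b,
        TT c (cD M B X Y) t ω r l * ii (OG c ω l r)) := ⟨_, rfl⟩
  obtain ⟨bbv, hbbv⟩ : ∃ b : ℝ, b = ∑ j ∈ range (M * B * M), ii (GP c (2*n+6) j ω) *
      (2 * nb c K0 (2*n+6) C11 C12 C13 X Y t (j / M) (M - 1 - j % M) ω) := ⟨_, rfl⟩
  obtain ⟨SBv, hSBv⟩ : ∃ b : ℝ, b = SBc CS c K1 (2*n+6) ω := ⟨_, rfl⟩
  obtain ⟨SPv, hSPv⟩ : ∃ b : ℝ, b = SQ c (2*n+6) ω := ⟨_, rfl⟩
  rw [← hS, ← hS', ← hSBv] at hrow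
  rw [← hS', ← hbbv] at hmainδ
  rw [← hbbv, ← hSPv] at hbbs
  rw [← hSBv] at hSB
  rw [← hSPv] at hSP
  rw [← hS]
  clear hS hS' hbbv hSBv hSPv hX' hY' ht ht' hX hY δ hE X Y ω
  obtain ⟨L, hL⟩ : ∃ L : ℝ, L = La q := ⟨_, rfl⟩
  obtain ⟨U, hU⟩ : ∃ U : ℝ, U = uu q := ⟨_, rfl⟩
  obtain ⟨K, hK⟩ : ∃ K : ℝ, K = 2 ^ K0 := ⟨_, rfl⟩
  obtain ⟨μ, hμ⟩ : ∃ μ : ℝ, μ = ((M * B : ℕ) : ℝ) := ⟨_, rfl⟩
  obtain ⟨Mr, hMr⟩ : ∃ Mr : ℝ, Mr = M := ⟨_, rfl⟩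
  obtain ⟨Br, hBr⟩ : ∃ Br : ℝ, Br = B := ⟨_, rfl⟩
  have hL1 : 1 ≤ L := by rw [hL]; exact_mod_cast hLa1
  have hU1 : 1 ≤ U := by rw [hU]; exact_mod_cast huu1
  have hM1 : 1 ≤ Mr := by rw [hMr]; exact_mod_cast hM
  have hB1 : 1 ≤ Br := by rw [hBr]; exact_mod_cast hB
  have hμMB : μ = Mr * Br := by rw [hμ, hMr, hBr]; push_cast; ring
  have hμ1 : 1 ≤ μ := by rw [hμ]; rw [hm] at hm1; exact_mod_cast hm1
  have hKp : 0 < K := by rw [hK]; positivity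
  have hKp' : 1 ≤ K := by rw [hK]; exact one_le_pow₀ (by norm_num)
  have hκn : 1 ≤ κ := by
    rcases Nat.eq_zero_or_pos κ with h | h
    · rw [h] at hκ0; omega
    · exact h
  have hκr : (1:ℝ) ≤ κ := by exact_mod_cast hκn
  have hkk0 : (K0:ℝ) + 1 ≤ κ * U := by rw [hU]; exact_mod_cast hκ0
  have hkk1 : (K1:ℝ) + 1 ≤ κ * U := by rw [hU]; exact_mod_cast hκ1
  have hKd : Br * μ ^ n * L ^ (n + 3) ≤ K := by
    have h7 : 1 * (B * (M * B) ^ n * La q ^ (n + 3)) ≤ 2 ^ K0 := by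
      refine le_trans ?_ hdens
      apply Nat.mul_le_mul (by omega)
      apply Nat.mul_le_mul_right
      apply Nat.mul_le_mul_left
      exact Nat.pow_le_pow_left (by omega) n
    rw [one_mul] at h7
    rw [hBr, hμ, hL, hK]
    exact_mod_cast h7
  have hKL : L ^ (n + 5) ≤ K := by
    have h7 : La q ^ (n + 5) ≤ 2 ^ K0 := by
      calc La q ^ (n + 5) ≤ (2 ^ uu q) ^ (n + 5) :=
            Nat.pow_le_pow_left (Pool.Agent.Y258.X.La_lt_two_pow q).le _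
        _ = 2 ^ ((n + 5) * uu q) := by rw [← pow_mul, mul_comm]
        _ ≤ 2 ^ K0 := Nat.pow_le_pow_right (by norm_num) hK011
    rw [hL, hK]
    exact_mod_cast h7
  have hLK : L ^ (2 * n + 6) / K ≤ L ^ (n + 1) := by
    rw [div_le_iff₀ hKp]
    calc L ^ (2 * n + 6) = L ^ (n + 1) * L ^ (n + 5) := by rw [← pow_add]; congr 1; omega
      _ ≤ L ^ (n + 1) * K := mul_le_mul_of_nonneg_left hKL (by positivity)
  -- the terms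
  obtain ⟨t1, ht1⟩ : ∃ t1 : ℝ, t1 = μ ^ (n + 2) * L ^ (n + 1) * U ^ 2 := ⟨_, rfl⟩
  obtain ⟨t2, ht2⟩ : ∃ t2 : ℝ, t2 = μ ^ (n + 1) * Mr * L ^ (n + 2) * U := ⟨_, rfl⟩
  obtain ⟨t5, ht5⟩ : ∃ t5 : ℝ, t5 = μ ^ (n + 1) * L ^ (n + 3) := ⟨_, rfl⟩
  obtain ⟨W, hW⟩ : ∃ W : ℝ, W = L ^ (2 * n + 4) * U ^ 2 * (Br ^ 2 * μ ^ (2 * n)) +
    L ^ (n + 2) * (Br * μ ^ n * K) := ⟨_, rfl⟩
  obtain ⟨t3, ht3⟩ : ∃ t3 : ℝ, t3 = θ * (μ * Mr * W + 1) := ⟨_, rfl⟩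
  obtain ⟨t4, ht4⟩ : ∃ t4 : ℝ, t4 = μ * L / θ := ⟨_, rfl⟩
  have hgoal : ((C:ℕ):ℝ) * (((M * B : ℕ) : ℝ) ^ (n + 2) * (La q : ℝ) ^ (n + 1) * (uu q : ℝ) ^ 2 +
          ((M * B : ℕ) : ℝ) ^ (n + 1) * M * (La q : ℝ) ^ (n + 2) * (uu q : ℝ) +
          ((M * B : ℕ) : ℝ) ^ (n + 1) * (La q : ℝ) ^ (n + 3) +
          θ * (((M * B : ℕ) : ℝ) * M * ((La q : ℝ) ^ (2 * n + 4) * (uu q : ℝ) ^ 2 *
            ((B : ℝ) ^ 2 * ((M * B : ℕ) : ℝ) ^ (2 * n)) +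
            (La q : ℝ) ^ (n + 2) * (B * ((M * B : ℕ) : ℝ) ^ n * 2 ^ K0)) + 1) +
          ((M * B : ℕ) : ℝ) * (La q : ℝ) / θ) = C * (t1 + t2 + t5 + t3 + t4) := by
    rw [ht1, ht2, ht5, ht3, ht4, hW, hμ, hL, hU, hMr, hBr, hK]
  rw [hgoal]
  have hLn : 1 ≤ L ^ (n + 1) := one_le_pow₀ hL1
  have hμn : 1 ≤ μ ^ (n + 2) := one_le_pow₀ hμ1
  have hU2 : 1 ≤ U ^ 2 := one_le_pow₀ hU1
  have hb1 : μ ^ (n + 2) * L ^ (n + 1) ≤ t1 := by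
    rw [ht1]; exact le_mul_of_one_le_right (by positivity) hU2
  have hb0 : μ ^ (n + 2) ≤ t1 := (le_mul_of_one_le_right (by positivity) hLn).trans hb1
  have h1t : 1 ≤ t1 := hμn.trans hb0
  have ht10 : 0 ≤ t1 := zero_le_one.trans h1t
  have ht20 : 0 ≤ t2 := by rw [ht2]; positivity
  have ht50 : 0 ≤ t5 := by rw [ht5]; positivity
  have hW0 : 0 ≤ W := by rw [hW]; positivity
  have ht30 : 0 ≤ t3 := by rw [ht3]; positivity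
  have ht40 : 0 ≤ t4 := by rw [ht4]; positivity
  -- the expected accidental contribution
  obtain ⟨Q, hQ⟩ : ∃ Q : ℝ, Q = EQ M B n (C5 * (La q : ℝ) ^ (2 * n + 6)) := ⟨_, rfl⟩
  have hQe : Q = (e5:ℝ) * (μ ^ (n + 2) * L ^ (2 * n + 6)) := by
    rw [hQ]
    unfold EQ
    rw [← hNB, ← hμ, ← hMr, ← hBr, ← hL, he5]
    have : μ ^ (n + 2) = μ * (Mr * Br) * μ ^ n := by rw [← hμMB]; ring
    rw [this]
    push_cast
    ring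
  rw [← hQ] at hSP hmainδ
  -- the pieces
  have hμp1 : (((M * B + 1 : ℕ) : ℝ)) ^ (n + 1) ≤ 2 ^ (n + 1) * μ ^ (n + 1) := by
    rw [← mul_pow]
    apply pow_le_pow_left₀ (by positivity)
    have e1 : M * B + 1 ≤ 2 * (M * B) := by omega
    rw [hμ]
    exact_mod_cast e1
  have p1 : ((M * B : ℕ) : ℝ) * ((M * B + 1 : ℕ) : ℝ) ^ (n + 1) ≤ 2 ^ (n + 1) * t1 := by
    rw [← hμ]
    calc μ * ((M * B + 1 : ℕ) : ℝ) ^ (n + 1) ≤ μ * (2 ^ (n + 1) * μ ^ (n + 1)) :=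
          mul_le_mul_of_nonneg_left hμp1 (by positivity)
      _ = 2 ^ (n + 1) * μ ^ (n + 2) := by ring
      _ ≤ 2 ^ (n + 1) * t1 := mul_le_mul_of_nonneg_left hb0 (by positivity)
  have hab1 : ab ≤ (1 + (CR:ℝ) + CO) * κ * (L ^ (n + 2) * U) := by
    rw [hab, ← hL]
    have f1 : L ^ (n + 2) ≤ κ * (L ^ (n + 2) * U) := by
      have : 1 ≤ κ * U := by
        have : (0:ℝ) ≤ K1 := Nat.cast_nonneg _
        linarith
      calc L ^ (n + 2) = L ^ (n + 2) * 1 := (mul_one _).symm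
        _ ≤ L ^ (n + 2) * (κ * U) := mul_le_mul_of_nonneg_left this (by positivity)
        _ = _ := by ring
    have f2 : (CR:ℝ) * (L ^ (n + 2) * (K1 + 1)) ≤ CR * (κ * (L ^ (n + 2) * U)) := by
      apply mul_le_mul_of_nonneg_left _ (Nat.cast_nonneg _)
      calc L ^ (n + 2) * (K1 + 1) ≤ L ^ (n + 2) * (κ * U) :=
            mul_le_mul_of_nonneg_left hkk1 (by positivity)
        _ = _ := by ring
    have f3 : (CO:ℝ) * (L ^ (n + 1) * (K1 + 1)) ≤ CO * (κ * (L ^ (n + 2) * U)) := by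
      apply mul_le_mul_of_nonneg_left _ (Nat.cast_nonneg _)
      calc L ^ (n + 1) * (K1 + 1) ≤ L ^ (n + 2) * (κ * U) := by
            apply mul_le_mul (pow_le_pow_right₀ hL1 (by omega)) hkk1 (by positivity)
              (by positivity)
        _ = _ := by ring
    calc _ ≤ κ * (L ^ (n + 2) * U) + CR * (κ * (L ^ (n + 2) * U)) +
          CO * (κ * (L ^ (n + 2) * U)) := by linarith
      _ = _ := by ring
  have hat1 : at' ≤ (CT:ℝ) * κ ^ 2 * (L ^ (n + 1) * U ^ 2) := by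
    rw [hat, ← hL]
    calc (CT:ℝ) * (L ^ (n + 1) * (K1 + 1) ^ 2) ≤ CT * (L ^ (n + 1) * (κ * U) ^ 2) := by gcongr
      _ = _ := by ring
  have p2' := Nu.p2 (n := n) (μ := μ) (Mr := Mr) (Br := Br) (L := L) (U := U) (κ := κ)
    (C8 := C8) (CS := CS) (CR := CR) (CO := CO) (CT := CT) (ab := ab) (at' := at') (t1 := t1)
    (t2 := t2) (t5 := t5) (eB := eB) hμ1 hM1 hμMB (Nat.cast_nonneg _) ht1 ht2 ht5
    (by linarith) hab1 hat1 (by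
      rw [heB, hμ, hMr, hBr, hL]
      push_cast
      ring)
  have p3 : ((C11:ℝ) + C12) / 2 ^ K0 * SPv ≤ 48 * ((C11:ℝ) + C12) * (e5 + 1) * t1 := by
    rw [← hK]
    exact Pool.Agent.Y258.X.Num.x3 (n := n) hμ1 hKp' hL1 (by positivity) (Nat.cast_nonneg _) hQe
      hLK hb1 h1t hSP
  have p4 : ((M * B : ℕ) : ℝ) * (M * (((n + 2 : ℕ) * (B * ((M * B : ℕ) : ℝ) ^ n)) *
        (C11 * (La q : ℝ) ^ (n + 1) * (uu q : ℝ) ^ 2 +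
        ((2 * (2 * (n + 1)) + 1) ^ (n + 2) : ℕ) *
          (C12 * (La q : ℝ) ^ (n + 1) * (uu q : ℝ) ^ 2) +
        ((n + 2 : ℕ) * (B * ((M * B : ℕ) : ℝ) ^ n)) *
          (C13 * ((La q : ℝ) ^ (2 * n + 4) * (K0 + 1)) / 2 ^ K0)))) ≤
      ((n:ℝ) + 2) * (C11 + NB * C12 + ((n:ℝ) + 2) * C13 * κ) * t1 := by
    rw [← hNB, ← hL, ← hK, ← hμ, ← hMr, ← hBr, ← hU]
    have e1 := Nu.p4 (n := n) (μ := μ) (Mr := Mr) (Br := Br) (L := L) (U := U) (κ := κ) (K := K)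
      (kk := (K0:ℝ) + 1) (C11 := C11) (C12 := C12) (C13 := C13) (NB := NB) (t1 := t1) hμ1 hM1 hB1
      hL1 hU1 hKp (by linarith) hμMB (Nat.cast_nonneg _) ht1 hkk0 hKd
    have e2 : (((n + 2 : ℕ) : ℝ)) = (n:ℝ) + 2 := by push_cast; rfl
    rw [e2]
    exact e1
  have p5 : (((n + 2) ^ 2 * (M * (M * B + 1) ^ (n + 1)) : ℕ) : ℝ) *
      (C11 * ((La q : ℝ) ^ (n + 2) * (K0 + 1))) ≤
      ((n:ℝ) + 2) ^ 2 * 2 ^ (n + 1) * C11 * κ * t2 := by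
    have e1 : (((n + 2) ^ 2 * (M * (M * B + 1) ^ (n + 1)) : ℕ) : ℝ) =
        ((n:ℝ) + 2) ^ 2 * (Mr * ((M * B + 1 : ℕ) : ℝ) ^ (n + 1)) := by
      rw [hMr]; push_cast; ring
    rw [e1, ← hL]
    exact Nu.p5 hμ1 hM1 hL1 (Nat.cast_nonneg _) (by positivity) ht2 hkk0 hμp1
  have p6 : θ * (4 * (C14 * ((M * B * M : ℕ) * W1 q M B n K0 + 48 * (Q + 1))) +
            48 * (2 * (C14 * ((M * B * M : ℕ) * W1 q M B n K0 + Q)) + 1)) ≤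
      (C14 * (100 * (((n:ℝ) + 2) ^ 2 * κ ^ 2) + 288 * e5 + 192) + 48) * t3 := by
    have e0 : (((M * B * M : ℕ) : ℝ)) = μ * Mr := by rw [hμ, hMr]; push_cast; ring
    have e1 : W1 q M B n K0 ≤ (((n:ℝ) + 2) ^ 2 * κ ^ 2) * W := by
      unfold W1
      rw [← hL, ← hK, ← hμ, ← hBr, hW]
      have e2 : (((n + 2 : ℕ) : ℝ)) = (n:ℝ) + 2 := by push_cast; rfl
      rw [e2]
      exact Nu.p6a hμ1 hB1 hL1 hU1 hKp (by positivity) hkk0 hκr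
    rw [e0, ht3]
    exact Nu.p6 (n := n) (U := U) hμ1 hM1 hB1 hL1 hKp hμMB (Nat.cast_nonneg _)
      (Nat.cast_nonneg _) hθ (by positivity) hQe hKL hW e1
  have p7 : Real.log (8 * (q:ℝ) ^ ((n + 4) * (M * B))) / θ ≤ (2 * (n:ℝ) + 11) * t4 := by
    have hq0 : (0:ℝ) < q := by exact_mod_cast (by omega : 0 < q)
    have e1 : Real.log (8 * (q:ℝ) ^ ((n + 4) * (M * B))) ≤ (2 * (n:ℝ) + 11) * (μ * L) := by
      rw [Real.log_mul (by norm_num) (by positivity), Real.log_pow]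
      have e4 : (((n + 4) * (M * B) : ℕ) : ℝ) = ((n:ℝ) + 4) * μ := by rw [hμ]; push_cast; ring
      rw [e4]
      refine Y258.Num.n7 hμ1 hL1 log8_le ?_
      rw [hL]
      exact log_le_La (by omega)
    rw [ht4, ← mul_div_assoc]
    exact div_le_div_of_nonneg_right e1 hθ.le
  -- conclusion
  have hK1' : ((k1:ℕ):ℝ) = 2 ^ (n + 1) + 48 * (((n:ℝ) + 2) * CS * CT * κ ^ 2 + 1) +
      2 * (48 * ((C11:ℝ) + C12) * (e5 + 1)) +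
      2 * (((n:ℝ) + 2) * (C11 + NB * C12 + ((n:ℝ) + 2) * C13 * κ)) := by
    rw [hk1]; push_cast; ring
  have hK2' : ((k2:ℕ):ℝ) = 48 * (((n:ℝ) + 2) * (2 * n + 6) * CS * (1 + CR + CO) * κ) +
    2 * (((n:ℝ) + 2) ^ 2 * 2 ^ (n + 1) * C11 * κ) := by rw [hk2]; push_cast; ring
  have hK5' : ((k5:ℕ):ℝ) = 48 * (((n:ℝ) + 3) * (n + 2) * C8) := by rw [hk5]; push_cast; ring
  have hK3' : ((k3:ℕ):ℝ) = C14 * (100 * (((n:ℝ) + 2) ^ 2 * κ ^ 2) + 288 * e5 + 192) + 48 := by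
    rw [hk3]; push_cast; ring
  have hK4' : ((k4:ℕ):ℝ) = 2 * (n:ℝ) + 11 := by rw [hk4]; push_cast; ring
  rw [← hK3'] at p6
  rw [← hK4'] at p7
  have hsum : |S| ≤ k1 * t1 + k2 * t2 + k5 * t5 + k3 * t3 + k4 * t4 := by
    have e1 : |S| ≤ |S - S'| + |S'| := by
      have := abs_add_le (S - S') S'
      rwa [sub_add_cancel] at this
    have e2 : SBv ≤ 48 * ((((n:ℝ) + 3) * (n + 2) * C8) * t5 +
      (((n:ℝ) + 2) * (2 * n + 6) * CS * (1 + CR + CO) * κ) * t2 +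
      (((n:ℝ) + 2) * CS * CT * κ ^ 2) * t1 + t1) := by linarith
    rw [hK1', hK2', hK5']
    linarith
  refine hsum.trans ?_
  have g1 : ((k1:ℕ):ℝ) ≤ C := by exact_mod_cast (by omega)
  have g2 : ((k2:ℕ):ℝ) ≤ C := by exact_mod_cast (by omega)
  have g3 : ((k3:ℕ):ℝ) ≤ C := by exact_mod_cast (by omega)
  have g4 : ((k4:ℕ):ℝ) ≤ C := by exact_mod_cast (by omega)
  have g5 : ((k5:ℕ):ℝ) ≤ C := by exact_mod_cast (by omega)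
  rw [mul_add, mul_add, mul_add, mul_add]
  exact add_le_add (add_le_add (add_le_add (add_le_add (mul_le_mul_of_nonneg_right g1 ht10)
    (mul_le_mul_of_nonneg_right g2 ht20)) (mul_le_mul_of_nonneg_right g5 ht50))
    (mul_le_mul_of_nonneg_right g3 ht30)) (mul_le_mul_of_nonneg_right g4 ht40)

end Pool.Agent.U49
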