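import Pool.Agent.U49.SD.Exp

set_option autoImplicit false
set_option linter.unusedSectionVars false

/-!
# The cost of the levels which are not increments
-/

namespace Pool.Agent.U49

open Finset Pool.Agent.H470D4 Pool.Agent.Y258
open Pool.Agent.H935R2.PS (La uu nn dl mx Suit)
open Pool.Agent.Y290.SD (qpos two_pow_La)

section cost
variable {q M B n : ℕ} [Fact q.Prime]

/-- the cost of a row -/
noncomputable def SBr (CS : ℕ) (c : Flg q M B n) (K1 K7 : ℕ) (ω : Pth q B) (r : ℕ) : ℝ :=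
  if r < n + 3 then ∑ l ∈ Pool.Agent.Y258.Mid M B n r, RR c ω l r else
    ∑ l ∈ Bdr M B n K7 r, CS * ((La q : ℝ) ^ (n + 2) + RD c K1 ω l r + OD c K1 ω l r) +
    ∑ β ∈ range M, ∑ l ∈ IL M B n K7 r β,
      CS * (ii (¬ OT c K1 ω l r) * (2 * OD c K1 ω l r + RD c K1 ω l r))

/-- the total cost -/
noncomputable def SBc (CS : ℕ) (c : Flg q M B n) (K1 K7 : ℕ) (ω : Pth q B) : ℝ :=
  ∑ r ∈ range (M * B), SBr CS c K1 K7 ω r

lemma SBr_nonneg (CS : ℕ) (c : Flg q M B n) (K1 K7 : ℕ) (ω : Pth q B) (r : ℕ) :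
    0 ≤ SBr CS c K1 K7 ω r := by
  unfold SBr
  split_ifs
  · exact sum_nonneg fun l _ => RR_nonneg c ω l r
  · refine add_nonneg (sum_nonneg fun l _ => ?_) (sum_nonneg fun β _ => sum_nonneg fun l _ => ?_)
    · have := RD_nonneg c K1 ω l r
      have := OD_nonneg c K1 ω l r
      positivity
    · have := RD_nonneg c K1 ω l r
      have := OD_nonneg c K1 ω l r
      have := ii_nonneg (¬ OT c K1 ω l r)
      positivity

lemma SBc_nonneg (CS : ℕ) (c : Flg q M B n) (K1 K7 : ℕ) (ω : Pth q B) :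
    0 ≤ SBc CS c K1 K7 ω := sum_nonneg fun r _ => SBr_nonneg CS c K1 K7 ω r

lemma EE_SBc (Al : ℕ → Pth q B → Finset (Blk q B))
    {c : Flg q M B n} {CS K1 K7 : ℕ} (hK7 : 1 ≤ K7) {a ab at' : ℝ}
    (h8b : ∀ (l : Fin (n+2) → ℕ) (r : ℕ), r < M * B → dm M B l r ≤ n + 2 → ∀ ω₀,
      EE Al 0 (M * B * M) (fun ω => RR c ω l r) ω₀ ≤ a) (ha : 0 ≤ a)
    (hb : ∀ (l : Fin (n+2) → ℕ) (r : ℕ), r < M * B → dm M B l r ≤ n + 2 →
      ∑ a, l a + (n + 2) ≤ M * B → ∑ a, l a + r ≤ M * B → ∀ ω₀,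
      EE Al 0 (M * B * M) (fun ω => (La q : ℝ) ^ (n + 2) + RD c K1 ω l r + OD c K1 ω l r) ω₀ ≤ ab)
    (hab : 0 ≤ ab)
    (ht : ∀ (l : Fin (n+2) → ℕ) (r : ℕ), r < M * B → dm M B l r ≤ n + 2 →
      ∑ a, l a + (n + 2) ≤ M * B → ∑ a, l a + r ≤ M * B → ∀ ω₀,
      EE Al 0 (M * B * M) (fun ω => ii (¬ OT c K1 ω l r) *
        (2 * OD c K1 ω l r + RD c K1 ω l r)) ω₀ ≤ at')
    (hat : 0 ≤ at') (ω₀ : Pth q B) :
    EE Al 0 (M * B * M) (SBc CS c K1 K7) ω₀ ≤
      (((n + 3) * ((n + 2) * (M * B) ^ (n+1)) : ℕ) : ℝ) * a +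
      (((M * B) * ((n + 2) * (M * K7 * (M * B) ^ n)) : ℕ) : ℝ) * (CS * ab) +
      (((M * B) * (M * ((n + 2) * (B * (M * B) ^ n))) : ℕ) : ℝ) * (CS * at') := by
  classical
  obtain ⟨A1, hA1⟩ : ∃ A : ℝ, A = (((n + 2) * (M * B) ^ (n+1) : ℕ) : ℝ) * a := ⟨_, rfl⟩
  obtain ⟨A2, hA2⟩ : ∃ A : ℝ, A = (((n + 2) * (M * K7 * (M * B) ^ n) : ℕ) : ℝ) * (CS * ab) :=
    ⟨_, rfl⟩
  obtain ⟨A3, hA3⟩ : ∃ A : ℝ, A = ((M * ((n + 2) * (B * (M * B) ^ n)) : ℕ) : ℝ) * (CS * at') :=
    ⟨_, rfl⟩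
  have hA10 : 0 ≤ A1 := by rw [hA1]; positivity
  have hA20 : 0 ≤ A2 := by rw [hA2]; positivity
  have hA30 : 0 ≤ A3 := by rw [hA3]; positivity
  have hrow : ∀ r ∈ range (M * B), EE Al 0 (M * B * M) (fun ω => SBr CS c K1 K7 ω r) ω₀ ≤
      (if r < n + 3 then A1 else 0) + (A2 + A3) := by
    intro r hr
    rw [mem_range] at hr
    unfold SBr
    by_cases h3 : r < n + 3
    · simp only [h3, if_true]
      rw [EE_sum]
      have h1 : ∑ l ∈ Pool.Agent.Y258.Mid M B n r, EE Al 0 (M * B * M) (fun ω => RR c ω l r) ω₀ ≤ A1 := by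
        calc _ ≤ ∑ _l ∈ Pool.Agent.Y258.Mid M B n r, a := by
              refine sum_le_sum fun l hl => ?_
              have h2 := mem_Mid.1 hl
              exact h8b l r hr (by unfold dm; omega) ω₀
          _ = ((Pool.Agent.Y258.Mid M B n r).card : ℝ) * a := by rw [sum_const, nsmul_eq_mul]
          _ ≤ _ := by
              rw [hA1]
              apply mul_le_mul_of_nonneg_right _ ha
              exact_mod_cast card_Mid M B n r
      linarith
    · simp only [h3, if_false]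
      rw [EE_add_fun, EE_sum, EE_sum]
      have h1 : ∑ l ∈ Bdr M B n K7 r, EE Al 0 (M * B * M) (fun ω =>
          CS * ((La q : ℝ) ^ (n + 2) + RD c K1 ω l r + OD c K1 ω l r)) ω₀ ≤ A2 := by
        calc _ ≤ ∑ _l ∈ Bdr M B n K7 r, CS * ab := by
              refine sum_le_sum fun l hl => ?_
              unfold Bdr at hl
              have h2 := mem_Mid.1 (mem_filter.1 hl).1
              rw [EE_const_mul]
              exact mul_le_mul_of_nonneg_left
                (hb l r hr (by unfold dm; omega) (by omega) (by omega) ω₀) (Nat.cast_nonneg _)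
          _ = ((Bdr M B n K7 r).card : ℝ) * (CS * ab) := by rw [sum_const, nsmul_eq_mul]
          _ ≤ _ := by
              rw [hA2]
              apply mul_le_mul_of_nonneg_right _ (by positivity)
              exact_mod_cast card_Bdr M B n K7 r
      have h2 : ∑ β ∈ range M, EE Al 0 (M * B * M) (fun ω => ∑ l ∈ IL M B n K7 r β,
          CS * (ii (¬ OT c K1 ω l r) * (2 * OD c K1 ω l r + RD c K1 ω l r))) ω₀ ≤ A3 := by
        have h4 : ∀ β ∈ range M, EE Al 0 (M * B * M) (fun ω => ∑ l ∈ IL M B n K7 r β,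
          CS * (ii (¬ OT c K1 ω l r) * (2 * OD c K1 ω l r + RD c K1 ω l r))) ω₀ ≤
          (((n + 2) * (B * (M * B) ^ n) : ℕ) : ℝ) * (CS * at') := by
          intro β _
          rw [EE_sum]
          calc _ ≤ ∑ _l ∈ IL M B n K7 r β, CS * at' := by
                refine sum_le_sum fun l hl => ?_
                have h2 := mem_IL.1 hl
                rw [EE_const_mul]
                exact mul_le_mul_of_nonneg_left
                  (ht l r hr (by unfold dm; omega) (by omega) (by omega) ω₀) (Nat.cast_nonneg _)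
            _ = ((IL M B n K7 r β).card : ℝ) * (CS * at') := by rw [sum_const, nsmul_eq_mul]
            _ ≤ _ := by
                apply mul_le_mul_of_nonneg_right _ (by positivity)
                exact_mod_cast card_IL hK7
        refine (sum_le_sum h4).trans (le_of_eq ?_)
        rw [sum_const, card_range, nsmul_eq_mul, hA3]
        push_cast
        ring
      linarith
  unfold SBc
  rw [EE_sum]
  refine (sum_le_sum hrow).trans ?_
  rw [sum_add_distrib, sum_const, card_range, nsmul_eq_mul, ← sum_filter, sum_const, nsmul_eq_mul]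
  have h5 : (((range (M * B)).filter (fun r => r < n + 3)).card : ℝ) ≤ ((n + 3 : ℕ) : ℝ) := by
    have : ((range (M * B)).filter (fun r => r < n + 3)).card ≤ (range (n + 3)).card := by
      apply card_le_card
      intro r hr
      rw [mem_filter] at hr
      exact mem_range.2 hr.2
    rw [card_range] at this
    exact_mod_cast this
  calc _ ≤ ((n + 3 : ℕ) : ℝ) * A1 + ((M * B : ℕ) : ℝ) * (A2 + A3) := by
        apply add_le_add_left
        exact mul_le_mul_of_nonneg_right h5 hA10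
    _ = _ := by
        rw [hA1, hA2, hA3]
        push_cast
        ring

/-! no short relations -/

lemma NS_term {c : Flg q M B n} {K1 : ℕ} {ω : Pth q B} (h : NS c K1 ω < 1) {r : ℕ}
    (hr : r < M * B) (hr3 : n + 3 ≤ r) {l : Fin (n+2) → ℕ} (hl : ∀ a, l a < M * B)
    (h1 : 1 ≤ dm M B l r) (h2 : dm M B l r ≤ n + 2) :
    RL c ω l r (fun H => ii (Pool.Agent.Y258.Bd (dm M B l r) K1 H)) +
      OL c ω l r (fun O => ii (Pool.Agent.Y258.Bd (dm M B l r) K1 O)) < 1 := by
  refine lt_of_le_of_lt ?_ h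
  have h0 : ∀ (r : ℕ) (l : Fin (n+2) → ℕ),
      0 ≤ (if n + 3 ≤ r ∧ 1 ≤ dm M B l r ∧ dm M B l r ≤ n + 2 then
      RL c ω l r (fun H => ii (Pool.Agent.Y258.Bd (dm M B l r) K1 H)) +
      OL c ω l r (fun O => ii (Pool.Agent.Y258.Bd (dm M B l r) K1 O)) else 0) := by
    intro r l
    split_ifs
    · exact add_nonneg (RL_nonneg _ _ _ _ fun _ => ii_nonneg _)
        (OL_nonneg _ _ _ _ fun _ => ii_nonneg _)
    · exact le_rfl
  have hlB : l ∈ Lbox M B n := by
    unfold Lbox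
    rw [Fintype.mem_piFinset]
    exact fun a => mem_range.2 (hl a)
  have s1 := single_le_sum (f := fun l : Fin (n+2) → ℕ =>
    if n + 3 ≤ r ∧ 1 ≤ dm M B l r ∧ dm M B l r ≤ n + 2 then
      RL c ω l r (fun H => ii (Pool.Agent.Y258.Bd (dm M B l r) K1 H)) +
      OL c ω l r (fun O => ii (Pool.Agent.Y258.Bd (dm M B l r) K1 O)) else 0)
    (fun l _ => h0 r l) hlB
  have s2 := single_le_sum (f := fun r : ℕ => ∑ l ∈ Lbox M B n,
    if n + 3 ≤ r ∧ 1 ≤ dm M B l r ∧ dm M B l r ≤ n + 2 then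
      RL c ω l r (fun H => ii (Pool.Agent.Y258.Bd (dm M B l r) K1 H)) +
      OL c ω l r (fun O => ii (Pool.Agent.Y258.Bd (dm M B l r) K1 O)) else 0)
    (fun r _ => sum_nonneg fun l _ => h0 r l) (mem_range.2 hr)
  beta_reduce at s1 s2
  rw [if_pos ⟨hr3, h1, h2⟩] at s1
  exact s1.trans s2

lemma NS_RF {c : Flg q M B n} {K1 : ℕ} {ω : Pth q B} (h : NS c K1 ω < 1) {r : ℕ}
    (hr : r < M * B) (hr3 : n + 3 ≤ r) {l : Fin (n+2) → ℕ} (hl : ∀ a, l a < M * B)
    (h1 : 1 ≤ dm M B l r) (h2 : dm M B l r ≤ n + 2) :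
    RF c ω l r = RD c K1 ω l r ∧ OF c ω l r = OD c K1 ω l r := by
  have ht := NS_term h hr hr3 hl h1 h2
  have a1 : 0 ≤ RL c ω l r (fun H => ii (Pool.Agent.Y258.Bd (dm M B l r) K1 H)) :=
    RL_nonneg _ _ _ _ fun _ => ii_nonneg _
  have a2 : 0 ≤ OL c ω l r (fun O => ii (Pool.Agent.Y258.Bd (dm M B l r) K1 O)) :=
    OL_nonneg _ _ _ _ fun _ => ii_nonneg _
  constructor
  · apply RF_eq_RD
    intro H hH hR hb
    have h3 : (1:ℝ) ≤ RL c ω l r (fun H => ii (Pool.Agent.Y258.Bd (dm M B l r) K1 H)) := by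
      unfold RL
      have h6 := single_le_sum (f := fun H : Option (Fin (n+2)) → ZMod q =>
        ii (H none ≠ 0 ∧ Rel c ω l r H) * ii (Pool.Agent.Y258.Bd (dm M B l r) K1 H))
        (fun H _ => mul_nonneg (ii_nonneg _) (ii_nonneg _)) (mem_univ H)
      beta_reduce at h6
      rw [ii_true ⟨hH, hR⟩, ii_true hb, one_mul] at h6
      exact h6
    linarith
  · apply OF_eq_OD
    intro O hO hR hb
    have h3 : (1:ℝ) ≤ OL c ω l r (fun O => ii (Pool.Agent.Y258.Bd (dm M B l r) K1 O)) := by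
      unfold OL
      have h6 := single_le_sum (f := fun O : Fin (n+2) → ZMod q =>
        ii (O ≠ 0 ∧ OR c ω l r O) * ii (Pool.Agent.Y258.Bd (dm M B l r) K1 O))
        (fun O _ => mul_nonneg (ii_nonneg _) (ii_nonneg _)) (mem_univ O)
      beta_reduce at h6
      rw [ii_true ⟨hO, hR⟩, ii_true hb, one_mul] at h6
      exact h6
    linarith

/-- the contribution of a row, up to the increments -/
theorem row_dec (h10 : St_C10) {CS : ℕ} (hS : Sn n CS) (h8 : 8 ≤ q) (c : Flg q M B n)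
    {K1 K7 : ℕ} (hK : 1 ≤ K7) (ω : Pth q B)
    (hE : ∀ r ≤ M * B, Exc c ω r) (hN : NoRel c ω) (hNS : NS c K1 ω < 1)
    (X : Fin (n+2) → ℕ → ZMod q)
    (Y t : ℕ → ZMod q) {r : ℕ} (hr : r < M * B) (ht : t r = row M ω r (xX M B X)) :
    |XX c (cD M B X Y) ω r - (if r < n + 3 then 0 else
      ∑ b ∈ range M, ∑ l ∈ IL M B n K7 r b,
        TT c (cD M B X Y) t ω r l * ii (OG c ω l r))| ≤
      ((M * B + 1 : ℕ) : ℝ) ^ (n + 1) + SBr CS c K1 K7 ω r := by
  classical
  rw [XX_eq_TT c _ ω r t (by rw [xv_cD]; exact ht)]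
  set T : (Fin (n+2) → ℕ) → ℝ := fun l => TT c (cD M B X Y) t ω r l with hT
  have hbound : ∀ l, |T l| ≤ RR c ω l r := fun l => (h10 n q M B c ω r l hr (hE r hr.le) X Y t).1
  have hbig : ∀ l ∈ (Lbox M B n).filter (fun l => ∑ a, l a + r + (n + 3) ≤ M * B), T l = 0 := by
    intro l hl
    rw [mem_filter] at hl
    have h1 := hbound l
    have h2 : RR c ω l r = 0 := by
      unfold RR
      rw [Finset.filter_false_of_mem, sum_empty]
      rintro H _ ⟨h3, h4⟩
      exact hN l r hr hl.2 H h3 h4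
    rw [h2] at h1
    exact abs_nonpos_iff.1 h1
  have hsplit : ∑ l ∈ Lbox M B n, T l =
      ∑ l ∈ (Lbox M B n).filter (fun l => ∑ a, l a + r + (n + 3) ≤ M * B), T l +
      (∑ l ∈ Pool.Agent.Y258.Mid M B n r, T l +
       ∑ l ∈ (Lbox M B n).filter (fun l => M * B ≤ ∑ a, l a + r), T l) := by
    rw [← Finset.sum_filter_add_sum_filter_not (Lbox M B n)
      (fun l => ∑ a, l a + r + (n + 3) ≤ M * B)]
    congr 1
    rw [← Finset.sum_filter_not_add_sum_filter
      ((Lbox M B n).filter (fun l => ¬ (∑ a, l a + r + (n + 3) ≤ M * B)))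
      (fun l => M * B ≤ ∑ a, l a + r), Finset.filter_filter, Finset.filter_filter]
    congr 1
    · apply Finset.sum_congr _ (fun _ _ => rfl)
      unfold Pool.Agent.Y258.Mid
      apply Finset.filter_congr
      intro l _
      omega
    · apply Finset.sum_congr _ (fun _ _ => rfl)
      apply Finset.filter_congr
      intro l _
      omega
  rw [hsplit, sum_eq_zero hbig, zero_add]
  have hsmall := (Finset.abs_sum_le_sum_abs (fun l => T l)
    ((Lbox M B n).filter (fun l => M * B ≤ ∑ a, l a + r))).trans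
    (small_sum c (cD M B X Y) t ω r hr.le (hE r hr.le))
  by_cases h3 : r < n + 3
  · rw [if_pos h3, sub_zero]
    have h4 : |∑ l ∈ Pool.Agent.Y258.Mid M B n r, T l| ≤ SBr CS c K1 K7 ω r := by
      unfold SBr
      rw [if_pos h3]
      exact (abs_sum_le_sum_abs _ _).trans (sum_le_sum fun l _ => hbound l)
    refine (abs_add_le _ _).trans ?_
    linarith
  · rw [if_neg h3, Mid_split hK]
    -- the bound of a level
    have hlev : ∀ l : Fin (n+2) → ℕ, (∀ a, l a < M * B) → 1 ≤ dm M B l r → dm M B l r ≤ n + 2 →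
        |T l| ≤ CS * ((La q : ℝ) ^ (n + 2) + RD c K1 ω l r + OD c K1 ω l r) := by
      intro l hl h1 h2
      have h4 := hS q h8 M B c ω r l hr (hE r hr.le) h1 h2 X Y t
      obtain ⟨h5, h6⟩ := NS_RF hNS hr (by omega) hl h1 h2
      rw [h5, h6] at h4
      exact h4
    have h4 : |∑ l ∈ Bdr M B n K7 r, T l| ≤ ∑ l ∈ Bdr M B n K7 r,
        CS * ((La q : ℝ) ^ (n + 2) + RD c K1 ω l r + OD c K1 ω l r) := by
      refine (abs_sum_le_sum_abs _ _).trans (sum_le_sum fun l hl => ?_)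
      unfold Bdr at hl
      have h2 := mem_Mid.1 (mem_filter.1 hl).1
      exact hlev l h2.1 (by unfold dm; omega) (by unfold dm; omega)
    have h5 : |∑ b ∈ range M, ∑ l ∈ IL M B n K7 r b, T l -
        ∑ b ∈ range M, ∑ l ∈ IL M B n K7 r b, T l * ii (OG c ω l r)| ≤
        ∑ β ∈ range M, ∑ l ∈ IL M B n K7 r β,
          CS * (ii (¬ OT c K1 ω l r) * (2 * OD c K1 ω l r + RD c K1 ω l r)) := by
      rw [← sum_sub_distrib]
      refine (abs_sum_le_sum_abs _ _).trans (sum_le_sum fun b _ => ?_)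
      rw [← sum_sub_distrib]
      refine (abs_sum_le_sum_abs _ _).trans (sum_le_sum fun l hl => ?_)
      have h2 := mem_IL.1 hl
      have d1 : 1 ≤ dm M B l r := by unfold dm; omega
      have d2 : dm M B l r ≤ n + 2 := by unfold dm; omega
      obtain ⟨h5, h6⟩ := NS_RF hNS hr (by omega) h2.1 d1 d2
      have h7 := hlev l h2.1 d1 d2
      have g1 := RD_nonneg c K1 ω l r
      have g2 := OD_nonneg c K1 ω l r
      by_cases hO : OG c ω l r
      · rw [ii_true hO, mul_one, sub_self, abs_zero]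
        have := ii_nonneg (¬ OT c K1 ω l r)
        positivity
      · rw [ii_false hO, mul_zero, sub_zero]
        have hT' : ¬ OT c K1 ω l r := by
          intro h
          apply hO
          unfold OG
          rw [h6]
          exact h
        rw [ii_true hT', one_mul]
        refine h7.trans ?_
        apply mul_le_mul_of_nonneg_left _ (Nat.cast_nonneg _)
        have : (La q : ℝ) ^ (n + 2) ≤ OD c K1 ω l r := by
          unfold OT at hT'
          exact (not_le.1 hT').le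
        linarith
    have h6 : SBr CS c K1 K7 ω r = ∑ l ∈ Bdr M B n K7 r,
        CS * ((La q : ℝ) ^ (n + 2) + RD c K1 ω l r + OD c K1 ω l r) +
        ∑ β ∈ range M, ∑ l ∈ IL M B n K7 r β,
          CS * (ii (¬ OT c K1 ω l r) * (2 * OD c K1 ω l r + RD c K1 ω l r)) := by
      unfold SBr
      rw [if_neg h3]
    rw [h6]
    have e : ∀ a b s a' : ℝ, a + b + s - a' = (a - a') + b + s := by intros; ring
    rw [e]
    refine (abs_add_le _ _).trans ?_
    have h8' := abs_add_le (∑ b ∈ range M, ∑ l ∈ IL M B n K7 r b, T l -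
        ∑ b ∈ range M, ∑ l ∈ IL M B n K7 r b, T l * ii (OG c ω l r)) (∑ l ∈ Bdr M B n K7 r, T l)
    linarith

end cost

end Pool.Agent.U49
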