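import Pool.Agent.U49.SD.One

set_option autoImplicit false
set_option linter.unusedSectionVars false

/-!
# The decomposition of the indicator of an interval, direct space
-/

namespace Pool.Agent.U49

open Finset Pool.Agent.H470D4 Pool.Agent.Y258
open Pool.Agent.H935R2.PS (La uu nn dl mx Suit)
open Pool.Agent.Y255.SD (norm_char_sub4 norm_Fc norm_Fc_zero Fc_zero Fc_zero_le nn_pos dl_lt)

section maj
variable {q : ℕ} [hq : Fact q.Prime]

lemma sum_char'' (v : ZMod q) :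
    ∑ h : ZMod q, (ZMod.stdAddChar (h * v) : ℂ) = if v = 0 then (q:ℂ) else 0 :=
  Pool.Agent.H935R2.PS.TA2.sum_char' v

/-- the triangular kernel -/
noncomputable def kk (J : ℕ) (x : ZMod q) : ℝ :=
  (∑ i ∈ range (2 ^ J), ∑ i' ∈ range (2 ^ J), (if (i:ZMod q) - (i':ZMod q) + x = 0 then (1:ℝ) else 0)) /
    2 ^ J

lemma kk_nonneg (J : ℕ) (x : ZMod q) : 0 ≤ kk J x := by
  unfold kk
  apply div_nonneg _ (by positivity)
  exact sum_nonneg fun _ _ => sum_nonneg fun _ _ => by split_ifs <;> norm_num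

lemma conj_char (h : ZMod q) : (starRingEnd ℂ) (ZMod.stdAddChar h : ℂ) = ZMod.stdAddChar (-h) := by
  rw [AddChar.map_neg_eq_inv, Complex.inv_def]
  have h1 := norm_chi h
  rw [Complex.normSq_eq_norm_sq, h1]
  simp

lemma kk_ev (J : ℕ) (x : ZMod q) :
    ((kk J x : ℝ) : ℂ) = ev (fun h => ((2 ^ J / (q:ℝ) * ‖mj J h‖ ^ 2 : ℝ) : ℂ)) x := by
  have hq' : (q : ℂ) ≠ 0 := by exact_mod_cast (NeZero.ne q)
  unfold ev
  have e1 : ∀ h : ZMod q, (((2 ^ J / (q:ℝ) * ‖mj J h‖ ^ 2 : ℝ) : ℂ)) * ZMod.stdAddChar (h * x) =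
      (∑ i ∈ range (2 ^ J), ∑ i' ∈ range (2 ^ J),
        (ZMod.stdAddChar (h * ((i:ZMod q) - (i':ZMod q) + x)) : ℂ)) / (2 ^ J * q) := by
    intro h
    have e2 : ((‖mj J h‖ ^ 2 : ℝ) : ℂ) = mj J h * (starRingEnd ℂ) (mj J h) := by
      rw [Complex.mul_conj, Complex.normSq_eq_norm_sq]
    have e3 : mj J h = (∑ i ∈ range (2 ^ J), (ZMod.stdAddChar (h * (i:ZMod q)) : ℂ)) / 2 ^ J := by
      unfold mj
      congr 1
      refine sum_congr rfl fun i _ => ?_
      rw [mul_comm, ← nsmul_eq_mul, AddChar.map_nsmul_eq_pow]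
    have e4 : (starRingEnd ℂ) (mj J h) =
        (∑ i' ∈ range (2 ^ J), (ZMod.stdAddChar (-(h * (i':ZMod q))) : ℂ)) / 2 ^ J := by
      rw [e3, map_div₀, map_sum, map_pow]
      simp only [conj_char, map_ofNat]
    push_cast at e2 ⊢
    rw [e2, e4, e3]
    have e5 : ∑ i ∈ range (2 ^ J), ∑ i' ∈ range (2 ^ J),
        (ZMod.stdAddChar (h * ((i:ZMod q) - (i':ZMod q) + x)) : ℂ) =
        ((∑ i ∈ range (2 ^ J), (ZMod.stdAddChar (h * (i:ZMod q)) : ℂ)) *
        (∑ i' ∈ range (2 ^ J), (ZMod.stdAddChar (-(h * (i':ZMod q))) : ℂ))) *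
          ZMod.stdAddChar (h * x) := by
      rw [sum_mul_sum, sum_mul]
      refine sum_congr rfl fun i _ => ?_
      rw [sum_mul]
      refine sum_congr rfl fun i' _ => ?_
      rw [← AddChar.map_add_eq_mul, ← AddChar.map_add_eq_mul]
      congr 1
      ring
    rw [e5]
    field_simp
  rw [sum_congr rfl fun h _ => e1 h, ← sum_div]
  rw [sum_comm]
  have e6 : ∀ i ∈ range (2 ^ J), ∑ h : ZMod q, ∑ i' ∈ range (2 ^ J),
      (ZMod.stdAddChar (h * ((i:ZMod q) - (i':ZMod q) + x)) : ℂ) =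
      ∑ i' ∈ range (2 ^ J), (if (i:ZMod q) - (i':ZMod q) + x = 0 then (q:ℂ) else 0) := by
    intro i _
    rw [sum_comm]
    exact sum_congr rfl fun i' _ => sum_char'' _
  rw [sum_congr rfl e6]
  unfold kk
  push_cast
  have h2J : (2:ℂ) ^ J ≠ 0 := pow_ne_zero _ (by norm_num)
  rw [div_eq_div_iff h2J (mul_ne_zero h2J hq'), sum_mul, sum_mul]
  refine sum_congr rfl fun i _ => ?_
  rw [sum_mul, sum_mul]
  refine sum_congr rfl fun i' _ => ?_
  split_ifs
  · push_cast; ring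
  · push_cast; ring

lemma kk_half {J : ℕ} (hJ : 1 ≤ J) {i0 : ℕ} (hi : i0 ≤ 2 ^ (J - 1)) :
    1 / 2 ≤ kk J (-(i0 : ZMod q)) := by
  unfold kk
  rw [le_div_iff₀ (by positivity)]
  have e : 2 ^ J = 2 ^ (J - 1) + 2 ^ (J - 1) := by
    obtain ⟨k, rfl⟩ := Nat.exists_eq_add_of_le hJ
    rw [Nat.add_sub_cancel_left, pow_add]; ring
  have h1 : (2:ℝ) ^ (J - 1) ≤ ∑ i' ∈ range (2 ^ J), ∑ i ∈ range (2 ^ J),
      (if (i:ZMod q) - (i':ZMod q) + -(i0 : ZMod q) = 0 then (1:ℝ) else 0) := by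
    calc (2:ℝ) ^ (J - 1) = ∑ _i' ∈ range (2 ^ (J - 1)), (1:ℝ) := by simp
      _ ≤ ∑ i' ∈ range (2 ^ (J - 1)), ∑ i ∈ range (2 ^ J),
          (if (i:ZMod q) - (i':ZMod q) + -(i0 : ZMod q) = 0 then (1:ℝ) else 0) := by
          refine sum_le_sum fun i' hi' => ?_
          rw [mem_range] at hi'
          have h2 := single_le_sum (f := fun i : ℕ =>
            (if (i:ZMod q) - (i':ZMod q) + -(i0 : ZMod q) = 0 then (1:ℝ) else 0))
            (s := range (2 ^ J)) (fun i _ => by split_ifs <;> norm_num)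
            (mem_range.2 (show i' + i0 < 2 ^ J by omega))
          refine le_trans ?_ h2
          rw [if_pos]
          push_cast
          ring
      _ ≤ _ := by
          refine sum_le_sum_of_subset_of_nonneg ?_ fun i' _ _ => sum_nonneg fun i _ => by
            split_ifs <;> norm_num
          intro i' hi'
          rw [mem_range] at hi' ⊢
          omega
  rw [sum_comm] at h1
  have e2 : (2:ℝ) ^ J = 2 * 2 ^ (J - 1) := by exact_mod_cast (by rw [e]; ring : 2 ^ J = 2 * 2 ^ (J - 1))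
  rw [e2]
  linarith

/-- the coarse weights -/
noncomputable def alf (z : ℝ) (i : ℕ) (h : ZMod q) : ℝ :=
  if i = 0 then (if h = 0 then z else 0) else
    if h = 0 then 0 else 7 * ((1 / 2) ^ (dl h) * (1 / 2) ^ (ad i (dl h)))

/-- the fine weights -/
noncomputable def bet (i : ℕ) (h : ZMod q) : ℝ :=
  if i = 0 then (if h = 0 then 1 else 0) else
    24 * ((1 / 2) ^ (i - 1) * (1 / 4) ^ (dl h - (i - 1)))

lemma alf_nonneg {z : ℝ} (hz : 0 ≤ z) (i : ℕ) (h : ZMod q) : 0 ≤ alf z i h := by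
  unfold alf
  split_ifs <;> positivity

lemma bet_nonneg (i : ℕ) (h : ZMod q) : 0 ≤ bet i h := by
  unfold bet
  split_ifs <;> positivity

lemma dl_zero' : dl (0 : ZMod q) = 0 := Pool.Agent.Y255.SD.dl_zero

lemma alf_le {z : ℝ} (hz : z ≤ 1) (i : ℕ) (h : ZMod q) :
    alf z i h ≤ 7 * ((1 / 2) ^ (dl h) * (1 / 2) ^ (ad i (dl h))) := by
  unfold alf
  split_ifs with h1 h2 h3
  · subst h1
    subst h2
    rw [dl_zero']
    unfold ad
    norm_num
    linarith
  · positivity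
  · positivity
  · exact le_rfl

lemma bet_le (i : ℕ) (h : ZMod q) :
    bet i h ≤ 24 * ((1 / 2) ^ (i - 1) * (1 / 4) ^ (dl h - (i - 1))) := by
  unfold bet
  split_ifs with h1 h2
  · subst h1
    subst h2
    rw [dl_zero']
    norm_num
  · positivity
  · exact le_rfl

lemma ev_single (z : ℂ) (x : ZMod q) : ev (fun h => if h = 0 then z else 0) x = z := by
  unfold ev
  rw [Finset.sum_eq_single 0]
  · simp
  · intro h _ hh
    simp [hh]
  · intro h
    exact absurd (mem_univ _) h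

lemma maj_one {β : ZMod q → ℝ} (h0 : ∀ h, 0 ≤ β h) (h1 : 1 ≤ β 0) {g : ZMod q → ℂ}
    (hg : ∀ x, ‖g x‖ ≤ 1) : Maj β g := by
  refine ⟨fun h => if h = 0 then 1 else 0, fun _ => 1, hg, fun x => ?_, fun h => ?_⟩
  · rw [ev_single]
    simp
  · by_cases hh : h = 0
    · subst hh
      simp [h1]
    · simp [hh, h0]

lemma maj_zero {g : ZMod q → ℂ} (hg : ∀ x, ‖g x‖ ≤ 1) : Maj (bet 0) g := by
  refine maj_one (bet_nonneg 0) ?_ hg
  unfold bet
  simp

lemma maj_first {g : ZMod q → ℂ} (hg : ∀ x, ‖g x‖ ≤ 1) : Maj (bet 1) g := by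
  refine maj_one (bet_nonneg 1) ?_ hg
  unfold bet
  rw [dl_zero']
  norm_num

/-- a function supported near three points -/
lemma maj_near {y : ℕ} (hy : y ≤ La q) (P : Fin 3 → ZMod q) {g : ZMod q → ℂ}
    (hg : ∀ x, ‖g x‖ ≤ 1)
    (hs : ∀ x, g x ≠ 0 → ∃ k : Fin 3, ∃ i0 : ℕ, i0 < 2 ^ (La q - y + 1) ∧ x + (i0 : ZMod q) = P k) :
    Maj (bet (y + 1)) g := by
  obtain ⟨J, hJ⟩ : ∃ J, J = La q - y + 2 := ⟨_, rfl⟩
  refine ⟨fun h => ∑ k : Fin 3, (2 * ((2 ^ J / (q:ℝ) * ‖mj J h‖ ^ 2 : ℝ) : ℂ)) *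
    ZMod.stdAddChar (-(h * P k)), fun x => ∑ k : Fin 3, 2 * kk J (x - P k), fun x => ?_,
    fun x => ?_, fun h => ?_⟩
  · by_cases h0 : g x = 0
    · rw [h0, norm_zero]
      exact sum_nonneg fun k _ => mul_nonneg (by norm_num) (kk_nonneg _ _)
    · obtain ⟨k, i0, hi0, hx⟩ := hs x h0
      have h1 : x - P k = -(i0 : ZMod q) := by rw [← hx]; ring
      have h2 := kk_half (q := q) (J := J) (by omega) (i0 := i0) (by
        have : J - 1 = La q - y + 1 := by omega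
        rw [this]
        exact hi0.le)
      rw [← h1] at h2
      have h3 := single_le_sum (f := fun k : Fin 3 => 2 * kk J (x - P k))
        (s := univ) (fun k _ => mul_nonneg (by norm_num) (kk_nonneg _ _)) (mem_univ k)
      refine (hg x).trans (le_trans ?_ h3)
      linarith
  · push_cast
    simp only [kk_ev]
    unfold ev
    simp only [mul_sum, sum_mul]
    rw [sum_comm]
    refine sum_congr rfl fun h _ => sum_congr rfl fun k _ => ?_
    push_cast
    have e : (ZMod.stdAddChar (h * (x - P k)) : ℂ) =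
        ZMod.stdAddChar (-(h * P k)) * ZMod.stdAddChar (h * x) := by
      rw [← AddChar.map_add_eq_mul]
      congr 1
      ring
    rw [e]
    ring
  · refine (norm_sum_le _ _).trans ?_
    have h1 : ∀ k : Fin 3, ‖(2 * ((2 ^ J / (q:ℝ) * ‖mj J h‖ ^ 2 : ℝ) : ℂ)) *
        (ZMod.stdAddChar (-(h * P k)) : ℂ)‖ ≤ 8 * ((1 / 2) ^ y * (1 / 4) ^ (dl h - y)) := by
      intro k
      have h2 := fej_coef (h := h) hy
      have h3 : 0 ≤ 2 ^ J / (q:ℝ) * ‖mj J h‖ ^ 2 := by positivity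
      rw [norm_mul, norm_chi, mul_one, norm_mul, Complex.norm_real, Real.norm_eq_abs,
        abs_of_nonneg h3, Complex.norm_ofNat]
      rw [← hJ] at h2
      linarith
    refine (sum_le_sum fun k _ => h1 k).trans ?_
    unfold bet
    rw [if_neg (by omega), Nat.add_sub_cancel]
    simp
    linarith

end maj

end Pool.Agent.U49
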