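import Pool.Agent.U49.SD.Dcp

set_option autoImplicit false
set_option linter.unusedSectionVars false

/-!
# The decomposition of the indicator of an interval
-/

namespace Pool.Agent.U49

open Finset Pool.Agent.H470D4 Pool.Agent.Y258
open Pool.Agent.H935R2.PS (La uu nn dl mx Suit)
open Pool.Agent.Y255.SD (norm_char_sub4 norm_Fc norm_Fc_zero Fc_zero Fc_zero_le nn_pos dl_lt)

section interval
variable {q : ℕ} [hq : Fact q.Prime]

/-- the test function: the interval `{-t, …, -1}` plus `φ` times the point `0` -/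
noncomputable def fr (t : ℕ) (φ : ℝ) (u : ZMod q) : ℝ :=
  if u = 0 then φ else if (-u).val ≤ t then 1 else 0

lemma fr_mem {t : ℕ} {φ : ℝ} (h0 : 0 ≤ φ) (h1 : φ ≤ 1) (u : ZMod q) :
    0 ≤ fr t φ u ∧ fr t φ u ≤ 1 := by
  unfold fr
  split_ifs
  · exact ⟨h0, h1⟩
  · exact ⟨zero_le_one, le_rfl⟩
  · exact ⟨le_rfl, zero_le_one⟩

lemma fr_ev {t : ℕ} (ht : t < q) (φ : ℝ) (u : ZMod q) :
    ((fr t φ u : ℝ) : ℂ) = ev (Fc t φ) u := by
  unfold ev
  rw [Pool.Agent.Y838.SD.inv_Fc]
  unfold fr
  by_cases hu : u = 0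
  · subst hu
    rw [if_pos rfl, if_pos rfl, mul_one]
    have : ∑ j ∈ Icc 1 t, (if (j : ZMod q) + 0 = 0 then (1:ℂ) else 0) = 0 := by
      refine Finset.sum_eq_zero fun j hj => ?_
      rw [if_neg]
      rw [add_zero, ZMod.natCast_eq_zero_iff]
      intro h
      rw [mem_Icc] at hj
      have := Nat.le_of_dvd (by omega) h
      omega
    rw [this, zero_add]
  · rw [if_neg hu, if_neg hu, mul_zero, add_zero]
    have hpos : 1 ≤ (-u).val := by
      rw [Nat.one_le_iff_ne_zero, Ne, ZMod.val_eq_zero, neg_eq_zero]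
      exact hu
    split_ifs with h
    · rw [Finset.sum_eq_single (-u).val]
      · rw [if_pos]
        · simp
        · rw [ZMod.natCast_zmod_val]; ring
      · intro j hj hne
        rw [if_neg]
        intro h0
        apply hne
        rw [mem_Icc] at hj
        have h1 : (j : ZMod q) = -u := by linear_combination h0
        rw [← h1, ZMod.val_natCast_of_lt (by omega)]
      · intro hn
        exact absurd (mem_Icc.2 ⟨hpos, h⟩) hn
    · symm
      rw [Complex.ofReal_zero]
      refine Finset.sum_eq_zero fun j hj => ?_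
      rw [if_neg]
      intro h0
      apply h
      rw [mem_Icc] at hj
      have h1 : (j : ZMod q) = -u := by linear_combination h0
      rw [← h1, ZMod.val_natCast_of_lt (by omega)]
      exact hj.2

/-- the jumps -/
def Pj (t : ℕ) : Fin 3 → ZMod q := ![0, -1, -((t + 1 : ℕ) : ZMod q)]

lemma fr_step {t : ℕ} {φ : ℝ} {u : ZMod q} (h : ∀ k, u ≠ Pj t k) :
    fr t φ (u + 1) = fr t φ u := by
  have h0 : u ≠ 0 := h 0
  have h1 : u ≠ -1 := h 1
  have h2 : u ≠ -((t + 1 : ℕ) : ZMod q) := h 2
  have h3 : u + 1 ≠ 0 := fun h' => h1 (by linear_combination h')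
  unfold fr
  rw [if_neg h3, if_neg h0]
  have e1 : (-(u + 1)).val + 1 = (-u).val := by
    have h4 : -u = -(u + 1) + 1 := by ring
    have h5 : (-(u + 1)).val + 1 < q ∨ (-(u + 1)).val + 1 = q := by
      have := ZMod.val_lt (-(u + 1))
      omega
    rcases h5 with h5 | h5
    · have h6 : ((((-(u + 1)).val + 1 : ℕ)) : ZMod q) = -u := by
        push_cast
        rw [ZMod.natCast_zmod_val]
        ring
      rw [← h6, ZMod.val_natCast_of_lt h5]
    · exfalso
      apply h0
      have h6 : ((((-(u + 1)).val + 1 : ℕ)) : ZMod q) = -u := by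
        push_cast
        rw [ZMod.natCast_zmod_val]
        ring
      rw [h5, ZMod.natCast_self] at h6
      exact neg_eq_zero.1 h6.symm
  have e2 : (-u).val ≠ t + 1 := by
    intro h'
    apply h2
    have : -u = ((t + 1 : ℕ) : ZMod q) := by rw [← h', ZMod.natCast_zmod_val]
    rw [← this, neg_neg]
  have e3 : (-(u + 1)).val ≤ t ↔ (-u).val ≤ t := by omega
  by_cases h4 : (-u).val ≤ t
  · rw [if_pos h4, if_pos (e3.2 h4)]
  · rw [if_neg h4, if_neg (fun h' => h4 (e3.1 h'))]

lemma fr_const {t : ℕ} {φ : ℝ} {u : ZMod q} {N : ℕ}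
    (h : ∀ k, ∀ i0 : ℕ, i0 < N → u + (i0 : ZMod q) ≠ Pj t k) (i : ℕ) (hi : i ≤ N) :
    fr t φ (u + (i : ZMod q)) = fr t φ u := by
  induction i with
  | zero => simp
  | succ i ih =>
    rw [← ih (by omega), ← fr_step (fun k => h k i (by omega))]
    congr 1
    push_cast
    ring

/-- the moving average -/
noncomputable def sm (t : ℕ) (φ : ℝ) (j : ℕ) (u : ZMod q) : ℝ :=
  (∑ i ∈ range (2 ^ j), fr t φ (u + (i : ZMod q))) / 2 ^ j

lemma sm_mem {t : ℕ} {φ : ℝ} (h0 : 0 ≤ φ) (h1 : φ ≤ 1) (j : ℕ) (u : ZMod q) :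
    0 ≤ sm t φ j u ∧ sm t φ j u ≤ 1 := by
  unfold sm
  constructor
  · exact div_nonneg (sum_nonneg fun i _ => (fr_mem h0 h1 _).1) (by positivity)
  · rw [div_le_one (by positivity)]
    refine (sum_le_sum fun i _ => (fr_mem h0 h1 _).2).trans ?_
    simp

lemma sm_zero (t : ℕ) (φ : ℝ) (u : ZMod q) : sm t φ 0 u = fr t φ u := by
  unfold sm
  simp

lemma sm_const {t : ℕ} {φ : ℝ} {u : ZMod q} {j : ℕ}
    (h : ∀ k, ∀ i0 : ℕ, i0 < 2 ^ j → u + (i0 : ZMod q) ≠ Pj t k) :
    sm t φ j u = fr t φ u := by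
  unfold sm
  rw [sum_congr rfl (g := fun _ => fr t φ u) fun i hi =>
    fr_const h i (mem_range.1 hi).le]
  rw [sum_const, card_range, nsmul_eq_mul]
  push_cast
  field_simp

lemma sm_ev {t : ℕ} (ht : t < q) (φ : ℝ) (j : ℕ) (u : ZMod q) :
    ((sm t φ j u : ℝ) : ℂ) = ev (fun h => Fc t φ h * mj j h) u := by
  unfold sm
  push_cast
  simp only [fr_ev ht]
  unfold ev mj
  rw [sum_comm, sum_div]
  refine sum_congr rfl fun h _ => ?_
  beta_reduce
  rw [mul_div_assoc', div_mul_eq_mul_div]
  congr 1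
  rw [mul_sum, sum_mul]
  refine sum_congr rfl fun i _ => ?_
  rw [mul_add, AddChar.map_add_eq_mul]
  have e : (ZMod.stdAddChar (h * (i : ZMod q)) : ℂ) = (ZMod.stdAddChar h : ℂ) ^ i := by
    rw [mul_comm, ← nsmul_eq_mul, AddChar.map_nsmul_eq_pow]
  rw [e]
  ring

lemma ev_add (a b : ZMod q → ℂ) (x : ZMod q) : ev (fun h => a h + b h) x = ev a x + ev b x := by
  unfold ev
  rw [← sum_add_distrib]
  exact sum_congr rfl fun h _ => by ring

lemma ev_sub (a b : ZMod q → ℂ) (x : ZMod q) : ev (fun h => a h - b h) x = ev a x - ev b x := by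
  unfold ev
  rw [← sum_sub_distrib]
  exact sum_congr rfl fun h _ => by ring

/-- the pieces of the decomposition -/
noncomputable def gp (z : ℝ) (t : ℕ) (φ : ℝ) (i : ℕ) (u : ZMod q) : ℝ :=
  if i = 0 then z * ((t + φ) / q) else if i = 1 then sm t φ (La q) u - (t + φ) / q else
    sm t φ (La q - (i - 1)) u - sm t φ (La q - (i - 1) + 1) u

lemma gp_zero (z : ℝ) (t : ℕ) (φ : ℝ) (u : ZMod q) : gp z t φ 0 u = z * ((t + φ) / q) := by
  unfold gp
  rw [if_pos rfl]

lemma gp_one (z : ℝ) (t : ℕ) (φ : ℝ) (u : ZMod q) :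
    gp z t φ 1 u = sm t φ (La q) u - (t + φ) / q := by
  unfold gp
  rw [if_neg (by omega), if_pos rfl]

lemma gp_succ (z : ℝ) (t : ℕ) (φ : ℝ) {y : ℕ} (hy : 1 ≤ y) (u : ZMod q) :
    gp z t φ (y + 1) u = sm t φ (La q - y) u - sm t φ (La q - y + 1) u := by
  unfold gp
  rw [if_neg (by omega), if_neg (by omega), Nat.add_sub_cancel]

lemma sum_gp (z : ℝ) (t : ℕ) (φ : ℝ) (Z : ℕ) (hZ : Z ≤ La q) (u : ZMod q) :
    ∑ i ∈ range (Z + 2), gp z t φ i u = sm t φ (La q - Z) u - (1 - z) * ((t + φ) / q) := by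
  induction Z with
  | zero =>
    rw [sum_range_succ, sum_range_succ, range_zero, sum_empty]
    unfold gp
    simp
    ring
  | succ Z ih =>
    rw [show Z + 1 + 2 = (Z + 2) + 1 from rfl, sum_range_succ, ih (by omega)]
    unfold gp
    rw [if_neg (by omega), if_neg (by omega)]
    have e1 : La q - (Z + 2 - 1) = La q - (Z + 1) := by omega
    have e2 : La q - (Z + 2 - 1) + 1 = La q - Z := by omega
    rw [e2, e1]
    ring

lemma abs_sub_le_one {a b : ℝ} (ha : 0 ≤ a ∧ a ≤ 1) (hb : 0 ≤ b ∧ b ≤ 1) :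
    ‖((a - b : ℝ) : ℂ)‖ ≤ 1 := by
  rw [Complex.norm_real, Real.norm_eq_abs, abs_le]
  constructor <;> linarith [ha.1, ha.2, hb.1, hb.2]

lemma Fc_dl {t : ℕ} {φ : ℝ} (h0 : 0 ≤ φ) (h1 : φ ≤ 1) {h : ZMod q} (hh : h ≠ 0) :
    ‖Fc t φ h‖ ≤ (1 / 2) ^ (dl h) := by
  refine (norm_Fc h0 h1 hh).trans ?_
  have h2 := (nn_dl hh).1
  have h3 : (2:ℝ) ^ dl h ≤ nn h := by exact_mod_cast h2
  rw [one_div_pow]
  exact one_div_le_one_div_of_le (by positivity) h3

/-- **The decomposition.** -/
theorem dec_fr {t : ℕ} (ht : t < q) {φ : ℝ} (h0 : 0 ≤ φ) (h1 : φ ≤ 1) {z : ℝ}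
    (hz0 : 0 ≤ z) (hz1 : z ≤ 1) :
    Dec (La q) (alf z) bet
      (fun u : ZMod q => ((fr t φ u - (1 - z) * ((t + φ) / q) : ℝ) : ℂ)) := by
  have hmean := Fc_zero_le (q := q) ht h0 h1
  have hmz : 0 ≤ (1 - z) * ((t + φ) / (q:ℝ)) ∧ (1 - z) * ((t + φ) / (q:ℝ)) ≤ 1 := by
    refine ⟨mul_nonneg (by linarith) hmean.1, ?_⟩
    exact mul_le_one₀ (by linarith) hmean.1 hmean.2
  have hzm : 0 ≤ z * ((t + φ) / (q:ℝ)) ∧ z * ((t + φ) / (q:ℝ)) ≤ z := by
    refine ⟨mul_nonneg hz0 hmean.1, ?_⟩
    exact mul_le_of_le_one_right hz0 hmean.2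
  refine ⟨maj_zero fun x => abs_sub_le_one (fr_mem h0 h1 x) hmz, fun Z => ?_⟩
  refine ⟨fun i u => ((gp z t φ i u : ℝ) : ℂ),
    fun u => ((fr t φ u - sm t φ (La q - min Z (La q)) u : ℝ) : ℂ), ?_, ?_, ?_, ?_⟩
  · intro u
    rw [← Complex.ofReal_sum, sum_gp z t φ (min Z (La q)) (min_le_right _ _)]
    push_cast
    ring
  · intro i hi
    have hiL : i < La q + 2 := by omega
    by_cases hi0 : i = 0
    · subst hi0
      constructor
      · refine ⟨fun h => if h = 0 then ((z * ((t + φ) / q) : ℝ) : ℂ) else 0, fun x => ?_, fun h => ?_⟩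
        · rw [ev_single]
          beta_reduce
          rw [gp_zero]
        · unfold alf
          beta_reduce
          rw [if_pos rfl]
          by_cases hh : h = 0
          · rw [if_pos hh, if_pos hh, Complex.norm_real, Real.norm_eq_abs, abs_of_nonneg hzm.1]
            exact hzm.2
          · rw [if_neg hh, if_neg hh, norm_zero]
      · refine maj_zero fun x => ?_
        beta_reduce
        rw [gp_zero, Complex.norm_real, Real.norm_eq_abs, abs_of_nonneg hzm.1]
        exact hzm.2.trans hz1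
    · by_cases hi1 : i = 1
      · subst hi1
        constructor
        · refine ⟨fun h => Fc t φ h * mj (La q) h - (if h = 0 then (((t + φ) / q : ℝ) : ℂ) else 0),
            fun x => ?_, fun h => ?_⟩
          · rw [ev_sub, ev_single, ← sm_ev ht]
            beta_reduce
            rw [gp_one]
            push_cast
            ring
          · unfold alf
            beta_reduce
            rw [if_neg (one_ne_zero : (1:ℕ) ≠ 0)]
            by_cases hh : h = 0
            · subst hh
              rw [if_pos rfl, if_pos rfl, mj_zero_right, mul_one, Fc_zero, sub_self, norm_zero]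
            · rw [if_neg hh, if_neg hh, sub_zero, norm_mul]
              have h2 := Fc_dl (t := t) h0 h1 hh
              have h3 := mj_small hh (Nat.zero_le (La q))
              rw [Nat.sub_zero, half_pow (Nat.zero_le _), Nat.sub_zero] at h3
              have h4 : ad 1 (dl h) = dl h := by unfold ad; omega
              rw [h4]
              have h5 : ‖Fc t φ h‖ * ‖mj (La q) h‖ ≤ (1 / 2) ^ dl h * (1 / 2) ^ dl h :=
                mul_le_mul h2 h3 (norm_nonneg _) (by positivity)
              have h6 : (0:ℝ) ≤ (1 / 2) ^ dl h * (1 / 2) ^ dl h := by positivity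
              linarith
        · refine maj_first fun x => ?_
          beta_reduce
          rw [gp_one]
          exact abs_sub_le_one (sm_mem h0 h1 _ _) hmean
      · obtain ⟨y, rfl⟩ : ∃ y, i = y + 1 := ⟨i - 1, by omega⟩
        have hy : y ≤ La q := by omega
        have hy1 : 1 ≤ y := by omega
        constructor
        · refine ⟨fun h => Fc t φ h * mj (La q - y) h - Fc t φ h * mj (La q - y + 1) h,
            fun x => ?_, fun h => ?_⟩
          · rw [ev_sub, ← sm_ev ht, ← sm_ev ht]
            beta_reduce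
            rw [gp_succ _ _ _ hy1]
            push_cast
            ring
          · unfold alf
            beta_reduce
            rw [if_neg (by omega)]
            by_cases hh : h = 0
            · subst hh
              rw [if_pos rfl, mj_zero_right, mj_zero_right, sub_self, norm_zero]
            · rw [if_neg hh, ← mul_sub, norm_mul]
              have h2 := Fc_dl (t := t) h0 h1 hh
              have h3 := mj_diff hh hy
              have h4 : ad (y + 1) (dl h) = (y - dl h) + (dl h - y) := by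
                unfold ad
                rw [Nat.add_sub_cancel]
              rw [h4]
              calc ‖Fc t φ h‖ * ‖mj (La q - y) h - mj (La q - y + 1) h‖ ≤
                    (1 / 2) ^ dl h * (7 * (1 / 2) ^ ((y - dl h) + (dl h - y))) :=
                    mul_le_mul h2 h3 (norm_nonneg _) (by positivity)
                _ = _ := by ring
        · refine maj_near hy (Pj t) (fun x => ?_) (fun x hx => ?_)
          · beta_reduce
            rw [gp_succ _ _ _ hy1]
            exact abs_sub_le_one (sm_mem h0 h1 _ _) (sm_mem h0 h1 _ _)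
          · by_contra hcon
            push Not at hcon
            apply hx
            beta_reduce
            rw [gp_succ _ _ _ hy1]
            rw [sm_const (j := La q - y + 1) hcon, sm_const (j := La q - y) (fun k i0 hi0 =>
              hcon k i0 (lt_trans hi0 (Nat.pow_lt_pow_right (by norm_num) (Nat.lt_succ_self _))))]
            simp
  · intro hZ
    have e : min Z (La q) = Z := min_eq_left hZ.le
    rw [e]
    refine maj_near hZ.le (Pj t) (fun x => ?_) (fun x hx => ?_)
    · exact abs_sub_le_one (fr_mem h0 h1 _) (sm_mem h0 h1 _ _)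
    · by_contra hcon
      push Not at hcon
      apply hx
      beta_reduce
      rw [sm_const (j := La q - Z) (fun k i0 hi0 =>
        hcon k i0 (lt_trans hi0 (Nat.pow_lt_pow_right (by norm_num) (Nat.lt_succ_self _))))]
      simp
  · intro hZ x
    have e : La q - min Z (La q) = 0 := by omega
    beta_reduce
    rw [e, sm_zero]
    simp

end interval

end Pool.Agent.U49
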