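import Pool.Agent.R843.SX.Stmts

set_option autoImplicit false

/-!
# Star discrepancy with exponent `1/6`: definitions and statements

The Fourier expansion of a level is damped beyond the natural frequency of the level.
-/

namespace Pool.Agent.U49

open Finset Pool.Agent.H470D4 Pool.Agent.Y258
open Pool.Agent.H935R2.PS (La uu nn dl mx Suit)
open Pool.Agent.R843.SX (SuitG)

/-- the damped weight of a relation of total size `s` on a level of size `A` -/
noncomputable def dw (A s : ℕ) : ℝ := if s ≤ A then (2:ℝ) ^ (A - s) else (3 / 8 : ℝ) ^ (s - A)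

section defs
variable {q M B n : ℕ}

/-- sum over the relations which involve the row -/
noncomputable def RL [NeZero q] (c : Flg q M B n) (ω : Pth q B) (l : Fin (n+2) → ℕ) (r : ℕ)
    (F : (Option (Fin (n+2)) → ZMod q) → ℝ) : ℝ :=
  ∑ H : Option (Fin (n+2)) → ZMod q, ii (H none ≠ 0 ∧ Rel c ω l r H) * F H

/-- sum over the old relations -/
noncomputable def OL [NeZero q] (c : Flg q M B n) (ω : Pth q B) (l : Fin (n+2) → ℕ) (r : ℕ)
    (F : (Fin (n+2) → ZMod q) → ℝ) : ℝ :=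
  ∑ O : Fin (n+2) → ZMod q, ii (O ≠ 0 ∧ OR c ω l r O) * F O

/-- the damped sum over the relations which involve the row -/
noncomputable def RF [NeZero q] (c : Flg q M B n) (ω : Pth q B) (l : Fin (n+2) → ℕ) (r : ℕ) : ℝ :=
  RL c ω l r (fun H => dw (dm M B l r * La q) (sz H))

/-- the damped sum over the old relations -/
noncomputable def OF [NeZero q] (c : Flg q M B n) (ω : Pth q B) (l : Fin (n+2) → ℕ) (r : ℕ) : ℝ :=
  OL c ω l r (fun O => dw (dm M B l r * La q) (sz O))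

/-- the same with the relations which are not short -/
noncomputable def RD [NeZero q] (c : Flg q M B n) (K1 : ℕ) (ω : Pth q B) (l : Fin (n+2) → ℕ)
    (r : ℕ) : ℝ :=
  RL c ω l r (fun H => ii (¬ Bd (dm M B l r) K1 H) * dw (dm M B l r * La q) (sz H))

/-- the same with the old relations which are not short -/
noncomputable def OD [NeZero q] (c : Flg q M B n) (K1 : ℕ) (ω : Pth q B) (l : Fin (n+2) → ℕ)
    (r : ℕ) : ℝ :=
  OL c ω l r (fun O => ii (¬ Bd (dm M B l r) K1 O) * dw (dm M B l r * La q) (sz O))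

/-- the level is good in the past -/
def OG [NeZero q] (c : Flg q M B n) (ω : Pth q B) (l : Fin (n+2) → ℕ) (r : ℕ) : Prop :=
  OF c ω l r ≤ (La q : ℝ) ^ (n + 2)

/-- the level is good in the past, truncated version -/
def OT [NeZero q] (c : Flg q M B n) (K1 : ℕ) (ω : Pth q B) (l : Fin (n+2) → ℕ) (r : ℕ) : Prop :=
  OD c K1 ω l r ≤ (La q : ℝ) ^ (n + 2)

/-- the majorant of a level -/
noncomputable def mm [NeZero q] (CS : ℕ) (c : Flg q M B n) (K0 : ℕ) (ω : Pth q B)
    (l : Fin (n+2) → ℕ) (r : ℕ) : ℝ :=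
  min (RR c ω l r) (CS * (2 * (La q : ℝ) ^ (n + 2) + RD c K0 ω l r))

/-- the number of short relations -/
noncomputable def NS [NeZero q] (c : Flg q M B n) (K1 : ℕ) (ω : Pth q B) : ℝ :=
  ∑ r ∈ range (M * B), ∑ l ∈ Lbox M B n,
    if n + 3 ≤ r ∧ 1 ≤ dm M B l r ∧ dm M B l r ≤ n + 2 then
      RL c ω l r (fun H => ii (Bd (dm M B l r) K1 H)) +
      OL c ω l r (fun O => ii (Bd (dm M B l r) K1 O)) else 0

end defs

/-- (S) damped bound of a level -/
def St_S : Prop := ∀ n : ℕ, ∃ C : ℕ, ∀ (q : ℕ) [Fact q.Prime], 8 ≤ q → ∀ (M B : ℕ)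
  (c : Flg q M B n) (ω : Pth q B) (r : ℕ) (l : Fin (n+2) → ℕ), r < M * B → Exc c ω r →
  1 ≤ dm M B l r → dm M B l r ≤ n + 2 →
  ∀ (X : Fin (n+2) → ℕ → ZMod q) (Y t : ℕ → ZMod q),
  |TT c (cD M B X Y) t ω r l| ≤ C * ((La q : ℝ) ^ (n + 2) + RF c ω l r + OF c ω l r)

/-- (W) the sum of the damped weights -/
def St_W : Prop := ∀ κ : ℕ, 1 ≤ κ → ∃ C : ℕ, ∀ (q : ℕ) [Fact q.Prime], 8 ≤ q →
  ∀ (ι : Type) [Fintype ι] [DecidableEq ι], Fintype.card ι = κ → ∀ D K1 : ℕ,
  ∑ h : ι → ZMod q, ii (¬ Bd D K1 h) * dw (D * La q) (sz h) ≤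
    C * ((La q : ℝ) ^ (κ - 1) * (K1 + 1)) * 2 ^ (D * La q)

end Pool.Agent.U49
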