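import Pool.Agent.U49.SD.Mom2
import Pool.Agent.Y359.SD.C2
import Pool.Agent.Y496.SD.C5
import Pool.Agent.Y899.SD.A6

set_option autoImplicit false
set_option linter.unusedSectionVars false

/-!
# Expectations along a random path
-/

namespace Pool.Agent.U49

open Finset Pool.Agent.H470D4 Pool.Agent.Y258
open Pool.Agent.H935R2.PS (La uu nn dl mx Suit)
open Pool.Agent.Y290.SD (qpos two_pow_La)

section gen
variable {q M B n : ℕ} [Fact q.Prime]

/-- a relation which involves the row, times a function of the past -/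
lemma EE_g_Rel (Al : ℕ → Pth q B → Finset (Blk q B)) (hB : ∀ j ω, q ^ B ≤ 2 * (Al j ω).card)
    (h8 : 8 ≤ q) {c : Flg q M B n} (hc : IsFlags c) {T r : ℕ} (hT : r * M + M ≤ T)
    (l : Fin (n+2) → ℕ) (H : Option (Fin (n+2)) → ZMod q) (hH : H none ≠ 0)
    {g : Pth q B → ℝ} (hg : DepLT (r * M) g) (hg0 : ∀ ω, 0 ≤ g ω) (ω₀ : Pth q B) :
    EE Al 0 T (fun ω => g ω * ii (Rel c ω l r H)) ω₀ ≤
      (2 / (q:ℝ)) ^ dm M B l r * EE Al 0 T g ω₀ := by
  have hq8 : (8:ℝ) ≤ q := by exact_mod_cast h8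
  have hq0 : (0:ℝ) < q := by linarith
  have hne := Al_ne (q := q) (B := B) (by omega) Al hB
  have hdep : DepLT (r * M + M) (fun ω : Pth q B => g ω * ii (Rel c ω l r H)) := by
    intro ω ω' h
    have e1 := hg ω ω' (h.mono (by omega))
    have e2 : ii (Rel c ω l r H) = ii (Rel c ω' l r H) := Pool.Agent.Y359.SD.Rel_dep c l r H ω ω' h
    show g ω * ii (Rel c ω l r H) = g ω' * ii (Rel c ω' l r H)
    rw [e1, e2]
  rw [EE_upto Al hne hT hdep, EE_upto Al hne (show r * M ≤ T by omega) hg, ← EE_const_mul]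
  have e0 : EE Al 0 (r * M + M) (fun ω => g ω * ii (Rel c ω l r H)) ω₀ =
      EE Al 0 (r * M) (EE Al (r * M) M (fun ω => g ω * ii (Rel c ω l r H))) ω₀ := by
    rw [EE_add, Nat.zero_add]
  rw [e0]
  refine EE_mono Al 0 (r * M) fun ω' _ => ?_
  rw [EE_mul_dep Al (r * M) M hg, mul_comm]
  apply mul_le_mul_of_nonneg_right _ (hg0 ω')
  have h3 : EE Al (r * M) M (fun ω => ii (Rel c ω l r H)) ω' ≤
      EE Al (r * M) M (kif M r (AA c ω' l r) (-(H none)⁻¹ • ∑ a, H (some a) • c a (l a))) ω' := by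
    refine EE_mono Al _ _ fun ω'' h'' => ?_
    have e : AA c ω' l r = AA c ω'' l r := AA_dep c l r ω' ω'' h''
    rw [e]
    unfold kif ii
    have h4 := Rel_iff c ω'' l r H hH
    split_ifs with h5 h6
    · exact le_rfl
    · exact absurd (h4.1 h5) h6
    · exact zero_le_one
    · exact le_rfl
  refine h3.trans ((EE_row Al hB (by omega) r ω' _ _).trans ?_)
  refine pow_le_pow_of_le_one (by positivity) ?_ ?_
  · rw [div_le_one hq0]; linarith
  · have := finrank_AA_ge c hc ω' l r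
    unfold dm
    omega

/-- a sum over the relations which involve the row, times a function of the past -/
lemma EE_g_RL (Al : ℕ → Pth q B → Finset (Blk q B)) (hB : ∀ j ω, q ^ B ≤ 2 * (Al j ω).card)
    (h8 : 8 ≤ q) {c : Flg q M B n} (hc : IsFlags c) {T r : ℕ} (hT : r * M + M ≤ T)
    (l : Fin (n+2) → ℕ) {F : (Option (Fin (n+2)) → ZMod q) → ℝ} (hF : ∀ H, 0 ≤ F H)
    {g : Pth q B → ℝ} (hg : DepLT (r * M) g) (hg0 : ∀ ω, 0 ≤ g ω) (ω₀ : Pth q B) :
    EE Al 0 T (fun ω => g ω * RL c ω l r F) ω₀ ≤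
      2 ^ dm M B l r * ((∑ H, ii (H none ≠ 0) * F H) / (q:ℝ) ^ dm M B l r) *
        EE Al 0 T g ω₀ := by
  have hq0 : (0:ℝ) < q := qpos
  have hne := Al_ne (q := q) (B := B) (by omega) Al hB
  have hg1 : 0 ≤ EE Al 0 T g ω₀ := EE_nonneg Al 0 T fun ω _ => hg0 ω
  have e0 : (fun ω => g ω * RL c ω l r F) = fun ω => ∑ H : Option (Fin (n+2)) → ZMod q,
      (ii (H none ≠ 0) * F H) * (g ω * ii (Rel c ω l r H)) := by
    funext ω
    unfold RL
    rw [mul_sum]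
    refine sum_congr rfl fun H _ => ?_
    by_cases hH : H none ≠ 0
    · rw [ii_true hH, ii_congr (show (H none ≠ 0 ∧ Rel c ω l r H) ↔ Rel c ω l r H from
        ⟨fun h => h.2, fun h => ⟨hH, h⟩⟩)]
      ring
    · rw [ii_false hH, ii_false (P := H none ≠ 0 ∧ Rel c ω l r H) fun h => hH h.1]
      ring
  rw [e0, EE_sum]
  calc ∑ H : Option (Fin (n+2)) → ZMod q, EE Al 0 T (fun ω =>
        (ii (H none ≠ 0) * F H) * (g ω * ii (Rel c ω l r H))) ω₀
      ≤ ∑ H : Option (Fin (n+2)) → ZMod q, (ii (H none ≠ 0) * F H) *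
        ((2 / (q:ℝ)) ^ dm M B l r * EE Al 0 T g ω₀) := by
        refine sum_le_sum fun H _ => ?_
        rw [EE_const_mul]
        by_cases hH : H none ≠ 0
        · exact mul_le_mul_of_nonneg_left (EE_g_Rel Al hB h8 hc hT l H hH hg hg0 ω₀)
            (mul_nonneg (ii_nonneg _) (hF H))
        · rw [ii_false hH]
          simp
    _ = _ := by
        rw [← sum_mul, div_pow]
        field_simp

/-- a sum over the old relations -/
lemma EE_OL (Al : ℕ → Pth q B → Finset (Blk q B)) (hB : ∀ j ω, q ^ B ≤ 2 * (Al j ω).card)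
    (h8 : 8 ≤ q) {c : Flg q M B n} (hc : IsFlags c) {T r : ℕ} (hT : r * M ≤ T)
    (W : Fin (n+2) → ℕ) {F : (Fin (n+2) → ZMod q) → ℝ} (hF : ∀ O, 0 ≤ F O)
    (h1 : ∑ a, W a + (n + 2) ≤ M * B) (h2 : ∑ a, W a + r ≤ M * B) (ω₀ : Pth q B) :
    EE Al 0 T (fun ω => OL c ω W r F) ω₀ ≤
      4 * (2 ^ dm M B W r * ((∑ O, ii (O ≠ 0) * F O) / (q:ℝ) ^ dm M B W r)) := by
  have hq0 : (0:ℝ) < q := qpos
  have hne := Al_ne (q := q) (B := B) (by omega) Al hB
  have e0 : (fun ω => OL c ω W r F) = fun ω => ∑ O : Fin (n+2) → ZMod q,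
      (ii (O ≠ 0) * F O) * ii (OR c ω W r O) := by
    funext ω
    unfold OL
    refine sum_congr rfl fun O _ => ?_
    by_cases hO : O ≠ 0
    · rw [ii_true hO, ii_congr (show (O ≠ 0 ∧ OR c ω W r O) ↔ OR c ω W r O from
        ⟨fun h => h.2, fun h => ⟨hO, h⟩⟩)]
      ring
    · rw [ii_false hO, ii_false (P := O ≠ 0 ∧ OR c ω W r O) fun h => hO h.1]
      ring
  rw [e0, EE_sum]
  calc ∑ O : Fin (n+2) → ZMod q, EE Al 0 T (fun ω =>
        (ii (O ≠ 0) * F O) * ii (OR c ω W r O)) ω₀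
      ≤ ∑ O : Fin (n+2) → ZMod q, (ii (O ≠ 0) * F O) * (4 * (2 / (q:ℝ)) ^ dm M B W r) := by
        refine sum_le_sum fun O _ => ?_
        rw [EE_const_mul]
        by_cases hO : O ≠ 0
        · apply mul_le_mul_of_nonneg_left _ (mul_nonneg (ii_nonneg _) (hF O))
          have hdep : DepLT (r * M) (fun ω : Pth q B => ii (OR c ω W r O)) := by
            intro ω ω' h
            exact ii_congr (OR_agr c h W O)
          rw [EE_upto Al hne hT hdep]
          exact Pool.Agent.Y496.SD.c5 n q h8 M B c hc Al hB W r O hO h1 h2 ω₀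
        · rw [ii_false hO]
          simp
    _ = _ := by
        rw [← sum_mul, div_pow]
        field_simp

end gen

/-- the mean of the damped weights of the old relations -/
lemma mean_dwO (n : ℕ) : ∃ C : ℕ, ∀ (q : ℕ) [Fact q.Prime], 8 ≤ q → ∀ D K : ℕ,
    (∑ O : Fin (n+2) → ZMod q, ii (O ≠ 0) *
      (ii (¬ Pool.Agent.Y258.Bd D K O) * dw (D * La q) (sz O))) / (q:ℝ) ^ D ≤
      C * ((La q : ℝ) ^ (n + 1) * (K + 1)) := by
  obtain ⟨C, hC⟩ := thmW (n + 2) (by omega)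
  refine ⟨C, fun q _ h8 D K => ?_⟩
  have h1 := hC q h8 (Fin (n+2)) (by simp) D K
  have e1 : n + 2 - 1 = n + 1 := by omega
  rw [e1] at h1
  have hqD : (0:ℝ) < (q:ℝ) ^ D := pow_pos qpos _
  rw [div_le_iff₀ hqD]
  calc _ ≤ ∑ O : Fin (n+2) → ZMod q,
        (ii (¬ Pool.Agent.Y258.Bd D K O) * dw (D * La q) (sz O)) := by
        refine sum_le_sum fun H _ => ?_
        exact mul_le_of_le_one_left (mul_nonneg (ii_nonneg _) (dw_nonneg _ _)) (ii_le_one _)
    _ ≤ _ := h1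
    _ ≤ _ := by
        apply mul_le_mul_of_nonneg_left (Pool.Agent.Y290.SD.two_pow_La D) (by positivity)

/-- (E1) the expected damped bound, times a function of the past -/
lemma eRD (n : ℕ) : ∃ C : ℕ, ∀ (q : ℕ) [Fact q.Prime], 8 ≤ q →
    ∀ (M B : ℕ) (c : Flg q M B n), IsFlags c →
    ∀ Al : ℕ → Pth q B → Finset (Blk q B), (∀ j ω, q ^ B ≤ 2 * (Al j ω).card) →
    ∀ (l : Fin (n+2) → ℕ) (r : ℕ), r < M * B → dm M B l r ≤ n + 2 → ∀ K1 : ℕ,
    ∀ g : Pth q B → ℝ, DepLT (r * M) g → (∀ ω, 0 ≤ g ω) → ∀ ω₀,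
    EE Al 0 (M * B * M) (fun ω => g ω * RD c K1 ω l r) ω₀ ≤
      C * ((La q : ℝ) ^ (n + 2) * (K1 + 1)) * EE Al 0 (M * B * M) g ω₀ := by
  obtain ⟨C, hC⟩ := mean_dw n
  refine ⟨2 ^ (n + 2) * C, ?_⟩
  intro q _ h8 M B c hc Al hB l r hr hd K1 g hg hg0 ω₀
  have hT : r * M + M ≤ M * B * M := by
    calc r * M + M = (r + 1) * M := by ring
      _ ≤ M * B * M := Nat.mul_le_mul_right _ hr
  have h1 := EE_g_RL Al hB h8 hc hT l
    (F := fun H => ii (¬ Pool.Agent.Y258.Bd (dm M B l r) K1 H) * dw (dm M B l r * La q) (sz H))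
    (fun _ => mul_nonneg (ii_nonneg _) (dw_nonneg _ _)) hg hg0 ω₀
  refine h1.trans ?_
  apply mul_le_mul_of_nonneg_right _ (EE_nonneg Al 0 _ fun ω _ => hg0 ω)
  have h2 := hC q h8 (dm M B l r) K1
  have h3 : (2:ℝ) ^ dm M B l r ≤ 2 ^ (n + 2) := pow_le_pow_right₀ (by norm_num) hd
  calc _ ≤ (2:ℝ) ^ dm M B l r * (C * ((La q : ℝ) ^ (n + 2) * (K1 + 1))) :=
        mul_le_mul_of_nonneg_left h2 (by positivity)
    _ ≤ 2 ^ (n + 2) * (C * ((La q : ℝ) ^ (n + 2) * (K1 + 1))) :=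
        mul_le_mul_of_nonneg_right h3 (by positivity)
    _ = _ := by push_cast; ring

/-- (E2) the expected damped bound of the old relations -/
lemma eOD (n : ℕ) : ∃ C : ℕ, ∀ (q : ℕ) [Fact q.Prime], 8 ≤ q →
    ∀ (M B : ℕ) (c : Flg q M B n), IsFlags c →
    ∀ Al : ℕ → Pth q B → Finset (Blk q B), (∀ j ω, q ^ B ≤ 2 * (Al j ω).card) →
    ∀ (l : Fin (n+2) → ℕ) (r : ℕ), r < M * B → dm M B l r ≤ n + 2 →
    ∑ a, l a + (n + 2) ≤ M * B → ∑ a, l a + r ≤ M * B → ∀ (K1 : ℕ) ω₀,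
    EE Al 0 (M * B * M) (fun ω => OD c K1 ω l r) ω₀ ≤
      C * ((La q : ℝ) ^ (n + 1) * (K1 + 1)) := by
  obtain ⟨C, hC⟩ := mean_dwO n
  refine ⟨4 * 2 ^ (n + 2) * C, ?_⟩
  intro q _ h8 M B c hc Al hB l r hr hd hs1 hs2 K1 ω₀
  have hT : r * M ≤ M * B * M := Nat.mul_le_mul_right _ hr.le
  have h1 := EE_OL Al hB h8 hc hT l
    (F := fun O => ii (¬ Pool.Agent.Y258.Bd (dm M B l r) K1 O) * dw (dm M B l r * La q) (sz O))
    (fun _ => mul_nonneg (ii_nonneg _) (dw_nonneg _ _)) hs1 hs2 ω₀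
  refine h1.trans ?_
  have h2 := hC q h8 (dm M B l r) K1
  have h3 : (2:ℝ) ^ dm M B l r ≤ 2 ^ (n + 2) := pow_le_pow_right₀ (by norm_num) hd
  calc _ ≤ 4 * ((2:ℝ) ^ dm M B l r * (C * ((La q : ℝ) ^ (n + 1) * (K1 + 1)))) := by
        apply mul_le_mul_of_nonneg_left _ (by norm_num)
        exact mul_le_mul_of_nonneg_left h2 (by positivity)
    _ ≤ 4 * (2 ^ (n + 2) * (C * ((La q : ℝ) ^ (n + 1) * (K1 + 1)))) := by
        apply mul_le_mul_of_nonneg_left _ (by norm_num)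
        exact mul_le_mul_of_nonneg_right h3 (by positivity)
    _ = _ := by push_cast; ring

/-- (E3) the levels which are bad in the past -/
lemma eOT (n : ℕ) : ∃ C : ℕ, ∀ (q : ℕ) [Fact q.Prime], 8 ≤ q →
    ∀ (M B : ℕ) (c : Flg q M B n), IsFlags c →
    ∀ Al : ℕ → Pth q B → Finset (Blk q B), (∀ j ω, q ^ B ≤ 2 * (Al j ω).card) →
    ∀ (l : Fin (n+2) → ℕ) (r : ℕ), r < M * B → dm M B l r ≤ n + 2 →
    ∑ a, l a + (n + 2) ≤ M * B → ∑ a, l a + r ≤ M * B → ∀ (K1 : ℕ) ω₀,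
    EE Al 0 (M * B * M) (fun ω => ii (¬ OT c K1 ω l r) * (2 * OD c K1 ω l r + RD c K1 ω l r)) ω₀ ≤
      C * ((La q : ℝ) ^ (n + 1) * (K1 + 1) ^ 2) := by
  obtain ⟨C1, h1⟩ := eRD n
  obtain ⟨C2, h2⟩ := eOD n
  refine ⟨2 * C2 + C1 * C2, ?_⟩
  intro q _ h8 M B c hc Al hB l r hr hd hs1 hs2 K1 ω₀
  have hL1 : 1 ≤ La q := by
    unfold La
    exact Nat.log_pos (by norm_num) (by omega)
  have hL : (1:ℝ) ≤ La q := by exact_mod_cast hL1
  have hL0 : (0:ℝ) < La q := by linarith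
  have hdep : DepLT (r * M) (fun ω : Pth q B => ii (¬ OT c K1 ω l r)) := by
    intro ω ω' h
    exact ii_congr (not_congr (OT_agr c K1 h l))
  have a1 := h1 q h8 M B c hc Al hB l r hr hd K1 (fun ω => ii (¬ OT c K1 ω l r)) hdep
    (fun ω => ii_nonneg _) ω₀
  have a2 := h2 q h8 M B c hc Al hB l r hr hd hs1 hs2 K1 ω₀
  -- Markov
  have a3 : EE Al 0 (M * B * M) (fun ω => ii (¬ OT c K1 ω l r)) ω₀ ≤
      (1 / (La q : ℝ) ^ (n + 2)) * EE Al 0 (M * B * M) (fun ω => OD c K1 ω l r) ω₀ := by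
    rw [← EE_const_mul]
    refine EE_mono Al 0 _ fun ω _ => ?_
    have h0 := OD_nonneg c K1 ω l r
    by_cases hO : OT c K1 ω l r
    · rw [ii_false (not_not_intro hO)]
      positivity
    · rw [ii_true hO, div_mul_eq_mul_div, one_mul, le_div_iff₀ (by positivity), one_mul]
      unfold OT at hO
      exact (not_le.1 hO).le
  have a4 : EE Al 0 (M * B * M) (fun ω => ii (¬ OT c K1 ω l r) * (2 * OD c K1 ω l r)) ω₀ ≤
      2 * EE Al 0 (M * B * M) (fun ω => OD c K1 ω l r) ω₀ := by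
    rw [← EE_const_mul]
    refine EE_mono Al 0 _ fun ω _ => ?_
    exact mul_le_of_le_one_left (mul_nonneg (by norm_num) (OD_nonneg _ _ _ _ _)) (ii_le_one _)
  have e0 : (fun ω => ii (¬ OT c K1 ω l r) * (2 * OD c K1 ω l r + RD c K1 ω l r)) =
      fun ω => ii (¬ OT c K1 ω l r) * (2 * OD c K1 ω l r) +
        ii (¬ OT c K1 ω l r) * RD c K1 ω l r := by
    funext ω
    ring
  rw [e0, EE_add_fun]
  obtain ⟨K, hK⟩ : ∃ K : ℝ, K = (K1:ℝ) + 1 := ⟨_, rfl⟩
  have hK1 : 1 ≤ K := by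
    rw [hK]
    have : (0:ℝ) ≤ K1 := Nat.cast_nonneg _
    linarith
  rw [← hK] at a1 a2 ⊢
  obtain ⟨P, hP⟩ : ∃ P : ℝ, P = (La q : ℝ) ^ (n + 1) := ⟨_, rfl⟩
  have hP0 : 0 < P := by rw [hP]; positivity
  have hP2 : (La q : ℝ) ^ (n + 2) = P * La q := by rw [hP]; ring
  rw [hP2] at a1 a3
  rw [← hP] at a2 ⊢
  have a5 : EE Al 0 (M * B * M) (fun ω => ii (¬ OT c K1 ω l r) * RD c K1 ω l r) ω₀ ≤
      C1 * C2 * (P * K ^ 2) := by
    calc _ ≤ C1 * (P * La q * K) * EE Al 0 (M * B * M) (fun ω => ii (¬ OT c K1 ω l r)) ω₀ := a1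
      _ ≤ C1 * (P * La q * K) * ((1 / (P * La q)) * (C2 * (P * K))) := by
          apply mul_le_mul_of_nonneg_left _ (by positivity)
          exact a3.trans (mul_le_mul_of_nonneg_left a2 (by positivity))
      _ = _ := by
          field_simp
  have a6 : 2 * EE Al 0 (M * B * M) (fun ω => OD c K1 ω l r) ω₀ ≤ 2 * C2 * (P * K ^ 2) := by
    have : P * K ≤ P * K ^ 2 := by
      apply mul_le_mul_of_nonneg_left _ hP0.le
      nlinarith
    calc _ ≤ 2 * (C2 * (P * K)) := mul_le_mul_of_nonneg_left a2 (by norm_num)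
      _ ≤ 2 * (C2 * (P * K ^ 2)) := by
          apply mul_le_mul_of_nonneg_left _ (by norm_num)
          exact mul_le_mul_of_nonneg_left this (Nat.cast_nonneg _)
      _ = _ := by ring
  calc _ ≤ 2 * C2 * (P * K ^ 2) + C1 * C2 * (P * K ^ 2) := add_le_add (a4.trans a6) a5
    _ = _ := by push_cast; ring

/-- (E4) the expected number of short relations -/
lemma eNS (n : ℕ) : ∃ C : ℕ, ∀ (q : ℕ) [Fact q.Prime], 8 ≤ q →
    ∀ (M B : ℕ) (c : Flg q M B n), IsFlags c →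
    ∀ Al : ℕ → Pth q B → Finset (Blk q B), (∀ j ω, q ^ B ≤ 2 * (Al j ω).card) →
    ∀ (K1 : ℕ) ω₀, EE Al 0 (M * B * M) (NS c K1) ω₀ ≤
      C * (((M * B + 1 : ℕ) : ℝ) ^ (n + 3) * (La q : ℝ) ^ (n + 2)) / 2 ^ K1 := by
  classical
  obtain ⟨C1, hC1, h1⟩ := Pool.Agent.Y899.SD.A6b (n + 3) (by omega)
  obtain ⟨C2, hC2, h2⟩ := Pool.Agent.Y899.SD.A6b (n + 2) (by omega)
  obtain ⟨C, hC⟩ : ∃ C : ℕ, 2 ^ (n + 2) * (C1 + 4 * C2) ≤ C := exists_nat_ge _
  refine ⟨C, ?_⟩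
  intro q _ h8 M B c hc Al hB K1 ω₀
  have hL1 : 1 ≤ La q := by
    unfold La
    exact Nat.log_pos (by norm_num) (by omega)
  have hL : (1:ℝ) ≤ La q := by exact_mod_cast hL1
  have hne := Al_ne (q := q) (B := B) (by omega) Al hB
  obtain ⟨a, ha⟩ : ∃ a : ℝ, a = C * (La q : ℝ) ^ (n + 2) / 2 ^ K1 := ⟨_, rfl⟩
  have ha0 : 0 ≤ a := by rw [ha]; positivity
  have hterm : ∀ r ∈ range (M * B), ∀ l ∈ Lbox M B n, EE Al 0 (M * B * M) (fun ω =>
      if n + 3 ≤ r ∧ 1 ≤ dm M B l r ∧ dm M B l r ≤ n + 2 then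
      RL c ω l r (fun H => ii (Pool.Agent.Y258.Bd (dm M B l r) K1 H)) +
      OL c ω l r (fun O => ii (Pool.Agent.Y258.Bd (dm M B l r) K1 O)) else 0) ω₀ ≤ a := by
    intro r hr l _
    rw [mem_range] at hr
    by_cases hcond : n + 3 ≤ r ∧ 1 ≤ dm M B l r ∧ dm M B l r ≤ n + 2
    swap
    · simp only [hcond, if_false]
      rw [EE_cst Al hne]
      exact ha0
    simp only [hcond, and_self, if_true]
    obtain ⟨c1, c2, c3⟩ := hcond
    have hsum : ∑ a, l a + r < M * B := by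
      unfold dm at c2
      omega
    have hT : r * M + M ≤ M * B * M := by
      calc r * M + M = (r + 1) * M := by ring
        _ ≤ M * B * M := Nat.mul_le_mul_right _ hr
    have hqD : (0:ℝ) < (q:ℝ) ^ dm M B l r := pow_pos qpos _
    have h2q := two_pow_La (q := q) (dm M B l r)
    have h3 : (2:ℝ) ^ dm M B l r ≤ 2 ^ (n + 2) := pow_le_pow_right₀ (by norm_num) c3
    rw [EE_add_fun]
    -- the relations which involve the row
    have b1 := EE_g_RL Al hB h8 hc hT l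
      (F := fun H => ii (Pool.Agent.Y258.Bd (dm M B l r) K1 H)) (fun _ => ii_nonneg _)
      (g := fun _ => 1) (fun _ _ _ => rfl) (fun _ => zero_le_one) ω₀
    simp only [one_mul] at b1
    rw [EE_cst Al hne, mul_one] at b1
    have b2 : (∑ H : Option (Fin (n+2)) → ZMod q, ii (H none ≠ 0) *
        ii (Pool.Agent.Y258.Bd (dm M B l r) K1 H)) / (q:ℝ) ^ dm M B l r ≤
        C1 * (La q : ℝ) ^ (n + 2) / 2 ^ K1 := by
      rw [div_le_iff₀ hqD]
      have h5 := h1 q (by omega) (Option (Fin (n+2))) (by simp) (dm M B l r) K1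
      have e1 : n + 3 - 1 = n + 2 := by omega
      rw [e1, card_eq_sum_ii] at h5
      calc _ ≤ ∑ H : Option (Fin (n+2)) → ZMod q, ii (Pool.Agent.Y258.Bd (dm M B l r) K1 H) :=
            sum_le_sum fun H _ => mul_le_of_le_one_left (ii_nonneg _) (ii_le_one _)
        _ ≤ _ := h5
        _ ≤ C1 * (La q : ℝ) ^ (n + 2) * (q:ℝ) ^ dm M B l r / 2 ^ K1 := by gcongr
        _ = _ := by ring
    -- the old relations
    have d1 := EE_OL Al hB h8 hc (show r * M ≤ M * B * M by omega) l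
      (F := fun O => ii (Pool.Agent.Y258.Bd (dm M B l r) K1 O)) (fun _ => ii_nonneg _)
      (by omega) (by omega) ω₀
    have d2 : (∑ O : Fin (n+2) → ZMod q, ii (O ≠ 0) *
        ii (Pool.Agent.Y258.Bd (dm M B l r) K1 O)) / (q:ℝ) ^ dm M B l r ≤
        C2 * (La q : ℝ) ^ (n + 2) / 2 ^ K1 := by
      rw [div_le_iff₀ hqD]
      have h5 := h2 q (by omega) (Fin (n+2)) (by simp) (dm M B l r) K1
      have e1 : n + 2 - 1 = n + 1 := by omega
      rw [e1, card_eq_sum_ii] at h5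
      calc _ ≤ ∑ O : Fin (n+2) → ZMod q, ii (Pool.Agent.Y258.Bd (dm M B l r) K1 O) :=
            sum_le_sum fun H _ => mul_le_of_le_one_left (ii_nonneg _) (ii_le_one _)
        _ ≤ _ := h5
        _ ≤ C2 * (La q : ℝ) ^ (n + 2) * (q:ℝ) ^ dm M B l r / 2 ^ K1 := by
            have hp : (La q : ℝ) ^ (n + 1) ≤ (La q : ℝ) ^ (n + 2) :=
              pow_le_pow_right₀ hL (by omega)
            apply div_le_div_of_nonneg_right _ (by positivity)
            exact mul_le_mul (mul_le_mul_of_nonneg_left hp hC2.le) h2q (by positivity)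
              (by positivity)
        _ = _ := by ring
    calc _ ≤ (2:ℝ) ^ dm M B l r * (C1 * (La q : ℝ) ^ (n + 2) / 2 ^ K1) +
          4 * ((2:ℝ) ^ dm M B l r * (C2 * (La q : ℝ) ^ (n + 2) / 2 ^ K1)) := by
          refine add_le_add (b1.trans ?_) (d1.trans ?_)
          · exact mul_le_mul_of_nonneg_left b2 (by positivity)
          · apply mul_le_mul_of_nonneg_left _ (by norm_num)
            exact mul_le_mul_of_nonneg_left d2 (by positivity)
      _ = (2:ℝ) ^ dm M B l r * ((C1 + 4 * C2) * ((La q : ℝ) ^ (n + 2) / 2 ^ K1)) := by ring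
      _ ≤ (2:ℝ) ^ (n + 2) * ((C1 + 4 * C2) * ((La q : ℝ) ^ (n + 2) / 2 ^ K1)) := by gcongr
      _ = (2:ℝ) ^ (n + 2) * (C1 + 4 * C2) * ((La q : ℝ) ^ (n + 2) / 2 ^ K1) := by ring
      _ ≤ C * ((La q : ℝ) ^ (n + 2) / 2 ^ K1) := by gcongr
      _ = a := by rw [ha]; ring
  unfold NS
  rw [EE_sum]
  have hrow : ∀ r ∈ range (M * B), EE Al 0 (M * B * M) (fun ω => ∑ l ∈ Lbox M B n,
      if n + 3 ≤ r ∧ 1 ≤ dm M B l r ∧ dm M B l r ≤ n + 2 then
      RL c ω l r (fun H => ii (Pool.Agent.Y258.Bd (dm M B l r) K1 H)) +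
      OL c ω l r (fun O => ii (Pool.Agent.Y258.Bd (dm M B l r) K1 O)) else 0) ω₀ ≤
      ((M * B : ℕ) : ℝ) ^ (n + 2) * a := by
    intro r hr
    rw [EE_sum]
    refine (sum_le_sum fun l hl => hterm r hr l hl).trans ?_
    rw [sum_const, nsmul_eq_mul]
    apply mul_le_mul_of_nonneg_right _ ha0
    have : (Lbox M B n).card = (M * B) ^ (n + 2) := by
      unfold Lbox
      rw [Fintype.card_piFinset]
      simp
    rw [this]
    push_cast
    exact le_rfl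
  refine (sum_le_sum hrow).trans ?_
  rw [sum_const, card_range, nsmul_eq_mul]
  have h4 : ((M * B : ℕ) : ℝ) ^ (n + 3) ≤ ((M * B + 1 : ℕ) : ℝ) ^ (n + 3) := by
    refine pow_le_pow_left₀ (by positivity) ?_ _
    push_cast
    linarith
  calc ((M * B : ℕ) : ℝ) * (((M * B : ℕ) : ℝ) ^ (n + 2) * a) =
        ((M * B : ℕ) : ℝ) ^ (n + 3) * a := by ring
    _ ≤ ((M * B + 1 : ℕ) : ℝ) ^ (n + 3) * a := mul_le_mul_of_nonneg_right h4 ha0
    _ = _ := by rw [ha]; ring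

end Pool.Agent.U49
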