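import Pool.Agent.U49.SD.Ind
import Pool.Agent.Y258.SX.XFin

set_option autoImplicit false

/-!
# Final real analysis
-/

namespace Pool.Agent.U49

open Finset Pool.Agent.H470D4 Pool.Agent.Y258
open Pool.Agent.H935R2.PS (La uu nn dl mx Suit)
open Pool.Agent.R843.SX (SuitG suitableG)
open Pool.Agent.Y492.SD (triv c21a)
open Pool.Agent.Y258.X (pow_log' log3 loglog3 uu_log)

theorem fin_of (e k : ℕ) (he : 1 ≤ e)
    (h : Cl e k (fun L u => (L ^ (e + 1)) ^ (k + 1) * L ^ k * u ^ 2)) : ∃ C : ℝ, 0 < C ∧ ∀ N : ℕ, 3 ≤ N →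
    ∃ ξ : Fin N → Fin (k + 2) → ℝ, (∀ i j, 0 ≤ ξ i j ∧ ξ i j < 1) ∧
      ∀ x : Fin (k + 2) → ℝ, (∀ j, 0 ≤ x j) → (∀ j, x j ≤ 1) →
      |(((univ : Finset (Fin N)).filter (fun i => ∀ j, ξ i j < x j)).card : ℝ)
        - N * ∏ j, x j| ≤ C * (Real.log N) ^ ((k:ℝ) + 1 - 1 / ((e + 2 : ℕ) : ℝ)) *
          (Real.log (Real.log N)) ^ 2 := by
  obtain ⟨C, hC⟩ := h
  obtain ⟨l₀, hl₀⟩ := suitableG
  obtain ⟨κ, hκ⟩ : ∃ κ : ℕ, κ = e + 2 := ⟨_, rfl⟩
  obtain ⟨K, hK⟩ : ∃ K : ℕ, K = κ * (k + 1) - 1 := ⟨_, rfl⟩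
  have hκ0 : 0 < κ := by omega
  have hκ3 : 3 ≤ κ := by omega
  rw [← hκ]
  obtain ⟨T, hT⟩ : ∃ T : ℝ, T = max (max (l₀ : ℝ) (C : ℝ)) 3 := ⟨_, rfl⟩
  have hT1 : (l₀:ℝ) ≤ T := by rw [hT]; exact (le_max_left _ _).trans (le_max_left _ _)
  have hT2 : (C:ℝ) ≤ T := by rw [hT]; exact (le_max_right _ _).trans (le_max_left _ _)
  have hT4 : 3 ≤ T := by rw [hT]; exact le_max_right _ _
  have hκr : (0:ℝ) < κ := by exact_mod_cast hκ0
  refine ⟨4 * (36 * C * 8 ^ K + (2 * k + 5)) + 10000 * Real.exp (T ^ κ),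
    by positivity, fun N hN => ?_⟩
  have hN3 : (3:ℝ) ≤ N := by exact_mod_cast hN
  have hNpos : (0:ℝ) < N := by linarith
  have hlog1' : (1.02:ℝ) ≤ Real.log N := log3.trans (Real.log_le_log (by norm_num) hN3)
  have hlog1 : 1 ≤ Real.log N := by norm_num at hlog1'; linarith
  have hll : (1 / 100 : ℝ) ≤ Real.log (Real.log N) :=
    loglog3.trans (Real.log_le_log (by have := log3; norm_num at this; linarith)
      (Real.log_le_log (by norm_num) hN3))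
  have hll2 : (1 / 10000 : ℝ) ≤ (Real.log (Real.log N)) ^ 2 := by nlinarith
  have hm0 : 0 < Real.log N := by linarith
  obtain ⟨t, ht0, htm, htp⟩ := pow_log' hm0 κ k hκ0
  have hexp : (0:ℝ) ≤ (k:ℝ) + 1 - 1 / κ := by
    have h1 : 1 / (κ:ℝ) ≤ 1 := by
      rw [div_le_one (by positivity)]
      have : (3:ℝ) ≤ κ := by exact_mod_cast hκ3
      linarith
    have h2 : (0:ℝ) ≤ k := Nat.cast_nonneg k
    linarith
  have hgoal : 1 ≤ Real.log N ^ ((k:ℝ) + 1 - 1 / κ) := Real.one_le_rpow hlog1 hexp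
  obtain ⟨ll, hlld⟩ : ∃ ll : ℝ, ll = Real.log (Real.log N) := ⟨_, rfl⟩
  rw [← hlld] at hll hll2 ⊢
  rcases lt_or_ge t T with htT | htT
  · -- small N
    obtain ⟨ξ, hξ, hb⟩ := triv N (k + 2)
    refine ⟨ξ, hξ, fun x hx hx' => (hb x hx hx').trans ?_⟩
    have h1 : (N:ℝ) ≤ Real.exp (T ^ κ) := by
      rw [← Real.log_le_iff_le_exp hNpos, ← htm]
      exact pow_le_pow_left₀ ht0.le htT.le κ
    have h2 : (1:ℝ) ≤ 10000 * (Real.log N ^ ((k:ℝ) + 1 - 1 / κ) * ll ^ 2) := by nlinarith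
    have h3 : (0:ℝ) ≤ 4 * (36 * C * 8 ^ K + (2 * k + 5)) := by positivity
    have h4 : (0:ℝ) ≤ Real.log N ^ ((k:ℝ) + 1 - 1 / κ) * ll ^ 2 := by positivity
    calc (N:ℝ) ≤ Real.exp (T ^ κ) * 1 := by rw [mul_one]; exact h1
      _ ≤ Real.exp (T ^ κ) * (10000 * (Real.log N ^ ((k:ℝ) + 1 - 1 / κ) * ll ^ 2)) :=
          mul_le_mul_of_nonneg_left h2 (Real.exp_pos _).le
      _ ≤ 4 * (36 * C * 8 ^ K + (2 * k + 5)) * (Real.log N ^ ((k:ℝ) + 1 - 1 / κ) * ll ^ 2) +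
          Real.exp (T ^ κ) * (10000 * (Real.log N ^ ((k:ℝ) + 1 - 1 / κ) * ll ^ 2)) :=
          le_add_of_nonneg_left (mul_nonneg h3 h4)
      _ = _ := by ring
  · -- large N
    have ht1 : 3 ≤ t := hT4.trans htT
    obtain ⟨l, hl⟩ : ∃ l : ℕ, l = 4 * ⌈t⌉₊ := ⟨_, rfl⟩
    have hlr : (l:ℝ) = 4 * (⌈t⌉₊ : ℝ) := by rw [hl]; push_cast; ring
    have hl1 : 4 * t ≤ l := by rw [hlr]; linarith [Nat.le_ceil t]
    have hl2 : (l:ℝ) < 4 * (t + 1) := by rw [hlr]; linarith [Nat.ceil_lt_add_one ht0.le]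
    have hll0 : l₀ ≤ l := by
      have : (l₀:ℝ) ≤ l := by linarith
      exact_mod_cast this
    obtain ⟨q, hqp, hqs, hq1, hq2⟩ := hl₀ l hll0
    have hq1r : (l:ℝ) ≤ 2 * La q := by exact_mod_cast hq1
    have hq2r : (La q:ℝ) ≤ l := by exact_mod_cast hq2
    have hqne : q ≠ 0 := hqp.ne_zero
    have h2La : 2 ^ La q ≤ q := Nat.pow_log_le_self 2 hqne
    have hLa1 : 2 * t ≤ La q := by linarith
    have hLa2 : (La q : ℝ) ≤ 8 * t := by linarith
    have hLa0 : (0:ℝ) < La q := by linarith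
    have hLane : La q ≠ 0 := by
      intro h; rw [h] at hLa0; simp at hLa0
    have hCq : C ≤ q := by
      have h1 : (C:ℝ) ≤ La q := by linarith
      have h2 : C ≤ La q := by exact_mod_cast h1
      have h3 : La q < 2 ^ La q := Nat.lt_two_pow_self
      omega
    have hfact : Fact q.Prime := ⟨hqp⟩
    have hlogq : Real.log 2 * (La q : ℝ) ≤ Real.log q := by
      have h1 : ((2:ℝ) ^ La q) ≤ q := by exact_mod_cast h2La
      have h2 : Real.log ((2:ℝ) ^ La q) ≤ Real.log q := Real.log_le_log (by positivity) h1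
      rw [Real.log_pow] at h2
      linarith
    obtain ⟨c, hc, hGB⟩ := hC q hqs hCq
    obtain ⟨m, hm⟩ : ∃ m : ℕ, m = La q ^ e * La q := ⟨_, rfl⟩
    have hNq : N ≤ q ^ (La q ^ e * La q) := by
      rw [← hm]
      have h1 : Real.log N ≤ m * Real.log q := by
        rw [← htm]
        have h2 : t ^ κ ≤ (La q : ℝ) ^ κ * Real.log 2 := by
          have h3 : (2 * t) ^ κ ≤ (La q : ℝ) ^ κ := pow_le_pow_left₀ (by positivity) hLa1 κ
          have h4 : (8:ℝ) ≤ 2 ^ κ := by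
            calc (8:ℝ) = 2 ^ 3 := by norm_num
              _ ≤ 2 ^ κ := pow_le_pow_right₀ (by norm_num) hκ3
          have h5 := Real.log_two_gt_d9
          have h6 : 0 < t ^ κ := pow_pos ht0 κ
          rw [mul_pow] at h3
          calc t ^ κ ≤ 8 * t ^ κ * Real.log 2 := by nlinarith
            _ ≤ 2 ^ κ * t ^ κ * Real.log 2 := by
                apply mul_le_mul_of_nonneg_right _ (by linarith)
                exact mul_le_mul_of_nonneg_right h4 h6.le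
            _ ≤ (La q : ℝ) ^ κ * Real.log 2 := mul_le_mul_of_nonneg_right h3 (by linarith)
        have h7 : (m:ℝ) * (Real.log 2 * La q) = (La q : ℝ) ^ κ * Real.log 2 := by
          rw [hm, hκ]; push_cast; ring
        calc t ^ κ ≤ (La q : ℝ) ^ κ * Real.log 2 := h2
          _ = (m:ℝ) * (Real.log 2 * La q) := h7.symm
          _ ≤ m * Real.log q := mul_le_mul_of_nonneg_left hlogq (Nat.cast_nonneg m)
      rw [← Real.log_pow] at h1
      have h2 : (0:ℝ) < (q:ℝ) ^ m := by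
        have : (0:ℝ) < q := by exact_mod_cast hqp.pos
        positivity
      have h3 : (N:ℝ) ≤ (q:ℝ) ^ m := (Real.log_le_log_iff hNpos h2).1 h1
      exact_mod_cast h3
    obtain ⟨E, hE⟩ : ∃ E : ℝ, E = C * ((La q : ℝ) ^ (e + 1)) ^ (k + 1) * (La q : ℝ) ^ k *
      (uu q : ℝ) ^ 2 := ⟨_, rfl⟩
    have hGB : GB c E := by
      have e0 : E = C * (((La q : ℝ) ^ (e + 1)) ^ (k + 1) * (La q : ℝ) ^ k *
          (uu q : ℝ) ^ 2) := by rw [hE]; ring
      rw [e0]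
      exact hGB
    have hE0 : 0 ≤ E := by
      rw [hE]
      exact mul_nonneg (mul_nonneg (mul_nonneg (Nat.cast_nonneg _)
        (pow_nonneg (pow_nonneg hLa0.le _) _)) (pow_nonneg hLa0.le _)) (sq_nonneg _)
    obtain ⟨ξ, hξ01, hξ⟩ := c21a k q _ _ c hc E hE0 hGB
    obtain ⟨ζ, hζ01, hζ⟩ := subnet (k := k + 1) hNq (by omega) (by positivity) ξ hξ01 hξ
    refine ⟨ζ, hζ01, fun x hx hx' => (hζ x hx hx').trans ?_⟩
    rw [htp] at hgoal ⊢
    rw [← hK] at hgoal ⊢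
    -- the logarithms
    have hlt : 1 ≤ Real.log t := by
      have := log3
      norm_num at this
      have h2 := Real.log_le_log (by norm_num) ht1
      linarith
    have hllt : Real.log t ≤ ll := by
      rw [hlld, ← htm, Real.log_pow]
      have : (1:ℝ) ≤ κ := by exact_mod_cast hκ0
      nlinarith
    have hll1 : 1 ≤ ll := hlt.trans hllt
    have huu : (uu q : ℝ) ≤ 6 * ll := by
      have := uu_log q hLane (by linarith) hLa2
      linarith
    have huu2 : (uu q : ℝ) ^ 2 ≤ 36 * ll ^ 2 := by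
      have h0 : (0:ℝ) ≤ uu q := Nat.cast_nonneg _
      have := pow_le_pow_left₀ h0 huu 2
      calc (uu q : ℝ) ^ 2 ≤ (6 * ll) ^ 2 := this
        _ = _ := by ring
    have hE1 : E ≤ 36 * C * 8 ^ K * (t ^ K * ll ^ 2) := by
      have h1 : (La q : ℝ) ^ K = ((La q : ℝ) ^ (e + 1)) ^ (k + 1) * (La q : ℝ) ^ k := by
        rw [← pow_mul, ← pow_add, hK, hκ]
        congr 1
        have : (e + 2) * (k + 1) = (e + 1) * (k + 1) + k + 1 := by ring
        omega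
      have h2 : (La q : ℝ) ^ K ≤ 8 ^ K * t ^ K := by
        rw [← mul_pow]; exact pow_le_pow_left₀ hLa0.le hLa2 K
      calc E = C * (La q : ℝ) ^ K * (uu q : ℝ) ^ 2 := by rw [hE, h1]; ring
        _ ≤ C * (8 ^ K * t ^ K) * (36 * ll ^ 2) := by
            apply mul_le_mul _ huu2 (sq_nonneg _) (by positivity)
            exact mul_le_mul_of_nonneg_left h2 (Nat.cast_nonneg _)
        _ = _ := by ring
    have hll3 : 1 ≤ ll ^ 2 := one_le_pow₀ hll1
    have hX1 : 1 ≤ t ^ K * ll ^ 2 := one_le_mul_of_one_le_of_one_le hgoal hll3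
    have h6 : (0:ℝ) ≤ 10000 * Real.exp (T ^ κ) * (t ^ K * ll ^ 2) := by positivity
    have h7 : (2 * k + 5 : ℝ) ≤ (2 * k + 5) * (t ^ K * ll ^ 2) :=
      le_mul_of_one_le_right (by positivity) hX1
    calc 4 * (E + (2 * k + 5)) ≤ 4 * (36 * C * 8 ^ K * (t ^ K * ll ^ 2) +
          (2 * k + 5) * (t ^ K * ll ^ 2)) := by linarith
      _ ≤ (4 * (36 * C * 8 ^ K + (2 * k + 5)) + 10000 * Real.exp (T ^ κ)) * (t ^ K * ll ^ 2) := by
          linarith
      _ = _ := by ring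

end Pool.Agent.U49
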