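import Pool.Agent.U49.SD.Fin
import Pool.Agent.R843.SX.FinalZ

set_option autoImplicit false

/-!
# The star discrepancy with exponent `1/6` in the dimensions `d ≥ 4`, and `1/7` in dimension three
-/

namespace Pool.Agent.U49

open Finset Pool.Agent.Y258
open Pool.Agent.R843.SX (f6 f7 f8 f9 z10_of z11_of z12_of)

theorem g18 : St_N18 :=
  n18_of Pool.Agent.Y359.SD.c1 Pool.Agent.Y359.SD.c2 Pool.Agent.Y283.SD.C3 Pool.Agent.Y46.SX.xq'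
    (z10_of f6) (Pool.Agent.Y359.SD.c8b Pool.Agent.Y899.SD.A6a)
    Pool.Agent.Y838.SD.c10 (z11_of f7 Pool.Agent.Y258.X.fc8 Pool.Agent.Y838.SD.c10)
    (z12_of Pool.Agent.Y899.SD.A6a f8) f6 f9
    Pool.Agent.Y272.SD.st_C16 Pool.Agent.Y272.SD.st_C17

/-- the saving in the dimension `n + 2` -/
noncomputable def sav (n : ℕ) : ℝ := if n = 1 then 1 / 7 else 1 / 6

/-- Power saving, boxes `[0, x)`. -/
theorem star_open (n : ℕ) (hn : 1 ≤ n) : ∃ C : ℝ, 0 < C ∧ ∀ N : ℕ, 3 ≤ N →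
    ∃ ξ : Fin N → Fin (n + 2) → ℝ, (∀ i j, 0 ≤ ξ i j ∧ ξ i j < 1) ∧
      ∀ x : Fin (n + 2) → ℝ, (∀ j, 0 ≤ x j) → (∀ j, x j ≤ 1) →
      |(((univ : Finset (Fin N)).filter (fun i => ∀ j, ξ i j < x j)).card : ℝ)
        - N * ∏ j, x j| ≤ C * (Real.log N) ^ ((n:ℝ) + 1 - sav n) *
          (Real.log (Real.log N)) ^ 2 := by
  unfold sav
  by_cases h1 : n = 1
  · subst h1
    have h := fin_of 5 1 (by norm_num)
      (three g18 Pool.Agent.Y141.SDC19.C19 Pool.Agent.Y245.SD.C20 le_rfl)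
    norm_num at h ⊢
    exact h
  · obtain ⟨k, hk⟩ : ∃ k, n = k + 1 := ⟨n - 1, by omega⟩
    subst hk
    have h := fin_of 4 (k + 1) (by norm_num)
      (all g18 Pool.Agent.Y141.SDC19.C19 Pool.Agent.Y245.SD.C20 le_rfl k (by omega))
    rw [if_neg h1]
    norm_num at h ⊢
    exact h

/-- Power saving, boxes `[0, x]`. -/
theorem star_closed (n : ℕ) (hn : 1 ≤ n) : ∃ C : ℝ, 0 < C ∧ ∀ N : ℕ, 3 ≤ N →
    ∃ ξ : Fin N → Fin (n + 2) → ℝ,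
    (∀ i j, 0 ≤ ξ i j ∧ ξ i j < 1) ∧ ∀ x : Fin (n + 2) → ℝ, (∀ j, 0 ≤ x j) → (∀ j, x j ≤ 1) →
      ∀ S : Finset (Fin N), (∀ i, i ∈ S ↔ ∀ j, ξ i j ≤ x j) →
      |(S.card : ℝ) - N * ∏ j, x j| ≤ C * (Real.log N) ^ ((n:ℝ) + 1 - sav n) *
          (Real.log (Real.log N)) ^ 2 := by
  obtain ⟨C, hC, h⟩ := star_open n hn
  refine ⟨C, hC, fun N hN => ?_⟩
  obtain ⟨ξ, hξ, h1⟩ := h N hN
  refine ⟨ξ, hξ, fun x hx0 hx1 S hS => ?_⟩
  refine H470D4.closed_of_open_all (fun i j => (hξ i j).2) ?_ hx0 hx1 hS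
  intro y hy0 hy1 S' hS'
  have h2 : S' = (univ : Finset (Fin N)).filter (fun i => ∀ j, ξ i j < y j) := by
    ext i
    rw [mem_filter, hS' i]
    simp only [mem_univ, true_and]
  rw [h2]
  exact h1 y hy0 hy1

end Pool.Agent.U49
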