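import Pool.Agent.U49.SD.Par

set_option autoImplicit false

/-!
# The stages and the induction on the dimension
-/

namespace Pool.Agent.U49

open Finset Pool.Agent.H470D4 Pool.Agent.Y258
open Pool.Agent.H935R2.PS (La uu nn dl mx Suit)
open Pool.Agent.R843.SX (SuitG)
open Pool.Agent.Y590.SD (GB_mono La_pos uu_pos)

/-- the bound of the stage `n` -/
noncomputable def FF (n e : ℕ) (L u : ℝ) : ℝ := (L ^ (e + 1)) ^ (n + 2) * L ^ (n + 1) * u ^ 2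

/-- the bound of the first stage, weak form -/
noncomputable def FW (e : ℕ) (L u : ℝ) : ℝ := (L ^ (e + 1)) ^ 3 * L ^ 2 * u ^ 2

theorem stage (h : St_N18) (n e : ℕ) (he : 4 ≤ e) (hen : 6 ≤ (e + 1) * (n + 1)) :
    Stg n e (FF n e) := by
  obtain ⟨κ, hκ⟩ : ∃ κ : ℕ, κ = (e + 1) * (n + 3) + n + 9 := ⟨_, rfl⟩
  obtain ⟨C, hC⟩ := h n κ
  obtain ⟨N, hN⟩ := Pool.Agent.Y496.SD.Num.ev_pow ((e + 2) * (2 * n + 6) + n + 14)
  obtain ⟨N1, hN1⟩ : ∃ N1 : ℕ, N1 = N + (C * 2 ^ (2 * n + 6) + 2 ^ C * 2 ^ (n + 5)) + 4 :=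
    ⟨_, rfl⟩
  obtain ⟨D, hD⟩ : ∃ D : ℕ, D = 4 * (C * 2 ^ n + 2 ^ C * 2 ^ (n + 5)) := ⟨_, rfl⟩
  refine ⟨C * (6 + D) + C + 2 ^ N1, fun q hq hs hCq c hc => ?_⟩
  have hq0 : q ≠ 0 := hq.out.ne_zero
  have hLN : N1 ≤ La q := by
    unfold La
    apply Nat.le_log_of_pow_le (by norm_num)
    have : 0 ≤ C * (6 + D) + C := Nat.zero_le _
    omega
  have hL2 : 4 ≤ La q := by omega
  have hLq : 2 ^ La q ≤ q := Nat.pow_log_le_self 2 hq0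
  have hCq1 : C ≤ q := by
    have : 0 ≤ 2 ^ N1 := Nat.zero_le _
    have : 0 ≤ C * (6 + D) := Nat.zero_le _
    omega
  have hu : 2 ^ uu q ≤ 2 * La q := by
    unfold uu
    rw [pow_succ, mul_comm]
    exact Nat.mul_le_mul_left 2 (Nat.pow_log_le_self 2 (by omega))
  have hu1' : 1 ≤ uu q := by unfold uu; omega
  obtain ⟨K0, K1, ca, cb, cb0, cb1, cc, cc1, cd, hK0u⟩ := facts n e κ C N1 (La q) (uu q) q hκ hLN
    (by omega) (by omega) hLq hu1' (hN (La q) (by omega)) hu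
    (Pool.Agent.Y258.X.La_lt_two_pow q)
  have hLr : (1:ℝ) ≤ (La q:ℝ) := by exact_mod_cast (by omega : 1 ≤ La q)
  have hL0r : (0:ℝ) < (La q:ℝ) := by linarith
  have hu1 : (1:ℝ) ≤ (uu q : ℝ) := by exact_mod_cast hu1'
  obtain ⟨θ, hθ⟩ : ∃ θ : ℝ, θ = 1 / (((La q:ℝ) ^ (e + 1)) ^ (n + 1) * (La q:ℝ) ^ n *
    (uu q : ℝ) ^ 2) := ⟨_, rfl⟩
  have hu0 : (0:ℝ) < (uu q : ℝ) := by linarith
  have hθ0 : 0 < θ := by
    rw [hθ]
    exact one_div_pos.2 (mul_pos (mul_pos (pow_pos (pow_pos hL0r _) _) (pow_pos hL0r _))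
      (pow_pos hu0 _))
  have hLpos : 0 < La q := by omega
  obtain ⟨ω, hω, hb⟩ := hC q hs hCq1 (La q ^ e) (La q) c hc (Nat.pow_pos hLpos)
    hLpos K0 K1 ca cb cb0 cb1 cc cc1 cd θ hθ0
  refine ⟨ω, hω, fun X Y hX hY => ?_⟩
  refine (hb X Y hX hY).trans ?_
  have hKr : ((2:ℝ) ^ K0) ≤ 2 * ((C:ℝ) * 2 ^ n + 2 ^ C * 2 ^ (n + 5)) *
      (((La q:ℝ) ^ (e + 1)) ^ n * (La q:ℝ) ^ (n + 4) + (La q:ℝ) ^ (n + 5)) := by
    exact_mod_cast hK0u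
  have hKr2 : ((2:ℝ) ^ K0) * (La q:ℝ) ^ 2 ≤ D * (((La q:ℝ) ^ (e + 1)) ^ (n + 1) *
      (La q:ℝ) ^ (n + 1)) := by
    obtain ⟨L, hL⟩ : ∃ L : ℝ, L = La q := ⟨_, rfl⟩
    obtain ⟨m, hm⟩ : ∃ m : ℝ, m = L ^ (e + 1) := ⟨_, rfl⟩
    rw [← hL] at hKr hLr hL0r ⊢
    rw [← hm] at hKr ⊢
    have hm1 : 1 ≤ m := by rw [hm]; exact one_le_pow₀ hLr
    have h1 : L ^ 5 ≤ m := by rw [hm]; exact pow_le_pow_right₀ hLr (by omega)
    have h2 : L ^ 6 ≤ m ^ (n + 1) := by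
      rw [hm, ← pow_mul]; exact pow_le_pow_right₀ hLr hen
    have e1 : (m ^ n * L ^ (n + 4)) * L ^ 2 ≤ m ^ (n + 1) * L ^ (n + 1) := by
      calc (m ^ n * L ^ (n + 4)) * L ^ 2 = m ^ n * L ^ (n + 1) * L ^ 5 := by ring
        _ ≤ m ^ n * L ^ (n + 1) * m := mul_le_mul_of_nonneg_left h1 (by positivity)
        _ = _ := by ring
    have e2 : L ^ (n + 5) * L ^ 2 ≤ m ^ (n + 1) * L ^ (n + 1) := by
      calc L ^ (n + 5) * L ^ 2 = L ^ 6 * L ^ (n + 1) := by ring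
        _ ≤ m ^ (n + 1) * L ^ (n + 1) := mul_le_mul_of_nonneg_right h2 (by positivity)
    calc (2:ℝ) ^ K0 * L ^ 2 ≤ (2 * ((C:ℝ) * 2 ^ n + 2 ^ C * 2 ^ (n + 5)) *
          (m ^ n * L ^ (n + 4) + L ^ (n + 5))) * L ^ 2 :=
          mul_le_mul_of_nonneg_right hKr (by positivity)
      _ = 2 * ((C:ℝ) * 2 ^ n + 2 ^ C * 2 ^ (n + 5)) *
          ((m ^ n * L ^ (n + 4)) * L ^ 2 + L ^ (n + 5) * L ^ 2) := by ring
      _ ≤ 2 * ((C:ℝ) * 2 ^ n + 2 ^ C * 2 ^ (n + 5)) *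
          (m ^ (n + 1) * L ^ (n + 1) + m ^ (n + 1) * L ^ (n + 1)) := by
          apply mul_le_mul_of_nonneg_left _ (by positivity)
          linarith
      _ = D * (m ^ (n + 1) * L ^ (n + 1)) := by rw [hD]; push_cast; ring
  have key := num_real n e (La q:ℝ) (uu q : ℝ) ((2:ℝ) ^ K0) (C:ℝ) (D:ℝ) hLr hu1 he
    (Nat.cast_nonneg _) (Nat.cast_nonneg _) ((La q:ℝ) ^ (e + 1)) rfl (by positivity) hKr2 θ hθ
  have hcast : ((La q ^ e * La q : ℕ) : ℝ) = (La q:ℝ) ^ (e + 1) := by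
    rw [← pow_succ]; push_cast; rfl
  have hcast1 : ((La q ^ e : ℕ) : ℝ) = (La q:ℝ) ^ e := by push_cast; rfl
  rw [hcast, hcast1]
  refine key.trans ?_
  unfold FF
  apply mul_le_mul_of_nonneg_right _ (mul_nonneg (mul_nonneg
    (pow_nonneg (pow_nonneg hL0r.le _) _) (pow_nonneg hL0r.le _)) (sq_nonneg _))
  push_cast
  have : (0:ℝ) ≤ 2 ^ N1 := by positivity
  have : (0:ℝ) ≤ C := Nat.cast_nonneg _
  linarith

theorem stage0 (h : St_N18) (e : ℕ) (he : 4 ≤ e) : Stg 0 e (FW e) := by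
  obtain ⟨κ, hκ⟩ : ∃ κ : ℕ, κ = (e + 1) * (0 + 3) + 0 + 9 := ⟨_, rfl⟩
  obtain ⟨C, hC⟩ := h 0 κ
  obtain ⟨N, hN⟩ := Pool.Agent.Y496.SD.Num.ev_pow ((e + 2) * (2 * 0 + 6) + 0 + 14)
  obtain ⟨N1, hN1⟩ : ∃ N1 : ℕ, N1 = N + (C * 2 ^ (2 * 0 + 6) + 2 ^ C * 2 ^ (0 + 5)) + 4 :=
    ⟨_, rfl⟩
  obtain ⟨D, hD⟩ : ∃ D : ℕ, D = 4 * (C * 2 ^ 0 + 2 ^ C * 2 ^ (0 + 5)) := ⟨_, rfl⟩
  refine ⟨C * (6 + D) + C + 2 ^ N1, fun q hq hs hCq c hc => ?_⟩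
  have hq0 : q ≠ 0 := hq.out.ne_zero
  have hLN : N1 ≤ La q := by
    unfold La
    apply Nat.le_log_of_pow_le (by norm_num)
    have : 0 ≤ C * (6 + D) + C := Nat.zero_le _
    omega
  have hL2 : 4 ≤ La q := by omega
  have hLq : 2 ^ La q ≤ q := Nat.pow_log_le_self 2 hq0
  have hCq1 : C ≤ q := by
    have : 0 ≤ 2 ^ N1 := Nat.zero_le _
    have : 0 ≤ C * (6 + D) := Nat.zero_le _
    omega
  have hu : 2 ^ uu q ≤ 2 * La q := by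
    unfold uu
    rw [pow_succ, mul_comm]
    exact Nat.mul_le_mul_left 2 (Nat.pow_log_le_self 2 (by omega))
  have hu1' : 1 ≤ uu q := by unfold uu; omega
  obtain ⟨K0, K1, ca, cb, cb0, cb1, cc, cc1, cd, hK0u⟩ := facts 0 e κ C N1 (La q) (uu q) q hκ hLN
    (by omega) (by omega) hLq hu1' (hN (La q) (by omega)) hu
    (Pool.Agent.Y258.X.La_lt_two_pow q)
  have hLr : (1:ℝ) ≤ (La q:ℝ) := by exact_mod_cast (by omega : 1 ≤ La q)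
  have hL0r : (0:ℝ) < (La q:ℝ) := by linarith
  have hu1 : (1:ℝ) ≤ (uu q : ℝ) := by exact_mod_cast hu1'
  have hu0 : (0:ℝ) < (uu q : ℝ) := by linarith
  have hLpos : 0 < La q := by omega
  obtain ⟨ω, hω, hb⟩ := hC q hs hCq1 (La q ^ e) (La q) c hc (Nat.pow_pos hLpos)
    hLpos K0 K1 ca cb cb0 cb1 cc cc1 cd 1 one_pos
  refine ⟨ω, hω, fun X Y hX hY => ?_⟩
  refine (hb X Y hX hY).trans ?_
  have hKr : ((2:ℝ) ^ K0) ≤ 2 * ((C:ℝ) * 2 ^ 0 + 2 ^ C * 2 ^ (0 + 5)) *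
      (((La q:ℝ) ^ (e + 1)) ^ 0 * (La q:ℝ) ^ (0 + 4) + (La q:ℝ) ^ (0 + 5)) := by
    exact_mod_cast hK0u
  have hKr2 : ((2:ℝ) ^ K0) ≤ D * (La q:ℝ) ^ 5 := by
    refine hKr.trans ?_
    have h1 : (La q:ℝ) ^ 4 ≤ (La q:ℝ) ^ 5 := pow_le_pow_right₀ hLr (by omega)
    calc 2 * ((C:ℝ) * 2 ^ 0 + 2 ^ C * 2 ^ (0 + 5)) *
        (((La q:ℝ) ^ (e + 1)) ^ 0 * (La q:ℝ) ^ (0 + 4) + (La q:ℝ) ^ (0 + 5)) =
        2 * ((C:ℝ) * 2 ^ 0 + 2 ^ C * 2 ^ (0 + 5)) * ((La q:ℝ) ^ 4 + (La q:ℝ) ^ 5) := by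
          ring
      _ ≤ 2 * ((C:ℝ) * 2 ^ 0 + 2 ^ C * 2 ^ (0 + 5)) * ((La q:ℝ) ^ 5 + (La q:ℝ) ^ 5) := by
          apply mul_le_mul_of_nonneg_left _ (by positivity)
          linarith
      _ = _ := by rw [hD]; push_cast; ring
  have key := num_weak e (La q:ℝ) (uu q : ℝ) ((2:ℝ) ^ K0) (C:ℝ) (D:ℝ) hLr hu1 he
    (Nat.cast_nonneg _) (Nat.cast_nonneg _) ((La q:ℝ) ^ (e + 1)) rfl (by positivity) hKr2
  have hcast : ((La q ^ e * La q : ℕ) : ℝ) = (La q:ℝ) ^ (e + 1) := by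
    rw [← pow_succ]; push_cast; rfl
  have hcast1 : ((La q ^ e : ℕ) : ℝ) = (La q:ℝ) ^ e := by push_cast; rfl
  rw [hcast, hcast1]
  refine key.trans ?_
  unfold FW
  apply mul_le_mul_of_nonneg_right _ (mul_nonneg (mul_nonneg
    (pow_nonneg (pow_nonneg hL0r.le _) _) (pow_nonneg hL0r.le _)) (sq_nonneg _))
  push_cast
  have : (0:ℝ) ≤ 2 ^ N1 := by positivity
  have : (0:ℝ) ≤ C := Nat.cast_nonneg _
  linarith

/-- the claim at the stage `k` with the bound `F` -/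
def Cl (e k : ℕ) (F : ℝ → ℝ → ℝ) : Prop := ∃ C : ℕ, ∀ (q : ℕ) [Fact q.Prime], SuitG q → C ≤ q →
  ∃ c : Flg q (La q ^ e) (La q) k, IsFlags c ∧ GB c (C * F (La q) (uu q))

/-- one more coordinate -/
lemma step (h19 : St_C19) {e k : ℕ} {F G H : ℝ → ℝ → ℝ} (hst : Stg k e G) (hC : Cl e k F)
    (hF : ∀ L u : ℝ, 1 ≤ L → 1 ≤ u → F L u ≤ H L u) (hG : ∀ L u : ℝ, 1 ≤ L → 1 ≤ u → G L u ≤ H L u)
    (hG0 : ∀ L u : ℝ, 1 ≤ L → 1 ≤ u → 0 ≤ G L u) : Cl e (k + 1) H := by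
  obtain ⟨C0, hC0⟩ := hC
  obtain ⟨C1, hC1⟩ := hst
  refine ⟨C0 + C1 + 3, ?_⟩
  intro q _ hs hq
  have hL := La_pos (q := q) (by omega)
  have hL' : (1:ℝ) ≤ La q := by exact_mod_cast hL
  have hu := uu_pos q
  have hu' : (1:ℝ) ≤ uu q := by exact_mod_cast hu
  obtain ⟨c, hc, hg⟩ := hC0 q hs (by omega)
  obtain ⟨ω, hex, hb⟩ := hC1 q hs (by omega) c hc
  obtain ⟨h1, h2⟩ := h19 k q (La q ^ e) (La q) c hc ω hex
  have h0 := hG0 (La q) (uu q) hL' hu'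
  refine ⟨newF c ω, h1, GB_mono (h2 _ _ hg (mul_nonneg (Nat.cast_nonneg _) h0) hb) ?_⟩
  have h3 := hF (La q) (uu q) hL' hu'
  have h4 := hG (La q) (uu q) hL' hu'
  have h5 : 0 ≤ H (La q) (uu q) := h0.trans h4
  push_cast
  calc (C0:ℝ) * F (La q) (uu q) + C1 * G (La q) (uu q) ≤
        C0 * H (La q) (uu q) + C1 * H (La q) (uu q) :=
        add_le_add (mul_le_mul_of_nonneg_left h3 (Nat.cast_nonneg _))
          (mul_le_mul_of_nonneg_left h4 (Nat.cast_nonneg _))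
    _ ≤ _ := by nlinarith

/-- dimension two -/
lemma base (h20 : St_C20) (e : ℕ) (he : 4 ≤ e) : Cl e 0 (fun L _ => L ^ (e + 1) * L ^ 2) := by
  obtain ⟨C0, hC0⟩ := h20
  refine ⟨C0 + 3, ?_⟩
  intro q _ hs hq
  have hL := La_pos (q := q) (by omega)
  obtain ⟨c, hc, hg⟩ := hC0 q (by omega) (La q ^ e) (La q) (by positivity) (by omega)
  refine ⟨c, hc, GB_mono hg ?_⟩
  have hL' : (1:ℝ) ≤ La q := by exact_mod_cast hL
  have e1 : ((La q ^ e * La q : ℕ) : ℝ) = (La q:ℝ) ^ (e + 1) := by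
    rw [← pow_succ]; push_cast; rfl
  rw [e1]
  push_cast
  have : (0:ℝ) ≤ (La q:ℝ) ^ (e + 1) * (La q:ℝ) ^ 2 := by positivity
  nlinarith

lemma FF_nonneg (n e : ℕ) (L u : ℝ) (hL : 1 ≤ L) (hu : 1 ≤ u) : 0 ≤ FF n e L u := by
  unfold FF; positivity

lemma FW_nonneg (e : ℕ) (L u : ℝ) (hL : 1 ≤ L) (hu : 1 ≤ u) : 0 ≤ FW e L u := by
  unfold FW; positivity

/-- dimension three, exponent `1 / (e + 2)` with `e ≥ 5` -/
theorem three (h18 : St_N18) (h19 : St_C19) (h20 : St_C20) {e : ℕ} (he : 5 ≤ e) :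
    Cl e 1 (FF 0 e) := by
  refine step h19 (stage h18 0 e (by omega) (by omega)) (base h20 e (by omega)) ?_
    (fun L u _ _ => le_rfl) (FF_nonneg 0 e)
  intro L u hL hu
  unfold FF
  have hu2 : 1 ≤ u ^ 2 := one_le_pow₀ hu
  calc L ^ (e + 1) * L ^ 2 = L ^ (e + 3) * 1 := by ring
    _ ≤ L ^ (2 * e + 3) * u ^ 2 := by
        apply mul_le_mul (pow_le_pow_right₀ hL (by omega)) hu2 (by norm_num) (by positivity)
    _ = _ := by rw [← pow_mul]; ring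

/-- dimension three, weak form -/
theorem threeW (h18 : St_N18) (h19 : St_C19) (h20 : St_C20) {e : ℕ} (he : 4 ≤ e) :
    Cl e 1 (FW e) := by
  refine step h19 (stage0 h18 e he) (base h20 e (by omega)) ?_
    (fun L u _ _ => le_rfl) (FW_nonneg e)
  intro L u hL hu
  unfold FW
  have hu2 : 1 ≤ u ^ 2 := one_le_pow₀ hu
  calc L ^ (e + 1) * L ^ 2 = L ^ (e + 3) * 1 := by ring
    _ ≤ L ^ (3 * e + 5) * u ^ 2 := by
        apply mul_le_mul (pow_le_pow_right₀ hL (by omega)) hu2 (by norm_num) (by positivity)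
    _ = _ := by rw [← pow_mul]; ring

/-- dimension four -/
theorem four (h18 : St_N18) (h19 : St_C19) (h20 : St_C20) {e : ℕ} (he : 4 ≤ e) :
    Cl e 2 (FF 1 e) := by
  refine step h19 (stage h18 1 e he (by omega)) (threeW h18 h19 h20 he) ?_
    (fun L u _ _ => le_rfl) (FF_nonneg 1 e)
  intro L u hL hu
  unfold FF FW
  exact le_of_eq (by ring)

/-- all the larger dimensions -/
theorem all (h18 : St_N18) (h19 : St_C19) (h20 : St_C20) {e : ℕ} (he : 4 ≤ e) (k : ℕ)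
    (hk : 1 ≤ k) : Cl e (k + 1) (FF k e) := by
  induction k, hk using Nat.le_induction with
  | base => exact four h18 h19 h20 he
  | succ k hk ih =>
    refine step h19 (stage h18 (k + 1) e he (by nlinarith)) ih ?_
      (fun L u _ _ => le_rfl) (FF_nonneg (k + 1) e)
    intro L u hL hu
    unfold FF
    have hu2 : 1 ≤ u ^ 2 := one_le_pow₀ hu
    have hm1 : 1 ≤ L ^ (e + 1) := one_le_pow₀ hL
    apply mul_le_mul_of_nonneg_right _ (by linarith)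
    apply mul_le_mul (pow_le_pow_right₀ hm1 (by omega)) (pow_le_pow_right₀ hL (by omega))
      (by positivity) (by positivity)

end Pool.Agent.U49
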