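import Pool.Agent.U49.SD.Wts
import Pool.Agent.Y899.SD.A6
import Pool.Agent.Y255.SD.A78

set_option autoImplicit false
set_option linter.unusedSectionVars false

/-!
# The sum of the damped weights
-/

namespace Pool.Agent.U49

open Finset Pool.Agent.H470D4 Pool.Agent.Y258
open Pool.Agent.H935R2.PS (La uu nn dl mx Suit)

lemma dw_two_pow_le {A s : ℕ} (h : s ≤ A) : (2:ℝ) ^ s * dw A s = 2 ^ A := by
  unfold dw
  rw [if_pos h, ← pow_add]
  congr 1
  omega

lemma dw_two_pow_gt {A s : ℕ} (h : A < s) : (2:ℝ) ^ s * dw A s = 2 ^ A * (3 / 4) ^ (s - A) := by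
  unfold dw
  rw [if_neg (by omega)]
  obtain ⟨k, rfl⟩ := Nat.exists_eq_add_of_le h.le
  rw [Nat.add_sub_cancel_left, pow_add, mul_assoc, ← mul_pow]
  norm_num

lemma sum_scales (A K1 N : ℕ) :
    (N ≤ A + 1 → ∑ s ∈ range N, (2:ℝ) ^ s * (if s + K1 ≤ A then 0 else dw A s) ≤
      2 ^ A * ((N + K1 - (A + 1) : ℕ) : ℝ)) ∧
    (A + 1 ≤ N → ∑ s ∈ range N, (2:ℝ) ^ s * (if s + K1 ≤ A then 0 else dw A s) ≤
      2 ^ A * (K1 + 4 - 4 * (3 / 4) ^ (N - (A + 1)))) := by
  induction N with
  | zero =>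
    refine ⟨fun _ => ?_, fun h => absurd h (by omega)⟩
    rw [range_zero, sum_empty]
    positivity
  | succ N ih =>
    rw [sum_range_succ]
    have key : N + 1 ≤ A + 1 → ∑ s ∈ range N, (2:ℝ) ^ s * (if s + K1 ≤ A then 0 else dw A s) +
        (2:ℝ) ^ N * (if N + K1 ≤ A then 0 else dw A N) ≤
        2 ^ A * ((N + 1 + K1 - (A + 1) : ℕ) : ℝ) := by
      intro h
      have h1 := ih.1 (by omega)
      have h2 := dw_two_pow_le (show N ≤ A by omega)
      have hA : (0:ℝ) < 2 ^ A := by positivity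
      by_cases h3 : N + K1 ≤ A
      · rw [if_pos h3, mul_zero, add_zero]
        refine h1.trans ?_
        apply mul_le_mul_of_nonneg_left _ hA.le
        exact_mod_cast (by omega : N + K1 - (A + 1) ≤ N + 1 + K1 - (A + 1))
      · rw [if_neg h3, h2]
        have e : N + 1 + K1 - (A + 1) = (N + K1 - (A + 1)) + 1 := by omega
        rw [e]
        push_cast
        linarith
    constructor
    · exact key
    · intro h
      by_cases h2 : N + 1 = A + 1
      · have h1 := key h2.le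
        refine h1.trans ?_
        have e1 : N + 1 + K1 - (A + 1) = K1 := by omega
        have e2 : N + 1 - (A + 1) = 0 := by omega
        rw [e1, e2, pow_zero]
        apply mul_le_mul_of_nonneg_left _ (by positivity)
        linarith
      · have h1 := ih.2 (by omega)
        have h3 : ¬ N + K1 ≤ A := by omega
        have h4 := dw_two_pow_gt (show A < N by omega)
        rw [if_neg h3, h4]
        have e1 : N - A = (N - (A + 1)) + 1 := by omega
        have e2 : N + 1 - (A + 1) = (N - (A + 1)) + 1 := by omega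
        rw [e1, e2]
        have hA : (0:ℝ) < 2 ^ A := by positivity
        have hr : (0:ℝ) < (3 / 4) ^ (N - (A + 1)) := by positivity
        rw [pow_succ]
        nlinarith

open Classical in
/-- **(W)** -/
theorem thmW : St_W := by
  intro κ hκ
  refine ⟨3 ^ κ * 2 ^ (κ - 1) * 4, ?_⟩
  intro q _ h8 ι _ _ hcard D K1
  have hL1 : 1 ≤ La q := Pool.Agent.Y255.SD.La_pos (by omega)
  have hne : Nonempty ι := Fintype.card_pos_iff.1 (by omega)
  obtain ⟨a0⟩ := hne
  obtain ⟨A, hA⟩ : ∃ A : ℕ, A = D * La q := ⟨_, rfl⟩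
  obtain ⟨f, hf⟩ : ∃ f : ℕ → ℝ, f = fun s => (if s + K1 ≤ A then 0 else dw A s) := ⟨_, rfl⟩
  have hf0 : ∀ s, 0 ≤ f s := by
    intro s
    rw [hf]
    dsimp only
    split_ifs
    · exact le_rfl
    · exact dw_nonneg _ _
  have e1 : ∀ h : ι → ZMod q, ii (¬ Bd D K1 h) * dw (D * La q) (sz h) = f (sz h) := by
    intro h
    rw [hf]
    dsimp only
    unfold Pool.Agent.Y258.Bd
    rw [← hA]
    split_ifs with h1
    · rw [ii_false (not_not_intro h1), zero_mul]
    · rw [ii_true h1, one_mul]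
  rw [sum_congr rfl fun h _ => e1 h, ← hA]
  -- fibers over the dyadic boxes
  have h1 : ∀ h ∈ (univ : Finset (ι → ZMod q)), (fun a => dl (h a)) ∈
      Fintype.piFinset (fun _ : ι => range (La q + 1)) := by
    intro h _
    rw [Fintype.mem_piFinset]
    intro a
    have := Pool.Agent.Y255.SD.dl_lt (by omega : 3 ≤ q) (h a)
    rw [mem_range]
    omega
  rw [← sum_fiberwise_of_maps_to h1]
  have h2 : ∀ b ∈ Fintype.piFinset (fun _ : ι => range (La q + 1)),
      ∑ h ∈ (univ : Finset (ι → ZMod q)).filter (fun h => (fun a => dl (h a)) = b), f (sz h) ≤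
        3 ^ κ * (2 ^ (∑ a, b a) * f (∑ a, b a)) := by
    intro b _
    have e2 : ∑ h ∈ (univ : Finset (ι → ZMod q)).filter (fun h => (fun a => dl (h a)) = b),
        f (sz h) = ∑ _h ∈ (univ : Finset (ι → ZMod q)).filter (fun h => (fun a => dl (h a)) = b),
        f (∑ a, b a) := by
      refine sum_congr rfl fun h hh => ?_
      rw [mem_filter] at hh
      rw [← hh.2]
      rfl
    rw [e2, sum_const, nsmul_eq_mul]
    have h3 := Pool.Agent.Y899.SD.card_box (q := q) b
    have e3 : (univ : Finset (ι → ZMod q)).filter (fun h => (fun a => dl (h a)) = b) =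
        (univ : Finset (ι → ZMod q)).filter (fun h => ∀ a, dl (h a) = b a) := by
      ext h
      simp only [mem_filter, mem_univ, true_and, funext_iff]
    rw [e3]
    calc _ ≤ (3 ^ Fintype.card ι * 2 ^ (∑ a, b a)) * f (∑ a, b a) :=
          mul_le_mul_of_nonneg_right h3 (hf0 _)
      _ = _ := by rw [hcard]; ring
  refine (sum_le_sum h2).trans ?_
  -- fibers over the sums
  have h4 : ∀ b ∈ Fintype.piFinset (fun _ : ι => range (La q + 1)),
      ∑ a, b a ∈ range (κ * La q + A + 2) := by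
    intro b hb
    rw [Fintype.mem_piFinset] at hb
    rw [mem_range]
    have : ∑ a, b a ≤ ∑ _a : ι, La q := sum_le_sum fun a _ => by
      have := mem_range.1 (hb a)
      omega
    rw [sum_const, card_univ, smul_eq_mul, hcard] at this
    omega
  rw [← sum_fiberwise_of_maps_to h4]
  have h5 : ∀ s ∈ range (κ * La q + A + 2),
      ∑ b ∈ (Fintype.piFinset (fun _ : ι => range (La q + 1))).filter (fun b => ∑ a, b a = s),
        (3:ℝ) ^ κ * (2 ^ (∑ a, b a) * f (∑ a, b a)) ≤
      3 ^ κ * ((La q + 1 : ℝ) ^ (κ - 1)) * (2 ^ s * f s) := by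
    intro s _
    have e2 : ∑ b ∈ (Fintype.piFinset (fun _ : ι => range (La q + 1))).filter
        (fun b => ∑ a, b a = s), (3:ℝ) ^ κ * (2 ^ (∑ a, b a) * f (∑ a, b a)) =
        ∑ _b ∈ (Fintype.piFinset (fun _ : ι => range (La q + 1))).filter
        (fun b => ∑ a, b a = s), (3:ℝ) ^ κ * (2 ^ s * f s) := by
      refine sum_congr rfl fun b hb => ?_
      rw [(mem_filter.1 hb).2]
    rw [e2, sum_const, nsmul_eq_mul]
    have h6 : ((((Fintype.piFinset (fun _ : ι => range (La q + 1))).filter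
        (fun b => ∑ a, b a = s)).card : ℕ) : ℝ) ≤ (La q + 1 : ℝ) ^ (κ - 1) := by
      have := Pool.Agent.Y899.SD.card_sum_eq a0 (La q) s
      rw [hcard] at this
      exact_mod_cast this
    have h7 : 0 ≤ (3:ℝ) ^ κ * (2 ^ s * f s) := by
      have := hf0 s
      positivity
    calc _ ≤ (La q + 1 : ℝ) ^ (κ - 1) * ((3:ℝ) ^ κ * (2 ^ s * f s)) :=
          mul_le_mul_of_nonneg_right h6 h7
      _ = _ := by ring
  refine (sum_le_sum h5).trans ?_
  rw [← mul_sum]
  have h8' : ∑ s ∈ range (κ * La q + A + 2), (2:ℝ) ^ s * f s ≤ 2 ^ A * (K1 + 4) := by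
    have h9 := (sum_scales A K1 (κ * La q + A + 2)).2 (by omega)
    rw [hf]
    refine h9.trans ?_
    apply mul_le_mul_of_nonneg_left _ (by positivity)
    have : (0:ℝ) ≤ 4 * (3 / 4) ^ (κ * La q + A + 2 - (A + 1)) := by positivity
    linarith
  have hLr : (1:ℝ) ≤ La q := by exact_mod_cast hL1
  have h10 : (La q + 1 : ℝ) ^ (κ - 1) ≤ 2 ^ (κ - 1) * (La q : ℝ) ^ (κ - 1) := by
    rw [← mul_pow]
    apply pow_le_pow_left₀ (by positivity)
    linarith
  calc (3:ℝ) ^ κ * (La q + 1 : ℝ) ^ (κ - 1) * ∑ s ∈ range (κ * La q + A + 2), (2:ℝ) ^ s * f s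
      ≤ 3 ^ κ * (2 ^ (κ - 1) * (La q : ℝ) ^ (κ - 1)) * (2 ^ A * (K1 + 4)) := by
        apply mul_le_mul _ h8' (sum_nonneg fun s _ => mul_nonneg (by positivity) (hf0 s))
          (by positivity)
        exact mul_le_mul_of_nonneg_left h10 (by positivity)
    _ ≤ 3 ^ κ * (2 ^ (κ - 1) * (La q : ℝ) ^ (κ - 1)) * (2 ^ A * (4 * (K1 + 1))) := by
        have hK : (0:ℝ) ≤ K1 := Nat.cast_nonneg _
        gcongr
        linarith
    _ = _ := by push_cast; ring

end Pool.Agent.U49
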