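import Pool.Agent.U49.SD.ThmS
import Pool.Agent.U49.SD.NumW
import Pool.Agent.R843.SX.X14bZ
import Pool.Agent.R843.SX.X11Z
import Pool.Agent.Y258.SX.XCore1

set_option autoImplicit false
set_option linter.unusedSectionVars false

/-!
# The moments of the damped majorants
-/

namespace Pool.Agent.U49

open Finset Pool.Agent.H470D4 Pool.Agent.Y258 Pool.Agent.Y290.SD
open Pool.Agent.H935R2.PS (La uu nn dl mx Suit)
open Pool.Agent.R843.SX (SuitG St_Z6 St_Z9 St_Z11 St_Z12)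
open Pool.Agent.Y833.SD (Wz)
open Pool.Agent.Y710.SX (not_Gx IL_dm1 card_forb mxv_self mxv_comm diag_le)

section basic
variable {q M B n : ℕ} [Fact q.Prime]

lemma RL_nonneg (c : Flg q M B n) (ω : Pth q B) (l : Fin (n+2) → ℕ) (r : ℕ)
    {F : (Option (Fin (n+2)) → ZMod q) → ℝ} (hF : ∀ H, 0 ≤ F H) : 0 ≤ RL c ω l r F :=
  sum_nonneg fun H _ => mul_nonneg (ii_nonneg _) (hF H)

lemma OL_nonneg (c : Flg q M B n) (ω : Pth q B) (l : Fin (n+2) → ℕ) (r : ℕ)
    {F : (Fin (n+2) → ZMod q) → ℝ} (hF : ∀ H, 0 ≤ F H) : 0 ≤ OL c ω l r F :=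
  sum_nonneg fun H _ => mul_nonneg (ii_nonneg _) (hF H)

lemma RD_nonneg (c : Flg q M B n) (K1 : ℕ) (ω : Pth q B) (l : Fin (n+2) → ℕ) (r : ℕ) :
    0 ≤ RD c K1 ω l r := RL_nonneg c ω l r fun _ => mul_nonneg (ii_nonneg _) (dw_nonneg _ _)

lemma OD_nonneg (c : Flg q M B n) (K1 : ℕ) (ω : Pth q B) (l : Fin (n+2) → ℕ) (r : ℕ) :
    0 ≤ OD c K1 ω l r := OL_nonneg c ω l r fun _ => mul_nonneg (ii_nonneg _) (dw_nonneg _ _)

lemma RF_nonneg (c : Flg q M B n) (ω : Pth q B) (l : Fin (n+2) → ℕ) (r : ℕ) :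
    0 ≤ RF c ω l r := RL_nonneg c ω l r fun _ => dw_nonneg _ _

lemma OF_nonneg (c : Flg q M B n) (ω : Pth q B) (l : Fin (n+2) → ℕ) (r : ℕ) :
    0 ≤ OF c ω l r := OL_nonneg c ω l r fun _ => dw_nonneg _ _

lemma mm_nonneg (CS : ℕ) (c : Flg q M B n) (K0 : ℕ) (ω : Pth q B) (l : Fin (n+2) → ℕ) (r : ℕ) :
    0 ≤ mm CS c K0 ω l r := by
  unfold mm
  have := RR_nonneg c ω l r
  have := RD_nonneg c K0 ω l r
  apply le_min
  · assumption
  · positivity

lemma mm_le_RR (CS : ℕ) (c : Flg q M B n) (K0 : ℕ) (ω : Pth q B) (l : Fin (n+2) → ℕ) (r : ℕ) :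
    mm CS c K0 ω l r ≤ RR c ω l r := min_le_left _ _

lemma mm_le_RD (CS : ℕ) (c : Flg q M B n) (K0 : ℕ) (ω : Pth q B) (l : Fin (n+2) → ℕ) (r : ℕ) :
    mm CS c K0 ω l r ≤ CS * (2 * (La q : ℝ) ^ (n + 2) + RD c K0 ω l r) := min_le_right _ _

lemma RF_eq_RD {c : Flg q M B n} {K0 : ℕ} {ω : Pth q B} {l : Fin (n+2) → ℕ} {r : ℕ}
    (h : ∀ H : Option (Fin (n+2)) → ZMod q, H none ≠ 0 → Rel c ω l r H →
      ¬ Pool.Agent.Y258.Bd (dm M B l r) K0 H) : RF c ω l r = RD c K0 ω l r := by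
  unfold RF RD RL
  refine sum_congr rfl fun H _ => ?_
  beta_reduce
  by_cases hH : H none ≠ 0 ∧ Rel c ω l r H
  · rw [ii_true hH, ii_true (h H hH.1 hH.2), one_mul, one_mul]
  · rw [ii_false hH, zero_mul, zero_mul]

lemma OF_eq_OD {c : Flg q M B n} {K0 : ℕ} {ω : Pth q B} {l : Fin (n+2) → ℕ} {r : ℕ}
    (h : ∀ O : Fin (n+2) → ZMod q, O ≠ 0 → OR c ω l r O →
      ¬ Pool.Agent.Y258.Bd (dm M B l r) K0 O) : OF c ω l r = OD c K0 ω l r := by
  unfold OF OD OL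
  refine sum_congr rfl fun H _ => ?_
  beta_reduce
  by_cases hH : H ≠ 0 ∧ OR c ω l r H
  · rw [ii_true hH, ii_true (h H hH.1 hH.2), one_mul, one_mul]
  · rw [ii_false hH, zero_mul, zero_mul]

lemma Gx_not_Bd {c : Flg q M B n} {K0 : ℕ} {ω : Pth q B} {l : Fin (n+2) → ℕ} {r : ℕ}
    (h : Gx c K0 ω l r) (H : Option (Fin (n+2)) → ZMod q) (h1 : H none ≠ 0)
    (h2 : Rel c ω l r H) : ¬ Pool.Agent.Y258.Bd (dm M B l r) K0 H := by
  intro h3
  apply h H h1 h2
  left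
  refine ⟨1, one_ne_zero, ?_⟩
  simpa using h3

/-- the bound of one level -/
lemma TT_le_mm (h10 : St_C10) {CS : ℕ}
    (hS : ∀ (M B : ℕ) (c : Flg q M B n) (ω : Pth q B) (r : ℕ) (l : Fin (n+2) → ℕ), r < M * B →
      Exc c ω r → 1 ≤ dm M B l r → dm M B l r ≤ n + 2 →
      ∀ (X : Fin (n+2) → ℕ → ZMod q) (Y t : ℕ → ZMod q),
      |TT c (cD M B X Y) t ω r l| ≤ CS * ((La q : ℝ) ^ (n + 2) + RF c ω l r + OF c ω l r))
    (c : Flg q M B n) (K0 : ℕ) (ω : Pth q B) {r : ℕ} {l : Fin (n+2) → ℕ} (hr : r < M * B)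
    (hE : Exc c ω r) (h1 : 1 ≤ dm M B l r) (h2 : dm M B l r ≤ n + 2)
    (X : Fin (n+2) → ℕ → ZMod q) (Y t : ℕ → ZMod q) :
    |TT c (cD M B X Y) t ω r l * (ii (Gx c K0 ω l r) * ii (OG c ω l r))| ≤
      mm CS c K0 ω l r * ii (Gx c K0 ω l r) := by
  rw [abs_mul, abs_of_nonneg (mul_nonneg (ii_nonneg _) (ii_nonneg _))]
  by_cases hG : Gx c K0 ω l r
  · rw [ii_true hG, one_mul, mul_one]
    by_cases hO : OG c ω l r
    · rw [ii_true hO, mul_one]
      unfold mm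
      apply le_min
      · exact (h10 n q M B c ω r l hr hE X Y t).1
      · refine (hS M B c ω r l hr hE h1 h2 X Y t).trans ?_
        apply mul_le_mul_of_nonneg_left _ (Nat.cast_nonneg _)
        rw [RF_eq_RD (Gx_not_Bd hG)]
        have : OF c ω l r ≤ (La q : ℝ) ^ (n + 2) := hO
        linarith
    · rw [ii_false hO, mul_zero]
      exact mm_nonneg CS c K0 ω l r
  · rw [ii_false hG, zero_mul, mul_zero, mul_zero]

/-! measurability -/

lemma OF_agr (c : Flg q M B n) {r : ℕ} {ω ω' : Pth q B} (h : Agr (r * M) ω ω')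
    (l : Fin (n+2) → ℕ) : OF c ω l r = OF c ω' l r := by
  unfold OF OL
  simp only [OR_agr c h]

lemma OD_agr (c : Flg q M B n) (K1 : ℕ) {r : ℕ} {ω ω' : Pth q B} (h : Agr (r * M) ω ω')
    (l : Fin (n+2) → ℕ) : OD c K1 ω l r = OD c K1 ω' l r := by
  unfold OD OL
  simp only [OR_agr c h]

lemma OG_agr (c : Flg q M B n) {r : ℕ} {ω ω' : Pth q B} (h : Agr (r * M) ω ω')
    (l : Fin (n+2) → ℕ) : OG c ω l r ↔ OG c ω' l r := by
  unfold OG
  rw [OF_agr c h]

lemma OT_agr (c : Flg q M B n) (K1 : ℕ) {r : ℕ} {ω ω' : Pth q B} (h : Agr (r * M) ω ω')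
    (l : Fin (n+2) → ℕ) : OT c K1 ω l r ↔ OT c K1 ω' l r := by
  unfold OT
  rw [OD_agr c K1 h]

lemma RD_agr {c : Flg q M B n} (hc : IsFlags c) (K0 : ℕ) {K7 r : ℕ} {b : ℕ} {ω ω' : Pth q B}
    {l : Fin (n+2) → ℕ} (hl : l ∈ IL M B n K7 r b)
    (h : Agr (r * M + (M - b)) ω ω') : RD c K0 ω l r = RD c K0 ω' l r := by
  unfold RD RL
  refine sum_congr rfl fun H _ => ?_
  rw [Rel_agr hc hl h H]

lemma mm_agr (CS : ℕ) {c : Flg q M B n} (hc : IsFlags c) (K0 : ℕ) {K7 r : ℕ} {b : ℕ}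
    {ω ω' : Pth q B} {l : Fin (n+2) → ℕ} (hl : l ∈ IL M B n K7 r b)
    (h : Agr (r * M + (M - b)) ω ω') : mm CS c K0 ω l r = mm CS c K0 ω' l r := by
  unfold mm
  rw [RR_agr hc hl h, RD_agr hc K0 hl h]

/-! means over a block -/

/-- one level -/
lemma sum_RL {c : Flg q M B n} (hc : IsFlags c) {K7 r : ℕ} {b : Fin M} {ω : Pth q B}
    {l : Fin (n+2) → ℕ} (hE : Exc c ω r) (hK : n + 2 ≤ K7) (hl : l ∈ IL M B n K7 r b)
    (F : (Option (Fin (n+2)) → ZMod q) → ℝ) :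
    ∑ z : Blk q B, RL c (Function.update ω (r * M + (M - 1 - b)) z) l r F =
      (q:ℝ) ^ B * ((∑ H, ii (H none ≠ 0) * F H) / (q:ℝ) ^ dm M B l r) := by
  have hqp : (0:ℝ) < (q:ℝ) ^ dm M B l r := pow_pos qpos _
  unfold RL
  rw [sum_comm, sum_div, mul_sum]
  refine sum_congr rfl fun H _ => ?_
  rw [← sum_mul]
  by_cases hH : H none ≠ 0
  · have e : ∀ z : Blk q B, ii (H none ≠ 0 ∧
        Rel c (Function.update ω (r * M + (M - 1 - b)) z) l r H) =
        ii (Rel c (Function.update ω (r * M + (M - 1 - b)) z) l r H) := fun z =>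
      ii_congr ⟨fun h => h.2, fun h => ⟨hH, h⟩⟩
    rw [sum_congr rfl (fun z _ => e z), sum_ii_Rel hc hE hK hl H hH, ii_true hH]
    ring
  · have e : ∀ z : Blk q B, ii (H none ≠ 0 ∧
        Rel c (Function.update ω (r * M + (M - 1 - b)) z) l r H) = 0 := fun z =>
      ii_false fun h => hH h.1
    rw [sum_congr rfl (fun z _ => e z), sum_const_zero, zero_mul, ii_false hH]
    ring

/-- two distant levels -/
lemma sum_RL2 {c : Flg q M B n} (hc : IsFlags c) {K7 r : ℕ} {b : Fin M} {ω : Pth q B}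
    {l l' : Fin (n+2) → ℕ} (hE : Exc c ω r) (hP : PairG c K7 ω r)
    (hl : l ∈ IL M B n K7 r b) (hl' : l' ∈ IL M B n K7 r b) (h0 : dm M B (mxv l l') r = 0)
    {F F' : (Option (Fin (n+2)) → ZMod q) → ℝ} (hF : ∀ H, 0 ≤ F H) (hF' : ∀ H, 0 ≤ F' H) :
    ∑ z : Blk q B, RL c (Function.update ω (r * M + (M - 1 - b)) z) l r F *
      RL c (Function.update ω (r * M + (M - 1 - b)) z) l' r F' ≤
      (q:ℝ) ^ B * (((∑ H, ii (H none ≠ 0) * F H) / (q:ℝ) ^ dm M B l r) *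
        ((∑ H, ii (H none ≠ 0) * F' H) / (q:ℝ) ^ dm M B l' r)) := by
  have hqD : (0:ℝ) < (q:ℝ) ^ dm M B l r := pow_pos qpos _
  have hqD' : (0:ℝ) < (q:ℝ) ^ dm M B l' r := pow_pos qpos _
  obtain ⟨U, hU⟩ : ∃ U : Blk q B → Pth q B, U = fun z =>
    Function.update ω (r * M + (M - 1 - b)) z := ⟨_, rfl⟩
  have e0 : ∀ z, Function.update ω (r * M + (M - 1 - (b:ℕ))) z = U z := fun z => by rw [hU]
  simp only [e0]
  calc ∑ z : Blk q B, RL c (U z) l r F * RL c (U z) l' r F'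
      = ∑ H : Option (Fin (n+2)) → ZMod q, ∑ H' : Option (Fin (n+2)) → ZMod q,
          (F H * F' H') *
          ∑ z : Blk q B, ii (H none ≠ 0 ∧ Rel c (U z) l r H) *
            ii (H' none ≠ 0 ∧ Rel c (U z) l' r H') := by
        unfold RL
        simp only [sum_mul_sum]
        simp only [mul_sum]
        rw [sum_comm]
        refine sum_congr rfl fun H _ => ?_
        rw [sum_comm]
        refine sum_congr rfl fun H' _ => sum_congr rfl fun z _ => ?_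
        ring
    _ ≤ ∑ H : Option (Fin (n+2)) → ZMod q, ∑ H' : Option (Fin (n+2)) → ZMod q,
          (F H * F' H') * (ii (H none ≠ 0) * ii (H' none ≠ 0) *
            ((q:ℝ) ^ B / ((q:ℝ) ^ dm M B l r * (q:ℝ) ^ dm M B l' r))) := by
        refine sum_le_sum fun H _ => sum_le_sum fun H' _ => ?_
        apply mul_le_mul_of_nonneg_left _ (mul_nonneg (hF H) (hF' H'))
        by_cases hH : H none ≠ 0
        · by_cases hH' : H' none ≠ 0
          · have e : ∀ z : Blk q B, ii (H none ≠ 0 ∧ Rel c (U z) l r H) *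
                ii (H' none ≠ 0 ∧ Rel c (U z) l' r H') =
                ii (Rel c (U z) l r H) * ii (Rel c (U z) l' r H') := fun z => by
              rw [ii_congr (show (H none ≠ 0 ∧ Rel c (U z) l r H) ↔ Rel c (U z) l r H from
                ⟨fun h => h.2, fun h => ⟨hH, h⟩⟩),
                ii_congr (show (H' none ≠ 0 ∧ Rel c (U z) l' r H') ↔ Rel c (U z) l' r H' from
                ⟨fun h => h.2, fun h => ⟨hH', h⟩⟩)]
            simp only [e]
            rw [ii_true hH, ii_true hH', one_mul, one_mul, hU]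
            exact sum_RR_pair_aux hc hl hl' hE h0 hP H H' hH hH'
          · have e : ∀ z : Blk q B, ii (H none ≠ 0 ∧ Rel c (U z) l r H) *
                ii (H' none ≠ 0 ∧ Rel c (U z) l' r H') = 0 := fun z => by
              rw [ii_false (P := H' none ≠ 0 ∧ Rel c (U z) l' r H') fun h => hH' h.1, mul_zero]
            simp only [e, sum_const_zero]
            rw [ii_false hH', mul_zero, zero_mul]
        · have e : ∀ z : Blk q B, ii (H none ≠ 0 ∧ Rel c (U z) l r H) *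
              ii (H' none ≠ 0 ∧ Rel c (U z) l' r H') = 0 := fun z => by
            rw [ii_false (P := H none ≠ 0 ∧ Rel c (U z) l r H) fun h => hH h.1, zero_mul]
          simp only [e, sum_const_zero]
          rw [ii_false hH, zero_mul, zero_mul]
    _ = _ := by
        rw [div_mul_div_comm, sum_mul_sum, sum_div, mul_sum]
        refine sum_congr rfl fun H _ => ?_
        rw [sum_div, mul_sum]
        refine sum_congr rfl fun H' _ => ?_
        field_simp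

/-- two distant levels, with constants -/
lemma sum_RL2c {c : Flg q M B n} (hc : IsFlags c) {K7 r : ℕ} {b : Fin M} {ω : Pth q B}
    {l l' : Fin (n+2) → ℕ} (hE : Exc c ω r) (hP : PairG c K7 ω r) (hK : n + 2 ≤ K7)
    (hl : l ∈ IL M B n K7 r b) (hl' : l' ∈ IL M B n K7 r b) (h0 : dm M B (mxv l l') r = 0)
    {F F' : (Option (Fin (n+2)) → ZMod q) → ℝ} (hF : ∀ H, 0 ≤ F H) (hF' : ∀ H, 0 ≤ F' H)
    {a a' S S' : ℝ} (ha : 0 ≤ a) (ha' : 0 ≤ a')
    (hS : (∑ H, ii (H none ≠ 0) * F H) / (q:ℝ) ^ dm M B l r ≤ S)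
    (hS' : (∑ H, ii (H none ≠ 0) * F' H) / (q:ℝ) ^ dm M B l' r ≤ S') :
    ∑ z : Blk q B, (a + RL c (Function.update ω (r * M + (M - 1 - b)) z) l r F) *
      (a' + RL c (Function.update ω (r * M + (M - 1 - b)) z) l' r F') ≤
      (q:ℝ) ^ B * ((a + S) * (a' + S')) := by
  have hq0 : (0:ℝ) < (q:ℝ) ^ B := pow_pos qpos _
  have hqD : (0:ℝ) < (q:ℝ) ^ dm M B l r := pow_pos qpos _
  have hqD' : (0:ℝ) < (q:ℝ) ^ dm M B l' r := pow_pos qpos _
  have h1 := sum_RL hc hE hK hl F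
  have h1' := sum_RL hc hE hK hl' F'
  have h2 := sum_RL2 hc hE hP hl hl' h0 hF hF'
  obtain ⟨s, hs⟩ : ∃ s, s = (∑ H, ii (H none ≠ 0) * F H) / (q:ℝ) ^ dm M B l r := ⟨_, rfl⟩
  obtain ⟨s', hs'⟩ : ∃ s, s = (∑ H, ii (H none ≠ 0) * F' H) / (q:ℝ) ^ dm M B l' r := ⟨_, rfl⟩
  have hs0 : 0 ≤ s := by
    rw [hs]
    exact div_nonneg (sum_nonneg fun H _ => mul_nonneg (ii_nonneg _) (hF H)) hqD.le
  have hs0' : 0 ≤ s' := by
    rw [hs']
    exact div_nonneg (sum_nonneg fun H _ => mul_nonneg (ii_nonneg _) (hF' H)) hqD'.le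
  rw [← hs] at h1 h2 hS
  rw [← hs'] at h1' h2 hS'
  have e : ∀ z : Blk q B, (a + RL c (Function.update ω (r * M + (M - 1 - b)) z) l r F) *
      (a' + RL c (Function.update ω (r * M + (M - 1 - b)) z) l' r F') =
      a * a' + a * RL c (Function.update ω (r * M + (M - 1 - b)) z) l' r F' +
      a' * RL c (Function.update ω (r * M + (M - 1 - b)) z) l r F +
      RL c (Function.update ω (r * M + (M - 1 - b)) z) l r F *
        RL c (Function.update ω (r * M + (M - 1 - b)) z) l' r F' := fun z => by ring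
  have f1 : ∑ _z : Blk q B, a * a' = (q:ℝ) ^ B * (a * a') := by
    rw [sum_const, card_univ, Fintype.card_fun, ZMod.card, Fintype.card_fin, nsmul_eq_mul]
    push_cast
    rfl
  have f2 : ∑ z : Blk q B, a * RL c (Function.update ω (r * M + (M - 1 - b)) z) l' r F' =
      a * ((q:ℝ) ^ B * s') := by rw [← mul_sum, h1']
  have f3 : ∑ z : Blk q B, a' * RL c (Function.update ω (r * M + (M - 1 - b)) z) l r F =
      a' * ((q:ℝ) ^ B * s) := by rw [← mul_sum, h1]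
  rw [sum_congr rfl fun z _ => e z, sum_add_distrib, sum_add_distrib, sum_add_distrib, f1, f2, f3]
  calc (q:ℝ) ^ B * (a * a') + a * ((q:ℝ) ^ B * s') + a' * ((q:ℝ) ^ B * s) +
        ∑ z : Blk q B, RL c (Function.update ω (r * M + (M - 1 - b)) z) l r F *
        RL c (Function.update ω (r * M + (M - 1 - b)) z) l' r F'
      ≤ (q:ℝ) ^ B * (a * a') + a * ((q:ℝ) ^ B * s') + a' * ((q:ℝ) ^ B * s) +
        (q:ℝ) ^ B * (s * s') := by linarith
    _ = (q:ℝ) ^ B * ((a + s) * (a' + s')) := by ring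
    _ ≤ (q:ℝ) ^ B * ((a + S) * (a' + S')) := by
        apply mul_le_mul_of_nonneg_left _ hq0.le
        apply mul_le_mul (by linarith) (by linarith) (by linarith) (by linarith)

end basic

/-- the mean of the damped weights -/
lemma mean_dw (n : ℕ) : ∃ C : ℕ, ∀ (q : ℕ) [Fact q.Prime], 8 ≤ q → ∀ D K : ℕ,
    (∑ H : Option (Fin (n+2)) → ZMod q, ii (H none ≠ 0) *
      (ii (¬ Pool.Agent.Y258.Bd D K H) * dw (D * La q) (sz H))) / (q:ℝ) ^ D ≤
      C * ((La q : ℝ) ^ (n + 2) * (K + 1)) := by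
  obtain ⟨C, hC⟩ := thmW (n + 3) (by omega)
  refine ⟨C, fun q _ h8 D K => ?_⟩
  have h1 := hC q h8 (Option (Fin (n+2))) (card_opt n) D K
  have e1 : n + 3 - 1 = n + 2 := by omega
  rw [e1] at h1
  have hqD : (0:ℝ) < (q:ℝ) ^ D := pow_pos qpos _
  rw [div_le_iff₀ hqD]
  calc _ ≤ ∑ H : Option (Fin (n+2)) → ZMod q,
        (ii (¬ Pool.Agent.Y258.Bd D K H) * dw (D * La q) (sz H)) := by
        refine sum_le_sum fun H _ => ?_
        exact mul_le_of_le_one_left (mul_nonneg (ii_nonneg _) (dw_nonneg _ _)) (ii_le_one _)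
    _ ≤ _ := h1
    _ ≤ _ := by
        apply mul_le_mul_of_nonneg_left (two_pow_La D) (by positivity)

end Pool.Agent.U49
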