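import Pool.Agent.U49.SD.Mom

set_option autoImplicit false
set_option linter.unusedSectionVars false

/-!
# First and second moments of the increments
-/

namespace Pool.Agent.U49

open Finset Pool.Agent.H470D4 Pool.Agent.Y258 Pool.Agent.Y290.SD
open Pool.Agent.H935R2.PS (La uu nn dl mx Suit)
open Pool.Agent.R843.SX (SuitG St_Z6 St_Z9 St_Z11 St_Z12)
open Pool.Agent.Y833.SD (Wz)
open Pool.Agent.Y710.SX (not_Gx IL_dm1 card_forb mxv_self mxv_comm diag_le)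

/-- the bound (S) for one `n`, with the constant `CS` -/
def Sn (n CS : ℕ) : Prop := ∀ (q : ℕ) [Fact q.Prime], 8 ≤ q → ∀ (M B : ℕ)
  (c : Flg q M B n) (ω : Pth q B) (r : ℕ) (l : Fin (n+2) → ℕ), r < M * B → Exc c ω r →
  1 ≤ dm M B l r → dm M B l r ≤ n + 2 →
  ∀ (X : Fin (n+2) → ℕ → ZMod q) (Y t : ℕ → ZMod q),
  |TT c (cD M B X Y) t ω r l| ≤ CS * ((La q : ℝ) ^ (n + 2) + RF c ω l r + OF c ω l r)

lemma agr_z {q M B : ℕ} (ω : Pth q B) (r : ℕ) (b : Fin M) (z : Blk q B) :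
    Agr (r * M) ω (Function.update ω (r * M + (M - 1 - b)) z) := by
  intro i hi
  rw [Function.update_of_ne]
  omega

/-- the mean of the majorant -/
theorem n8 (n CS : ℕ) : ∃ C : ℕ, ∀ (q : ℕ) [Fact q.Prime], 8 ≤ q →
    ∀ (M B : ℕ) (c : Flg q M B n), IsFlags c → ∀ K0 K7 : ℕ, n + 2 ≤ K7 →
    ∀ (ω : Pth q B) (r : ℕ) (b : Fin M) (l : Fin (n+2) → ℕ), l ∈ IL M B n K7 r b → Exc c ω r →
    ∑ z : Blk q B, mm CS c K0 (Function.update ω (r * M + (M - 1 - b)) z) l r ≤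
      (q:ℝ) ^ B * (C * ((La q : ℝ) ^ (n + 2) * (K0 + 1))) := by
  obtain ⟨C, hC⟩ := mean_dw n
  refine ⟨CS * (2 + C), ?_⟩
  intro q _ h8 M B c hc K0 K7 hK ω r b l hl hE
  have h1 := hC q h8 (dm M B l r) K0
  have h2 := sum_RL hc hE hK hl
    (fun H => ii (¬ Pool.Agent.Y258.Bd (dm M B l r) K0 H) * dw (dm M B l r * La q) (sz H))
  have hqB : (0:ℝ) < (q:ℝ) ^ B := pow_pos qpos _
  calc ∑ z : Blk q B, mm CS c K0 (Function.update ω (r * M + (M - 1 - b)) z) l r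
      ≤ ∑ z : Blk q B, (CS * (2 * (La q : ℝ) ^ (n + 2)) +
          CS * RD c K0 (Function.update ω (r * M + (M - 1 - b)) z) l r) := by
        refine sum_le_sum fun z _ => (mm_le_RD _ _ _ _ _ _).trans (le_of_eq ?_)
        ring
    _ = (q:ℝ) ^ B * (CS * (2 * (La q : ℝ) ^ (n + 2))) + CS * ((q:ℝ) ^ B *
          ((∑ H : Option (Fin (n+2)) → ZMod q, ii (H none ≠ 0) *
          (ii (¬ Pool.Agent.Y258.Bd (dm M B l r) K0 H) * dw (dm M B l r * La q) (sz H))) /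
          (q:ℝ) ^ dm M B l r)) := by
        rw [sum_add_distrib, sum_const, card_univ, Fintype.card_fun, ZMod.card,
          Fintype.card_fin, nsmul_eq_mul, ← mul_sum]
        unfold RD
        rw [h2]
        push_cast
        rfl
    _ ≤ (q:ℝ) ^ B * (CS * (2 * (La q : ℝ) ^ (n + 2))) + CS * ((q:ℝ) ^ B *
          (C * ((La q : ℝ) ^ (n + 2) * (K0 + 1)))) := by
        gcongr
    _ ≤ _ := by
        have h3 : (0:ℝ) ≤ (q:ℝ) ^ B * (CS * (2 * ((La q : ℝ) ^ (n + 2) * K0))) := by positivity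
        push_cast
        nlinarith

/-- first order bias -/
theorem n11_of (h10 : St_C10) (h11 : St_Z11) (n CS : ℕ) (hS : Sn n CS) : ∃ C : ℕ,
    ∀ (q : ℕ) [Fact q.Prime], SuitG q → C ≤ q →
    ∀ (M B : ℕ) (c : Flg q M B n), IsFlags c → ∀ K0 K7 : ℕ, n + 2 ≤ K7 →
    (n + 5) * uu q + C ≤ K0 → K0 ≤ La q →
    ∀ (ω : Pth q B) (r : ℕ) (b : Fin M) (l : Fin (n+2) → ℕ), l ∈ IL M B n K7 r b → Exc c ω r →
    ∀ (X : Fin (n+2) → ℕ → ZMod q) (Y t : ℕ → ZMod q),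
    |∑ z : Blk q B, TT c (cD M B X Y) t (Function.update ω (r * M + (M - 1 - b)) z) r l *
        (ii (Gx c K0 (Function.update ω (r * M + (M - 1 - b)) z) l r) *
          ii (OG c (Function.update ω (r * M + (M - 1 - b)) z) l r))| ≤
      (q:ℝ) ^ B * (C * (La q : ℝ) ^ (n + 1) * (uu q : ℝ) ^ 2 + C * QQ c ω r l l / 2 ^ K0 +
        ii (NCv c X Y t ω r b l) * (C * ((La q : ℝ) ^ (n + 2) * (K0 + 1)))) := by
  obtain ⟨C1, h11⟩ := h11 n
  obtain ⟨C2, h8⟩ := n8 n CS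
  refine ⟨C1 + C2 + 8, ?_⟩
  intro q _ hs hq M B c hc K0 K7 hK7 hK0 hK0L ω r b l hl hE X Y t
  have hqB : (0:ℝ) < (q:ℝ) ^ B := pow_pos qpos _
  have hQ := Pool.Agent.Y258.X.QQ_nonneg c ω r l l
  have hN := ii_nonneg (NCv c X Y t ω r b l)
  by_cases hO : OG c ω l r
  swap
  · have e : ∀ z : Blk q B,
        TT c (cD M B X Y) t (Function.update ω (r * M + (M - 1 - b)) z) r l *
        (ii (Gx c K0 (Function.update ω (r * M + (M - 1 - b)) z) l r) *
          ii (OG c (Function.update ω (r * M + (M - 1 - b)) z) l r)) = 0 := by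
      intro z
      rw [ii_false (P := OG c (Function.update ω (r * M + (M - 1 - b)) z) l r)
        (fun h => hO ((OG_agr c (agr_z ω r b z) l).2 h)), mul_zero, mul_zero]
    rw [sum_eq_zero fun z _ => e z, abs_zero]
    positivity
  by_cases hNC : NCv c X Y t ω r b l
  · have hl' := mem_IL.1 hl
    have hr : r < M * B := by omega
    have h1 : ∀ z : Blk q B,
        |TT c (cD M B X Y) t (Function.update ω (r * M + (M - 1 - b)) z) r l *
        (ii (Gx c K0 (Function.update ω (r * M + (M - 1 - b)) z) l r) *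
          ii (OG c (Function.update ω (r * M + (M - 1 - b)) z) l r))| ≤
        mm CS c K0 (Function.update ω (r * M + (M - 1 - b)) z) l r := by
      intro z
      refine (TT_le_mm h10 (hS q (by omega)) c K0 _ hr
        ((Exc_agr c (agr_z ω r b z)).1 hE) (by unfold dm; omega) (by unfold dm; omega)
        X Y t).trans ?_
      exact mul_le_of_le_one_right (mm_nonneg _ _ _ _ _ _) (ii_le_one _)
    refine (abs_sum_le_sum_abs _ _).trans ((sum_le_sum fun z _ => h1 z).trans ?_)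
    refine (h8 q (by omega) M B c hc K0 K7 hK7 ω r b l hl hE).trans ?_
    apply mul_le_mul_of_nonneg_left _ hqB.le
    rw [ii_true hNC, one_mul]
    have e1 : (C2:ℝ) * ((La q : ℝ) ^ (n + 2) * (K0 + 1)) ≤
        ((C1 + C2 + 8 : ℕ) : ℝ) * ((La q : ℝ) ^ (n + 2) * (K0 + 1)) := by
      apply mul_le_mul_of_nonneg_right _ (by positivity)
      exact_mod_cast (by omega : C2 ≤ C1 + C2 + 8)
    have e2 : (0:ℝ) ≤ ((C1 + C2 + 8 : ℕ) : ℝ) * (La q : ℝ) ^ (n + 1) * (uu q : ℝ) ^ 2 := by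
      positivity
    have e3 : (0:ℝ) ≤ ((C1 + C2 + 8 : ℕ) : ℝ) * QQ c ω r l l / 2 ^ K0 := by positivity
    linarith
  · have h1 := h11 q hs (by omega) M B c hc K0 K7 hK7 (by omega) hK0L ω r b l hl hE X Y t
    have e : ∀ z : Blk q B,
        TT c (cD M B X Y) t (Function.update ω (r * M + (M - 1 - b)) z) r l *
        (ii (Gx c K0 (Function.update ω (r * M + (M - 1 - b)) z) l r) *
          ii (OG c (Function.update ω (r * M + (M - 1 - b)) z) l r)) =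
        TT c (cD M B X Y) t (Function.update ω (r * M + (M - 1 - b)) z) r l *
        ii (Gx c K0 (Function.update ω (r * M + (M - 1 - b)) z) l r) := by
      intro z
      rw [ii_true (P := OG c (Function.update ω (r * M + (M - 1 - b)) z) l r)
        ((OG_agr c (agr_z ω r b z) l).1 hO), mul_one]
    rw [sum_congr rfl fun z _ => e z]
    refine h1.trans ?_
    apply mul_le_mul_of_nonneg_left _ hqB.le
    rw [ii_false hNC, zero_mul, zero_mul, add_zero, add_zero]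
    have hCC : (C1:ℝ) ≤ ((C1 + C2 + 8 : ℕ) : ℝ) := by exact_mod_cast (by omega : C1 ≤ C1 + C2 + 8)
    gcongr

/-- second order bias, neighbours -/
theorem n12_of (h12 : St_Z12) (n CS : ℕ) : ∃ C : ℕ,
    ∀ (q : ℕ) [Fact q.Prime], SuitG q → C ≤ q →
    ∀ (M B : ℕ) (c : Flg q M B n), IsFlags c → ∀ K0 K7 : ℕ, 2 * n + 4 ≤ K7 →
    (n + 5) * uu q + C ≤ K0 → K0 ≤ La q →
    ∀ (ω : Pth q B) (r : ℕ) (b : Fin M) (l l' : Fin (n+2) → ℕ), l ∈ IL M B n K7 r b →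
    l' ∈ IL M B n K7 r b → l ≠ l' → 1 ≤ dm M B (mxv l l') r → Exc c ω r →
    ∑ z : Blk q B, mm CS c K0 (Function.update ω (r * M + (M - 1 - b)) z) l r *
        (ii (Gx c K0 (Function.update ω (r * M + (M - 1 - b)) z) l r) *
         ii (¬ Gx c K0 (Function.update ω (r * M + (M - 1 - b)) z) l' r)) ≤
      (q:ℝ) ^ B * (C * (La q : ℝ) ^ (n + 1) * (uu q : ℝ) ^ 2 + C * QQ c ω r l l' / 2 ^ K0) := by
  obtain ⟨C, h12⟩ := h12 n
  refine ⟨C, ?_⟩
  intro q _ hs hq M B c hc K0 K7 hK7 hK0 hK0L ω r b l l' hl hl' hne hd hE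
  refine le_trans (sum_le_sum fun z _ => ?_)
    (h12 q hs hq M B c hc K0 K7 hK7 hK0 hK0L ω r b l l' hl hl' hne hd hE)
  exact mul_le_mul_of_nonneg_right (mm_le_RR _ _ _ _ _ _) (mul_nonneg (ii_nonneg _) (ii_nonneg _))

/-- second order bias, distant levels -/
theorem n13_of (h6 : St_Z6) (n CS : ℕ) : ∃ C : ℕ,
    ∀ (q : ℕ) [Fact q.Prime], SuitG q → C ≤ q →
    ∀ (M B : ℕ) (c : Flg q M B n), IsFlags c → ∀ K0 K7 : ℕ, n + 2 ≤ K7 →
    (n + 5) * uu q + C ≤ K0 → K0 ≤ La q →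
    ∀ (ω : Pth q B) (r : ℕ) (b : Fin M) (l l' : Fin (n+2) → ℕ), l ∈ IL M B n K7 r b →
    l' ∈ IL M B n K7 r b → dm M B (mxv l l') r = 0 → Exc c ω r → PairG c K7 ω r →
    ∑ z : Blk q B, mm CS c K0 (Function.update ω (r * M + (M - 1 - b)) z) l r *
         ii (¬ Gx c K0 (Function.update ω (r * M + (M - 1 - b)) z) l' r) ≤
      (q:ℝ) ^ B * (C * ((La q : ℝ) ^ (2 * n + 4) * (K0 + 1)) / 2 ^ K0) := by
  classical
  obtain ⟨C1, h1⟩ := mean_dw n
  obtain ⟨C2, h2⟩ := h6 n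
  refine ⟨CS * (2 + C1) * C2 + C2 + 8, ?_⟩
  intro q _ hs hq M B c hc K0 K7 hK hK0 hK0L ω r b l l' hl hl' h0 hE hP
  have hqB : (0:ℝ) < (q:ℝ) ^ B := pow_pos qpos _
  have hqD' : (0:ℝ) < (q:ℝ) ^ dm M B l' r := pow_pos qpos _
  obtain ⟨F', hF'⟩ : ∃ F' : (Option (Fin (n+2)) → ZMod q) → ℝ, F' = fun H' =>
    ii (H' none = 1 ∧ BX (2 ^ (n + 6)) (dm M B l' r) K0 H') := ⟨_, rfl⟩
  have hF'0 : ∀ H, 0 ≤ F' H := fun H => by rw [hF']; exact ii_nonneg _
  -- the failure of `Gx`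
  have hfail : ∀ ω' : Pth q B, ii (¬ Gx c K0 ω' l' r) ≤ 0 + RL c ω' l' r F' := by
    intro ω'
    rw [zero_add]
    by_cases hG : Gx c K0 ω' l' r
    · rw [ii_false (not_not_intro hG)]
      exact RL_nonneg _ _ _ _ hF'0
    · rw [ii_true hG]
      obtain ⟨H', h3, h4, h5⟩ := not_Gx hG
      unfold RL
      have h6 := single_le_sum (f := fun H' : Option (Fin (n+2)) → ZMod q =>
        ii (H' none ≠ 0 ∧ Rel c ω' l' r H') * F' H')
        (fun H' _ => mul_nonneg (ii_nonneg _) (hF'0 H')) (mem_univ H')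
      refine le_trans ?_ h6
      have h7 : H' none ≠ 0 := by rw [h3]; exact one_ne_zero
      rw [hF']
      beta_reduce
      rw [ii_true ⟨h7, h4⟩, ii_true ⟨h3, h5⟩, one_mul]
  have hS' : (∑ H, ii (H none ≠ 0) * F' H) / (q:ℝ) ^ dm M B l' r ≤
      C2 * (La q : ℝ) ^ (n + 2) / 2 ^ K0 := by
    rw [div_le_iff₀ hqD']
    have hb := h2 q hs (by omega) (dm M B l' r) K0 (IL_dm1 hl') (IL_dm hl') (by omega) hK0L
    have e1 : ∑ H, ii (H none ≠ 0) * F' H ≤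
        C2 * (La q : ℝ) ^ (n + 2) * 2 ^ (dm M B l' r * La q) / 2 ^ K0 := by
      refine le_trans (sum_le_sum fun H _ =>
        mul_le_of_le_one_left (hF'0 H) (ii_le_one _)) (le_trans (le_of_eq ?_) hb)
      rw [card_eq_sum_ii, hF']
    refine e1.trans ?_
    have := two_pow_La (q := q) (dm M B l' r)
    calc C2 * (La q : ℝ) ^ (n + 2) * 2 ^ (dm M B l' r * La q) / 2 ^ K0 ≤
          C2 * (La q : ℝ) ^ (n + 2) * (q:ℝ) ^ dm M B l' r / 2 ^ K0 := by gcongr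
      _ = _ := by ring
  have hmain := sum_RL2c hc hE hP hK hl hl' h0
    (F := fun H => ii (¬ Pool.Agent.Y258.Bd (dm M B l r) K0 H) * dw (dm M B l r * La q) (sz H))
    (F' := F') (fun _ => mul_nonneg (ii_nonneg _) (dw_nonneg _ _)) hF'0
    (a := 2 * (La q : ℝ) ^ (n + 2)) (a' := 0) (by positivity) le_rfl
    (h1 q (by omega) (dm M B l r) K0) hS'
  calc ∑ z : Blk q B, mm CS c K0 (Function.update ω (r * M + (M - 1 - b)) z) l r *
         ii (¬ Gx c K0 (Function.update ω (r * M + (M - 1 - b)) z) l' r)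
      ≤ ∑ z : Blk q B, CS * ((2 * (La q : ℝ) ^ (n + 2) +
          RD c K0 (Function.update ω (r * M + (M - 1 - b)) z) l r) *
          (0 + RL c (Function.update ω (r * M + (M - 1 - b)) z) l' r F')) := by
        refine sum_le_sum fun z _ => ?_
        rw [← mul_assoc]
        refine mul_le_mul (mm_le_RD _ _ _ _ _ _) (hfail _) (ii_nonneg _) ?_
        have := RD_nonneg c K0 (Function.update ω (r * M + (M - 1 - (b:ℕ))) z) l r
        positivity
    _ ≤ CS * ((q:ℝ) ^ B * ((2 * (La q : ℝ) ^ (n + 2) + C1 * ((La q : ℝ) ^ (n + 2) * (K0 + 1))) *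
          (0 + C2 * (La q : ℝ) ^ (n + 2) / 2 ^ K0))) := by
        rw [← mul_sum]
        exact mul_le_mul_of_nonneg_left hmain (Nat.cast_nonneg _)
    _ ≤ (q:ℝ) ^ B * ((CS * (2 + C1) * C2) * ((La q : ℝ) ^ (2 * n + 4) * (K0 + 1)) / 2 ^ K0) := by
        have e1 : (La q : ℝ) ^ (2 * n + 4) = (La q : ℝ) ^ (n + 2) * (La q : ℝ) ^ (n + 2) := by
          rw [← pow_add]; congr 1; ring
        have e2 : 2 * (La q : ℝ) ^ (n + 2) + C1 * ((La q : ℝ) ^ (n + 2) * (K0 + 1)) ≤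
            (2 + C1) * ((La q : ℝ) ^ (n + 2) * (K0 + 1)) := by
          have : (0:ℝ) ≤ (La q : ℝ) ^ (n + 2) * K0 := by positivity
          nlinarith
        calc _ ≤ CS * ((q:ℝ) ^ B * (((2 + C1) * ((La q : ℝ) ^ (n + 2) * (K0 + 1))) *
              (0 + C2 * (La q : ℝ) ^ (n + 2) / 2 ^ K0))) := by
              gcongr
          _ = _ := by rw [e1]; ring
    _ ≤ _ := by
        have e1 : ((CS:ℝ) * (2 + C1) * C2) ≤ ((CS * (2 + C1) * C2 + C2 + 8 : ℕ) : ℝ) := by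
          push_cast
          have : (0:ℝ) ≤ C2 := Nat.cast_nonneg _
          linarith
        gcongr

/-- second moment -/
theorem n14_of (h9 : St_Z9) (n CS : ℕ) : ∃ C : ℕ,
    ∀ (q : ℕ) [Fact q.Prime], SuitG q → C ≤ q →
    ∀ (M B : ℕ) (c : Flg q M B n), IsFlags c → ∀ K0 K7 : ℕ, 2 * n + 4 ≤ K7 →
    (n + 5) * uu q + C ≤ K0 → K0 ≤ La q →
    ∀ (ω : Pth q B) (r : ℕ) (b : Fin M), Exc c ω r → PairG c K7 ω r →
    ∑ z : Blk q B, (∑ l ∈ IL M B n K7 r b,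
         mm CS c K0 (Function.update ω (r * M + (M - 1 - b)) z) l r *
         ii (Gx c K0 (Function.update ω (r * M + (M - 1 - b)) z) l r)) ^ 2 ≤
      (q:ℝ) ^ B * (C * (((La q : ℝ) ^ (n + 2) * (K0 + 1)) ^ 2 *
          ((IL M B n K7 r b).card : ℝ) ^ 2 +
        (La q : ℝ) ^ (n + 2) * 2 ^ K0 * (IL M B n K7 r b).card +
        ∑ l ∈ IL M B n K7 r b, QQ c ω r l l)) := by
  classical
  obtain ⟨C9, hC9⟩ := h9 n
  obtain ⟨C1, h1⟩ := mean_dw n
  obtain ⟨c8, hc8⟩ : ∃ c : ℕ, c = CS * (2 + C1) := ⟨_, rfl⟩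
  refine ⟨c8 ^ 2 + (2 * n + 3) ^ (n + 2) * (2 ^ (2 * n + 8) * C9 + 1) + C9 + 8, ?_⟩
  intro q _ hS hCq M B c hc K0 K7 hK hK0 hK0' ω r b hE hP
  set N := (2 * n + 3) ^ (n + 2) with hN
  have hq0 : (0:ℝ) < q := qpos
  have hqB : (0:ℝ) < (q:ℝ) ^ B := pow_pos hq0 _
  obtain ⟨Λ, hΛ⟩ : ∃ Λ : ℝ, Λ = (La q : ℝ) ^ (n + 2) * (K0 + 1) := ⟨_, rfl⟩
  rw [← hΛ]
  have hΛ0 : 0 ≤ Λ := by rw [hΛ]; positivity
  set I := IL M B n K7 r b with hI
  set g : (Fin (n+2) → ℕ) → Blk q B → ℝ := fun l z =>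
    mm CS c K0 (Wz M ω r b z) l r * ii (Gx c K0 (Wz M ω r b z) l r) with hg
  have hg0 : ∀ l z, 0 ≤ g l z := fun l z => mul_nonneg (mm_nonneg _ _ _ _ _ _) (ii_nonneg _)
  set g' : (Fin (n+2) → ℕ) → Blk q B → ℝ := fun l z =>
    RR c (Wz M ω r b z) l r * ii (Gx c K0 (Wz M ω r b z) l r) with hg'
  have hgg : ∀ l z, g l z ≤ g' l z := fun l z =>
    mul_le_mul_of_nonneg_right (mm_le_RR _ _ _ _ _ _) (ii_nonneg _)
  set G : (Fin (n+2) → ℕ) → ℝ := fun l => ∑ z : Blk q B, g l z ^ 2 with hG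
  have hG0 : ∀ l, 0 ≤ G l := fun l => sum_nonneg fun z _ => sq_nonneg _
  -- the sum over the pairs
  have hexp : ∑ z : Blk q B, (∑ l ∈ I, g l z) ^ 2 =
      ∑ l ∈ I, ∑ l' ∈ I, ∑ z : Blk q B, g l z * g l' z := by
    simp only [sq, sum_mul_sum]
    rw [sum_comm]
    refine sum_congr rfl fun l _ => ?_
    rw [sum_comm]
  have hpair : ∀ l ∈ I, ∀ l' ∈ I, ∑ z : Blk q B, g l z * g l' z ≤
      (q:ℝ) ^ B * (c8 ^ 2 * Λ ^ 2) +
        ii (1 ≤ dm M B (mxv l l') r) * ((G l + G l') / 2) := by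
    intro l hl l' hl'
    by_cases hd : 1 ≤ dm M B (mxv l l') r
    · rw [ii_true hd, one_mul]
      have h1 : ∑ z : Blk q B, g l z * g l' z ≤ (G l + G l') / 2 := by
        simp only [hG]
        rw [← sum_add_distrib, sum_div]
        refine sum_le_sum fun z _ => ?_
        nlinarith [sq_nonneg (g l z - g l' z)]
      have h2 : 0 ≤ (q:ℝ) ^ B * (c8 ^ 2 * Λ ^ 2) := by positivity
      linarith
    · rw [ii_false hd, zero_mul, add_zero]
      have hmain := sum_RL2c hc hE hP (by omega) hl hl' (by omega)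
        (F := fun H => ii (¬ Pool.Agent.Y258.Bd (dm M B l r) K0 H) *
          dw (dm M B l r * La q) (sz H))
        (F' := fun H => ii (¬ Pool.Agent.Y258.Bd (dm M B l' r) K0 H) *
          dw (dm M B l' r * La q) (sz H))
        (fun _ => mul_nonneg (ii_nonneg _) (dw_nonneg _ _))
        (fun _ => mul_nonneg (ii_nonneg _) (dw_nonneg _ _))
        (a := 2 * (La q : ℝ) ^ (n + 2)) (a' := 2 * (La q : ℝ) ^ (n + 2)) (by positivity)
        (by positivity) (h1 q (by omega) (dm M B l r) K0) (h1 q (by omega) (dm M B l' r) K0)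
      have h4 : ∀ (l0 : Fin (n+2) → ℕ) (z : Blk q B), g l0 z ≤
          CS * (2 * (La q : ℝ) ^ (n + 2) +
            RD c K0 (Function.update ω (r * M + (M - 1 - b)) z) l0 r) := by
        intro l0 z
        refine le_trans ?_ (mm_le_RD CS c K0 (Wz M ω r b z) l0 r)
        exact mul_le_of_le_one_right (mm_nonneg _ _ _ _ _ _) (ii_le_one _)
      rw [← hΛ] at hmain
      have h5 : 2 * (La q : ℝ) ^ (n + 2) + C1 * Λ ≤ (2 + C1) * Λ := by
        have : (0:ℝ) ≤ (La q : ℝ) ^ (n + 2) * K0 := by positivity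
        rw [hΛ]
        nlinarith
      calc ∑ z : Blk q B, g l z * g l' z ≤ ∑ z : Blk q B, (CS:ℝ) ^ 2 *
            ((2 * (La q : ℝ) ^ (n + 2) +
              RD c K0 (Function.update ω (r * M + (M - 1 - b)) z) l r) *
            (2 * (La q : ℝ) ^ (n + 2) +
              RD c K0 (Function.update ω (r * M + (M - 1 - b)) z) l' r)) := by
            refine sum_le_sum fun z _ => ?_
            refine (mul_le_mul (h4 l z) (h4 l' z) (hg0 _ _) ?_).trans (le_of_eq (by ring))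
            have := RD_nonneg c K0 (Function.update ω (r * M + (M - 1 - (b:ℕ))) z) l r
            positivity
        _ ≤ (CS:ℝ) ^ 2 * ((q:ℝ) ^ B * ((2 * (La q : ℝ) ^ (n + 2) + C1 * Λ) *
              (2 * (La q : ℝ) ^ (n + 2) + C1 * Λ))) := by
            rw [← mul_sum]
            exact mul_le_mul_of_nonneg_left hmain (by positivity)
        _ ≤ (CS:ℝ) ^ 2 * ((q:ℝ) ^ B * (((2 + C1) * Λ) * ((2 + C1) * Λ))) := by
            gcongr
        _ = (q:ℝ) ^ B * (c8 ^ 2 * Λ ^ 2) := by rw [hc8]; push_cast; ring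
  have hnear : ∀ l ∈ I, ∑ l' ∈ I, ii (1 ≤ dm M B (mxv l l') r) ≤ (N : ℝ) := by
    intro l hl
    have h1 := card_join K7 r b l hl
    rw [← hI] at h1
    have h2 : ∑ l' ∈ I, ii (1 ≤ dm M B (mxv l l') r) =
        (((I.filter (fun l' => 1 ≤ dm M B (mxv l l') r)).card : ℕ) : ℝ) := by
      rw [card_filter]
      push_cast
      refine sum_congr rfl fun l' _ => ?_
      by_cases h : 1 ≤ dm M B (mxv l l') r
      · rw [ii_true h, if_pos h]
      · rw [ii_false h, if_neg h]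
    rw [h2]
    exact_mod_cast h1
  have hsumG : ∑ l ∈ I, ∑ l' ∈ I, ii (1 ≤ dm M B (mxv l l') r) * ((G l + G l') / 2) ≤
      N * ∑ l ∈ I, G l := by
    have h1 : ∑ l ∈ I, ∑ l' ∈ I, ii (1 ≤ dm M B (mxv l l') r) * (G l' / 2) =
        ∑ l ∈ I, ∑ l' ∈ I, ii (1 ≤ dm M B (mxv l l') r) * (G l / 2) := by
      rw [sum_comm]
      refine sum_congr rfl fun l _ => sum_congr rfl fun l' _ => ?_
      rw [mxv_comm]
    have h2 : ∑ l ∈ I, ∑ l' ∈ I, ii (1 ≤ dm M B (mxv l l') r) * ((G l + G l') / 2) =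
        ∑ l ∈ I, ∑ l' ∈ I, ii (1 ≤ dm M B (mxv l l') r) * (G l / 2) +
        ∑ l ∈ I, ∑ l' ∈ I, ii (1 ≤ dm M B (mxv l l') r) * (G l' / 2) := by
      rw [← sum_add_distrib]
      refine sum_congr rfl fun l _ => ?_
      rw [← sum_add_distrib]
      refine sum_congr rfl fun l' _ => ?_
      ring
    rw [h2, h1, ← two_mul, mul_sum, mul_sum]
    refine sum_le_sum fun l hl => ?_
    rw [← sum_mul]
    have h3 := hnear l hl
    have h4 := hG0 l
    nlinarith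
  have hdiag : ∀ l ∈ I, G l ≤ (q:ℝ) ^ B * (QQ c ω r l l +
      2 ^ (2 * n + 8) * 2 ^ K0 * (C9 * (La q : ℝ) ^ (n + 2))) := by
    intro l hl
    have h0 : G l ≤ ∑ z : Blk q B, g' l z ^ 2 :=
      sum_le_sum fun z _ => pow_le_pow_left₀ (hg0 l z) (hgg l z) 2
    refine h0.trans ((diag_le (K0 := K0) hc hE hK hl).trans ?_)
    have h1 := hC9 q hS (by omega) (dm M B l r) K0 (IL_dm1 hl) (IL_dm hl) (by omega) hK0'
    gcongr
  show ∑ z : Blk q B, (∑ l ∈ I, g l z) ^ 2 ≤ _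
  rw [hexp]
  have hQ0 : 0 ≤ ∑ l ∈ I, QQ c ω r l l :=
    sum_nonneg fun l _ => Pool.Agent.Y258.X.QQ_nonneg _ _ _ _ _
  calc ∑ l ∈ I, ∑ l' ∈ I, ∑ z : Blk q B, g l z * g l' z
      ≤ ∑ l ∈ I, ∑ l' ∈ I, ((q:ℝ) ^ B * (c8 ^ 2 * Λ ^ 2) +
        ii (1 ≤ dm M B (mxv l l') r) * ((G l + G l') / 2)) :=
        sum_le_sum fun l hl => sum_le_sum fun l' hl' => hpair l hl l' hl'
    _ = (I.card : ℝ) * ((I.card : ℝ) * ((q:ℝ) ^ B * (c8 ^ 2 * Λ ^ 2))) +
        ∑ l ∈ I, ∑ l' ∈ I, ii (1 ≤ dm M B (mxv l l') r) * ((G l + G l') / 2) := by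
        simp only [sum_add_distrib, sum_const, nsmul_eq_mul]
    _ ≤ (I.card : ℝ) * ((I.card : ℝ) * ((q:ℝ) ^ B * (c8 ^ 2 * Λ ^ 2))) +
        N * ∑ l ∈ I, (q:ℝ) ^ B * (QQ c ω r l l +
          2 ^ (2 * n + 8) * 2 ^ K0 * (C9 * (La q : ℝ) ^ (n + 2))) := by
        refine add_le_add le_rfl (hsumG.trans ?_)
        exact mul_le_mul_of_nonneg_left (sum_le_sum hdiag) (Nat.cast_nonneg _)
    _ = (q:ℝ) ^ B * (c8 ^ 2 * (Λ ^ 2 * (I.card : ℝ) ^ 2) +
        N * (2 ^ (2 * n + 8) * C9) * ((La q : ℝ) ^ (n + 2) * 2 ^ K0 * I.card) +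
        N * ∑ l ∈ I, QQ c ω r l l) := by
        rw [← mul_sum, sum_add_distrib, sum_const, nsmul_eq_mul]
        ring
    _ ≤ _ := by
        refine mul_le_mul_of_nonneg_left ?_ hqB.le
        have a1 : (0:ℝ) ≤ Λ ^ 2 * (I.card : ℝ) ^ 2 := by positivity
        have a2 : (0:ℝ) ≤ (La q : ℝ) ^ (n + 2) * 2 ^ K0 * I.card := by positivity
        have c1 : (0:ℝ) ≤ (c8:ℝ) ^ 2 := by positivity
        have c2 : (0:ℝ) ≤ (N:ℝ) * (2 ^ (2 * n + 8) * C9) := by positivity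
        have c3 : (0:ℝ) ≤ (N:ℝ) := Nat.cast_nonneg _
        have c4 : (0:ℝ) ≤ (C9:ℝ) := Nat.cast_nonneg _
        have e : (((c8 ^ 2 + N * (2 ^ (2 * n + 8) * C9 + 1) + C9 + 8 : ℕ)) : ℝ) =
            (c8:ℝ) ^ 2 + (N:ℝ) * (2 ^ (2 * n + 8) * C9) + N + C9 + 8 := by
          push_cast
          ring
        rw [e, mul_add, mul_add]
        refine add_le_add (add_le_add ?_ ?_) ?_
        · exact mul_le_mul_of_nonneg_right (by linarith) a1
        · exact mul_le_mul_of_nonneg_right (by linarith) a2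
        · exact mul_le_mul_of_nonneg_right (by linarith) hQ0

end Pool.Agent.U49
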