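import Pool.Agent.U49.SD.Wts
import Pool.Agent.Y838.SD.C10

set_option autoImplicit false
set_option linter.unusedSectionVars false

/-!
# The decomposition of the indicator of an interval
-/

namespace Pool.Agent.U49

open Finset Pool.Agent.H470D4 Pool.Agent.Y258
open Pool.Agent.H935R2.PS (La uu nn dl mx Suit)
open Pool.Agent.Y255.SD (norm_char_sub4 norm_Fc norm_Fc_zero Fc_zero Fc_zero_le nn_pos dl_lt)

section mult
variable {q : ℕ} [hq : Fact q.Prime]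

/-- the multiplier of the moving average over `2 ^ j` points -/
noncomputable def mj (j : ℕ) (h : ZMod q) : ℂ :=
  (∑ i ∈ range (2 ^ j), (ZMod.stdAddChar h : ℂ) ^ i) / 2 ^ j

lemma norm_chi (h : ZMod q) : ‖(ZMod.stdAddChar h : ℂ)‖ = 1 := Pool.Agent.H935R2.PS.TA2.norm_char h

lemma norm_mj_le_one (j : ℕ) (h : ZMod q) : ‖mj j h‖ ≤ 1 := by
  unfold mj
  rw [norm_div, norm_pow, Complex.norm_ofNat, div_le_one (by positivity)]
  refine (norm_sum_le _ _).trans ?_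
  simp [norm_chi]

lemma mj_zero_right (j : ℕ) : mj j (0 : ZMod q) = 1 := by
  unfold mj
  rw [AddChar.map_zero_eq_one]
  simp

lemma norm_mj_le (j : ℕ) (h : ZMod q) :
    ‖mj j h‖ * (2 ^ j * ‖(ZMod.stdAddChar h : ℂ) - 1‖) ≤ 2 := by
  unfold mj
  rw [norm_div, norm_pow, Complex.norm_ofNat, div_mul_eq_mul_div, div_le_iff₀ (by positivity)]
  have h1 : ‖∑ i ∈ range (2 ^ j), (ZMod.stdAddChar h : ℂ) ^ i‖ * ‖(ZMod.stdAddChar h : ℂ) - 1‖ ≤ 2 := by
    rw [← norm_mul, geom_sum_mul]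
    refine (norm_sub_le _ _).trans ?_
    rw [norm_pow, norm_chi, one_pow, norm_one]
    norm_num
  calc _ = (‖∑ i ∈ range (2 ^ j), (ZMod.stdAddChar h : ℂ) ^ i‖ * ‖(ZMod.stdAddChar h : ℂ) - 1‖) *
        2 ^ j := by ring
    _ ≤ 2 * 2 ^ j := mul_le_mul_of_nonneg_right h1 (by positivity)

lemma norm_pow_sub_one_le {z : ℂ} (hz : ‖z‖ = 1) (n : ℕ) : ‖z ^ n - 1‖ ≤ n * ‖z - 1‖ := by
  rw [← geom_sum_mul, norm_mul]
  apply mul_le_mul_of_nonneg_right _ (norm_nonneg _)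
  refine (norm_sum_le _ _).trans ?_
  simp [hz]

lemma mj_sub (j : ℕ) (h : ZMod q) :
    mj j h - mj (j + 1) h = mj j h * ((1 - (ZMod.stdAddChar h : ℂ) ^ (2 ^ j)) / 2) := by
  unfold mj
  have e : range (2 ^ (j + 1)) = range (2 ^ j + 2 ^ j) := by rw [pow_succ]; congr 1; ring
  rw [e, sum_range_add]
  simp only [pow_add]
  rw [← mul_sum]
  field_simp
  ring

lemma norm_mj_sub_le (j : ℕ) (h : ZMod q) :
    ‖mj j h - mj (j + 1) h‖ ≤ ‖mj j h‖ ∧
    ‖mj j h - mj (j + 1) h‖ ≤ 2 ^ j * ‖(ZMod.stdAddChar h : ℂ) - 1‖ / 2 := by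
  rw [mj_sub, norm_mul]
  have h1 : ‖(1 - (ZMod.stdAddChar h : ℂ) ^ (2 ^ j)) / 2‖ ≤ 1 := by
    rw [norm_div, Complex.norm_ofNat, div_le_one (by norm_num)]
    refine (norm_sub_le _ _).trans ?_
    rw [norm_pow, norm_chi, one_pow, norm_one]
    norm_num
  have h2 : ‖(1 - (ZMod.stdAddChar h : ℂ) ^ (2 ^ j)) / 2‖ ≤
      2 ^ j * ‖(ZMod.stdAddChar h : ℂ) - 1‖ / 2 := by
    rw [norm_div, Complex.norm_ofNat]
    apply div_le_div_of_nonneg_right _ (by norm_num)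
    rw [norm_sub_rev]
    have := norm_pow_sub_one_le (norm_chi h) (2 ^ j)
    push_cast at this
    exact this
  constructor
  · exact mul_le_of_le_one_right (norm_nonneg _) h1
  · calc _ ≤ 1 * (2 ^ j * ‖(ZMod.stdAddChar h : ℂ) - 1‖ / 2) :=
          mul_le_mul (norm_mj_le_one j h) h2 (norm_nonneg _) (by norm_num)
      _ = _ := one_mul _

lemma norm_char_sub_le (v : ZMod q) : ‖(ZMod.stdAddChar v : ℂ) - 1‖ ≤ 7 * (nn v : ℝ) / q := by
  have hq0 : (0 : ℝ) < q := by exact_mod_cast Nat.pos_of_ne_zero (NeZero.ne q)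
  have h1 : ZMod.stdAddChar v = Complex.exp (Complex.I * ((2 * Real.pi * v.valMinAbs / q : ℝ) : ℂ)) := by
    conv_lhs => rw [← ZMod.coe_valMinAbs v]
    rw [ZMod.stdAddChar_coe]
    congr 1
    push_cast
    ring
  rw [h1, Complex.norm_exp_I_mul_ofReal_sub_one]
  have h2 : (2 * Real.pi * v.valMinAbs / q : ℝ) / 2 = Real.pi * v.valMinAbs / q := by ring
  rw [h2, norm_mul, Real.norm_eq_abs, Real.norm_eq_abs, abs_of_pos (by norm_num : (0:ℝ) < 2)]
  have h3 : |Real.pi * v.valMinAbs / q| = Real.pi * (nn v) / q := by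
    rw [abs_div, abs_mul, abs_of_pos Real.pi_pos, abs_of_pos hq0]
    congr 2
    unfold nn
    rw [Nat.cast_natAbs]
    push_cast
    rfl
  have h4 : |Real.sin (Real.pi * v.valMinAbs / q)| ≤ |Real.pi * v.valMinAbs / q| := Real.abs_sin_le_abs
  rw [h3] at h4
  have h5 := Real.pi_lt_d2
  have h6 : Real.pi * (nn v) / q ≤ 3.5 * (nn v) / q := by
    apply div_le_div_of_nonneg_right _ hq0.le
    apply mul_le_mul_of_nonneg_right _ (Nat.cast_nonneg _)
    linarith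
  calc 2 * |Real.sin (Real.pi * v.valMinAbs / q)| ≤ 2 * (3.5 * (nn v) / q) := by linarith
    _ = _ := by ring

lemma nn_dl {h : ZMod q} (hh : h ≠ 0) : 2 ^ dl h ≤ nn h ∧ nn h < 2 ^ (dl h + 1) := by
  have h1 := nn_pos hh
  unfold dl
  exact ⟨Nat.pow_log_le_self 2 (by omega), Nat.lt_pow_succ_log_self (by norm_num) _⟩

lemma q_La : 2 ^ La q ≤ q ∧ q < 2 ^ (La q + 1) :=
  ⟨Nat.pow_log_le_self 2 (NeZero.ne q), Nat.lt_pow_succ_log_self (by norm_num) _⟩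

/-- the size of the multiplier -/
lemma delta_bounds {h : ZMod q} (hh : h ≠ 0) {y : ℕ} (hy : y ≤ La q) :
    2 * 2 ^ dl h / 2 ^ y ≤ 2 ^ (La q - y) * ‖(ZMod.stdAddChar h : ℂ) - 1‖ ∧
    2 ^ (La q - y) * ‖(ZMod.stdAddChar h : ℂ) - 1‖ ≤ 14 * 2 ^ dl h / 2 ^ y := by
  have hq0 : (0 : ℝ) < q := by exact_mod_cast Nat.pos_of_ne_zero (NeZero.ne q)
  obtain ⟨h1, h2⟩ := nn_dl hh
  obtain ⟨h3, h4⟩ := q_La (q := q)
  have h1' : (2:ℝ) ^ dl h ≤ nn h := by exact_mod_cast h1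
  have h2' : (nn h : ℝ) ≤ 2 ^ (dl h + 1) := by exact_mod_cast h2.le
  have h3' : (2:ℝ) ^ La q ≤ q := by exact_mod_cast h3
  have h4' : (q:ℝ) ≤ 2 ^ (La q + 1) := by exact_mod_cast h4.le
  have h5 := norm_char_sub4 h
  have h6 := norm_char_sub_le h
  have e : (2:ℝ) ^ La q = 2 ^ (La q - y) * 2 ^ y := by rw [← pow_add]; congr 1; omega
  have hy0 : (0:ℝ) < 2 ^ y := by positivity
  have hj0 : (0:ℝ) < 2 ^ (La q - y) := by positivity
  constructor
  · rw [div_le_iff₀ hy0]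
    have h7 : 2 * 2 ^ dl h ≤ (4 * (nn h : ℝ) / q) * 2 ^ La q := by
      rw [div_mul_eq_mul_div, le_div_iff₀ hq0]
      calc 2 * (2:ℝ) ^ dl h * q ≤ 2 * (nn h : ℝ) * 2 ^ (La q + 1) := by gcongr
        _ = 4 * (nn h : ℝ) * 2 ^ La q := by ring
    calc 2 * (2:ℝ) ^ dl h ≤ (4 * (nn h : ℝ) / q) * 2 ^ La q := h7
      _ ≤ ‖(ZMod.stdAddChar h : ℂ) - 1‖ * 2 ^ La q := mul_le_mul_of_nonneg_right h5 (by positivity)
      _ = _ := by rw [e]; ring
  · rw [le_div_iff₀ hy0]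
    have h7 : (7 * (nn h : ℝ) / q) * 2 ^ La q ≤ 14 * 2 ^ dl h := by
      rw [div_mul_eq_mul_div, div_le_iff₀ hq0]
      calc 7 * (nn h : ℝ) * 2 ^ La q ≤ 7 * 2 ^ (dl h + 1) * q := by gcongr
        _ = 14 * 2 ^ dl h * q := by ring
    calc 2 ^ (La q - y) * ‖(ZMod.stdAddChar h : ℂ) - 1‖ * 2 ^ y =
          ‖(ZMod.stdAddChar h : ℂ) - 1‖ * 2 ^ La q := by rw [e]; ring
      _ ≤ (7 * (nn h : ℝ) / q) * 2 ^ La q := mul_le_mul_of_nonneg_right h6 (by positivity)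
      _ ≤ _ := h7

lemma half_pow {a b : ℕ} (h : a ≤ b) : (2:ℝ) ^ a / 2 ^ b = (1 / 2) ^ (b - a) := by
  obtain ⟨k, rfl⟩ := Nat.exists_eq_add_of_le h
  rw [Nat.add_sub_cancel_left, pow_add, one_div, inv_pow]
  field_simp

lemma mj_small {h : ZMod q} (hh : h ≠ 0) {y : ℕ} (hy : y ≤ La q) :
    ‖mj (La q - y) h‖ ≤ 2 ^ y / 2 ^ dl h := by
  have h1 := norm_mj_le (La q - y) h
  obtain ⟨h2, _⟩ := delta_bounds hh hy
  have h3 : ‖mj (La q - y) h‖ * (2 * 2 ^ dl h / 2 ^ y) ≤ 2 :=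
    (mul_le_mul_of_nonneg_left h2 (norm_nonneg _)).trans h1
  rw [le_div_iff₀ (by positivity)]
  rw [← mul_div_assoc, div_le_iff₀ (by positivity)] at h3
  linarith

lemma mj_diff {h : ZMod q} (hh : h ≠ 0) {y : ℕ} (hy : y ≤ La q) :
    ‖mj (La q - y) h - mj (La q - y + 1) h‖ ≤ 7 * (1 / 2) ^ ((y - dl h) + (dl h - y)) := by
  obtain ⟨h1, h2⟩ := norm_mj_sub_le (La q - y) h
  rcases le_total y (dl h) with hyd | hyd
  · have e : (y - dl h) + (dl h - y) = dl h - y := by omega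
    rw [e, ← half_pow hyd]
    have h3 := mj_small hh hy
    have h4 : (0:ℝ) ≤ 2 ^ y / 2 ^ dl h := by positivity
    linarith
  · have e : (y - dl h) + (dl h - y) = y - dl h := by omega
    rw [e, ← half_pow hyd]
    obtain ⟨_, h3⟩ := delta_bounds hh hy
    refine h2.trans ?_
    calc 2 ^ (La q - y) * ‖(ZMod.stdAddChar h : ℂ) - 1‖ / 2 ≤ (14 * 2 ^ dl h / 2 ^ y) / 2 :=
          div_le_div_of_nonneg_right h3 (by norm_num)
      _ = _ := by ring

/-- the Fejér coefficient -/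
lemma fej_coef {h : ZMod q} {y : ℕ} (hy : y ≤ La q) :
    (2 ^ (La q - y + 2) / (q:ℝ)) * ‖mj (La q - y + 2) h‖ ^ 2 ≤
      4 * ((1 / 2) ^ y * (1 / 4) ^ (dl h - y)) := by
  have hq0 : (0 : ℝ) < q := by exact_mod_cast Nat.pos_of_ne_zero (NeZero.ne q)
  obtain ⟨h3, _⟩ := q_La (q := q)
  have h3' : (2:ℝ) ^ La q ≤ q := by exact_mod_cast h3
  have e : (2:ℝ) ^ La q = 2 ^ (La q - y) * 2 ^ y := by rw [← pow_add]; congr 1; omega
  have h5 : 2 ^ (La q - y + 2) / (q:ℝ) ≤ 4 * (1 / 2) ^ y := by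
    rw [div_le_iff₀ hq0]
    calc (2:ℝ) ^ (La q - y + 2) = 4 * (1 / 2) ^ y * 2 ^ La q := by
          rw [e, pow_add, one_div, inv_pow]; field_simp; norm_num
      _ ≤ 4 * (1 / 2) ^ y * q := mul_le_mul_of_nonneg_left h3' (by positivity)
  have h6 : ‖mj (La q - y + 2) h‖ ^ 2 ≤ (1 / 4) ^ (dl h - y) := by
    rcases le_total (dl h) y with hyd | hyd
    · have e0 : dl h - y = 0 := by omega
      rw [e0, pow_zero]
      exact pow_le_one₀ (norm_nonneg _) (norm_mj_le_one _ _)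
    · by_cases hh : h = 0
      · subst hh
        have : dl (0 : ZMod q) = 0 := Pool.Agent.Y255.SD.dl_zero
        rw [this, Nat.zero_sub, pow_zero, mj_zero_right]
        simp
      · have h7 := norm_mj_le (La q - y + 2) h
        obtain ⟨h8, _⟩ := delta_bounds hh hy
        have h9 : ‖mj (La q - y + 2) h‖ * (8 * 2 ^ dl h / 2 ^ y) ≤ 2 := by
          refine (mul_le_mul_of_nonneg_left ?_ (norm_nonneg _)).trans h7
          calc 8 * (2:ℝ) ^ dl h / 2 ^ y = 4 * (2 * 2 ^ dl h / 2 ^ y) := by ring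
            _ ≤ 4 * (2 ^ (La q - y) * ‖(ZMod.stdAddChar h : ℂ) - 1‖) :=
                mul_le_mul_of_nonneg_left h8 (by norm_num)
            _ = _ := by rw [pow_add]; ring
        have h10 : ‖mj (La q - y + 2) h‖ ≤ 2 ^ y / 2 ^ dl h := by
          rw [le_div_iff₀ (by positivity)]
          rw [← mul_div_assoc, div_le_iff₀ (by positivity)] at h9
          have : (0:ℝ) < 2 ^ y := by positivity
          linarith
        rw [half_pow hyd] at h10
        calc ‖mj (La q - y + 2) h‖ ^ 2 ≤ ((1 / 2) ^ (dl h - y)) ^ 2 :=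
              pow_le_pow_left₀ (norm_nonneg _) h10 2
          _ = _ := by rw [← pow_mul, mul_comm, pow_mul]; norm_num
  calc _ ≤ (4 * (1 / 2) ^ y) * (1 / 4) ^ (dl h - y) :=
        mul_le_mul h5 h6 (by positivity) (by positivity)
    _ = _ := by ring

end mult

end Pool.Agent.U49
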