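import Pool.Agent.U49.SD.Core
import Pool.Agent.Y496.SD.Num
import Pool.Agent.Y590.SD.Ind

set_option autoImplicit false

/-!
# Choice of the parameters
-/

namespace Pool.Agent.U49

open Finset Pool.Agent.H470D4 Pool.Agent.Y258
open Pool.Agent.H935R2.PS (La uu nn dl mx Suit)
open Pool.Agent.R843.SX (SuitG)
open Pool.Agent.Y590.SD (GB_mono La_pos uu_pos)

/-- one stage, with `M = L ^ e` and `B = L`; the bound is `F L u` -/
def Stg (n e : ℕ) (F : ℝ → ℝ → ℝ) : Prop := ∃ C : ℕ, ∀ (q : ℕ) [Fact q.Prime],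
  SuitG q → C ≤ q → ∀ c : Flg q (La q ^ e) (La q) n, IsFlags c →
  ∃ ω : Pth q (La q), (∀ r ≤ La q ^ e * La q, Exc c ω r) ∧
    ∀ (X : Fin (n+2) → ℕ → ZMod q) (Y : ℕ → ZMod q),
      (∀ a j, La q ^ e * La q ≤ j → X a j = 0) → (∀ j, La q ^ e * La q ≤ j → Y j = 0) →
      |∑ r ∈ range (La q ^ e * La q), XX c (cD (La q ^ e) (La q) X Y) ω r| ≤
        C * F (La q) (uu q)

/-- the arithmetic of the parameters -/
lemma facts (n e κ C N1 L u q : ℕ) (hκ : κ = (e + 1) * (n + 3) + n + 9)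
    (hLN : N1 ≤ L) (h2 : 4 ≤ N1)
    (hN1 : C * 2 ^ (2 * n + 6) + 2 ^ C * 2 ^ (n + 5) ≤ N1) (hLq : 2 ^ L ≤ q) (hu1 : 1 ≤ u)
    (hLp : L ^ ((e + 2) * (2 * n + 6) + n + 14) ≤ 2 ^ L) (hu : 2 ^ u ≤ 2 * L) (hu' : L < 2 ^ u) :
    ∃ K0 K1 : ℕ, (n + 5) * u + C ≤ K0 ∧ K0 ≤ L ∧ K0 + 1 ≤ κ * u ∧ K1 + 1 ≤ κ * u ∧
      C * (L * (L ^ e * L + 1) ^ n * L ^ (n + 3)) ≤ 2 ^ K0 ∧
      C * ((L ^ e * L + 1) ^ (n + 3) * L ^ (n + 2)) ≤ 2 ^ K1 ∧
      C * (L ^ e * L + 1) ^ (2 * n + 6) ≤ q ∧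
      2 ^ K0 ≤ 2 * (C * 2 ^ n + 2 ^ C * 2 ^ (n + 5)) *
        ((L ^ (e + 1)) ^ n * L ^ (n + 4) + L ^ (n + 5)) := by
  have hL2 : 4 ≤ L := by omega
  have hCL : C * 2 ^ (2 * n + 6) ≤ L := by omega
  have hm : L ^ e * L = L ^ (e + 1) := (pow_succ L e).symm
  have hmpos : 1 ≤ L ^ (e + 1) := Nat.one_le_pow _ _ (by omega)
  have hm2 : L ^ (e + 1) + 1 ≤ 2 * L ^ (e + 1) := by omega
  obtain ⟨x1, hx1⟩ : ∃ x : ℕ, x = C * (L * (L ^ e * L + 1) ^ n * L ^ (n + 3)) := ⟨_, rfl⟩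
  obtain ⟨x2, hx2⟩ : ∃ x : ℕ, x = 2 ^ ((n + 5) * u + C) := ⟨_, rfl⟩
  have b1 : x1 ≤ C * 2 ^ n * ((L ^ (e + 1)) ^ n * L ^ (n + 4)) := by
    rw [hx1, hm]
    calc C * (L * (L ^ (e + 1) + 1) ^ n * L ^ (n + 3))
        ≤ C * (L * (2 * L ^ (e + 1)) ^ n * L ^ (n + 3)) := by gcongr
      _ = C * 2 ^ n * ((L ^ (e + 1)) ^ n * L ^ (n + 4)) := by rw [mul_pow]; ring
  have b2 : x2 ≤ 2 ^ C * 2 ^ (n + 5) * L ^ (n + 5) := by
    rw [hx2, pow_add]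
    calc 2 ^ ((n + 5) * u) * 2 ^ C = (2 ^ u) ^ (n + 5) * 2 ^ C := by
          rw [← pow_mul, mul_comm u]
      _ ≤ (2 * L) ^ (n + 5) * 2 ^ C := Nat.mul_le_mul_right _ (Nat.pow_le_pow_left hu _)
      _ = _ := by rw [mul_pow]; ring
  obtain ⟨D, hD⟩ : ∃ D : ℕ, D = C * 2 ^ n + 2 ^ C * 2 ^ (n + 5) := ⟨_, rfl⟩
  obtain ⟨y, hy⟩ : ∃ y : ℕ, y = (L ^ (e + 1)) ^ n * L ^ (n + 4) + L ^ (n + 5) := ⟨_, rfl⟩
  have b3 : x1 + x2 ≤ D * y := by
    calc x1 + x2 ≤ C * 2 ^ n * ((L ^ (e + 1)) ^ n * L ^ (n + 4)) +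
          2 ^ C * 2 ^ (n + 5) * L ^ (n + 5) := Nat.add_le_add b1 b2
      _ ≤ D * ((L ^ (e + 1)) ^ n * L ^ (n + 4)) + D * L ^ (n + 5) := by
          apply Nat.add_le_add
          · apply Nat.mul_le_mul_right; omega
          · apply Nat.mul_le_mul_right; omega
      _ = D * y := by rw [hy]; ring
  have hDL : D ≤ L := by
    have : C * 2 ^ n ≤ C * 2 ^ (2 * n + 6) :=
      Nat.mul_le_mul_left _ (Nat.pow_le_pow_right (by norm_num) (by omega))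
    omega
  obtain ⟨a, ha⟩ : ∃ a : ℕ, a = (e + 1) * n + n + 8 := ⟨_, rfl⟩
  have hyL : y ≤ 2 * L ^ ((e + 1) * n + n + 5) := by
    have e1 : (L ^ (e + 1)) ^ n * L ^ (n + 4) ≤ L ^ ((e + 1) * n + n + 5) := by
      rw [← pow_mul, ← pow_add]
      exact Nat.pow_le_pow_right (by omega) (by omega)
    have e2 : L ^ (n + 5) ≤ L ^ ((e + 1) * n + n + 5) := Nat.pow_le_pow_right (by omega) (by omega)
    rw [hy]; omega
  have b5 : 2 * (x1 + x2) ≤ L ^ a := by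
    calc 2 * (x1 + x2) ≤ 2 * (L * (2 * L ^ ((e + 1) * n + n + 5))) :=
          Nat.mul_le_mul_left _ (b3.trans (Nat.mul_le_mul hDL hyL))
      _ = 4 * L ^ ((e + 1) * n + n + 6) := by rw [pow_succ L ((e + 1) * n + n + 5)]; ring
      _ ≤ L ^ 2 * L ^ ((e + 1) * n + n + 6) := by
          apply Nat.mul_le_mul_right
          nlinarith
      _ = L ^ a := by rw [ha, ← pow_add]; congr 1; omega
  have haL : L ^ a ≤ 2 ^ L := by
    refine le_trans (Nat.pow_le_pow_right (by omega) ?_) hLp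
    rw [ha]
    have : (e + 1) * n ≤ (e + 2) * (2 * n + 6) := Nat.mul_le_mul (by omega) (by omega)
    omega
  have hx1' : 1 < x1 + x2 := by
    have : 2 ^ 1 ≤ x2 := by
      rw [hx2]
      apply Nat.pow_le_pow_right (by norm_num)
      have : 5 * 1 ≤ (n + 5) * u := Nat.mul_le_mul (by omega) hu1
      omega
    omega
  obtain ⟨K0, hK0⟩ : ∃ K0 : ℕ, K0 = Nat.clog 2 (x1 + x2) := ⟨_, rfl⟩
  have hK0l : x1 + x2 ≤ 2 ^ K0 := by rw [hK0]; exact Nat.le_pow_clog (by norm_num) _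
  have hK0u : 2 ^ K0 ≤ 2 * (x1 + x2) := by
    have h1 := Nat.pow_pred_clog_lt_self (b := 2) (by norm_num) hx1'
    have h2 : 0 < K0 := by rw [hK0]; exact Nat.clog_pos (by norm_num) hx1'
    have h3 : 2 ^ K0 = 2 * 2 ^ (K0 - 1) := by
      rw [← pow_succ']; congr 1; omega
    rw [h3]
    have : 2 ^ (K0 - 1) < x1 + x2 := by rw [hK0]; exact h1
    omega
  obtain ⟨k1, hk1⟩ : ∃ k : ℕ, k = (e + 1) * (n + 3) + (n + 2) + 1 := ⟨_, rfl⟩
  refine ⟨K0, k1 * u, ?_, ?_, ?_, ?_, ?_, ?_, ?_, ?_⟩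
  · have h1 : 2 ^ ((n + 5) * u + C) ≤ 2 ^ K0 := by rw [← hx2]; omega
    exact (Nat.pow_le_pow_iff_right (by norm_num)).mp h1
  · have h1 : 2 ^ K0 ≤ 2 ^ L := hK0u.trans (b5.trans haL)
    exact (Nat.pow_le_pow_iff_right (by norm_num)).mp h1
  · have h1 : 2 ^ K0 ≤ 2 ^ (a * u) := by
      calc 2 ^ K0 ≤ L ^ a := hK0u.trans b5
        _ ≤ (2 ^ u) ^ a := Nat.pow_le_pow_left hu'.le _
        _ = 2 ^ (a * u) := by rw [← pow_mul, mul_comm]
    have h3 : K0 ≤ a * u := (Nat.pow_le_pow_iff_right (by norm_num)).mp h1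
    have h4 : a + 1 ≤ κ := by
      rw [ha, hκ]
      have : (e + 1) * n ≤ (e + 1) * (n + 3) := Nat.mul_le_mul_left _ (by omega)
      omega
    have h5 : (a + 1) * u ≤ κ * u := Nat.mul_le_mul_right _ h4
    have h6 : (a + 1) * u = a * u + u := by ring
    omega
  · have h4 : k1 + 1 ≤ κ := by rw [hk1, hκ]; omega
    have h5 : (k1 + 1) * u ≤ κ * u := Nat.mul_le_mul_right _ h4
    have h6 : (k1 + 1) * u = k1 * u + u := by ring
    omega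
  · rw [← hx1]; omega
  · have h7 : C * 2 ^ (n + 3) ≤ L := by
      have : C * 2 ^ (n + 3) ≤ C * 2 ^ (2 * n + 6) :=
        Nat.mul_le_mul_left _ (Nat.pow_le_pow_right (by norm_num) (by omega))
      omega
    rw [hm]
    calc C * ((L ^ (e + 1) + 1) ^ (n + 3) * L ^ (n + 2))
        ≤ C * ((2 * L ^ (e + 1)) ^ (n + 3) * L ^ (n + 2)) := by gcongr
      _ = (C * 2 ^ (n + 3)) * ((L ^ (e + 1)) ^ (n + 3) * L ^ (n + 2)) := by rw [mul_pow]; ring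
      _ ≤ L * ((L ^ (e + 1)) ^ (n + 3) * L ^ (n + 2)) := Nat.mul_le_mul_right _ h7
      _ = L ^ k1 := by
          rw [hk1, ← pow_mul, ← pow_add, ← pow_succ']
      _ ≤ (2 ^ u) ^ k1 := Nat.pow_le_pow_left hu'.le _
      _ = 2 ^ (k1 * u) := by rw [← pow_mul, mul_comm]
  · rw [hm]
    calc C * (L ^ (e + 1) + 1) ^ (2 * n + 6)
        ≤ C * (2 * L ^ (e + 1)) ^ (2 * n + 6) := by gcongr
      _ = (C * 2 ^ (2 * n + 6)) * (L ^ (e + 1)) ^ (2 * n + 6) := by rw [mul_pow]; ring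
      _ ≤ L * (L ^ (e + 1)) ^ (2 * n + 6) := by gcongr
      _ = L ^ ((e + 1) * (2 * n + 6) + 1) := by rw [← pow_mul, pow_succ, mul_comm]
      _ ≤ L ^ ((e + 2) * (2 * n + 6) + n + 14) := by
          apply Nat.pow_le_pow_right (by omega)
          have : (e + 1) * (2 * n + 6) ≤ (e + 2) * (2 * n + 6) := Nat.mul_le_mul_right _ (by omega)
          omega
      _ ≤ 2 ^ L := hLp
      _ ≤ q := hLq
  · calc 2 ^ K0 ≤ 2 * (x1 + x2) := hK0u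
      _ ≤ 2 * (D * y) := Nat.mul_le_mul_left _ b3
      _ = _ := by rw [hD, hy]; ring

/-- the real inequality -/
lemma num_real (n e : ℕ) (L u K C D : ℝ) (hL : 1 ≤ L) (hu : 1 ≤ u) (he : 4 ≤ e)
    (hC : 0 ≤ C) (hD : 0 ≤ D) (m : ℝ) (hm : m = L ^ (e + 1)) (hK0 : 0 ≤ K)
    (hK : K * L ^ 2 ≤ D * (m ^ (n + 1) * L ^ (n + 1)))
    (θ : ℝ) (hθ : θ = 1 / (m ^ (n + 1) * L ^ n * u ^ 2)) :
    C * (m ^ (n + 2) * L ^ (n + 1) * u ^ 2 + m ^ (n + 1) * L ^ e * L ^ (n + 2) * u +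
      m ^ (n + 1) * L ^ (n + 3) +
      θ * (m * L ^ e * (L ^ (2 * n + 4) * u ^ 2 * (L ^ 2 * m ^ (2 * n)) +
        L ^ (n + 2) * (L * m ^ n * K)) + 1) +
      m * L / θ) ≤ C * (6 + D) * (m ^ (n + 2) * L ^ (n + 1) * u ^ 2) := by
  have hL0 : 0 < L := by linarith
  have hm1 : 1 ≤ m := by rw [hm]; exact one_le_pow₀ hL
  have hm0 : 0 < m := by linarith
  obtain ⟨X, hX⟩ : ∃ X : ℝ, X = m ^ (n + 2) * L ^ (n + 1) := ⟨_, rfl⟩
  have hX1 : 1 ≤ X := by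
    rw [hX]; exact one_le_mul_of_one_le_of_one_le (one_le_pow₀ hm1) (one_le_pow₀ hL)
  have hu2 : 1 ≤ u ^ 2 := one_le_pow₀ hu
  have hu0 : 0 < u ^ 2 := by linarith
  have huu : u ≤ u ^ 2 := by nlinarith
  have hXu : X ≤ X * u ^ 2 := le_mul_of_one_le_right (by linarith) hu2
  have hme : m = L ^ e * L := by rw [hm, pow_succ]
  -- second term
  have t2 : m ^ (n + 1) * L ^ e * L ^ (n + 2) * u ≤ X * u ^ 2 := by
    calc m ^ (n + 1) * L ^ e * L ^ (n + 2) * u = m ^ (n + 1) * (L ^ e * L) * L ^ (n + 1) * u := by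
          ring
      _ = X * u := by rw [← hme, hX]; ring
      _ ≤ X * u ^ 2 := mul_le_mul_of_nonneg_left huu (by linarith)
  have t5 : m ^ (n + 1) * L ^ (n + 3) ≤ X * u ^ 2 := by
    have h1 : L ^ 2 ≤ m := by rw [hm]; exact pow_le_pow_right₀ hL (by omega)
    calc m ^ (n + 1) * L ^ (n + 3) = m ^ (n + 1) * L ^ (n + 1) * L ^ 2 := by ring
      _ ≤ m ^ (n + 1) * L ^ (n + 1) * m := mul_le_mul_of_nonneg_left h1 (by positivity)
      _ = X := by rw [hX]; ring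
      _ ≤ X * u ^ 2 := hXu
  -- fourth term
  have hθ0 : 0 < θ := by rw [hθ]; positivity
  have t4 : m * L / θ = X * u ^ 2 := by
    rw [hθ, hX]; field_simp; ring
  have hθm : θ * (m ^ (n + 1) * L ^ n * u ^ 2) = 1 := by
    rw [hθ]; field_simp
  have hθ1 : θ ≤ 1 := by
    rw [hθ, div_le_one (by positivity)]
    exact one_le_mul_of_one_le_of_one_le
      (one_le_mul_of_one_le_of_one_le (one_le_pow₀ hm1) (one_le_pow₀ hL)) hu2
  -- third term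
  have hLm : L ^ (e + 5) ≤ m ^ 2 := by
    rw [hm, ← pow_mul]; exact pow_le_pow_right₀ hL (by omega)
  have a1 : θ * (m * L ^ e * (L ^ (2 * n + 4) * u ^ 2 * (L ^ 2 * m ^ (2 * n)))) ≤ X := by
    calc θ * (m * L ^ e * (L ^ (2 * n + 4) * u ^ 2 * (L ^ 2 * m ^ (2 * n))))
        = (θ * (m ^ (n + 1) * L ^ n * u ^ 2)) * (m ^ n * L ^ (n + 1) * L ^ (e + 5)) := by
          have : m ^ (2 * n) = m ^ n * m ^ n := by rw [← pow_add]; congr 1; ring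
          rw [this]; ring
      _ = 1 * (m ^ n * L ^ (n + 1) * L ^ (e + 5)) := by rw [hθm]
      _ ≤ 1 * (m ^ n * L ^ (n + 1) * m ^ 2) := by gcongr
      _ = X := by rw [hX]; ring
  have hθL : θ * (m ^ (n + 1) * L ^ n) ≤ 1 := by
    calc θ * (m ^ (n + 1) * L ^ n) ≤ θ * (m ^ (n + 1) * L ^ n * u ^ 2) := by
          apply mul_le_mul_of_nonneg_left _ hθ0.le
          exact le_mul_of_one_le_right (by positivity) hu2
      _ = 1 := hθm
  have a2 : θ * (m * L ^ e * (L ^ (n + 2) * (L * m ^ n * K))) ≤ D * X := by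
    calc θ * (m * L ^ e * (L ^ (n + 2) * (L * m ^ n * K)))
        = (θ * (m ^ (n + 1) * L ^ n)) * ((L ^ e * L) * (K * L ^ 2)) := by ring
      _ ≤ 1 * ((L ^ e * L) * (D * (m ^ (n + 1) * L ^ (n + 1)))) := by
          apply mul_le_mul hθL _ (by positivity) (by norm_num)
          exact mul_le_mul_of_nonneg_left hK (by positivity)
      _ = 1 * (m * (D * (m ^ (n + 1) * L ^ (n + 1)))) := by rw [← hme]
      _ = D * X := by rw [hX]; ring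
  have a3 : θ * (m * L ^ e * (L ^ (2 * n + 4) * u ^ 2 * (L ^ 2 * m ^ (2 * n)) +
        L ^ (n + 2) * (L * m ^ n * K)) + 1) ≤ X + D * X + 1 := by
    rw [mul_add, mul_add, mul_add, mul_one]
    linarith
  have hfin : X * u ^ 2 + X * u ^ 2 + X * u ^ 2 + (X + D * X + 1) + X * u ^ 2 ≤
      (6 + D) * (X * u ^ 2) := by
    have f1 : D * X ≤ D * (X * u ^ 2) := mul_le_mul_of_nonneg_left hXu hD
    nlinarith
  calc C * (m ^ (n + 2) * L ^ (n + 1) * u ^ 2 + m ^ (n + 1) * L ^ e * L ^ (n + 2) * u +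
      m ^ (n + 1) * L ^ (n + 3) +
      θ * (m * L ^ e * (L ^ (2 * n + 4) * u ^ 2 * (L ^ 2 * m ^ (2 * n)) +
        L ^ (n + 2) * (L * m ^ n * K)) + 1) + m * L / θ)
      ≤ C * (X * u ^ 2 + X * u ^ 2 + X * u ^ 2 + (X + D * X + 1) + X * u ^ 2) := by
        apply mul_le_mul_of_nonneg_left _ hC
        rw [t4, ← hX]; linarith
    _ ≤ C * ((6 + D) * (X * u ^ 2)) := mul_le_mul_of_nonneg_left hfin hC
    _ = _ := by rw [hX]; ring

/-- the real inequality, weak form for the first stage -/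
lemma num_weak (e : ℕ) (L u K C D : ℝ) (hL : 1 ≤ L) (hu : 1 ≤ u) (he : 4 ≤ e)
    (hC : 0 ≤ C) (hD : 0 ≤ D) (m : ℝ) (hm : m = L ^ (e + 1)) (hK0 : 0 ≤ K)
    (hK : K ≤ D * L ^ 5) :
    C * (m ^ (0 + 2) * L ^ (0 + 1) * u ^ 2 + m ^ (0 + 1) * L ^ e * L ^ (0 + 2) * u +
      m ^ (0 + 1) * L ^ (0 + 3) +
      1 * (m * L ^ e * (L ^ (2 * 0 + 4) * u ^ 2 * (L ^ 2 * m ^ (2 * 0)) +
        L ^ (0 + 2) * (L * m ^ 0 * K)) + 1) +
      m * L / 1) ≤ C * (6 + D) * (m ^ 3 * L ^ 2 * u ^ 2) := by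
  have hL0 : 0 < L := by linarith
  have hm1 : 1 ≤ m := by rw [hm]; exact one_le_pow₀ hL
  have hm0 : 0 < m := by linarith
  obtain ⟨X, hX⟩ : ∃ X : ℝ, X = m ^ 3 * L ^ 2 := ⟨_, rfl⟩
  have hX1 : 1 ≤ X := by
    rw [hX]; exact one_le_mul_of_one_le_of_one_le (one_le_pow₀ hm1) (one_le_pow₀ hL)
  have hu2 : 1 ≤ u ^ 2 := one_le_pow₀ hu
  have hu0 : 0 < u ^ 2 := by linarith
  have huu : u ≤ u ^ 2 := by nlinarith
  have hXu : X ≤ X * u ^ 2 := le_mul_of_one_le_right (by linarith) hu2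
  have hme : m = L ^ e * L := by rw [hm, pow_succ]
  have hLe : L ^ e ≤ m := by
    rw [hme]; exact le_mul_of_one_le_right (by positivity) hL
  have hL5 : L ^ 5 ≤ m := by rw [hm]; exact pow_le_pow_right₀ hL (by omega)
  have hL4 : L ^ 4 ≤ m := (pow_le_pow_right₀ hL (by omega)).trans hL5
  have hLm : L ≤ m := by
    calc L = L ^ 1 := (pow_one L).symm
      _ ≤ L ^ 5 := pow_le_pow_right₀ hL (by omega)
      _ ≤ m := hL5
  have f1 : m ^ (0 + 2) * L ^ (0 + 1) * u ^ 2 ≤ X * u ^ 2 := by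
    apply mul_le_mul_of_nonneg_right _ hu0.le
    rw [hX]
    apply mul_le_mul (pow_le_pow_right₀ hm1 (by omega)) (pow_le_pow_right₀ hL (by omega))
      (by positivity) (by positivity)
  have f2 : m ^ (0 + 1) * L ^ e * L ^ (0 + 2) * u ≤ X * u ^ 2 := by
    calc m ^ (0 + 1) * L ^ e * L ^ (0 + 2) * u ≤ m ^ (0 + 1) * m * L ^ 2 * u ^ 2 := by
          gcongr
      _ = m ^ 2 * L ^ 2 * u ^ 2 := by ring
      _ ≤ m ^ 3 * L ^ 2 * u ^ 2 := by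
          gcongr
          norm_num
      _ = X * u ^ 2 := by rw [hX]
  have f3 : m ^ (0 + 1) * L ^ (0 + 3) ≤ X * u ^ 2 := by
    calc m ^ (0 + 1) * L ^ (0 + 3) = m * L * L ^ 2 := by ring
      _ ≤ m * m * L ^ 2 := by gcongr
      _ = m ^ 2 * L ^ 2 := by ring
      _ ≤ m ^ 3 * L ^ 2 := by
          gcongr
          norm_num
      _ = X := by rw [hX]
      _ ≤ X * u ^ 2 := hXu
  have f4 : m * L ^ e * (L ^ (2 * 0 + 4) * u ^ 2 * (L ^ 2 * m ^ (2 * 0))) ≤ X * u ^ 2 := by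
    calc m * L ^ e * (L ^ (2 * 0 + 4) * u ^ 2 * (L ^ 2 * m ^ (2 * 0))) =
          m * L ^ e * (L ^ 4 * u ^ 2 * L ^ 2) := by ring
      _ ≤ m * m * (m * u ^ 2 * L ^ 2) := by gcongr
      _ = X * u ^ 2 := by rw [hX]; ring
  have f5 : m * L ^ e * (L ^ (0 + 2) * (L * m ^ 0 * K)) ≤ D * (X * u ^ 2) := by
    calc m * L ^ e * (L ^ (0 + 2) * (L * m ^ 0 * K)) = m * (L ^ e * L) * (L ^ 2 * K) := by ring
      _ ≤ m * (L ^ e * L) * (L ^ 2 * (D * L ^ 5)) := by gcongr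
      _ = m * m * (L ^ 2 * (D * L ^ 5)) := by rw [← hme]
      _ ≤ m * m * (L ^ 2 * (D * m)) := by gcongr
      _ = D * X := by rw [hX]; ring
      _ ≤ D * (X * u ^ 2) := mul_le_mul_of_nonneg_left hXu hD
  have f6 : m * L / 1 ≤ X * u ^ 2 := by
    calc m * L / 1 = m * L := by ring
      _ ≤ m ^ 3 * L ^ 2 := by
          apply mul_le_mul _ _ hL0.le (by positivity)
          · calc m = m ^ 1 := (pow_one m).symm
              _ ≤ m ^ 3 := pow_le_pow_right₀ hm1 (by omega)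
          · calc L = L ^ 1 := (pow_one L).symm
              _ ≤ L ^ 2 := pow_le_pow_right₀ hL (by omega)
      _ = X := by rw [hX]
      _ ≤ X * u ^ 2 := hXu
  have f7 : (1:ℝ) ≤ X * u ^ 2 := hX1.trans hXu
  rw [← hX]
  calc _ ≤ C * (X * u ^ 2 + X * u ^ 2 + X * u ^ 2 + (X * u ^ 2 + D * (X * u ^ 2) + X * u ^ 2) +
        X * u ^ 2) := by
        apply mul_le_mul_of_nonneg_left _ hC
        rw [one_mul, mul_add]
        exact add_le_add (add_le_add (add_le_add (add_le_add f1 f2) f3)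
          (add_le_add (add_le_add f4 f5) f7)) f6
    _ = _ := by ring
    _ ≤ _ := le_rfl

end Pool.Agent.U49
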