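import Pool.Agent.U49.SD.Inc
import Pool.Agent.Y258.SX.XCore4

set_option autoImplicit false
set_option linter.unusedSectionVars false

/-!
# Application of the engine
-/

namespace Pool.Agent.U49

open Finset Pool.Agent.H470D4 Pool.Agent.Y258
open Pool.Agent.H935R2.PS (La uu nn dl mx Suit)
open Pool.Agent.Y290.SD (qpos two_pow_La)
open Pool.Agent.Y258.X (EQ SQ SQ_nonneg EE_SQ AlX_dep)

section app
variable {q M B n : ℕ} [Fact q.Prime]

/-- **The path.** -/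
theorem exists_gp (h1 : St_C1) (h2 : St_C2) (h3 : St_C3) (h10 : St_C10)
    (h17 : St_C17) {CS C11 C12 C13 C14 K0 K1 : ℕ} (hS : Sn n CS) {c : Flg q M B n} (hc : IsFlags c)
    (h8 : 8 ≤ q) (hM : 0 < M)
    (hAl : ∀ (j : ℕ) (ω : Pth q B), q ^ B ≤ 2 * (AlX c K0 (2*n+6) j ω).card)
    (hsm : 48 * (4:ℝ) ^ (n + 4) * ((M * B + 1 : ℕ) : ℝ) ^ (2 * n + 6) ≤ q)
    {a5 eB : ℝ} (ha5 : 0 ≤ a5) (heB : 0 ≤ eB)
    (h5 : ∀ (Al : ℕ → Pth q B → Finset (Blk q B)), (∀ j ω, q ^ B ≤ 2 * (Al j ω).card) →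
      ∀ (r : ℕ) (l l' : Fin (n+2) → ℕ), ∑ a, mxv l l' a + (n + 2) ≤ M * B →
      ∑ a, mxv l l' a + r ≤ M * B → dm M B l' r ≤ n + 2 → ∀ ω₀,
      EE Al 0 (r * M) (fun ω => QQ c ω r l l') ω₀ ≤ a5)
    (hSB : ∀ (Al : ℕ → Pth q B → Finset (Blk q B)), (∀ j ω, q ^ B ≤ 2 * (Al j ω).card) →
      ∀ ω₀, EE Al 0 (M * B * M) (SBc CS c K1 (2*n+6)) ω₀ ≤ eB)
    (hNS : ∀ (Al : ℕ → Pth q B → Finset (Blk q B)), (∀ j ω, q ^ B ≤ 2 * (Al j ω).card) →
      ∀ ω₀, EE Al 0 (M * B * M) (NS c K1) ω₀ ≤ 1 / 48)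
    (h11 : ∀ (ω : Pth q B) (r : ℕ) (b : Fin M) (l : Fin (n+2) → ℕ), l ∈ IL M B n (2*n+6) r b →
      Exc c ω r → ∀ (X : Fin (n+2) → ℕ → ZMod q) (Y t : ℕ → ZMod q),
      |∑ z : Blk q B, TT c (cD M B X Y) t (Function.update ω (r * M + (M - 1 - b)) z) r l *
          (ii (Gx c K0 (Function.update ω (r * M + (M - 1 - b)) z) l r) *
            ii (OG c (Function.update ω (r * M + (M - 1 - b)) z) l r))| ≤
        (q:ℝ) ^ B * (C11 * (La q : ℝ) ^ (n + 1) * (uu q : ℝ) ^ 2 + C11 * QQ c ω r l l / 2 ^ K0 +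
          ii (NCv c X Y t ω r b l) * (C11 * ((La q : ℝ) ^ (n + 2) * (K0 + 1)))))
    (h12 : ∀ (ω : Pth q B) (r : ℕ) (b : Fin M) (l l' : Fin (n+2) → ℕ), l ∈ IL M B n (2*n+6) r b →
      l' ∈ IL M B n (2*n+6) r b → l ≠ l' → 1 ≤ dm M B (mxv l l') r → Exc c ω r →
      ∑ z : Blk q B, mm CS c K0 (Function.update ω (r * M + (M - 1 - b)) z) l r *
          (ii (Gx c K0 (Function.update ω (r * M + (M - 1 - b)) z) l r) *
           ii (¬ Gx c K0 (Function.update ω (r * M + (M - 1 - b)) z) l' r)) ≤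
        (q:ℝ) ^ B * (C12 * (La q : ℝ) ^ (n + 1) * (uu q : ℝ) ^ 2 + C12 * QQ c ω r l l' / 2 ^ K0))
    (h13 : ∀ (ω : Pth q B) (r : ℕ) (b : Fin M) (l l' : Fin (n+2) → ℕ), l ∈ IL M B n (2*n+6) r b →
      l' ∈ IL M B n (2*n+6) r b → dm M B (mxv l l') r = 0 → Exc c ω r → PairG c (2*n+6) ω r →
      ∑ z : Blk q B, mm CS c K0 (Function.update ω (r * M + (M - 1 - b)) z) l r *
           ii (¬ Gx c K0 (Function.update ω (r * M + (M - 1 - b)) z) l' r) ≤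
        (q:ℝ) ^ B * (C13 * ((La q : ℝ) ^ (2 * n + 4) * (K0 + 1)) / 2 ^ K0))
    (h14 : ∀ (ω : Pth q B) (r : ℕ) (b : Fin M), Exc c ω r → PairG c (2*n+6) ω r →
      ∑ z : Blk q B, (∑ l ∈ IL M B n (2*n+6) r b,
          mm CS c K0 (Function.update ω (r * M + (M - 1 - b)) z) l r *
          ii (Gx c K0 (Function.update ω (r * M + (M - 1 - b)) z) l r)) ^ 2 ≤
        (q:ℝ) ^ B * (C14 * (((La q : ℝ) ^ (n + 2) * (K0 + 1)) ^ 2 *
            ((IL M B n (2*n+6) r b).card : ℝ) ^ 2 +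
          (La q : ℝ) ^ (n + 2) * 2 ^ K0 * (IL M B n (2*n+6) r b).card +
          ∑ l ∈ IL M B n (2*n+6) r b, QQ c ω r l l)))
    {θ : ℝ} (hθ : 0 < θ) :
    ∃ ω : Pth q B, (∀ r ≤ M * B, Exc c ω r) ∧ NoRel c ω ∧ NS c K1 ω < 1 ∧
      (∀ j < M * B * M, ω j ∈ AlX c K0 (2*n+6) j ω) ∧
      (∀ j < M * B * M, n + 3 ≤ j / M → GP c (2*n+6) j ω) ∧
      SBc CS c K1 (2*n+6) ω ≤ 48 * (eB + 1) ∧
      SQ c (2*n+6) ω ≤ 48 * (EQ M B n a5 + 1) ∧
      ∀ δ : Dlt q M B n, |∑ j ∈ range (M * B * M), ii (GP c (2*n+6) j ω) *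
          Jj c K0 (2*n+6) (fun a => ex (δ.1 a)) (ex δ.2.1) (ex δ.2.2) j ω| ≤
        ∑ j ∈ range (M * B * M), ii (GP c (2*n+6) j ω) *
          (2 * nb c K0 (2*n+6) C11 C12 C13 (fun a => ex (δ.1 a)) (ex δ.2.1) (ex δ.2.2)
            (j / M) (M - 1 - j % M) ω) +
          θ * (4 * (C14 * ((M * B * M : ℕ) * W1 q M B n K0 + 48 * (EQ M B n a5 + 1))) +
            48 * (2 * (C14 * ((M * B * M : ℕ) * W1 q M B n K0 + EQ M B n a5)) + 1)) +
          Real.log (8 * (q:ℝ) ^ ((n + 4) * (M * B))) / θ := by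
  classical
  have hq0 : (0:ℝ) < q := by exact_mod_cast (by omega : 0 < q)
  have hqB : (0:ℝ) < (q:ℝ) ^ B := by positivity
  obtain ⟨f1, hf1, hE1, hc1⟩ := h1 n q h8 M B c hc
  obtain ⟨f2, hf2, hE2, hc2⟩ := h2 n q h8 M B c hc
  obtain ⟨f3, hf3, hE3, hc3⟩ := h3 n q h8 M B c hc (2*n+6) le_rfl
  obtain ⟨T, hT⟩ : ∃ T, T = M * B * M := ⟨_, rfl⟩
  obtain ⟨A, hA⟩ : ∃ A : ℕ → Pth q B → Finset (Blk q B), A = AlX c K0 (2*n+6) := ⟨_, rfl⟩
  have hB' : ∀ j ω, q ^ B ≤ 2 * (A j ω).card := by rw [hA]; exact hAl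
  have hne := Al_ne (by omega) A hB'
  obtain ⟨V, hV⟩ : ∃ V : ℕ → Pth q B → ℝ, V = V1 c K0 (2*n+6) C14 := ⟨_, rfl⟩
  have hV0 : ∀ j ω, 0 ≤ V j ω := by rw [hV]; exact fun j ω => V1_nonneg c K0 _ C14 j ω
  have hVd : ∀ j, DepLT j (V j) := by rw [hV]; exact fun j => V1_dep c K0 _ C14 j
  obtain ⟨Q, hQ⟩ : ∃ Q, Q = EQ M B n a5 := ⟨_, rfl⟩
  have hQ0 : 0 ≤ Q := by rw [hQ]; unfold EQ; positivity
  obtain ⟨W, hW⟩ : ∃ W, W = W1 q M B n K0 := ⟨_, rfl⟩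
  have hW0 : 0 ≤ W := by rw [hW]; exact W1_nonneg q M B n K0
  have hsV : ∀ ω, ∑ j ∈ range T, V j ω ≤ C14 * ((T:ℕ) * W + SQ c (2*n+6) ω) := by
    intro ω
    rw [hV, hT, hW]
    exact sum_V1 c K0 (2*n+6) C14 ω
  -- second moment
  have hsec : ∀ j < T, ∀ ω, GP c (2*n+6) j ω →
      ∑ z : Blk q B, (Xj CS c K0 (2*n+6) j (Function.update ω j z)) ^ 2 ≤ (q:ℝ) ^ B * V j ω := by
    intro j hj ω hG
    have hmod := Nat.mod_lt j hM
    have hdiv := Nat.div_add_mod j M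
    obtain ⟨hG1, hE, hP⟩ := hG
    have hb : M - 1 - j % M < M := by omega
    have h6 := h14 ω (j / M) ⟨M - 1 - j % M, hb⟩ hE hP
    have hjb : j / M * M + (M - 1 - (M - 1 - j % M)) = j := (jr_eq hM).symm
    simp only [hjb] at h6
    refine h6.trans ?_
    apply mul_le_mul_of_nonneg_left _ hqB.le
    rw [hV]
    unfold V1 W1 Pool.Agent.Y258.X.QD
    rw [if_pos hG1]
    have h7 : ((IL M B n (2*n+6) (j / M) (M - 1 - j % M)).card : ℝ) ≤
        (n + 2 : ℕ) * (B * ((M * B : ℕ) : ℝ) ^ n) := by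
      have := card_IL (M := M) (B := B) (n := n) (K7 := 2*n+6) (r := j / M)
        (β := M - 1 - j % M) (by omega)
      exact_mod_cast this
    have h7' : (0:ℝ) ≤ ((IL M B n (2*n+6) (j / M) (M - 1 - j % M)).card : ℝ) := Nat.cast_nonneg _
    gcongr
  -- the potential
  obtain ⟨A4, hA4⟩ : ∃ A4 : ℝ, A4 = 48 * (2 * (C14 * ((T:ℕ) * W + Q)) + 1) := ⟨_, rfl⟩
  obtain ⟨A5, hA5⟩ : ∃ A5 : ℝ, A5 = 48 * (eB + 1) := ⟨_, rfl⟩
  obtain ⟨A6, hA6⟩ : ∃ A6 : ℝ, A6 = 48 * (Q + 1) := ⟨_, rfl⟩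
  have hA4p : 0 < A4 := by rw [hA4]; positivity
  have hA5p : 0 < A5 := by rw [hA5]; positivity
  have hA6p : 0 < A6 := by rw [hA6]; positivity
  have hNS0 : ∀ ω, 0 ≤ NS c K1 ω := by
    intro ω
    unfold NS
    refine sum_nonneg fun r _ => sum_nonneg fun l _ => ?_
    split_ifs
    · exact add_nonneg (RL_nonneg _ _ _ _ fun _ => ii_nonneg _)
        (OL_nonneg _ _ _ _ fun _ => ii_nonneg _)
    · exact le_rfl
  set S4 : Pth q B → ℝ := fun ω => ∑ j ∈ range T, ii (GP c (2*n+6) j ω) *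
    (Xj CS c K0 (2*n+6) j ω) ^ 2 with hS4
  have hS40 : ∀ ω, 0 ≤ S4 ω := fun ω => sum_nonneg fun j _ => mul_nonneg (ii_nonneg _) (sq_nonneg _)
  set P : Pth q B → ℝ := fun ω => (f1 ω + f2 ω + f3 ω) + ((1 / A4) * S4 ω +
    ((1 / A5) * SBc CS c K1 (2*n+6) ω + ((1 / A6) * SQ c (2*n+6) ω + NS c K1 ω))) with hPd
  have hP0 : ∀ ω, 0 ≤ P ω := by
    intro ω
    have := hf1 ω; have := hf2 ω; have := hf3 ω; have := hS40 ω
    have := SBc_nonneg CS c K1 (2*n+6) ω; have := SQ_nonneg c (2*n+6) ω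
    have := hNS0 ω
    rw [hPd]
    positivity
  have heSQ : ∀ ω₀, EE A 0 T (SQ c (2*n+6)) ω₀ ≤ Q := by
    intro ω₀
    rw [hT, hQ]
    exact EE_SQ (K7 := 2*n+6) A hB' h8 (by omega) ha5 (h5 A hB') ω₀
  have hPE : ∀ ω₀, EE A 0 T P ω₀ ≤ 1 / 4 := by
    intro ω₀
    rw [hPd, EE_add_fun, EE_add_fun, EE_add_fun, EE_add_fun, EE_add_fun, EE_add_fun, EE_const_mul,
      EE_const_mul, EE_const_mul]
    have e1 := hE1 A hB' ω₀
    have e2 := hE2 A hB' ω₀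
    have e3 := hE3 A hB' ω₀
    rw [← hT] at e1 e2 e3
    have hm1 : (1:ℝ) ≤ ((M * B + 1 : ℕ) : ℝ) := by
      have : 1 ≤ M * B + 1 := by omega
      exact_mod_cast this
    have hpw : ((M * B + 1 : ℕ) : ℝ) ^ (n + 3) ≤ ((M * B + 1 : ℕ) : ℝ) ^ (2 * n + 6) :=
      pow_le_pow_right₀ hm1 (by omega)
    have hpw0 : (0:ℝ) ≤ ((M * B + 1 : ℕ) : ℝ) ^ (n + 3) := by positivity
    have h4n : (4:ℝ) ≤ 4 ^ (n + 4) := by
      calc (4:ℝ) = 4 ^ 1 := (pow_one _).symm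
        _ ≤ 4 ^ (n + 4) := pow_le_pow_right₀ (by norm_num) (by omega)
    have h2n : (2:ℝ) ^ (n + 3) ≤ 4 ^ (n + 4) := by
      calc (2:ℝ) ^ (n + 3) ≤ 4 ^ (n + 3) := pow_le_pow_left₀ (by norm_num) (by norm_num) _
        _ ≤ 4 ^ (n + 4) := pow_le_pow_right₀ (by norm_num) (by omega)
    have b3 : EE A 0 T f3 ω₀ ≤ 1 / 48 := by
      refine e3.trans ?_
      rw [div_le_div_iff₀ hq0 (by norm_num)]
      linarith
    have b1 : EE A 0 T f1 ω₀ ≤ 1 / 48 := by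
      refine e1.trans ?_
      rw [div_le_div_iff₀ hq0 (by norm_num)]
      have : 4 * ((M * B + 1 : ℕ) : ℝ) ^ (n + 3) ≤
          4 ^ (n + 4) * ((M * B + 1 : ℕ) : ℝ) ^ (2 * n + 6) :=
        mul_le_mul h4n hpw hpw0 (by positivity)
      linarith
    have b2 : EE A 0 T f2 ω₀ ≤ 1 / 48 := by
      refine e2.trans ?_
      rw [div_le_div_iff₀ hq0 (by norm_num)]
      have : 2 ^ (n + 3) * ((M * B + 1 : ℕ) : ℝ) ^ (n + 3) ≤
          4 ^ (n + 4) * ((M * B + 1 : ℕ) : ℝ) ^ (2 * n + 6) :=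
        mul_le_mul h2n hpw hpw0 (by positivity)
      linarith
    have b4 : (1 / A4) * EE A 0 T S4 ω₀ ≤ 1 / 48 := by
      have e4 : EE A 0 T S4 ω₀ ≤ 2 * (C14 * ((T:ℕ) * W + Q)) := by
        rw [hS4, EE_sum]
        calc ∑ j ∈ range T, EE A 0 T (fun ω => ii (GP c (2*n+6) j ω) *
              (Xj CS c K0 (2*n+6) j ω) ^ 2) ω₀ ≤ ∑ j ∈ range T, 2 * EE A 0 T (V j) ω₀ :=
              sum_le_sum fun j hj => EE_Xj A hB' (by omega) CS hc hM (mem_range.1 hj) (hVd j)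
                (hV0 j) (hsec j (mem_range.1 hj)) ω₀
          _ = 2 * EE A 0 T (fun ω => ∑ j ∈ range T, V j ω) ω₀ := by rw [← mul_sum, EE_sum]
          _ ≤ 2 * EE A 0 T (fun ω => C14 * ((T:ℕ) * W + SQ c (2*n+6) ω)) ω₀ := by
              apply mul_le_mul_of_nonneg_left _ (by norm_num)
              exact EE_mono A 0 T fun ω _ => hsV ω
          _ = 2 * (C14 * ((T:ℕ) * W + EE A 0 T (SQ c (2*n+6)) ω₀)) := by
              rw [EE_const_mul, EE_add_fun, EE_cst A hne]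
          _ ≤ 2 * (C14 * ((T:ℕ) * W + Q)) := by
              have := heSQ ω₀
              gcongr
      rw [div_mul_eq_mul_div, one_mul, div_le_div_iff₀ hA4p (by norm_num)]
      rw [hA4]
      linarith
    have b5 : (1 / A5) * EE A 0 T (SBc CS c K1 (2*n+6)) ω₀ ≤ 1 / 48 := by
      have e5 := hSB A hB' ω₀
      rw [← hT] at e5
      rw [div_mul_eq_mul_div, one_mul, div_le_div_iff₀ hA5p (by norm_num)]
      rw [hA5]
      linarith
    have b6 : (1 / A6) * EE A 0 T (SQ c (2*n+6)) ω₀ ≤ 1 / 48 := by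
      have e6 := heSQ ω₀
      rw [div_mul_eq_mul_div, one_mul, div_le_div_iff₀ hA6p (by norm_num)]
      rw [hA6]
      linarith
    have b7 : EE A 0 T (NS c K1) ω₀ ≤ 1 / 48 := by
      rw [hT]
      exact hNS A hB' ω₀
    linarith
  -- the engine
  have hcardZ : (Fintype.card (Blk q B) : ℝ) = (q:ℝ) ^ B := by
    rw [Fintype.card_fun, ZMod.card, Fintype.card_fin]; push_cast; rfl
  have hjT : ∀ j < T, j / M < M * B := fun j hj =>
    Nat.div_lt_of_lt_mul (by rw [mul_comm M (M * B), ← hT]; exact hj)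
  obtain ⟨ω, hω1, hω2, hω3⟩ := h17 (Blk q B) A T ((q:ℝ) ^ B) hcardZ
    (fun j ω => by exact_mod_cast hB' j ω) hqB (by rw [hA]; exact fun j => AlX_dep hc hM K0 _ j)
    (Dlt q M B n) θ hθ
    (fun δ j ω => if j < T then
      Jj c K0 (2*n+6) (fun a => ex (δ.1 a)) (ex δ.2.1) (ex δ.2.2) j ω else 0)
    (fun j ω => Xj CS c K0 (2*n+6) j ω)
    (fun j ω => GP c (2*n+6) j ω)
    (fun δ j ω => nb c K0 (2*n+6) C11 C12 C13 (fun a => ex (δ.1 a)) (ex δ.2.1) (ex δ.2.2)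
            (j / M) (M - 1 - j % M) ω)
    V P
    (fun δ j => by
      intro ω ω' h
      simp only
      rw [Jj_dep hc hM K0 _ _ _ _ j ω ω' h])
    (fun j => Xj_dep CS hc hM K0 _ j)
    (fun j => GP_dep c _ j)
    (fun δ j => nb_dep hM K0 _ C11 C12 C13 _ _ _ j)
    hVd
    (by
      intro δ j ω
      by_cases hj : j < T
      · simp only [hj, if_true]
        unfold Jj
        by_cases hG : GP c (2*n+6) j ω
        · rw [ii_true hG, one_mul]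
          unfold J0 Xj
          refine (abs_sum_le_sum_abs _ _).trans (sum_le_sum fun l hl => ?_)
          have hl' := mem_IL.1 hl
          exact TT_le_mm h10 (hS q h8) c K0 ω (hjT j hj) hG.2.1 (by unfold dm; omega)
            (by unfold dm; omega) _ _ _
        · rw [ii_false hG, zero_mul, abs_zero]
          exact Xj_nonneg CS c K0 _ j ω
      · simp only [hj, if_false, abs_zero]
        exact Xj_nonneg CS c K0 _ j ω)
    (fun δ j ω => nb_nonneg c K0 _ C11 C12 C13 _ _ _ _ _ ω)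
    hV0
    (fun j hj ω hG => hsec j hj ω hG)
    (by
      intro δ j hj ω hG
      simp only [hj, if_true]
      rw [hA]
      exact mean_b h10 hS h8 h11 h12 h13 _ _ _ (by rw [← hT]; exact hj) ω hG)
    hP0 hPE
  -- consequences
  have hω2' : (f1 ω + f2 ω + f3 ω) + ((1 / A4) * S4 ω +
    ((1 / A5) * SBc CS c K1 (2*n+6) ω + ((1 / A6) * SQ c (2*n+6) ω + NS c K1 ω))) < 1 := hω2
  have g1 := hf1 ω
  have g2 := hf2 ω
  have g3 := hf3 ω
  have g4 : 0 ≤ (1 / A4) * S4 ω := mul_nonneg (by positivity) (hS40 ω)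
  have g5 : 0 ≤ (1 / A5) * SBc CS c K1 (2*n+6) ω :=
    mul_nonneg (by positivity) (SBc_nonneg _ _ _ _ _)
  have g6 : 0 ≤ (1 / A6) * SQ c (2*n+6) ω := mul_nonneg (by positivity) (SQ_nonneg _ _ _)
  have g7 := hNS0 ω
  have hEx := hc1 ω (by linarith)
  have hNR := hc2 ω (by linarith)
  have hPG := hc3 ω (by linarith) hEx
  rw [hA] at hω1
  have s4 : S4 ω ≤ A4 := by
    have : (1 / A4) * S4 ω ≤ 1 := by linarith
    rwa [div_mul_eq_mul_div, one_mul, div_le_one hA4p] at this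
  have s5 : SBc CS c K1 (2*n+6) ω ≤ A5 := by
    have : (1 / A5) * SBc CS c K1 (2*n+6) ω ≤ 1 := by linarith
    rwa [div_mul_eq_mul_div, one_mul, div_le_one hA5p] at this
  have s6 : SQ c (2*n+6) ω ≤ A6 := by
    have : (1 / A6) * SQ c (2*n+6) ω ≤ 1 := by linarith
    rwa [div_mul_eq_mul_div, one_mul, div_le_one hA6p] at this
  refine ⟨ω, hEx, hNR, by linarith, by rw [← hT]; exact hω1, ?_, by rw [← hA5]; exact s5,
    by rw [← hQ, ← hA6]; exact s6, ?_⟩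
  · intro j hj hr
    rw [← hT] at hj
    have := hjT j hj
    exact ⟨hr, hEx _ this.le, hPG _ this hr⟩
  · intro δ
    have h7 := hω3 δ
    have e1 : ∑ j ∈ range T, ii (GP c (2*n+6) j ω) * (if j < T then
        Jj c K0 (2*n+6) (fun a => ex (δ.1 a)) (ex δ.2.1) (ex δ.2.2) j ω else 0) =
        ∑ j ∈ range T, ii (GP c (2*n+6) j ω) *
        Jj c K0 (2*n+6) (fun a => ex (δ.1 a)) (ex δ.2.1) (ex δ.2.2) j ω :=
      sum_congr rfl fun j hj => by rw [if_pos (mem_range.1 hj)]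
    rw [e1] at h7
    rw [← hT, ← hW, ← hQ]
    refine h7.trans ?_
    have hcd : ((Fintype.card (Dlt q M B n) : ℕ) : ℝ) = (q:ℝ) ^ ((n + 4) * (M * B)) := by
      rw [card_Dlt]; push_cast; rfl
    rw [hcd]
    have e2 : ∑ j ∈ range T, ii (GP c (2*n+6) j ω) * (2 * nb c K0 (2*n+6) C11 C12 C13
          (fun a => ex (δ.1 a)) (ex δ.2.1) (ex δ.2.2) (j / M) (M - 1 - j % M) ω +
          4 * θ * V j ω + θ * Xj CS c K0 (2*n+6) j ω ^ 2) ≤
        ∑ j ∈ range T, ii (GP c (2*n+6) j ω) * (2 * nb c K0 (2*n+6) C11 C12 C13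
          (fun a => ex (δ.1 a)) (ex δ.2.1) (ex δ.2.2) (j / M) (M - 1 - j % M) ω) +
        θ * (4 * (C14 * ((T:ℕ) * W + 48 * (Q + 1))) +
          48 * (2 * (C14 * ((T:ℕ) * W + Q)) + 1)) := by
      have e3 : ∑ j ∈ range T, ii (GP c (2*n+6) j ω) * (4 * θ * V j ω) ≤
          θ * (4 * (C14 * ((T:ℕ) * W + 48 * (Q + 1)))) := by
        calc ∑ j ∈ range T, ii (GP c (2*n+6) j ω) * (4 * θ * V j ω) ≤
            ∑ j ∈ range T, 1 * (4 * θ * V j ω) := sum_le_sum fun j _ =>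
              mul_le_mul_of_nonneg_right (ii_le_one _)
                (mul_nonneg (by positivity) (hV0 j ω))
          _ = θ * (4 * ∑ j ∈ range T, V j ω) := by
              rw [mul_sum, mul_sum]
              exact sum_congr rfl fun j _ => by ring
          _ ≤ θ * (4 * (C14 * ((T:ℕ) * W + SQ c (2*n+6) ω))) := by
              have := hsV ω
              gcongr
          _ ≤ θ * (4 * (C14 * ((T:ℕ) * W + 48 * (Q + 1)))) := by
              rw [← hA6]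
              gcongr
      have e4 : ∑ j ∈ range T, ii (GP c (2*n+6) j ω) * (θ * Xj CS c K0 (2*n+6) j ω ^ 2) =
          θ * S4 ω := by
        rw [hS4]
        simp only
        rw [mul_sum]
        exact sum_congr rfl fun j _ => by ring
      have e5 : θ * S4 ω ≤ θ * (48 * (2 * (C14 * ((T:ℕ) * W + Q)) + 1)) := by
        rw [← hA4]
        exact mul_le_mul_of_nonneg_left s4 hθ.le
      simp only [mul_add, sum_add_distrib]
      simp only [mul_add] at e3 e4 e5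
      linarith
    linarith

end app

section fin
variable {q M B n : ℕ} [Fact q.Prime]

/-- the main sum is the sum of the increments -/
lemma main_e {K0 : ℕ} {c : Flg q M B n} {ω : Pth q B}
    (hA : ∀ j < M * B * M, ω j ∈ AlX c K0 (2*n+6) j ω)
    (hG : ∀ j < M * B * M, n + 3 ≤ j / M → GP c (2*n+6) j ω)
    (X : Fin (n+2) → ℕ → ZMod q) (Y t : ℕ → ZMod q) :
    ∑ r ∈ range (M * B), (if r < n + 3 then 0 else
      ∑ b ∈ range M, ∑ l ∈ IL M B n (2*n+6) r b,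
        TT c (cD M B X Y) t ω r l * ii (OG c ω l r)) =
    ∑ j ∈ range (M * B * M), ii (GP c (2*n+6) j ω) * Jj c K0 (2*n+6) X Y t j ω := by
  classical
  have h1 : ∀ r ∈ range (M * B), (if r < n + 3 then 0 else
      ∑ b ∈ range M, ∑ l ∈ IL M B n (2*n+6) r b,
        TT c (cD M B X Y) t ω r l * ii (OG c ω l r)) =
      ∑ b ∈ range M, (if r < n + 3 then 0 else
      ∑ l ∈ IL M B n (2*n+6) r b, TT c (cD M B X Y) t ω r l * ii (OG c ω l r)) := by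
    intro r _
    split_ifs
    · simp
    · rfl
  rw [sum_congr rfl h1, ← sum_times (M := M) (M * B) (fun r b => if r < n + 3 then 0 else
      ∑ l ∈ IL M B n (2*n+6) r b, TT c (cD M B X Y) t ω r l * ii (OG c ω l r))]
  refine sum_congr rfl fun j hj => ?_
  rw [mem_range] at hj
  by_cases h2 : j / M < n + 3
  · rw [if_pos h2, ii_false, zero_mul]
    rintro ⟨h3, _⟩
    omega
  · rw [if_neg h2]
    have h3 := hG j hj (by omega)
    unfold Jj J0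
    rw [ii_true h3, one_mul, one_mul]
    refine sum_congr rfl fun l hl => ?_
    have h4 := hA j hj
    unfold AlX at h4
    rw [mem_filter] at h4
    have h5 := h4.2 h3.2.1 l hl
    rw [Function.update_eq_self] at h5
    rw [ii_true h5, one_mul]

open Classical in
/-- the bias of a row and block, in terms of the counts -/
lemma nb_le {K0 C11 C12 C13 : ℕ} {c : Flg q M B n} {ω : Pth q B} (X : Fin (n+2) → ℕ → ZMod q)
    (Y t : ℕ → ZMod q) {r β : ℕ} (hr : n + 3 ≤ r) :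
    nb c K0 (2*n+6) C11 C12 C13 X Y t r β ω ≤
      ((n + 2 : ℕ) * (B * ((M * B : ℕ) : ℝ) ^ n)) * (C11 * (La q : ℝ) ^ (n + 1) * (uu q : ℝ) ^ 2 +
        ((2 * (2 * (n + 1)) + 1) ^ (n + 2) : ℕ) *
          (C12 * (La q : ℝ) ^ (n + 1) * (uu q : ℝ) ^ 2) +
        ((n + 2 : ℕ) * (B * ((M * B : ℕ) : ℝ) ^ n)) *
          (C13 * ((La q : ℝ) ^ (2 * n + 4) * (K0 + 1)) / 2 ^ K0)) +
      (((IL M B n (2*n+6) r β).filter (fun l => NCv c X Y t ω r β l)).card : ℝ) *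
        (C11 * ((La q : ℝ) ^ (n + 2) * (K0 + 1))) +
      (C11 + C12) / 2 ^ K0 * ∑ l ∈ IL M B n (2*n+6) r β, ∑ l' ∈ IL M B n (2*n+6) r β,
        (if n + 3 ≤ r ∧ 1 ≤ dm M B (mxv l l') r then QQ c ω r l l' else 0) := by
  have hcard : ((IL M B n (2*n+6) r β).card : ℝ) ≤ (n + 2 : ℕ) * (B * ((M * B : ℕ) : ℝ) ^ n) := by
    have := card_IL (M := M) (B := B) (n := n) (K7 := 2*n+6) (r := r) (β := β) (by omega)
    exact_mod_cast this
  obtain ⟨I, hI⟩ : ∃ I : ℝ, I = (n + 2 : ℕ) * (B * ((M * B : ℕ) : ℝ) ^ n) := ⟨_, rfl⟩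
  rw [← hI] at hcard ⊢
  have hI0 : 0 ≤ I := by rw [hI]; positivity
  obtain ⟨N, hN⟩ : ∃ N : ℝ, N = (((2 * (2 * (n + 1)) + 1) ^ (n + 2) : ℕ) : ℝ) := ⟨_, rfl⟩
  rw [← hN]
  have hN0 : 0 ≤ N := by rw [hN]; positivity
  obtain ⟨a13, ha13⟩ : ∃ a : ℝ, a = C13 * ((La q : ℝ) ^ (2 * n + 4) * (K0 + 1)) / 2 ^ K0 :=
    ⟨_, rfl⟩
  have ha0 : 0 ≤ a13 := by rw [ha13]; positivity
  obtain ⟨a12, ha12⟩ : ∃ a : ℝ, a = C12 * (La q : ℝ) ^ (n + 1) * (uu q : ℝ) ^ 2 := ⟨_, rfl⟩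
  have ha120 : 0 ≤ a12 := by rw [ha12]; positivity
  obtain ⟨κ, hκ⟩ : ∃ a : ℝ, a = (C11 + C12) / 2 ^ K0 := ⟨_, rfl⟩
  have hκ0 : 0 ≤ κ := by rw [hκ]; positivity
  rw [← hκ, ← ha12]
  unfold nb
  have h1 : ∀ l ∈ IL M B n (2*n+6) r β,
      ∑ l' ∈ IL M B n (2*n+6) r β, nt c K0 C11 C12 C13 ω r l l' ≤
      N * a12 + I * a13 +
      κ * ∑ l' ∈ IL M B n (2*n+6) r β,
        (if n + 3 ≤ r ∧ 1 ≤ dm M B (mxv l l') r then QQ c ω r l l' else 0) := by
    intro l hl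
    have h2 : ∀ l' ∈ IL M B n (2*n+6) r β, nt c K0 C11 C12 C13 ω r l l' ≤
        (if 1 ≤ dm M B (mxv l l') r then a12 else 0) + a13 +
        κ * (if n + 3 ≤ r ∧ 1 ≤ dm M B (mxv l l') r then QQ c ω r l l' else 0) := by
      intro l' _
      unfold nt
      rw [← ha13, ← ha12]
      by_cases h3 : 1 ≤ dm M B (mxv l l') r
      · rw [if_pos h3, if_pos h3, if_pos ⟨hr, h3⟩]
        have : ((C11:ℝ) + C12) * QQ c ω r l l' / 2 ^ K0 = κ * QQ c ω r l l' := by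
          rw [hκ]; ring
        rw [this]
        linarith
      · rw [if_neg h3, if_neg h3, if_neg (fun h => h3 h.2)]
        linarith
    refine (sum_le_sum h2).trans ?_
    rw [sum_add_distrib, sum_add_distrib, ← mul_sum]
    apply add_le_add_left
    apply add_le_add
    · rw [← sum_filter, sum_const, nsmul_eq_mul]
      apply mul_le_mul_of_nonneg_right _ ha120
      rw [hN]
      exact_mod_cast card_nb hl
    · rw [sum_const, nsmul_eq_mul]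
      exact mul_le_mul_of_nonneg_right hcard ha0
  refine (sum_le_sum (g := fun l => (C11 * (La q : ℝ) ^ (n + 1) * (uu q : ℝ) ^ 2 +
      N * a12 + I * a13) +
      ii (NCv c X Y t ω r β l) * (C11 * ((La q : ℝ) ^ (n + 2) * (K0 + 1))) +
      κ * ∑ l' ∈ IL M B n (2*n+6) r β,
        (if n + 3 ≤ r ∧ 1 ≤ dm M B (mxv l l') r then QQ c ω r l l' else 0))
    fun l hl => by have := h1 l hl; linarith).trans ?_
  rw [sum_add_distrib, sum_add_distrib, ← mul_sum]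
  apply add_le_add_left
  apply add_le_add
  · rw [sum_const, nsmul_eq_mul, ← ha13]
    apply mul_le_mul_of_nonneg_right hcard
    positivity
  · rw [← sum_mul, ← card_eq_sum_ii]

/-- the sum of the biases -/
lemma sum_nb {K0 C11 C12 C13 : ℕ} {c : Flg q M B n} (hc : IsFlags c) (h16 : St_C16)
    {ω : Pth q B} (hE : ∀ r ≤ M * B, Exc c ω r)
    (X : Fin (n+2) → ℕ → ZMod q) (Y t : ℕ → ZMod q)
    (ht : ∀ r < M * B, t r = row M ω r (xX M B X)) :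
    ∑ j ∈ range (M * B * M), ii (GP c (2*n+6) j ω) *
      (2 * nb c K0 (2*n+6) C11 C12 C13 X Y t (j / M) (M - 1 - j % M) ω) ≤
    2 * ((M * B : ℕ) * (M * (((n + 2 : ℕ) * (B * ((M * B : ℕ) : ℝ) ^ n)) *
        (C11 * (La q : ℝ) ^ (n + 1) * (uu q : ℝ) ^ 2 +
        ((2 * (2 * (n + 1)) + 1) ^ (n + 2) : ℕ) *
          (C12 * (La q : ℝ) ^ (n + 1) * (uu q : ℝ) ^ 2) +
        ((n + 2 : ℕ) * (B * ((M * B : ℕ) : ℝ) ^ n)) *
          (C13 * ((La q : ℝ) ^ (2 * n + 4) * (K0 + 1)) / 2 ^ K0)))) +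
      (((n + 2) ^ 2 * (M * (M * B + 1) ^ (n + 1)) : ℕ) : ℝ) *
        (C11 * ((La q : ℝ) ^ (n + 2) * (K0 + 1))) +
      (C11 + C12) / 2 ^ K0 * SQ c (2*n+6) ω) := by
  classical
  obtain ⟨D, hD⟩ : ∃ D : ℝ, D = ((n + 2 : ℕ) * (B * ((M * B : ℕ) : ℝ) ^ n)) *
        (C11 * (La q : ℝ) ^ (n + 1) * (uu q : ℝ) ^ 2 +
        ((2 * (2 * (n + 1)) + 1) ^ (n + 2) : ℕ) *
          (C12 * (La q : ℝ) ^ (n + 1) * (uu q : ℝ) ^ 2) +
        ((n + 2 : ℕ) * (B * ((M * B : ℕ) : ℝ) ^ n)) *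
          (C13 * ((La q : ℝ) ^ (2 * n + 4) * (K0 + 1)) / 2 ^ K0)) := ⟨_, rfl⟩
  have hD0 : 0 ≤ D := by rw [hD]; positivity
  rw [← hD]
  obtain ⟨a, ha⟩ : ∃ a : ℝ, a = C11 * ((La q : ℝ) ^ (n + 2) * (K0 + 1)) := ⟨_, rfl⟩
  have ha0 : 0 ≤ a := by rw [ha]; positivity
  rw [← ha]
  obtain ⟨κ, hκ⟩ : ∃ a : ℝ, a = (C11 + C12) / 2 ^ K0 := ⟨_, rfl⟩
  have hκ0 : 0 ≤ κ := by rw [hκ]; positivity
  rw [← hκ]
  let g : ℕ → ℕ → ℝ := fun r β => D +
    (((IL M B n (2*n+6) r β).filter (fun l => NCv c X Y t ω r β l)).card : ℝ) * a +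
      κ * ∑ l ∈ IL M B n (2*n+6) r β, ∑ l' ∈ IL M B n (2*n+6) r β,
        (if n + 3 ≤ r ∧ 1 ≤ dm M B (mxv l l') r then QQ c ω r l l' else 0)
  have hg0 : ∀ r β, 0 ≤ g r β := by
    intro r β
    have : 0 ≤ ∑ l ∈ IL M B n (2*n+6) r β, ∑ l' ∈ IL M B n (2*n+6) r β,
        (if n + 3 ≤ r ∧ 1 ≤ dm M B (mxv l l') r then QQ c ω r l l' else 0) := by
      refine sum_nonneg fun l _ => sum_nonneg fun l' _ => ?_
      split_ifs
      · exact QQ_nn c ω r l l'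
      · exact le_rfl
    show 0 ≤ D + _ + _
    positivity
  have h1 : ∀ j ∈ range (M * B * M), ii (GP c (2*n+6) j ω) *
      (2 * nb c K0 (2*n+6) C11 C12 C13 X Y t (j / M) (M - 1 - j % M) ω) ≤
      2 * g (j / M) (M - 1 - j % M) := by
    intro j _
    by_cases hG : GP c (2*n+6) j ω
    · rw [ii_true hG, one_mul]
      apply mul_le_mul_of_nonneg_left _ (by norm_num)
      have h2 := nb_le (K0 := K0) (C11 := C11) (C12 := C12) (C13 := C13) (c := c) (ω := ω) X Y t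
        (β := M - 1 - j % M) hG.1
      rw [← hD, ← ha, ← hκ] at h2
      exact h2
    · rw [ii_false hG, zero_mul]
      exact mul_nonneg (by norm_num) (hg0 _ _)
  refine (sum_le_sum h1).trans ?_
  rw [← mul_sum]
  apply mul_le_mul_of_nonneg_left _ (by norm_num)
  rw [sum_times (M := M) (M * B) g]
  have h2 : ∑ r ∈ range (M * B), ∑ β ∈ range M, g r β =
      ∑ _r ∈ range (M * B), ∑ _β ∈ range M, D +
      (∑ r ∈ range (M * B), ∑ β ∈ range M,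
        (((IL M B n (2*n+6) r β).filter (fun l => NCv c X Y t ω r β l)).card : ℝ)) * a +
      κ * SQ c (2*n+6) ω := by
    unfold SQ
    rw [sum_mul, mul_sum, ← sum_add_distrib, ← sum_add_distrib]
    refine sum_congr rfl fun r _ => ?_
    rw [sum_mul, mul_sum, ← sum_add_distrib, ← sum_add_distrib]
  rw [h2]
  apply add_le_add_left
  apply add_le_add
  · rw [sum_const, card_range, sum_const, card_range, nsmul_eq_mul, nsmul_eq_mul]
  · apply mul_le_mul_of_nonneg_right _ ha0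
    have h3 := h16 n q M B c hc (2*n+6) (by omega) ω hE X Y
    have h4 : ∑ r ∈ range (M * B), ∑ β ∈ range M,
        ((IL M B n (2*n+6) r β).filter (fun l => NCv c X Y t ω r β l)).card ≤
        (n + 2) ^ 2 * (M * (M * B + 1) ^ (n + 1)) := by
      refine le_trans (le_of_eq ?_) h3
      refine sum_congr rfl fun r hr => sum_congr rfl fun β _ => ?_
      congr 1
      apply Finset.filter_congr
      intro l _
      exact NCv_t c X Y (ht r (mem_range.1 hr))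
    exact_mod_cast h4

end fin

end Pool.Agent.U49
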