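import Pool.Agent.U49.SD.Dec

set_option autoImplicit false
set_option linter.unusedSectionVars false

/-!
# The damped bound of a level
-/

namespace Pool.Agent.U49

open Finset Pool.Agent.H470D4 Pool.Agent.Y258
open Pool.Agent.H935R2.PS (La uu nn dl mx Suit)
open Pool.Agent.Y255.SD (norm_char_sub4 norm_Fc norm_Fc_zero Fc_zero Fc_zero_le nn_pos dl_lt)
open Pool.Agent.Y838.SD (trm TT_eq psi_Fc ind_Fc uO_add Agr0_add LH LH_apply sum_sub)

section main
variable {q M B n : ℕ} [Fact q.Prime]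

/-- `1` for the old coordinates, `0` for the new one -/
noncomputable def zO {n : ℕ} : Option (Fin (n+2)) → ℝ := fun o => o.elim 0 (fun _ => 1)

/-- the test functions of a level -/
noncomputable def FO (M B : ℕ) (X : Fin (n+2) → ℕ → ZMod q) (Y : ℕ → ZMod q)
    (l : Fin (n+2) → ℕ) (r : ℕ) (o : Option (Fin (n+2))) (u : ZMod q) : ℂ :=
  ((fr (tO X Y l r o) (fO M B Y r o) u -
    (1 - zO o) * (((tO X Y l r o : ℕ) + fO M B Y r o) / q) : ℝ) : ℂ)

lemma tO_lt (X : Fin (n+2) → ℕ → ZMod q) (Y : ℕ → ZMod q) (l : Fin (n+2) → ℕ) (r : ℕ)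
    (o : Option (Fin (n+2))) : tO X Y l r o < q := by
  unfold tO
  cases o with
  | none => exact ZMod.val_lt _
  | some a => exact ZMod.val_lt _

lemma fO_mem (M B : ℕ) (Y : ℕ → ZMod q) (r : ℕ) (o : Option (Fin (n+2))) :
    0 ≤ fO M B (n := n) Y r o ∧ fO M B (n := n) Y r o ≤ 1 := by
  unfold fO
  cases o with
  | none => exact ⟨(tv_bounds _ _).1, (tv_bounds _ _).2.le⟩
  | some a => exact ⟨le_rfl, zero_le_one⟩

lemma FO_dec (M B : ℕ) (X : Fin (n+2) → ℕ → ZMod q) (Y : ℕ → ZMod q) (l : Fin (n+2) → ℕ) (r : ℕ)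
    (o : Option (Fin (n+2))) : Dec (La q) (alf (zO o)) bet (FO M B X Y l r o) := by
  have hf := fO_mem (n := n) M B Y r o
  unfold FO
  refine dec_fr (tO_lt X Y l r o) hf.1 hf.2 ?_ ?_
  · unfold zO; cases o <;> simp
  · unfold zO; cases o <;> simp

lemma trm_prod (c : Flg q M B n) (ω : Pth q B) {r : ℕ} (hr : r < M * B) (l : Fin (n+2) → ℕ)
    (X : Fin (n+2) → ℕ → ZMod q) (Y t : ℕ → ZMod q) (ν : Vec q M B) :
    ((trm c ω r l X Y t ν : ℝ) : ℂ) = ∏ o, FO M B X Y l r o (uO c X Y t ω l r ν o) := by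
  rw [Fintype.prod_option, mul_comm]
  unfold trm
  push_cast
  congr 1
  · refine Finset.prod_congr rfl fun a _ => ?_
    rw [ind_Fc]
    unfold FO
    have e1 : (1 - zO (some a : Option (Fin (n+2)))) = 0 := by unfold zO; simp
    rw [e1, zero_mul, sub_zero, fr_ev (tO_lt X Y l r (some a))]
    rfl
  · rw [psi_Fc _ _ _ hr]
    unfold FO
    have e1 : (1 - zO (none : Option (Fin (n+2)))) = 1 := by unfold zO; simp
    rw [e1, one_mul, Complex.ofReal_sub, fr_ev (tO_lt X Y l r none), ← Fc_zero, eq_sub_iff_add_eq]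
    unfold ev
    rw [← Finset.add_sum_erase univ _ (mem_univ (0 : ZMod q)),
      ← Finset.add_sum_erase univ (fun h => Fc (tO X Y l r none) (fO M B Y r none) h *
        (ZMod.stdAddChar (h * uO c X Y t ω l r ν none) : ℂ)) (mem_univ (0 : ZMod q))]
    rw [ii_false (by simp), Complex.ofReal_zero, zero_mul, zero_add, zero_mul,
      AddChar.map_zero_eq_one, mul_one, add_comm]
    congr 1
    refine Finset.sum_congr rfl fun h hh => ?_
    rw [ii_true (Finset.ne_of_mem_erase hh), Complex.ofReal_one, one_mul]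
    rfl

/-- extension by zero -/
def xt {n : ℕ} (O : Fin (n+2) → ZMod q) : Option (Fin (n+2)) → ZMod q := fun o => o.elim 0 O

lemma sum_split (f : (Option (Fin (n+2)) → ZMod q) → ℝ) :
    ∑ H : Option (Fin (n+2)) → ZMod q, f H =
      ∑ H : Option (Fin (n+2)) → ZMod q, ii (H none ≠ 0) * f H +
        ∑ O : Fin (n+2) → ZMod q, f (xt O) := by
  classical
  have e1 : ∀ H : Option (Fin (n+2)) → ZMod q, f H = ii (H none ≠ 0) * f H +
      (if H none = 0 then f H else 0) := by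
    intro H
    by_cases h : H none = 0
    · rw [ii_false (by simp [h]), if_pos h]; ring
    · rw [ii_true h, if_neg h]; ring
  rw [sum_congr rfl fun H _ => e1 H, sum_add_distrib]
  congr 1
  rw [← sum_filter]
  symm
  refine Finset.sum_bij (fun O _ => xt O) (fun O _ => ?_) (fun O _ O' _ h => ?_) (fun H hH => ?_)
    (fun O _ => rfl)
  · rw [mem_filter]
    exact ⟨mem_univ _, rfl⟩
  · funext a
    exact congrFun h (some a)
  · rw [mem_filter] at hH
    refine ⟨fun a => H (some a), mem_univ _, ?_⟩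
    funext o
    cases o with
    | none => exact hH.2.symm
    | some a => rfl

lemma sz_xt (O : Fin (n+2) → ZMod q) : sz (xt O) = sz O := by
  unfold sz
  rw [Fintype.sum_option]
  unfold xt
  simp only [Option.elim]
  rw [dl_zero', zero_add]

lemma Rel_xt (c : Flg q M B n) (ω : Pth q B) (l : Fin (n+2) → ℕ) (r : ℕ)
    (O : Fin (n+2) → ZMod q) : Rel c ω l r (xt O) ↔ OR c ω l r O := by
  unfold Pool.Agent.Y258.Rel Pool.Agent.Y258.OR xt
  simp only [Option.elim, zero_mul, add_zero]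

lemma xt_zero_iff (O : Fin (n+2) → ZMod q) : xt O = 0 ↔ O = 0 := by
  constructor
  · intro h
    funext a
    exact congrFun h (some a)
  · rintro rfl
    funext o
    cases o <;> rfl

/-- the sum over all relations -/
lemma sum_rel (c : Flg q M B n) (ω : Pth q B) (l : Fin (n+2) → ℕ) (r : ℕ) :
    ∑ H : Option (Fin (n+2)) → ZMod q, ii (H ≠ 0 ∧ Rel c ω l r H) *
      dw (dm M B l r * La q) (sz H) = RF c ω l r + OF c ω l r := by
  rw [sum_split]
  unfold RF OF RL OL
  congr 1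
  · refine sum_congr rfl fun H _ => ?_
    rw [← mul_assoc, ← ii_and]
    congr 1
    apply ii_congr
    constructor
    · rintro ⟨h1, _, h2⟩
      exact ⟨h1, h2⟩
    · rintro ⟨h1, h2⟩
      exact ⟨h1, fun h => h1 (by rw [h]; rfl), h2⟩
  · refine sum_congr rfl fun O _ => ?_
    rw [sz_xt]
    congr 1
    apply ii_congr
    rw [Rel_xt, Ne, xt_zero_iff]

lemma q_pow_le (D : ℕ) : (q:ℝ) ^ D ≤ 2 ^ D * 2 ^ (D * La q) := by
  have h4 := (q_La (q := q)).2
  have h4' : (q:ℝ) ≤ 2 ^ (La q + 1) := by exact_mod_cast h4.le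
  calc (q:ℝ) ^ D ≤ (2 ^ (La q + 1)) ^ D := pow_le_pow_left₀ (Nat.cast_nonneg _) h4' D
    _ = _ := by rw [← pow_mul, ← pow_add]; congr 1; ring

/-- **(S)** -/
theorem thmS : St_S := by
  classical
  intro n
  obtain ⟨κ, hκ⟩ : ∃ κ : ℕ, κ = n + 3 := ⟨_, rfl⟩
  obtain ⟨C, hC⟩ : ∃ C : ℕ, C = 2 ^ (n + 2) * (56 ^ κ + κ * 192 ^ κ) +
    2 ^ (n + 2) * (κ * (24 ^ κ * (κ * 3 ^ (n + 2)))) := ⟨_, rfl⟩
  refine ⟨C, ?_⟩
  intro q _ h8 M B c ω r l hr hE hD1 hD2 X Y t
  have hRF0 : 0 ≤ RF c ω l r :=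
    sum_nonneg fun H _ => mul_nonneg (ii_nonneg _) (dw_nonneg _ _)
  have hOF0 : 0 ≤ OF c ω l r :=
    sum_nonneg fun H _ => mul_nonneg (ii_nonneg _) (dw_nonneg _ _)
  have hL1 : 1 ≤ La q := Pool.Agent.Y255.SD.La_pos (by omega)
  by_cases hν : ∃ ν : Vec q M B, Agr0 c X Y ω l r ν
  swap
  · have h1 : TT c (cD M B X Y) t ω r l = 0 := by
      rw [TT_eq]
      apply Finset.sum_eq_zero
      intro ν _
      rw [ii_false (fun h' => hν ⟨ν, h'⟩), zero_mul]
    rw [h1, abs_zero]
    positivity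
  obtain ⟨ν, hν⟩ := hν
  obtain ⟨D, hD⟩ : ∃ D : ℕ, D = dm M B l r := ⟨_, rfl⟩
  obtain ⟨w, hw⟩ : ∃ w : Vec q M B → ℝ, w = fun α => ii (α ∈ AA c ω l r) := ⟨_, rfl⟩
  obtain ⟨x, hx⟩ : ∃ x : Option (Fin (n+2)) → Vec q M B → ZMod q,
    x = fun o α => uO c X Y t ω l r (ν + α) o := ⟨_, rfl⟩
  have hTT : ((TT c (cD M B X Y) t ω r l : ℝ) : ℂ) = TS w x (FO M B X Y l r) := by
    rw [TT_eq]
    push_cast
    rw [← Equiv.sum_comp (Equiv.addLeft ν)]
    unfold TS
    refine sum_congr rfl fun α _ => ?_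
    rw [Equiv.coe_addLeft, ii_congr (Agr0_add hν α), trm_prod c ω hr, hw, hx]
  have hR : ∀ H : Option (Fin (n+2)) → ZMod q,
      ‖∑ α : Vec q M B, (w α : ℂ) * ZMod.stdAddChar (∑ o, H o * x o α)‖ ≤
        ii (Rel c ω l r H) * (q:ℝ) ^ D := by
    intro H
    have e1 : ∀ α : Vec q M B, (w α : ℂ) * (ZMod.stdAddChar (∑ o, H o * x o α) : ℂ) =
        ZMod.stdAddChar (∑ o, H o * uO c X Y t ω l r ν o) *
          (((ii (α ∈ AA c ω l r) : ℝ) : ℂ) * ZMod.stdAddChar (LH c ω l r H α)) := by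
      intro α
      rw [hx, hw]
      beta_reduce
      rw [uO_add, AddChar.map_add_eq_mul]
      ring
    rw [sum_congr rfl fun α _ => e1 α, ← mul_sum, sum_sub, norm_mul, norm_chi, one_mul, norm_mul,
      Complex.norm_real, Real.norm_eq_abs, abs_of_nonneg (ii_nonneg _), norm_pow,
      Complex.norm_natCast, hE l, ← hD]
    apply mul_le_mul_of_nonneg_right _ (by positivity)
    apply le_of_eq
    apply ii_congr
    unfold Pool.Agent.Y258.Rel
    constructor
    · intro h v hv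
      rw [← LH_apply]
      exact h v hv
    · intro h v hv
      rw [LH_apply]
      exact h v hv
  have hw0 : ∀ α, 0 ≤ w α := fun α => by rw [hw]; exact ii_nonneg _
  have hz0 : ∀ o : Option (Fin (n+2)), 0 ≤ zO o := by
    intro o; unfold zO; cases o <;> simp
  have hz1 : ∀ o : Option (Fin (n+2)), zO o ≤ 1 := by
    intro o; unfold zO; cases o <;> simp
  have htree := tree_univ hw0 hR (D * La q) (La q) (fun o => alf (zO o)) bet
    (fun o i h => alf_nonneg (hz0 o) i h) bet_nonneg (FO M B X Y l r)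
    (fun o => FO_dec M B X Y l r o)
  rw [← hTT, Complex.norm_real, Real.norm_eq_abs] at htree
  have hcard : Fintype.card (Option (Fin (n+2))) = κ := by
    rw [Fintype.card_option, Fintype.card_fin, hκ]
  rw [hcard] at htree
  refine htree.trans ?_
  have hqD := q_pow_le (q := q) D
  have h2D : (2:ℝ) ^ D ≤ 2 ^ (n + 2) := pow_le_pow_right₀ (by norm_num) (by omega)
  obtain ⟨c1, hc1⟩ : ∃ c1 : ℝ, c1 = 2 ^ (n + 2) * (56 ^ κ + κ * 192 ^ κ) := ⟨_, rfl⟩
  obtain ⟨c2, hc2⟩ : ∃ c2 : ℝ, c2 = 2 ^ (n + 2) * (κ * (24 ^ κ * (κ * 3 ^ (n + 2)))) := ⟨_, rfl⟩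
  have hc10 : 0 ≤ c1 := by rw [hc1]; positivity
  have hc20 : 0 ≤ c2 := by rw [hc2]; positivity
  have hterm : ∀ H : Option (Fin (n+2)) → ZMod q, ii (Rel c ω l r H) * (q:ℝ) ^ D *
      (∑ y ∈ Fintype.piFinset (fun _ : Option (Fin (n+2)) => range (La q + 2)),
          (if ∑ o, (y o - 1) ≤ D * La q then ∏ o, alf (zO o) (y o) (H o) else 0) +
        κ * ∑ y ∈ Fintype.piFinset (fun _ : Option (Fin (n+2)) => range (La q + 2)),
          (if ∑ o, (y o - 1) = D * La q then ∏ o, bet (y o) (H o) else 0)) ≤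
      (if H = 0 then c2 * (La q : ℝ) ^ (n + 2) else 0) +
        c1 * (ii (H ≠ 0 ∧ Rel c ω l r H) * dw (D * La q) (sz H)) := by
    intro H
    obtain ⟨E1, hE1⟩ : ∃ E : ℝ, E =
      ∑ y ∈ Fintype.piFinset (fun _ : Option (Fin (n+2)) => range (La q + 2)),
          (if ∑ o, (y o - 1) ≤ D * La q then ∏ o, alf (zO o) (y o) (H o) else 0) := ⟨_, rfl⟩
    obtain ⟨E2, hE2⟩ : ∃ E : ℝ, E =
      ∑ y ∈ Fintype.piFinset (fun _ : Option (Fin (n+2)) => range (La q + 2)),
          (if ∑ o, (y o - 1) = D * La q then ∏ o, bet (y o) (H o) else 0) := ⟨_, rfl⟩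
    have hE10 : 0 ≤ E1 := by
      rw [hE1]
      refine sum_nonneg fun y _ => ?_
      split_ifs
      · exact prod_nonneg fun o _ => alf_nonneg (hz0 o) _ _
      · exact le_rfl
    have hE20 : 0 ≤ E2 := by
      rw [hE2]
      refine sum_nonneg fun y _ => ?_
      split_ifs
      · exact prod_nonneg fun o _ => bet_nonneg _ _
      · exact le_rfl
    have b1 := E1_le (D * La q) (La q) (by norm_num : (0:ℝ) ≤ 7) (fun o => alf (zO o))
      (fun o i h => alf_nonneg (hz0 o) i h) (fun o i h => alf_le (hz1 o) i h) H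
    have b2 := E2_le (D * La q) (La q) (by norm_num : (0:ℝ) ≤ 24) bet bet_nonneg bet_le H
    rw [← hE1, hcard] at b1
    rw [← hE2, hcard] at b2
    rw [← hE1, ← hE2]
    have hd0 := dw_nonneg (D * La q) (sz H)
    by_cases hH : H = 0
    · subst hH
      have hRel : Rel c ω l r 0 := by
        intro v _
        simp
      have e1 : E1 = 0 := by
        rw [hE1]
        refine sum_eq_zero fun y _ => ?_
        split_ifs
        · rw [Fintype.prod_option]
          have : alf (zO (none : Option (Fin (n+2)))) (y none) (0 : ZMod q) = 0 := by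
            unfold alf zO
            simp
          rw [show (0 : Option (Fin (n+2)) → ZMod q) none = 0 from rfl, this, zero_mul]
        · rfl
      have b3 := E2_zero (q := q) (ι := Option (Fin (n+2))) (D * La q) (La q)
        (Nat.mul_pos (by omega) hL1) (by norm_num : (0:ℝ) ≤ 24) bet bet_nonneg bet_le
      have e2 : ∑ y ∈ Fintype.piFinset (fun _ : Option (Fin (n+2)) => range (La q + 2)),
          (if ∑ o, (y o - 1) = D * La q then ∏ o : Option (Fin (n+2)), bet (y o) (0 : ZMod q)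
            else 0) = E2 := by rw [hE2]; rfl
      rw [e2, hcard] at b3
      rw [e1, zero_add, if_pos rfl, ii_true hRel, one_mul, ii_false (by simp), zero_mul, mul_zero,
        add_zero]
      have hL3 : ((La q : ℝ) + 2) ^ (κ - 1) ≤ 3 ^ (n + 2) * (La q : ℝ) ^ (n + 2) := by
        have e3 : κ - 1 = n + 2 := by omega
        rw [e3, ← mul_pow]
        apply pow_le_pow_left₀ (by positivity)
        have : (1:ℝ) ≤ La q := by exact_mod_cast hL1
        linarith
      have b4 : 2 ^ (D * La q) * E2 ≤ 24 ^ κ * (κ * (3 ^ (n + 2) * (La q : ℝ) ^ (n + 2))) := by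
        refine b3.trans ?_
        gcongr
      calc (q:ℝ) ^ D * (κ * E2) ≤ (2 ^ D * 2 ^ (D * La q)) * (κ * E2) :=
            mul_le_mul_of_nonneg_right hqD (by positivity)
        _ = 2 ^ D * (κ * (2 ^ (D * La q) * E2)) := by ring
        _ ≤ 2 ^ (n + 2) * (κ * (24 ^ κ * (κ * (3 ^ (n + 2) * (La q : ℝ) ^ (n + 2))))) := by
            apply mul_le_mul h2D _ (by positivity) (by positivity)
            exact mul_le_mul_of_nonneg_left b4 (by positivity)
        _ = _ := by rw [hc2]; ring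
    · rw [if_neg hH, zero_add]
      by_cases hRel : Rel c ω l r H
      · rw [ii_true hRel, ii_true ⟨hH, hRel⟩, one_mul, one_mul]
        calc (q:ℝ) ^ D * (E1 + κ * E2) ≤ (2 ^ D * 2 ^ (D * La q)) * (E1 + κ * E2) :=
              mul_le_mul_of_nonneg_right hqD (by positivity)
          _ = 2 ^ D * (2 ^ (D * La q) * E1 + κ * (2 ^ (D * La q) * E2)) := by ring
          _ ≤ 2 ^ (n + 2) * ((8 * 7) ^ κ * dw (D * La q) (sz H) +
                κ * ((8 * 24) ^ κ * dw (D * La q) (sz H))) := by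
              gcongr
          _ = c1 * dw (D * La q) (sz H) := by rw [hc1]; norm_num; ring
      · rw [ii_false hRel, zero_mul, zero_mul]
        exact mul_nonneg hc10 (mul_nonneg (ii_nonneg _) hd0)
  refine (sum_le_sum fun H _ => hterm H).trans ?_
  rw [sum_add_distrib, ← mul_sum]
  have e4 := sum_rel c ω l r
  rw [← hD] at e4
  rw [e4, Finset.sum_ite_eq' univ (0 : Option (Fin (n+2)) → ZMod q), if_pos (mem_univ _)]
  have hCc : (C:ℝ) = c1 + c2 := by rw [hC, hc1, hc2]; push_cast; ring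
  rw [hCc]
  have h5 : 0 ≤ (La q : ℝ) ^ (n + 2) := by positivity
  nlinarith

end main

end Pool.Agent.U49
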