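import Mathlib

set_option autoImplicit false
set_option linter.unusedSectionVars false

/-!
# A multi-scale expansion of a product of functions

Each function is decomposed into dyadic frequency pieces; the decomposition is stopped when the
product of the scales reaches the size `A`, the remainder is then estimated by counting.
-/

namespace Pool.Agent.U49

open Finset

section fourier
variable {q : ℕ} [NeZero q]

/-- the function with the Fourier coefficients `a` -/
noncomputable def ev (a : ZMod q → ℂ) (x : ZMod q) : ℂ :=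
  ∑ h : ZMod q, a h * ZMod.stdAddChar (h * x)

/-- `g` is majorised by a function whose Fourier coefficients are at most `β` -/
def Maj (β : ZMod q → ℝ) (g : ZMod q → ℂ) : Prop :=
  ∃ (b : ZMod q → ℂ) (G : ZMod q → ℝ), (∀ x, ‖g x‖ ≤ G x) ∧ (∀ x, ((G x : ℝ) : ℂ) = ev b x) ∧
    ∀ h, ‖b h‖ ≤ β h

/-- the Fourier coefficients of `g` are at most `α` -/
def Fou (α : ZMod q → ℝ) (g : ZMod q → ℂ) : Prop :=
  ∃ a : ZMod q → ℂ, (∀ x, g x = ev a x) ∧ ∀ h, ‖a h‖ ≤ α h

/-- `f` can be decomposed up to every scale `Z` -/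
def Dec (L : ℕ) (α : ℕ → ZMod q → ℝ) (β : ℕ → ZMod q → ℝ) (f : ZMod q → ℂ) : Prop :=
  Maj (β 0) f ∧ ∀ Z : ℕ, ∃ (g : ℕ → ZMod q → ℂ) (rem : ZMod q → ℂ),
    (∀ x, f x = ∑ i ∈ range (min Z L + 2), g i x + rem x) ∧
    (∀ i < min Z L + 2, Fou (α i) (g i) ∧ Maj (β i) (g i)) ∧
    (Z < L → Maj (β (Z + 1)) rem) ∧ (L ≤ Z → ∀ x, rem x = 0)

end fourier

section tree
variable {q : ℕ} [NeZero q] {ι V : Type} [Fintype ι] [DecidableEq ι] [Fintype V]

/-- the sum of the products -/
noncomputable def TS (w : V → ℝ) (x : ι → V → ZMod q) (F : ι → ZMod q → ℂ) : ℂ :=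
  ∑ v : V, (w v : ℂ) * ∏ o, F o (x o v)

lemma char_sum' {κ : Type} (s : Finset κ) (f : κ → ZMod q) :
    (ZMod.stdAddChar (∑ i ∈ s, f i) : ℂ) = ∏ i ∈ s, (ZMod.stdAddChar (f i) : ℂ) := by
  classical
  induction s using Finset.induction_on with
  | empty => rw [Finset.sum_empty, Finset.prod_empty, AddChar.map_zero_eq_one]
  | insert a s ha ih => rw [Finset.sum_insert ha, Finset.prod_insert ha, AddChar.map_add_eq_mul, ih]

lemma TS_fou {w : V → ℝ} {x : ι → V → ZMod q} {R : (ι → ZMod q) → ℝ}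
    (hR : ∀ H : ι → ZMod q, ‖∑ v : V, (w v : ℂ) * ZMod.stdAddChar (∑ o, H o * x o v)‖ ≤ R H)
    {α : ι → ZMod q → ℝ} {F : ι → ZMod q → ℂ} (h : ∀ o, Fou (α o) (F o)) :
    ‖TS w x F‖ ≤ ∑ H : ι → ZMod q, R H * ∏ o, α o (H o) := by
  classical
  choose a ha1 ha2 using h
  have hR0 : ∀ H, 0 ≤ R H := fun H => (norm_nonneg _).trans (hR H)
  have e1 : TS w x F = ∑ H : ι → ZMod q, (∏ o, a o (H o)) *
      ∑ v : V, (w v : ℂ) * ZMod.stdAddChar (∑ o, H o * x o v) := by
    unfold TS
    have e2 : ∀ v : V, (w v : ℂ) * ∏ o, F o (x o v) = ∑ H : ι → ZMod q, (∏ o, a o (H o)) *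
        ((w v : ℂ) * ZMod.stdAddChar (∑ o, H o * x o v)) := by
      intro v
      have e3 : ∏ o, F o (x o v) = ∏ o, ∑ h : ZMod q, a o h * ZMod.stdAddChar (h * x o v) :=
        Finset.prod_congr rfl fun o _ => ha1 o (x o v)
      rw [e3, Finset.prod_univ_sum, Fintype.piFinset_univ, Finset.mul_sum]
      refine Finset.sum_congr rfl fun H _ => ?_
      rw [Finset.prod_mul_distrib, char_sum']
      ring
    rw [Finset.sum_congr rfl fun v _ => e2 v, Finset.sum_comm]
    refine Finset.sum_congr rfl fun H _ => ?_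
    rw [Finset.mul_sum]
  rw [e1]
  refine (norm_sum_le _ _).trans (Finset.sum_le_sum fun H _ => ?_)
  rw [norm_mul, norm_prod, mul_comm]
  refine mul_le_mul (hR H) ?_ (by positivity) (hR0 H)
  exact Finset.prod_le_prod (fun _ _ => norm_nonneg _) fun o _ => ha2 o (H o)

lemma TS_maj {w : V → ℝ} (hw : ∀ v, 0 ≤ w v) {x : ι → V → ZMod q} {R : (ι → ZMod q) → ℝ}
    (hR : ∀ H : ι → ZMod q, ‖∑ v : V, (w v : ℂ) * ZMod.stdAddChar (∑ o, H o * x o v)‖ ≤ R H)
    {β : ι → ZMod q → ℝ} {F : ι → ZMod q → ℂ} (h : ∀ o, Maj (β o) (F o)) :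
    ‖TS w x F‖ ≤ ∑ H : ι → ZMod q, R H * ∏ o, β o (H o) := by
  classical
  choose b G hG1 hG2 hb using h
  have h1 : ‖TS w x F‖ ≤ ‖TS w x (fun o y => ((G o y : ℝ) : ℂ))‖ := by
    have e1 : TS w x (fun o y => ((G o y : ℝ) : ℂ)) =
        ((∑ v : V, w v * ∏ o, G o (x o v) : ℝ) : ℂ) := by
      unfold TS
      push_cast
      rfl
    have hG0 : ∀ o y, 0 ≤ G o y := fun o y => (norm_nonneg _).trans (hG1 o y)
    have hn : 0 ≤ ∑ v : V, w v * ∏ o, G o (x o v) :=
      Finset.sum_nonneg fun v _ => mul_nonneg (hw v) (Finset.prod_nonneg fun o _ => hG0 o _)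
    rw [e1, Complex.norm_real, Real.norm_eq_abs, abs_of_nonneg hn]
    unfold TS
    refine (norm_sum_le _ _).trans (Finset.sum_le_sum fun v _ => ?_)
    rw [norm_mul, norm_prod, Complex.norm_real, Real.norm_eq_abs, abs_of_nonneg (hw v)]
    exact mul_le_mul_of_nonneg_left
      (Finset.prod_le_prod (fun _ _ => norm_nonneg _) fun o _ => hG1 o _) (hw v)
  exact h1.trans (TS_fou hR fun o => ⟨b o, hG2 o, hb o⟩)

lemma TS_zero {w : V → ℝ} {x : ι → V → ZMod q} {F : ι → ZMod q → ℂ} (k : ι)
    (h : ∀ y, F k y = 0) : TS w x F = 0 := by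
  unfold TS
  refine Finset.sum_eq_zero fun v _ => ?_
  rw [Finset.prod_eq_zero (Finset.mem_univ k) (h _), mul_zero]

lemma TS_split {w : V → ℝ} {x : ι → V → ZMod q} {F : ι → ZMod q → ℂ} (k : ι) (N : ℕ)
    (g : ℕ → ZMod q → ℂ) (rem : ZMod q → ℂ) (h : ∀ y, F k y = ∑ i ∈ range N, g i y + rem y) :
    TS w x F = ∑ i ∈ range N, TS w x (Function.update F k (g i)) +
      TS w x (Function.update F k rem) := by
  unfold TS
  rw [Finset.sum_comm, ← Finset.sum_add_distrib]
  refine Finset.sum_congr rfl fun v _ => ?_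
  have e : ∀ (f : ZMod q → ℂ), ∏ o, (Function.update F k f) o (x o v) =
      f (x k v) * ∏ o ∈ univ.erase k, F o (x o v) := by
    intro f
    rw [← Finset.mul_prod_erase univ _ (Finset.mem_univ k), Function.update_self]
    congr 1
    refine Finset.prod_congr rfl fun o ho => ?_
    rw [Function.update_of_ne (Finset.ne_of_mem_erase ho)]
  rw [← Finset.mul_prod_erase univ _ (Finset.mem_univ k), h]
  simp only [e]
  rw [add_mul, Finset.sum_mul, mul_add, Finset.mul_sum]

/-- the multi-indices which agree with `y` off `S` -/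
def bx (L : ℕ) (S : Finset ι) (y : ι → ℕ) : Finset (ι → ℕ) :=
  (Fintype.piFinset (fun _ : ι => range (L + 2))).filter (fun y' => ∀ o, o ∉ S → y' o = y o)

lemma mem_bx {L : ℕ} {S : Finset ι} {y y' : ι → ℕ} :
    y' ∈ bx L S y ↔ (∀ o, y' o < L + 2) ∧ ∀ o, o ∉ S → y' o = y o := by
  unfold bx
  rw [mem_filter, Fintype.mem_piFinset]
  simp only [mem_range]

lemma sum_bx {L : ℕ} {S : Finset ι} {k : ι} (hk : k ∉ S) (y : ι → ℕ) (W : (ι → ℕ) → ℝ) :
    ∑ i ∈ range (L + 2), ∑ y' ∈ bx L S (Function.update y k i), W y' =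
      ∑ y' ∈ bx L (insert k S) y, W y' := by
  classical
  rw [← Finset.sum_fiberwise_of_maps_to (s := bx L (insert k S) y) (g := fun y' => y' k)
    (t := range (L + 2)) (fun y' hy' => by rw [mem_range]; exact (mem_bx.1 hy').1 k)]
  refine Finset.sum_congr rfl fun i hi => Finset.sum_congr ?_ fun _ _ => rfl
  ext y'
  rw [mem_filter, mem_bx, mem_bx]
  constructor
  · rintro ⟨h1, h2⟩
    refine ⟨⟨h1, fun o ho => ?_⟩, ?_⟩
    · rw [mem_insert, not_or] at ho
      rw [h2 o ho.2, Function.update_of_ne ho.1]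
    · rw [h2 k hk, Function.update_self]
  · rintro ⟨⟨h1, h2⟩, h3⟩
    refine ⟨h1, fun o ho => ?_⟩
    by_cases hok : o = k
    · subst hok
      rw [Function.update_self, h3]
    · rw [Function.update_of_ne hok, h2 o]
      rw [mem_insert, not_or]
      exact ⟨hok, ho⟩

lemma cost_update {y : ι → ℕ} {k : ι} (hy : y k = 0) (i : ℕ) :
    ∑ o, (Function.update y k i o - 1) = ∑ o, (y o - 1) + (i - 1) := by
  rw [← Finset.add_sum_erase univ _ (Finset.mem_univ k),
    ← Finset.add_sum_erase univ (fun o => y o - 1) (Finset.mem_univ k), Function.update_self, hy]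
  have : ∑ o ∈ univ.erase k, (Function.update y k i o - 1) = ∑ o ∈ univ.erase k, (y o - 1) := by
    refine Finset.sum_congr rfl fun o ho => ?_
    rw [Function.update_of_ne (Finset.ne_of_mem_erase ho)]
  rw [this]
  omega

/-- **The multi-scale expansion.** -/
theorem tree {w : V → ℝ} (hw : ∀ v, 0 ≤ w v) {x : ι → V → ZMod q} {R : (ι → ZMod q) → ℝ}
    (hR : ∀ H : ι → ZMod q, ‖∑ v : V, (w v : ℂ) * ZMod.stdAddChar (∑ o, H o * x o v)‖ ≤ R H)
    (A L : ℕ) (α : ι → ℕ → ZMod q → ℝ) (β : ℕ → ZMod q → ℝ)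
    (hα : ∀ o i h, 0 ≤ α o i h) (hβ : ∀ i h, 0 ≤ β i h) (S : Finset ι) :
    ∀ (y : ι → ℕ) (F : ι → ZMod q → ℂ), (∀ o ∈ S, y o = 0) → (∀ o, y o < L + 2) →
      ∑ o, (y o - 1) ≤ A → (∀ o, o ∉ S → Fou (α o (y o)) (F o) ∧ Maj (β (y o)) (F o)) →
      (∀ o ∈ S, Dec L (α o) β (F o)) →
      ‖TS w x F‖ ≤
        ∑ y' ∈ bx L S y, (if ∑ o, (y' o - 1) ≤ A then
          ∑ H : ι → ZMod q, R H * ∏ o, α o (y' o) (H o) else 0) +
        S.card * ∑ y' ∈ bx L S y, (if ∑ o, (y' o - 1) = A then
          ∑ H : ι → ZMod q, R H * ∏ o, β (y' o) (H o) else 0) := by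
  classical
  have hR0 : ∀ H, 0 ≤ R H := fun H => (norm_nonneg _).trans (hR H)
  obtain ⟨W1, hW1⟩ : ∃ W : (ι → ℕ) → ℝ, W = fun y' => if ∑ o, (y' o - 1) ≤ A then
          ∑ H : ι → ZMod q, R H * ∏ o, α o (y' o) (H o) else 0 := ⟨_, rfl⟩
  obtain ⟨W2, hW2⟩ : ∃ W : (ι → ℕ) → ℝ, W = fun y' => if ∑ o, (y' o - 1) = A then
          ∑ H : ι → ZMod q, R H * ∏ o, β (y' o) (H o) else 0 := ⟨_, rfl⟩
  have hW10 : ∀ y', 0 ≤ W1 y' := by
    intro y'
    rw [hW1]
    dsimp only
    split_ifs
    · exact Finset.sum_nonneg fun H _ => mul_nonneg (hR0 H)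
        (Finset.prod_nonneg fun o _ => hα _ _ _)
    · exact le_rfl
  have hW20 : ∀ y', 0 ≤ W2 y' := by
    intro y'
    rw [hW2]
    dsimp only
    split_ifs
    · exact Finset.sum_nonneg fun H _ => mul_nonneg (hR0 H)
        (Finset.prod_nonneg fun o _ => hβ _ _)
    · exact le_rfl
  suffices h : ∀ (y : ι → ℕ) (F : ι → ZMod q → ℂ), (∀ o ∈ S, y o = 0) → (∀ o, y o < L + 2) →
      ∑ o, (y o - 1) ≤ A → (∀ o, o ∉ S → Fou (α o (y o)) (F o) ∧ Maj (β (y o)) (F o)) →
      (∀ o ∈ S, Dec L (α o) β (F o)) →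
      ‖TS w x F‖ ≤ ∑ y' ∈ bx L S y, W1 y' + S.card * ∑ y' ∈ bx L S y, W2 y' by
    rw [hW1, hW2] at h
    exact h
  induction S using Finset.induction_on with
  | empty =>
    intro y F _ hyL hcost hF _
    have h1 := TS_fou hR (fun o => (hF o (Finset.notMem_empty o)).1)
    have h2 : ∑ H : ι → ZMod q, R H * ∏ o, α o (y o) (H o) = W1 y := by
      rw [hW1]
      dsimp only
      rw [if_pos hcost]
    rw [h2] at h1
    have h3 : W1 y ≤ ∑ y' ∈ bx L ∅ y, W1 y' :=
      Finset.single_le_sum (f := W1) (fun _ _ => hW10 _) (mem_bx.2 ⟨hyL, fun _ _ => rfl⟩)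
    rw [Finset.card_empty, Nat.cast_zero, zero_mul, add_zero]
    exact h1.trans h3
  | insert k S hk ih =>
    intro y F hy0 hyL hcost hF hD
    obtain ⟨Z, hZ⟩ : ∃ Z, Z = A - ∑ o, (y o - 1) := ⟨_, rfl⟩
    obtain ⟨g, rem, hg1, hg2, hg3, hg4⟩ := (hD k (mem_insert_self k S)).2 Z
    have hyk : y k = 0 := hy0 k (mem_insert_self k S)
    rw [TS_split k (min Z L + 2) g rem hg1]
    have hsum : ‖∑ i ∈ range (min Z L + 2), TS w x (Function.update F k (g i))‖ ≤
        ∑ y' ∈ bx L (insert k S) y, W1 y' + S.card * ∑ y' ∈ bx L (insert k S) y, W2 y' := by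
      refine (norm_sum_le _ _).trans ?_
      have h1 : ∀ i ∈ range (min Z L + 2), ‖TS w x (Function.update F k (g i))‖ ≤
          ∑ y' ∈ bx L S (Function.update y k i), W1 y' +
            S.card * ∑ y' ∈ bx L S (Function.update y k i), W2 y' := by
        intro i hi
        rw [mem_range] at hi
        refine ih (Function.update y k i) _ ?_ ?_ ?_ ?_ ?_
        · intro o ho
          rw [Function.update_of_ne (by rintro rfl; exact hk ho)]
          exact hy0 o (mem_insert_of_mem ho)
        · intro o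
          by_cases hok : o = k
          · subst hok
            rw [Function.update_self]
            omega
          · rw [Function.update_of_ne hok]
            exact hyL o
        · rw [cost_update hyk]
          omega
        · intro o ho
          by_cases hok : o = k
          · subst hok
            rw [Function.update_self, Function.update_self]
            exact hg2 i hi
          · rw [Function.update_of_ne hok, Function.update_of_ne hok]
            exact hF o (by rw [mem_insert, not_or]; exact ⟨hok, ho⟩)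
        · intro o ho
          rw [Function.update_of_ne (by rintro rfl; exact hk ho)]
          exact hD o (mem_insert_of_mem ho)
      refine (Finset.sum_le_sum h1).trans ?_
      rw [Finset.sum_add_distrib, ← Finset.mul_sum, ← sum_bx hk y W1, ← sum_bx hk y W2]
      have hsub : range (min Z L + 2) ⊆ range (L + 2) := by
        intro i hi
        rw [mem_range] at hi ⊢
        omega
      refine add_le_add ?_ (mul_le_mul_of_nonneg_left ?_ (Nat.cast_nonneg _))
      · exact Finset.sum_le_sum_of_subset_of_nonneg hsub fun i _ _ =>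
          Finset.sum_nonneg fun _ _ => hW10 _
      · exact Finset.sum_le_sum_of_subset_of_nonneg hsub fun i _ _ =>
          Finset.sum_nonneg fun _ _ => hW20 _
    have hrem : ‖TS w x (Function.update F k rem)‖ ≤ ∑ y' ∈ bx L (insert k S) y, W2 y' := by
      rcases Nat.lt_or_ge Z L with hZL | hZL
      · have h1 := TS_maj hw hR (F := Function.update F k rem)
          (β := fun o => β (Function.update y k (Z + 1) o)) (by
          intro o
          by_cases hok : o = k
          · subst hok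
            rw [Function.update_self, Function.update_self]
            exact hg3 hZL
          · rw [Function.update_of_ne hok, Function.update_of_ne hok]
            by_cases ho : o ∈ S
            · rw [hy0 o (mem_insert_of_mem ho)]
              exact (hD o (mem_insert_of_mem ho)).1
            · exact (hF o (by rw [mem_insert, not_or]; exact ⟨hok, ho⟩)).2)
        refine h1.trans ?_
        have h2 : ∑ H : ι → ZMod q, R H * ∏ o, β (Function.update y k (Z + 1) o) (H o) =
            W2 (Function.update y k (Z + 1)) := by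
          rw [hW2]
          dsimp only
          rw [if_pos]
          rw [cost_update hyk]
          omega
        rw [h2]
        refine Finset.single_le_sum (f := W2) (fun _ _ => hW20 _) (mem_bx.2 ⟨fun o => ?_, fun o ho => ?_⟩)
        · by_cases hok : o = k
          · subst hok
            rw [Function.update_self]
            omega
          · rw [Function.update_of_ne hok]
            exact hyL o
        · rw [mem_insert, not_or] at ho
          rw [Function.update_of_ne ho.1]
      · rw [TS_zero k (fun y => by rw [Function.update_self]; exact hg4 hZL y), norm_zero]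
        exact Finset.sum_nonneg fun _ _ => hW20 _
    refine (norm_add_le _ _).trans ?_
    rw [Finset.card_insert_of_notMem hk]
    push_cast
    linarith

/-- the multi-scale expansion of a product -/
theorem tree_univ {w : V → ℝ} (hw : ∀ v, 0 ≤ w v) {x : ι → V → ZMod q} {R : (ι → ZMod q) → ℝ}
    (hR : ∀ H : ι → ZMod q, ‖∑ v : V, (w v : ℂ) * ZMod.stdAddChar (∑ o, H o * x o v)‖ ≤ R H)
    (A L : ℕ) (α : ι → ℕ → ZMod q → ℝ) (β : ℕ → ZMod q → ℝ)
    (hα : ∀ o i h, 0 ≤ α o i h) (hβ : ∀ i h, 0 ≤ β i h) (F : ι → ZMod q → ℂ)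
    (hD : ∀ o, Dec L (α o) β (F o)) :
    ‖TS w x F‖ ≤ ∑ H : ι → ZMod q, R H *
      (∑ y ∈ Fintype.piFinset (fun _ : ι => range (L + 2)),
          (if ∑ o, (y o - 1) ≤ A then ∏ o, α o (y o) (H o) else 0) +
        Fintype.card ι * ∑ y ∈ Fintype.piFinset (fun _ : ι => range (L + 2)),
          (if ∑ o, (y o - 1) = A then ∏ o, β (y o) (H o) else 0)) := by
  classical
  have h := tree hw hR A L α β hα hβ univ (fun _ => 0) F (fun _ _ => rfl) (fun _ => by omega)
    (by simp) (fun o ho => absurd (mem_univ o) ho) (fun o _ => hD o)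
  have hb : bx L (univ : Finset ι) (fun _ => 0) = Fintype.piFinset (fun _ : ι => range (L + 2)) := by
    ext y
    rw [mem_bx, Fintype.mem_piFinset]
    simp
  rw [hb, card_univ] at h
  refine h.trans (le_of_eq ?_)
  have e1 : ∀ (P : (ι → ℕ) → Prop) [DecidablePred P] (f : (ι → ℕ) → (ι → ZMod q) → ℝ),
      ∑ y ∈ Fintype.piFinset (fun _ : ι => range (L + 2)),
        (if P y then ∑ H : ι → ZMod q, R H * f y H else 0) =
      ∑ H : ι → ZMod q, R H * ∑ y ∈ Fintype.piFinset (fun _ : ι => range (L + 2)),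
        (if P y then f y H else 0) := by
    intro P _ f
    simp only [mul_sum]
    rw [sum_comm]
    refine sum_congr rfl fun y _ => ?_
    split_ifs
    · rfl
    · simp
  rw [e1, e1, mul_sum, ← sum_add_distrib]
  refine sum_congr rfl fun H _ => ?_
  ring

end tree

end Pool.Agent.U49
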