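import Pool.Agent.U49.SD.Tree
import Pool.Agent.U49.SD.Defs

set_option autoImplicit false
set_option linter.unusedSectionVars false

/-!
# The sums over the scales
-/

namespace Pool.Agent.U49

open Finset Pool.Agent.H470D4 Pool.Agent.Y258
open Pool.Agent.H935R2.PS (La uu nn dl mx Suit)

/-- distance of the scale `i - 1` from `d` -/
def ad (i d : ℕ) : ℕ := (i - 1 - d) + (d - (i - 1))

lemma geo_aux (d N : ℕ) :
    (N ≤ d → ∑ j ∈ range N, (3 / 4 : ℝ) ^ ((j - d) + (d - j)) ≤ 4 * (3 / 4 : ℝ) ^ (d - N + 1)) ∧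
    (d < N → ∑ j ∈ range N, (3 / 4 : ℝ) ^ ((j - d) + (d - j)) ≤ 7 - 4 * (3 / 4 : ℝ) ^ (N - d)) := by
  induction N with
  | zero =>
    refine ⟨fun _ => ?_, fun h => absurd h (by omega)⟩
    rw [range_zero, sum_empty]
    positivity
  | succ N ih =>
    rw [sum_range_succ]
    constructor
    · intro h
      have h1 := ih.1 (by omega)
      have e1 : (N - d) + (d - N) = d - (N + 1) + 1 := by omega
      have e2 : d - N + 1 = (d - (N + 1) + 1) + 1 := by omega
      rw [e2, pow_succ] at h1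
      rw [e1]
      linarith
    · intro h
      by_cases h2 : N = d
      · subst h2
        have h1 := ih.1 le_rfl
        have e1 : N + 1 - N = 1 := by omega
        simp only [Nat.sub_self, Nat.zero_add, pow_one, Nat.add_zero, pow_zero, e1] at h1 ⊢
        linarith
      · have h1 := ih.2 (by omega)
        have e1 : (N - d) + (d - N) = N - d := by omega
        have e2 : N + 1 - d = (N - d) + 1 := by omega
        rw [e1, e2, pow_succ]
        linarith

lemma geo_sum (L d : ℕ) : ∑ i ∈ range (L + 2), (3 / 4 : ℝ) ^ (ad i d) ≤ 8 := by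
  rw [sum_range_succ']
  have h0 : (3 / 4 : ℝ) ^ (ad 0 d) ≤ 1 := pow_le_one₀ (by norm_num) (by norm_num)
  have h1 : ∑ k ∈ range (L + 1), (3 / 4 : ℝ) ^ (ad (k + 1) d) ≤ 7 := by
    have e : ∀ k, ad (k + 1) d = (k - d) + (d - k) := fun k => by unfold ad; simp
    simp only [e]
    rcases Nat.lt_or_ge d (L + 1) with h | h
    · have h2 := (geo_aux d (L + 1)).2 h
      have h3 : (0:ℝ) ≤ 4 * (3 / 4 : ℝ) ^ (L + 1 - d) := by positivity
      linarith
    · have h2 := (geo_aux d (L + 1)).1 h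
      have h3 : (3 / 4 : ℝ) ^ (d - (L + 1) + 1) ≤ 1 := pow_le_one₀ (by norm_num) (by norm_num)
      linarith
  linarith

lemma dw_nonneg (A s : ℕ) : 0 ≤ dw A s := by
  unfold dw
  split_ifs <;> positivity

lemma dw_e1 {A s X : ℕ} (h : s ≤ A + X) :
    (2:ℝ) ^ A * ((1 / 2) ^ s * (1 / 2) ^ X) ≤ dw A s * (3 / 4) ^ X := by
  unfold dw
  split_ifs with hs
  · have e1 : (2:ℝ) ^ A * (1 / 2) ^ s = 2 ^ (A - s) := by
      obtain ⟨k, rfl⟩ := Nat.exists_eq_add_of_le hs
      rw [Nat.add_sub_cancel_left, pow_add, one_div, inv_pow]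
      field_simp
    rw [← mul_assoc, e1]
    apply mul_le_mul_of_nonneg_left _ (by positivity)
    exact pow_le_pow_left₀ (by norm_num) (by norm_num) _
  · push Not at hs
    obtain ⟨k, rfl⟩ := Nat.exists_eq_add_of_le hs.le
    rw [Nat.add_sub_cancel_left]
    have e1 : (2:ℝ) ^ A * (1 / 2) ^ (A + k) = (1 / 2) ^ k := by
      rw [pow_add, ← mul_assoc, ← mul_pow]
      norm_num
    rw [← mul_assoc, e1]
    have e2 : ((1:ℝ) / 2) ^ X ≤ (3 / 4) ^ k * (3 / 4) ^ X := by
      calc ((1:ℝ) / 2) ^ X ≤ ((3 / 4) * (3 / 4)) ^ X :=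
            pow_le_pow_left₀ (by norm_num) (by norm_num) _
        _ = (3 / 4) ^ X * (3 / 4) ^ X := by rw [mul_pow]
        _ ≤ (3 / 4) ^ k * (3 / 4) ^ X := by
            apply mul_le_mul_of_nonneg_right _ (by positivity)
            exact pow_le_pow_of_le_one (by norm_num) (by norm_num) (by omega)
    calc ((1:ℝ) / 2) ^ k * (1 / 2) ^ X ≤ (1 / 2) ^ k * ((3 / 4) ^ k * (3 / 4) ^ X) :=
          mul_le_mul_of_nonneg_left e2 (by positivity)
      _ = (3 / 8) ^ k * (3 / 4) ^ X := by
          rw [← mul_assoc, ← mul_pow]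
          norm_num

lemma dw_e2 {A s Xm Xp : ℕ} (h : A + Xm = s + Xp) :
    ((1:ℝ) / 4) ^ Xm ≤ dw A s * (3 / 4) ^ (Xp + Xm) := by
  unfold dw
  split_ifs with hs
  · have e : Xp = Xm + (A - s) := by omega
    rw [e]
    have e1 : (2:ℝ) ^ (A - s) * (3 / 4) ^ (Xm + (A - s) + Xm) =
        (9 / 16) ^ Xm * (3 / 2) ^ (A - s) := by
      have : Xm + (A - s) + Xm = (A - s) + (Xm + Xm) := by ring
      rw [this, pow_add, ← mul_assoc, ← mul_pow, pow_add, ← mul_pow]
      norm_num
      ring
    rw [e1]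
    calc ((1:ℝ) / 4) ^ Xm = (1 / 4) ^ Xm * 1 := (mul_one _).symm
      _ ≤ (9 / 16) ^ Xm * (3 / 2) ^ (A - s) := by
          apply mul_le_mul _ (one_le_pow₀ (by norm_num)) (by norm_num) (by positivity)
          exact pow_le_pow_left₀ (by norm_num) (by norm_num) _
  · push Not at hs
    have e : Xm = Xp + (s - A) := by omega
    rw [e]
    have e1 : (3 / 8 : ℝ) ^ (s - A) * (3 / 4) ^ (Xp + (Xp + (s - A))) =
        (9 / 16) ^ Xp * (9 / 32) ^ (s - A) := by
      have : Xp + (Xp + (s - A)) = (s - A) + (Xp + Xp) := by ring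
      rw [this, pow_add, ← mul_assoc, ← mul_pow, pow_add, ← mul_pow]
      norm_num
      ring
    rw [e1, pow_add]
    apply mul_le_mul _ _ (by positivity) (by positivity)
    · exact pow_le_pow_left₀ (by norm_num) (by norm_num) _
    · exact pow_le_pow_left₀ (by norm_num) (by norm_num) _

section sums
variable {q : ℕ} {ι : Type} [Fintype ι] [DecidableEq ι]

lemma prod_geo (L : ℕ) (d : ι → ℕ) :
    ∑ y ∈ Fintype.piFinset (fun _ : ι => range (L + 2)), (3 / 4 : ℝ) ^ (∑ o, ad (y o) (d o)) ≤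
      8 ^ Fintype.card ι := by
  have e1 : ∀ y : ι → ℕ, (3 / 4 : ℝ) ^ (∑ o, ad (y o) (d o)) =
      ∏ o, (3 / 4 : ℝ) ^ (ad (y o) (d o)) := fun y => by rw [Finset.prod_pow_eq_pow_sum]
  simp only [e1]
  rw [← Finset.prod_univ_sum (fun _ : ι => range (L + 2)) (fun o i => (3 / 4 : ℝ) ^ (ad i (d o)))]
  calc ∏ o, ∑ i ∈ range (L + 2), (3 / 4 : ℝ) ^ (ad i (d o)) ≤ ∏ _o : ι, (8:ℝ) :=
        Finset.prod_le_prod (fun o _ => Finset.sum_nonneg fun i _ => by positivity)
          fun o _ => geo_sum L (d o)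
    _ = 8 ^ Fintype.card ι := by rw [Finset.prod_const, card_univ]

/-- the coarse terms -/
lemma E1_le (A L : ℕ) {C : ℝ} (hC : 0 ≤ C) (α : ι → ℕ → ZMod q → ℝ) (h0 : ∀ o i h, 0 ≤ α o i h)
    (hα : ∀ o i h, α o i h ≤ C * ((1 / 2) ^ (dl h) * (1 / 2) ^ (ad i (dl h))))
    (H : ι → ZMod q) :
    (2:ℝ) ^ A * ∑ y ∈ Fintype.piFinset (fun _ : ι => range (L + 2)),
      (if ∑ o, (y o - 1) ≤ A then ∏ o, α o (y o) (H o) else 0) ≤
      (8 * C) ^ Fintype.card ι * dw A (sz H) := by
  have h1 : ∀ y ∈ Fintype.piFinset (fun _ : ι => range (L + 2)),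
      (2:ℝ) ^ A * (if ∑ o, (y o - 1) ≤ A then ∏ o, α o (y o) (H o) else 0) ≤
      C ^ Fintype.card ι * dw A (sz H) * (3 / 4 : ℝ) ^ (∑ o, ad (y o) (dl (H o))) := by
    intro y _
    split_ifs with hy
    · have h2 : ∏ o, α o (y o) (H o) ≤ C ^ Fintype.card ι * ((1 / 2) ^ (sz H) *
          (1 / 2) ^ (∑ o, ad (y o) (dl (H o)))) := by
        calc ∏ o, α o (y o) (H o) ≤ ∏ o, (C * ((1 / 2) ^ (dl (H o)) *
              (1 / 2) ^ (ad (y o) (dl (H o))))) :=
              Finset.prod_le_prod (fun o _ => h0 _ _ _) fun o _ => hα _ _ _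
          _ = _ := by
              rw [Finset.prod_mul_distrib, Finset.prod_const, card_univ, Finset.prod_mul_distrib,
                Finset.prod_pow_eq_pow_sum, Finset.prod_pow_eq_pow_sum]
              rfl
      have h3 : sz H ≤ A + ∑ o, ad (y o) (dl (H o)) := by
        have h4 : sz H ≤ ∑ o, (y o - 1) + ∑ o, ad (y o) (dl (H o)) := by
          unfold sz
          rw [← sum_add_distrib]
          refine sum_le_sum fun o _ => ?_
          unfold ad
          omega
        omega
      have h5 := dw_e1 h3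
      calc (2:ℝ) ^ A * ∏ o, α o (y o) (H o) ≤ 2 ^ A * (C ^ Fintype.card ι * ((1 / 2) ^ (sz H) *
          (1 / 2) ^ (∑ o, ad (y o) (dl (H o))))) := mul_le_mul_of_nonneg_left h2 (by positivity)
        _ = C ^ Fintype.card ι * (2 ^ A * ((1 / 2) ^ (sz H) *
          (1 / 2) ^ (∑ o, ad (y o) (dl (H o))))) := by ring
        _ ≤ C ^ Fintype.card ι * (dw A (sz H) * (3 / 4) ^ (∑ o, ad (y o) (dl (H o)))) :=
          mul_le_mul_of_nonneg_left h5 (by positivity)
        _ = _ := by ring
    · rw [mul_zero]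
      have := dw_nonneg A (sz H)
      positivity
  rw [mul_sum]
  refine (sum_le_sum h1).trans ?_
  rw [← mul_sum]
  have h2 := prod_geo L (fun o => dl (H o))
  have h3 := dw_nonneg A (sz H)
  calc C ^ Fintype.card ι * dw A (sz H) * _ ≤ C ^ Fintype.card ι * dw A (sz H) *
        8 ^ Fintype.card ι := mul_le_mul_of_nonneg_left h2 (by positivity)
    _ = _ := by rw [mul_pow]; ring

/-- the fine terms -/
lemma E2_le (A L : ℕ) {C : ℝ} (hC : 0 ≤ C) (β : ℕ → ZMod q → ℝ) (h0 : ∀ i h, 0 ≤ β i h)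
    (hβ : ∀ i h, β i h ≤ C * ((1 / 2) ^ (i - 1) * (1 / 4) ^ (dl h - (i - 1))))
    (H : ι → ZMod q) :
    (2:ℝ) ^ A * ∑ y ∈ Fintype.piFinset (fun _ : ι => range (L + 2)),
      (if ∑ o, (y o - 1) = A then ∏ o, β (y o) (H o) else 0) ≤
      (8 * C) ^ Fintype.card ι * dw A (sz H) := by
  have h1 : ∀ y ∈ Fintype.piFinset (fun _ : ι => range (L + 2)),
      (2:ℝ) ^ A * (if ∑ o, (y o - 1) = A then ∏ o, β (y o) (H o) else 0) ≤
      C ^ Fintype.card ι * dw A (sz H) * (3 / 4 : ℝ) ^ (∑ o, ad (y o) (dl (H o))) := by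
    intro y _
    split_ifs with hy
    · have h2 : ∏ o, β (y o) (H o) ≤ C ^ Fintype.card ι * ((1 / 2) ^ A *
          (1 / 4) ^ (∑ o, (dl (H o) - (y o - 1)))) := by
        calc ∏ o, β (y o) (H o) ≤ ∏ o, (C * ((1 / 2) ^ (y o - 1) *
              (1 / 4) ^ (dl (H o) - (y o - 1)))) :=
              Finset.prod_le_prod (fun o _ => h0 _ _) fun o _ => hβ _ _
          _ = _ := by
              rw [Finset.prod_mul_distrib, Finset.prod_const, card_univ, Finset.prod_mul_distrib,
                Finset.prod_pow_eq_pow_sum, Finset.prod_pow_eq_pow_sum, hy]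
      have h3 : A + ∑ o, (dl (H o) - (y o - 1)) = sz H + ∑ o, (y o - 1 - dl (H o)) := by
        unfold sz
        rw [← hy, ← sum_add_distrib, ← sum_add_distrib]
        refine sum_congr rfl fun o _ => ?_
        omega
      have h5 := dw_e2 h3
      have h6 : ∑ o, (y o - 1 - dl (H o)) + ∑ o, (dl (H o) - (y o - 1)) =
          ∑ o, ad (y o) (dl (H o)) := by
        rw [← sum_add_distrib]
        rfl
      rw [h6] at h5
      calc (2:ℝ) ^ A * ∏ o, β (y o) (H o) ≤ 2 ^ A * (C ^ Fintype.card ι * ((1 / 2) ^ A *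
          (1 / 4) ^ (∑ o, (dl (H o) - (y o - 1))))) := mul_le_mul_of_nonneg_left h2 (by positivity)
        _ = (2 ^ A * (1 / 2) ^ A) * (C ^ Fintype.card ι *
          (1 / 4) ^ (∑ o, (dl (H o) - (y o - 1)))) := by ring
        _ = C ^ Fintype.card ι * (1 / 4) ^ (∑ o, (dl (H o) - (y o - 1))) := by
          rw [← mul_pow]; norm_num
        _ ≤ C ^ Fintype.card ι * (dw A (sz H) * (3 / 4) ^ (∑ o, ad (y o) (dl (H o)))) :=
          mul_le_mul_of_nonneg_left h5 (by positivity)
        _ = _ := by ring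
    · rw [mul_zero]
      have := dw_nonneg A (sz H)
      positivity
  rw [mul_sum]
  refine (sum_le_sum h1).trans ?_
  rw [← mul_sum]
  have h2 := prod_geo L (fun o => dl (H o))
  have h3 := dw_nonneg A (sz H)
  calc C ^ Fintype.card ι * dw A (sz H) * _ ≤ C ^ Fintype.card ι * dw A (sz H) *
        8 ^ Fintype.card ι := mul_le_mul_of_nonneg_left h2 (by positivity)
    _ = _ := by rw [mul_pow]; ring

/-- the number of multi-indices of cost `A` -/
lemma card_cost (A L : ℕ) (hA : 1 ≤ A) :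
    ((Fintype.piFinset (fun _ : ι => range (L + 2))).filter
      (fun y => ∑ o, (y o - 1) = A)).card ≤
      Fintype.card ι * (L + 2) ^ (Fintype.card ι - 1) := by
  classical
  have hsub : (Fintype.piFinset (fun _ : ι => range (L + 2))).filter
      (fun y => ∑ o, (y o - 1) = A) ⊆ (univ : Finset ι).biUnion (fun k =>
        (Fintype.piFinset (fun _ : ι => range (L + 2))).filter
          (fun y => ∑ o, (y o - 1) = A ∧ 1 ≤ y k)) := by
    intro y hy
    rw [mem_filter] at hy
    have : ∃ k, 1 ≤ y k := by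
      by_contra hcon
      push Not at hcon
      have h0 : ∑ o, (y o - 1) = 0 := Finset.sum_eq_zero fun o _ => by have := hcon o; omega
      omega
    obtain ⟨k, hk⟩ := this
    rw [mem_biUnion]
    exact ⟨k, mem_univ k, mem_filter.2 ⟨hy.1, hy.2, hk⟩⟩
  refine (card_le_card hsub).trans (card_biUnion_le.trans ?_)
  have h1 : ∀ k ∈ (univ : Finset ι), ((Fintype.piFinset (fun _ : ι => range (L + 2))).filter
      (fun y => ∑ o, (y o - 1) = A ∧ 1 ≤ y k)).card ≤ (L + 2) ^ (Fintype.card ι - 1) := by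
    intro k _
    have h2 : (Fintype.piFinset (fun o : ι => if o = k then ({0} : Finset ℕ) else
        range (L + 2))).card = (L + 2) ^ (Fintype.card ι - 1) := by
      rw [Fintype.card_piFinset, ← Finset.mul_prod_erase univ _ (mem_univ k), if_pos rfl,
        card_singleton, one_mul]
      rw [Finset.prod_congr rfl (g := fun _ => L + 2) (fun o ho => by
        rw [if_neg (Finset.ne_of_mem_erase ho), card_range])]
      rw [Finset.prod_const, card_erase_of_mem (mem_univ k), card_univ]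
    rw [← h2]
    apply Finset.card_le_card_of_injOn (fun y => Function.update y k 0)
    · intro y hy
      rw [mem_coe, mem_filter, Fintype.mem_piFinset] at hy
      rw [mem_coe, Fintype.mem_piFinset]
      intro o
      show Function.update y k 0 o ∈ _
      by_cases hok : o = k
      · subst hok
        rw [if_pos rfl, Function.update_self]
        simp
      · rw [if_neg hok, Function.update_of_ne hok]
        exact hy.1 o
    · intro y hy y' hy' he
      rw [mem_coe, mem_filter] at hy hy'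
      have h3 : ∀ o, o ≠ k → y o = y' o := by
        intro o hok
        have := congrFun he o
        dsimp only at this
        rwa [Function.update_of_ne hok, Function.update_of_ne hok] at this
      have h4 := hy.2.1
      have h5 := hy'.2.1
      rw [← Finset.add_sum_erase univ _ (mem_univ k)] at h4 h5
      have h6 : ∑ o ∈ univ.erase k, (y o - 1) = ∑ o ∈ univ.erase k, (y' o - 1) :=
        sum_congr rfl fun o ho => by rw [h3 o (Finset.ne_of_mem_erase ho)]
      funext o
      by_cases hok : o = k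
      · subst hok
        have h7 := hy.2.2
        have h8 := hy'.2.2
        omega
      · exact h3 o hok
  refine (sum_le_sum h1).trans (le_of_eq ?_)
  rw [sum_const, card_univ, smul_eq_mul]

/-- the fine terms of the zero vector -/
lemma E2_zero (A L : ℕ) (hA : 1 ≤ A) {C : ℝ} (hC : 0 ≤ C) (β : ℕ → ZMod q → ℝ)
    (h0 : ∀ i h, 0 ≤ β i h)
    (hβ : ∀ i h, β i h ≤ C * ((1 / 2) ^ (i - 1) * (1 / 4) ^ (dl h - (i - 1)))) :
    (2:ℝ) ^ A * ∑ y ∈ Fintype.piFinset (fun _ : ι => range (L + 2)),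
      (if ∑ o, (y o - 1) = A then ∏ o : ι, β (y o) 0 else 0) ≤
      C ^ Fintype.card ι * ((Fintype.card ι : ℝ) * ((L:ℝ) + 2) ^ (Fintype.card ι - 1)) := by
  rw [← Finset.sum_filter, mul_sum]
  have h1 : ∀ y ∈ (Fintype.piFinset (fun _ : ι => range (L + 2))).filter
      (fun y => ∑ o, (y o - 1) = A), (2:ℝ) ^ A * ∏ o : ι, β (y o) 0 ≤ C ^ Fintype.card ι := by
    intro y hy
    rw [mem_filter] at hy
    have h2 : ∏ o : ι, β (y o) 0 ≤ C ^ Fintype.card ι * (1 / 2) ^ A := by
      calc ∏ o : ι, β (y o) 0 ≤ ∏ o : ι, (C * ((1 / 2) ^ (y o - 1) * 1)) := by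
            refine Finset.prod_le_prod (fun o _ => h0 _ _) fun o _ => (hβ _ _).trans ?_
            apply mul_le_mul_of_nonneg_left _ hC
            apply mul_le_mul_of_nonneg_left _ (by positivity)
            exact pow_le_one₀ (by norm_num) (by norm_num)
        _ = _ := by
            simp only [mul_one]
            rw [Finset.prod_mul_distrib, Finset.prod_const, card_univ,
              Finset.prod_pow_eq_pow_sum, hy.2]
    calc (2:ℝ) ^ A * ∏ o : ι, β (y o) 0 ≤ 2 ^ A * (C ^ Fintype.card ι * (1 / 2) ^ A) :=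
          mul_le_mul_of_nonneg_left h2 (by positivity)
      _ = (2 * (1 / 2)) ^ A * C ^ Fintype.card ι := by rw [mul_pow]; ring
      _ = _ := by norm_num
  refine (sum_le_sum h1).trans ?_
  rw [sum_const, nsmul_eq_mul, mul_comm]
  apply mul_le_mul_of_nonneg_left _ (by positivity)
  exact_mod_cast card_cost (ι := ι) A L hA

end sums

end Pool.Agent.U49
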